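import Pool.Agent.Helper92.HRU.BDefs

/-! Piece PN1: simple facts on the parameters and nodes. -/

set_option autoImplicit false

namespace Pool.Agent.Helper92.HRU

open Complex Set MeasureTheory Filter Topology
open scoped ComplexConjugate Real ENNReal
open Pool.Agent.Helper84.HRT (Weyl node chi mu8 XL Data Aop Bop Good)

theorem pn1_L_pos (P : Par) : 0 < P.L := by
  have := P.hL
  linarith

theorem pn1_inv_le (P : Par) (k : ℕ) : (P.L ^ k)⁻¹ ≤ 1 / 10 ^ (2 * k) := by
  have h1 : (10 : ℝ) ^ (2 * k) ≤ P.L ^ k := by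
    rw [pow_mul]
    refine pow_le_pow_left₀ (by norm_num) ?_ k
    have := P.hL
    norm_num
    linarith
  rw [one_div]
  exact inv_anti₀ (by positivity) h1

theorem Par.s_pos (P : Par) : 0 < P.s := by
  unfold Par.s
  have := pn1_L_pos P
  positivity

theorem Par.s_le (P : Par) : P.s ≤ 1 / 10 ^ 20 := pn1_inv_le P 10

theorem Par.gh_pos (P : Par) : 0 < P.gh := by
  unfold Par.gh
  have := pn1_L_pos P
  positivity

theorem Par.gh_le (P : Par) : P.gh ≤ 1 / 10 ^ 8 := pn1_inv_le P 4

theorem Par.e2_pos (P : Par) : 0 < P.e2 := by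
  unfold Par.e2
  have := pn1_L_pos P
  positivity

theorem Par.e2_le (P : Par) : P.e2 ≤ 1 / 10 ^ 6 := pn1_inv_le P 3

theorem Par.g_pos (P : Par) : 0 < P.g := by
  unfold Par.g
  have h1 := P.s_pos
  have h2 := P.gh_pos
  positivity

theorem Par.g_eq (P : Par) : P.g = (P.L ^ 24)⁻¹ := by
  unfold Par.g Par.s Par.gh
  rw [inv_pow, ← mul_inv]
  ring_nf

theorem Par.del_le (P : Par) : |P.del| ≤ (P.L ^ 40)⁻¹ := P.hdel

theorem Par.del_le' (P : Par) : |P.del| ≤ 1 / 10 ^ 80 := P.del_le.trans (pn1_inv_le P 40)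

theorem Par.sh_eq (P : Par) : P.sh = √3 + 2 * P.b.im := by
  unfold Par.sh Par.del
  ring

theorem pn1_norm_node (t : ℝ) : ‖node t‖ = 1 := by
  unfold node
  rw [Complex.norm_exp_ofReal_mul_I]

theorem Par.norm_b (P : Par) : ‖P.b‖ = 1 := pn1_norm_node P.tb

theorem norm_o1 : ‖o1‖ = 1 := by
  have h3 : √(3 : ℝ) ^ 2 = 3 := Real.sq_sqrt (by norm_num)
  have h : ‖o1‖ ^ 2 = 1 := by
    rw [← Complex.normSq_eq_norm_sq, Complex.normSq_apply]
    simp only [o1]
    nlinarith
  have h0 := norm_nonneg o1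
  nlinarith

theorem norm_o2 : ‖o2‖ = 1 := by
  have h3 : √(3 : ℝ) ^ 2 = 3 := Real.sq_sqrt (by norm_num)
  have h : ‖o2‖ ^ 2 = 1 := by
    rw [← Complex.normSq_eq_norm_sq, Complex.normSq_apply]
    simp only [o2]
    nlinarith
  have h0 := norm_nonneg o2
  nlinarith

theorem node_sixth : node (1 / 6) = o1 := by
  unfold node
  have h : (2 * π * (1 / 6) : ℝ) = π / 3 := by ring
  rw [h, Complex.exp_mul_I]
  apply Complex.ext
  · rw [Complex.add_re, Complex.mul_re, ← Complex.ofReal_cos, ← Complex.ofReal_sin,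
      Complex.ofReal_re, Complex.ofReal_re, Complex.ofReal_im, Complex.I_re, Complex.I_im,
      Real.cos_pi_div_three]
    simp [o1]
  · rw [Complex.add_im, Complex.mul_im, ← Complex.ofReal_cos, ← Complex.ofReal_sin,
      Complex.ofReal_re, Complex.ofReal_im, Complex.ofReal_im, Complex.I_re, Complex.I_im,
      Real.sin_pi_div_three]
    simp [o1]

theorem node_third : node (1 / 3) = o2 := by
  unfold node
  have h : (2 * π * (1 / 3) : ℝ) = π - π / 3 := by ring
  rw [h, Complex.exp_mul_I]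
  apply Complex.ext
  · rw [Complex.add_re, Complex.mul_re, ← Complex.ofReal_cos, ← Complex.ofReal_sin,
      Complex.ofReal_re, Complex.ofReal_re, Complex.ofReal_im, Complex.I_re, Complex.I_im,
      Real.cos_pi_sub, Real.cos_pi_div_three]
    simp [o2]
  · rw [Complex.add_im, Complex.mul_im, ← Complex.ofReal_cos, ← Complex.ofReal_sin,
      Complex.ofReal_re, Complex.ofReal_im, Complex.ofReal_im, Complex.I_re, Complex.I_im,
      Real.sin_pi_sub, Real.sin_pi_div_three]
    simp [o2]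

end Pool.Agent.Helper92.HRU
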