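import Pool.Agent.Helper92.HRU.BDefs

/-! Piece PQ1: the lines. -/

set_option autoImplicit false

namespace Pool.Agent.Helper92.HRU

open Complex Set MeasureTheory Filter Topology
open scoped ComplexConjugate Real ENNReal
open Pool.Agent.Helper84.HRT (Weyl node chi mu8 XL Data Aop Bop Good)

private theorem pq1_del (P : Par) : |P.del| ≤ 1 / 1000 := by
  have h1 : |P.del| ≤ (P.L ^ 40)⁻¹ := P.hdel
  refine h1.trans ?_
  have hL := P.hL
  have h2 : (100 : ℝ) ^ 40 ≤ P.L ^ 40 := pow_le_pow_left₀ (by norm_num) hL 40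
  rw [one_div]
  apply inv_anti₀ (by norm_num)
  refine le_trans ?_ h2
  norm_num

/-- the displacement of the line -/
private noncomputable def pq1_d (P : Par) (n : ℤ) : ℝ := if Even n then 0 else P.del

private theorem pq1_Pt (P : Par) (n : ℤ) : Pt P n = π / 2 + π * n + pq1_d P n := rfl

private theorem pq1_d_le (P : Par) (n : ℤ) : |pq1_d P n| ≤ |P.del| := by
  unfold pq1_d
  split_ifs
  · simp
  · exact le_rfl

private theorem pq1_d_le' (P : Par) (n : ℤ) : |pq1_d P n| ≤ 1 / 1000 :=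
  (pq1_d_le P n).trans (pq1_del P)

theorem bddM_ind {S : Set ℝ} (hS : MeasurableSet S) : BddM (S.indicator fun _ => (1 : ℂ)) := by
  refine ⟨measurable_const.indicator hS, 1, fun x => ?_⟩
  by_cases hx : x ∈ S
  · rw [Set.indicator_of_mem hx]; simp
  · rw [Set.indicator_of_notMem hx]; simp

theorem meas_Qs (P : Par) : MeasurableSet (Qs P) := by
  unfold Qs
  exact MeasurableSet.iUnion fun n => measurableSet_Ioo

theorem idx_of_near (P : Par) (n : ℤ) (y : ℝ) (hy : |y| ≤ 1) : idx (Pt P n + y) = n := by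
  unfold idx
  rw [Int.floor_eq_iff, le_div_iff₀ Real.pi_pos, div_lt_iff₀ Real.pi_pos, pq1_Pt]
  have h1 := abs_le.1 (pq1_d_le' P n)
  have h2 := abs_le.1 hy
  have h3 := Real.pi_gt_three
  constructor <;> nlinarith

theorem yo_of_near (P : Par) (n : ℤ) (y : ℝ) (hy : |y| ≤ 1) : yo P (Pt P n + y) = y := by
  unfold yo
  rw [idx_of_near P n y hy]
  ring

theorem mem_Qs (P : Par) (x : ℝ) : x ∈ Qs P ↔ |yo P x| < 1 / 20 := by
  constructor
  · intro hx
    unfold Qs at hx
    rw [Set.mem_iUnion] at hx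
    obtain ⟨n, h1, h2⟩ := hx
    have h3 : |x - Pt P n| < 1 / 20 := by
      rw [abs_lt]
      constructor <;> linarith
    have h4 : yo P x = x - Pt P n := by
      have := yo_of_near P n (x - Pt P n) (by linarith)
      rwa [add_sub_cancel] at this
    rw [h4]
    exact h3
  · intro hx
    unfold Qs
    rw [Set.mem_iUnion]
    refine ⟨idx x, ?_⟩
    unfold yo at hx
    rw [abs_lt] at hx
    constructor <;> linarith [hx.1, hx.2]

private theorem pq1_cos (n : ℤ) (z : ℝ) :
    Real.cos (π / 2 + π * n + z) = -(if Even n then 1 else -1) * Real.sin z := by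
  have h1 : Real.cos (π / 2 + π * n + z) = -Real.sin (z + n * π) := by
    rw [show π / 2 + π * n + z = (z + n * π) + π / 2 by ring, Real.cos_add_pi_div_two]
  rw [h1, Real.sin_add_int_mul_pi]
  split_ifs with h
  · rw [h.neg_one_zpow]; ring
  · rw [(Int.not_even_iff_odd.1 h).neg_one_zpow]; ring

theorem cos_Pt (P : Par) (n : ℤ) (y : ℝ) :
    |Real.cos (Pt P n + y) - (-(if Even n then 1 else -1) * Real.sin y)| ≤ |P.del| := by
  have h1 : Pt P n + y = π / 2 + π * n + (y + pq1_d P n) := by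
    rw [pq1_Pt]; ring
  rw [h1, pq1_cos, ← mul_sub, abs_mul]
  have h2 : |(-(if Even n then 1 else -1) : ℝ)| = 1 := by
    split_ifs <;> simp
  rw [h2, one_mul]
  have h3 : |Real.sin (y + pq1_d P n) - Real.sin y| ≤ |y + pq1_d P n - y| := by
    have h4 := Real.abs_sin_sub_sin_le (y + pq1_d P n) y
    exact h4
  refine h3.trans ?_
  rw [add_sub_cancel_left]
  exact pq1_d_le P n

theorem cos_ge (P : Par) (x : ℝ) (hx : x ∉ Qs P) : 1 / 22 ≤ |Real.cos x| := by
  rw [mem_Qs, not_lt] at hx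
  set n := idx x with hn
  have hfl : (n : ℝ) ≤ x / π ∧ x / π < n + 1 := by
    rw [hn]
    exact ⟨Int.floor_le _, Int.lt_floor_add_one _⟩
  rw [le_div_iff₀ Real.pi_pos, div_lt_iff₀ Real.pi_pos] at hfl
  set z := x - (π / 2 + π * n) with hz
  have hz1 : |z| ≤ π / 2 := by
    rw [abs_le]
    constructor <;> nlinarith [hfl.1, hfl.2]
  have hz2 : 9 / 200 + 4 / 1000 ≤ |z| := by
    have h1 : yo P x = z - pq1_d P n := by
      unfold yo
      rw [← hn, pq1_Pt, hz]; ring
    rw [h1] at hx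
    have h2 := abs_sub z (pq1_d P n)
    have h3 := pq1_d_le' P n
    linarith
  have hcos : |Real.cos x| = Real.sin |z| := by
    have h1 : x = π / 2 + π * n + z := by rw [hz]; ring
    rw [h1, pq1_cos, abs_mul]
    have h2 : |(-(if Even n then 1 else -1) : ℝ)| = 1 := by
      split_ifs <;> simp
    rw [h2, one_mul]
    have h3 : 0 ≤ Real.sin |z| :=
      Real.sin_nonneg_of_nonneg_of_le_pi (abs_nonneg z) (by linarith [Real.pi_pos])
    rcases le_total 0 z with h | h
    · rw [abs_of_nonneg h] at h3 ⊢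
      exact abs_of_nonneg h3
    · rw [abs_of_nonpos h] at h3 ⊢
      rw [Real.sin_neg] at h3 ⊢
      exact abs_of_nonpos (by linarith)
  rw [hcos]
  have h4 : Real.sin (49 / 1000) ≤ Real.sin |z| := by
    apply Real.sin_le_sin_of_le_of_le_pi_div_two
    · linarith [Real.pi_pos]
    · exact hz1
    · linarith
  have h5 := Real.sin_gt_sub_cube (x := 49 / 1000) (by norm_num)
  norm_num at h5 ⊢
  linarith

theorem gf_le (P : Par) (x : ℝ) : ‖gf P x‖ ≤ 11 := by
  unfold gf
  by_cases hx : x ∈ Qs P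
  · rw [Set.indicator_of_notMem (by simpa using hx)]
    simp
  · rw [Set.indicator_of_mem (by simpa using hx)]
    rw [Complex.norm_real, Real.norm_eq_abs, abs_inv, abs_mul]
    have h1 := cos_ge P x hx
    have h2 : (1 / 11 : ℝ) ≤ |(2 : ℝ)| * |Real.cos x| := by
      rw [abs_of_pos (by norm_num : (0 : ℝ) < 2)]
      linarith
    have h3 : (|(2 : ℝ)| * |Real.cos x|)⁻¹ ≤ (1 / 11 : ℝ)⁻¹ := inv_anti₀ (by norm_num) h2
    norm_num at h3 ⊢
    exact h3

theorem bddM_gf (P : Par) : BddM (gf P) := by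
  refine ⟨?_, 11, gf_le P⟩
  unfold gf
  refine Measurable.indicator ?_ (meas_Qs P).compl
  fun_prop

theorem idx_meas : Measurable idx := by
  unfold idx
  exact (measurable_id.div_const π).floor

theorem yo_meas (P : Par) : Measurable (yo P) := by
  unfold yo
  have h1 : Measurable (fun n : ℤ => Pt P n) := measurable_from_top
  exact measurable_id.sub (h1.comp idx_meas)

/-- a translation by `c` with `dist(c, π ℤ) > 1/10 + 2|δ|` leaves the lines -/
theorem shift_off (P : Par) (c : ℝ) (hc : ∀ n : ℤ, 3 / 20 ≤ |c - π * n|) (x : ℝ)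
    (hx : x ∈ Qs P) : x - c ∉ Qs P := by
  intro hx'
  rw [mem_Qs] at hx hx'
  have h1 := hc (idx x - idx (x - c))
  unfold yo at hx hx'
  rw [pq1_Pt] at hx hx'
  have h2 : c - π * ((idx x - idx (x - c) : ℤ) : ℝ) =
      (x - (π / 2 + π * (idx x : ℝ) + pq1_d P (idx x))) -
        (x - c - (π / 2 + π * (idx (x - c) : ℝ) + pq1_d P (idx (x - c)))) +
        (pq1_d P (idx x) - pq1_d P (idx (x - c))) := by
    push_cast
    ring
  rw [h2] at h1
  have h3 := abs_lt.1 hx
  have h4 := abs_lt.1 hx'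
  have h5 := abs_le.1 (pq1_d_le' P (idx x))
  have h6 := abs_le.1 (pq1_d_le' P (idx (x - c)))
  have h7 : |(x - (π / 2 + π * (idx x : ℝ) + pq1_d P (idx x))) -
        (x - c - (π / 2 + π * (idx (x - c) : ℝ) + pq1_d P (idx (x - c)))) +
        (pq1_d P (idx x) - pq1_d P (idx (x - c)))| < 3 / 20 := by
    rw [abs_lt]
    constructor <;> linarith [h3.1, h3.2, h4.1, h4.2, h5.1, h5.2, h6.1, h6.2]
  linarith

end Pool.Agent.Helper92.HRU
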