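import Pool.Agent.Helper92.HRU.BDefs

/-! Piece PN2: numerical bounds on the constants. -/

set_option autoImplicit false

namespace Pool.Agent.Helper92.HRU

open Complex Set MeasureTheory Filter Topology
open scoped ComplexConjugate Real ENNReal
open Pool.Agent.Helper84.HRT (Weyl node chi mu8 XL Data Aop Bop Good)

private theorem pn2_sqrt3 : 1.7320508 ≤ √3 ∧ √3 ≤ 1.7320509 := by
  constructor
  · exact Real.le_sqrt_of_sq_le (by norm_num)
  · rw [Real.sqrt_le_left (by norm_num)]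
    norm_num

private theorem pn2_pow (P : Par) : (P.L ^ 40)⁻¹ ≤ 1e-10 := by
  have hL := P.hL
  have h1 : (100 : ℝ) ^ 40 ≤ P.L ^ 40 := pow_le_pow_left₀ (by norm_num) hL 40
  calc (P.L ^ 40)⁻¹ ≤ ((100 : ℝ) ^ 40)⁻¹ := inv_anti₀ (by positivity) h1
    _ ≤ 1e-10 := by norm_num

theorem Par.im_b (P : Par) : 0.7047 ≤ P.b.im ∧ P.b.im ≤ 0.7048 := by
  have h1 := P.hdel
  have h2 := pn2_pow P
  have h3 := abs_le.1 (h1.trans h2)
  have h4 := pn2_sqrt3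
  have h5 := Real.pi_gt_d6
  have h6 := Real.pi_lt_d6
  unfold Par.b
  constructor <;> linarith [h3.1, h3.2, h4.1, h4.2]

private theorem pn2_norm (P : Par) : P.b.re ^ 2 + P.b.im ^ 2 = 1 := by
  have h1 : ‖P.b‖ = 1 := by
    unfold Par.b
    simp only [Pool.Agent.Helper84.HRT.node]
    rw [Complex.norm_exp]
    simp
  have h2 : Complex.normSq P.b = 1 := by
    rw [Complex.normSq_eq_norm_sq, h1]
    norm_num
  rw [Complex.normSq_apply] at h2
  nlinarith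

theorem Par.re_b (P : Par) : 0.7093 ≤ P.b.re ∧ P.b.re ≤ 0.7096 := by
  obtain ⟨h1, h2⟩ := P.im_b
  have h3 := pn2_norm P
  have h4 : 0 < P.b.re := P.re_pos
  constructor
  · by_contra hcon
    push Not at hcon
    nlinarith
  · by_contra hcon
    push Not at hcon
    nlinarith

/-- `√3 Re b` -/
private theorem pn2_prod (P : Par) : 1.2285 ≤ √3 * P.b.re ∧ √3 * P.b.re ≤ 1.2292 := by
  obtain ⟨h1, h2⟩ := P.re_b
  obtain ⟨h3, h4⟩ := pn2_sqrt3
  constructor <;> nlinarith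

private theorem pn2_cos_le {x : ℝ} (h0 : 0 ≤ x) (h1 : x ≤ 1) :
    Real.cos x ≤ 1 - x ^ 2 / 2 + x ^ 4 * (5 / 96) := by
  have h := Real.cos_bound (x := x) (by rw [abs_of_nonneg h0]; exact h1)
  rw [abs_of_nonneg h0] at h
  have := (abs_le.1 h).2
  linarith

theorem Par.C1_bd (P : Par) : 0.96 ≤ P.C1 ∧ P.C1 ≤ 0.97 := by
  obtain ⟨h1, h2⟩ := P.im_b
  obtain ⟨h3, h4⟩ := pn2_prod P
  unfold Par.C1
  generalize hx : (√3 * P.b.re - P.b.im) / 2 = x
  have hx1 : 0.2618 ≤ x := by rw [← hx]; linarith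
  have hx2 : x ≤ 0.2623 := by rw [← hx]; linarith
  have hsq1 : (0.2618 : ℝ) ^ 2 ≤ x ^ 2 := pow_le_pow_left₀ (by norm_num) hx1 2
  have hsq2 : x ^ 2 ≤ (0.2623 : ℝ) ^ 2 := pow_le_pow_left₀ (by linarith) hx2 2
  have hq : x ^ 4 ≤ (0.2623 : ℝ) ^ 4 := pow_le_pow_left₀ (by linarith) hx2 4
  have hlo := Real.one_sub_sq_div_two_le_cos (x := x)
  have hhi := pn2_cos_le (x := x) (by linarith) (by linarith)
  norm_num at hsq1 hsq2 hq ⊢
  constructor <;> linarith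

theorem Par.C2_bd (P : Par) : 0.55 ≤ P.C2 ∧ P.C2 ≤ 0.58 := by
  obtain ⟨h1, h2⟩ := P.im_b
  obtain ⟨h3, h4⟩ := pn2_prod P
  unfold Par.C2
  generalize hx : (√3 * P.b.re + P.b.im) / 2 = z
  have hz1 : 0.9665 ≤ z := by rw [← hx]; linarith
  have hz2 : z ≤ 0.9671 := by rw [← hx]; linarith
  have e : Real.cos z = 2 * Real.cos (z / 2) ^ 2 - 1 := by
    rw [← Real.cos_two_mul]
    congr 1
    ring
  rw [e]
  have hx1 : 0.4832 ≤ z / 2 := by linarith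
  have hx2 : z / 2 ≤ 0.4836 := by linarith
  generalize z / 2 = x at hx1 hx2
  have hsq1 : (0.4832 : ℝ) ^ 2 ≤ x ^ 2 := pow_le_pow_left₀ (by norm_num) hx1 2
  have hsq2 : x ^ 2 ≤ (0.4836 : ℝ) ^ 2 := pow_le_pow_left₀ (by linarith) hx2 2
  have hq : x ^ 4 ≤ (0.4836 : ℝ) ^ 4 := pow_le_pow_left₀ (by linarith) hx2 4
  have hlo := Real.one_sub_sq_div_two_le_cos (x := x)
  have hhi := pn2_cos_le (x := x) (by linarith) (by linarith)
  norm_num at hsq1 hsq2 hq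
  have hc1 : 0.883 ≤ Real.cos x := by norm_num; linarith
  have hc2 : Real.cos x ≤ 0.8862 := by norm_num; linarith
  constructor <;> nlinarith

theorem Par.v2_bd (P : Par) : 1.6 ≤ P.v2 ∧ P.v2 ≤ 1.8 := by
  obtain ⟨h1, h2⟩ := P.C1_bd
  obtain ⟨h3, h4⟩ := P.C2_bd
  have h5 : 0 < P.C2 := by linarith
  unfold Par.v2
  constructor
  · rw [le_div_iff₀ h5]; nlinarith
  · rw [div_le_iff₀ h5]; nlinarith

private theorem pn2_cos_half : 0.6425 ≤ Real.cos (√3 / 2) ∧ Real.cos (√3 / 2) ≤ 0.6495 := by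
  have e : Real.cos (√3 / 2) = 2 * Real.cos (√3 / 4) ^ 2 - 1 := by
    rw [← Real.cos_two_mul]
    congr 1
    ring
  rw [e]
  have h3 : √3 ^ 2 = 3 := Real.sq_sqrt (by norm_num)
  have hsq : (√3 / 4) ^ 2 = 3 / 16 := by
    rw [div_pow, h3]
    norm_num
  have hq : (√3 / 4) ^ 4 = 9 / 256 := by
    have : (√3 / 4) ^ 4 = ((√3 / 4) ^ 2) ^ 2 := by ring
    rw [this, hsq]
    norm_num
  have hlo := Real.one_sub_sq_div_two_le_cos (x := √3 / 4)
  have hs := pn2_sqrt3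
  have hhi := pn2_cos_le (x := √3 / 4) (by linarith [hs.1]) (by linarith [hs.2])
  rw [hsq] at hlo hhi
  rw [hq] at hhi
  have hc1 : 0.90625 ≤ Real.cos (√3 / 4) := by norm_num; linarith
  have hc2 : Real.cos (√3 / 4) ≤ 0.9081 := by norm_num; linarith
  constructor <;> nlinarith

theorem Par.wh_bd (P : Par) : 2.4 ≤ P.wh ∧ P.wh ≤ 2.9 := by
  obtain ⟨h1, h2⟩ := P.v2_bd
  obtain ⟨h3, h4⟩ := pn2_cos_half
  have h5 : 0 < Real.cos (√3 / 2) := by linarith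
  unfold Par.wh
  constructor
  · rw [le_div_iff₀ h5]; nlinarith
  · rw [div_le_iff₀ h5]; nlinarith

theorem Par.Th_bd (P : Par) : 2.4 ≤ P.Th ∧ P.Th ≤ 3 := by
  obtain ⟨h1, h2⟩ := P.wh_bd
  have hL := P.hL
  have h3 : 0 < P.gh := by
    unfold Par.gh
    positivity
  have h4 : P.gh ≤ 1e-8 := by
    unfold Par.gh
    have h1 : (100 : ℝ) ^ 4 ≤ P.L ^ 4 := pow_le_pow_left₀ (by norm_num) hL 4
    calc (P.L ^ 4)⁻¹ ≤ ((100 : ℝ) ^ 4)⁻¹ := inv_anti₀ (by positivity) h1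
      _ ≤ 1e-8 := by norm_num
  unfold Par.Th
  norm_num at h1 h2 h4 ⊢
  constructor <;> linarith

private theorem pn2_sin : 0.9 ≤ Real.sin √3 ∧ Real.sin √3 ≤ 1 := by
  refine ⟨?_, Real.sin_le_one _⟩
  have e : Real.cos √3 = 2 * Real.cos (√3 / 2) ^ 2 - 1 := by
    rw [← Real.cos_two_mul]
    congr 1
    ring
  obtain ⟨h1, h2⟩ := pn2_cos_half
  have hc1 : -0.2 ≤ Real.cos √3 := by rw [e]; nlinarith
  have hc2 : Real.cos √3 ≤ 0 := by rw [e]; nlinarith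
  have hs := pn2_sqrt3
  have hpi := Real.pi_gt_d6
  have hpos : 0 < Real.sin √3 := Real.sin_pos_of_pos_of_lt_pi (by linarith [hs.1])
    (by linarith [hs.2])
  have h3 := Real.sin_sq_add_cos_sq √3
  by_contra hcon
  push Not at hcon
  nlinarith

theorem Par.ep_bd (P : Par) : 1 ≤ P.ep ∧ P.ep ≤ 1.6 := by
  obtain ⟨h1, h2⟩ := P.Th_bd
  obtain ⟨h3, h4⟩ := P.C1_bd
  obtain ⟨h5, h6⟩ := pn2_sin
  have h7 : 0 < 2 * P.C1 := by linarith
  unfold Par.ep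
  constructor
  · rw [le_div_iff₀ h7]; nlinarith
  · rw [div_le_iff₀ h7]; nlinarith

end Pool.Agent.Helper92.HRU
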