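import Pool.Agent.Helper92.HRU.BDefs
import Pool.Agent.Helper92.HRU.Pf.PN1
import Pool.Agent.Helper92.HRU.Pf.PN2

/-! Piece PE1: pointwise estimates of the bands. -/

set_option autoImplicit false

namespace Pool.Agent.Helper92.HRU

open Complex Set MeasureTheory Filter Topology
open scoped ComplexConjugate Real ENNReal
open Pool.Agent.Helper84.HRT (Weyl node chi mu8 XL Data Aop Bop Good)

private theorem pe1_ge (P : Par) (y : ℝ) : P.s ^ 2 * P.Th ≤ rho P y := by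
  have hTh := P.Th_bd.1
  have h0 : 0 ≤ P.s ^ 2 * P.Th := mul_nonneg (sq_nonneg _) (by linarith)
  unfold rho
  apply Real.le_sqrt_of_sq_le
  nlinarith [sq_nonneg (Real.sin y)]

private theorem pe1_sq (P : Par) (y : ℝ) :
    rho P y ^ 2 = 4 * Real.sin y ^ 2 + P.s ^ 4 * P.Th ^ 2 := by
  unfold rho
  rw [Real.sq_sqrt]
  positivity

private theorem pe1_g (P : Par) : P.s ^ 2 * P.Th - P.s ^ 2 * P.wh = P.g := by
  unfold Par.g Par.Th; ring

private theorem pe1_s2 (P : Par) : P.s ^ 2 ≤ 1 / 10 ^ 40 := by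
  have h1 := P.s_pos
  have h2 := P.s_le
  calc P.s ^ 2 ≤ (1 / 10 ^ 20) ^ 2 := by gcongr
    _ = 1 / 10 ^ 40 := by norm_num

theorem ee_ge (P : Par) (y : ℝ) : P.g ≤ ee P y := by
  have h1 := pe1_ge P y
  have h2 := pe1_g P
  unfold ee
  linarith

theorem ee_le_eb (P : Par) (y : ℝ) : ee P y ≤ eb P y := by
  have h : 0 ≤ P.s ^ 2 * P.wh := mul_nonneg (sq_nonneg _) (by linarith [P.wh_bd.1])
  unfold ee eb
  linarith

private theorem pe1_rho_le (P : Par) (y : ℝ) : rho P y ≤ 2 * |Real.sin y| + P.s ^ 2 * P.Th := by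
  have h0 : 0 ≤ P.s ^ 2 * P.Th := mul_nonneg (sq_nonneg _) (by linarith [P.Th_bd.1])
  unfold rho
  apply Real.sqrt_le_iff.mpr
  constructor
  · positivity
  · have : |Real.sin y| ^ 2 = Real.sin y ^ 2 := sq_abs _
    nlinarith [mul_nonneg (abs_nonneg (Real.sin y)) h0]

theorem eb_le (P : Par) (y : ℝ) : eb P y ≤ 3 := by
  have h1 := pe1_rho_le P y
  have h2 := pe1_s2 P
  have h3 := P.Th_bd.2
  have h4 := P.wh_bd.2
  have h5 := Real.abs_sin_le_one y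
  have h6 : P.s ^ 2 * P.Th ≤ 1 / 10 ^ 40 * 3 :=
    mul_le_mul h2 h3 (by linarith [P.Th_bd.1]) (by positivity)
  have h7 : P.s ^ 2 * P.wh ≤ 1 / 10 ^ 40 * 2.9 :=
    mul_le_mul h2 h4 (by linarith [P.wh_bd.1]) (by positivity)
  unfold eb
  norm_num at h6 h7 ⊢
  linarith

theorem ee_cont (P : Par) : Continuous (ee P) := by
  unfold ee rho; fun_prop

theorem eb_cont (P : Par) : Continuous (eb P) := by
  unfold eb rho; fun_prop

theorem ee_even (P : Par) (y : ℝ) : ee P (-y) = ee P y := by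
  unfold ee rho; rw [Real.sin_neg]; ring_nf

/-- lower bound for the sine -/
private theorem pe1_sin (y : ℝ) (hy : |y| ≤ 1 / 20) :
    0.99 * |y| ≤ |Real.sin y| ∧ |Real.sin y| ≤ |y| := by
  have key : ∀ x : ℝ, 0 ≤ x → x ≤ 1 / 20 → 0.99 * x ≤ Real.sin x := by
    intro x h0 h1
    rcases eq_or_lt_of_le h0 with h | h
    · rw [← h]; simp
    · have h2 := Real.sin_gt_sub_cube h
      have h4 : x ^ 2 ≤ (1 / 20) ^ 2 := pow_le_pow_left₀ h0 h1 2
      have h3 : x ^ 3 / 6 ≤ 0.01 * x := by nlinarith [mul_nonneg h0 h0]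
      linarith
  constructor
  · rcases le_total 0 y with h | h
    · rw [abs_of_nonneg h] at hy ⊢
      exact (key y h hy).trans (le_abs_self _)
    · rw [abs_of_nonpos h] at hy ⊢
      have := key (-y) (by linarith) hy
      rw [Real.sin_neg] at this
      exact this.trans (neg_le_abs _)
  · exact Real.abs_sin_le_abs

private theorem pe1_main (P : Par) (y : ℝ) :
    ee P y * (rho P y + P.s ^ 2 * P.wh) =
      4 * Real.sin y ^ 2 + P.g * (P.s ^ 2 * P.Th + P.s ^ 2 * P.wh) := by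
  have h1 := pe1_sq P y
  have h2 := pe1_g P
  unfold ee
  rw [← h2]
  nlinarith

theorem ee_lower : ∃ c : ℝ, 0 < c ∧ ∀ (P : Par) (y : ℝ), |y| ≤ 1 / 20 →
    (|y| ≤ P.s ^ 2 → c * (y ^ 2 / P.s ^ 2 + P.g) ≤ ee P y) ∧
    (P.s ^ 2 ≤ |y| → c * |y| ≤ ee P y) := by
  refine ⟨0.4, by norm_num, ?_⟩
  intro P y hy
  have hs := P.s_pos
  have hs2 : 0 < P.s ^ 2 := by positivity
  have hg := P.g_pos
  have hm := pe1_main P y
  have hr := pe1_rho_le P y
  have hrg := pe1_ge P y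
  have hsin := pe1_sin y hy
  have hTh := P.Th_bd
  have hwh := P.wh_bd
  have ha0 := abs_nonneg y
  have hee : 0 < ee P y := lt_of_lt_of_le hg (ee_ge P y)
  have hT1 : P.s ^ 2 * P.Th ≤ 3 * P.s ^ 2 := by nlinarith
  have hT2 : 2.4 * P.s ^ 2 ≤ P.s ^ 2 * P.Th := by nlinarith only [hTh]
  have hw1 : P.s ^ 2 * P.wh ≤ 2.9 * P.s ^ 2 := by nlinarith only [hwh]
  have hw2 : 2.4 * P.s ^ 2 ≤ P.s ^ 2 * P.wh := by nlinarith only [hwh]
  have hden : rho P y + P.s ^ 2 * P.wh ≤ 2 * |y| + 6 * P.s ^ 2 := by linarith [hsin.2]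
  have hsq : 3.9 * |y| ^ 2 ≤ 4 * Real.sin y ^ 2 := by
    have h1 : (0.99 * |y|) ^ 2 ≤ |Real.sin y| ^ 2 :=
      pow_le_pow_left₀ (by positivity) hsin.1 2
    rw [sq_abs (Real.sin y)] at h1
    nlinarith only [h1, sq_nonneg |y|]
  have hlow : 3.9 * |y| ^ 2 + 4.8 * (P.g * P.s ^ 2) ≤ ee P y * (2 * |y| + 6 * P.s ^ 2) := by
    have h1 : ee P y * (rho P y + P.s ^ 2 * P.wh) ≤ ee P y * (2 * |y| + 6 * P.s ^ 2) :=
      mul_le_mul_of_nonneg_left hden hee.le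
    rw [hm] at h1
    have h2 : P.g * (4.8 * P.s ^ 2) ≤ P.g * (P.s ^ 2 * P.Th + P.s ^ 2 * P.wh) :=
      mul_le_mul_of_nonneg_left (by linarith) hg.le
    linarith
  constructor
  · intro h
    have h1 : ee P y * (2 * |y| + 6 * P.s ^ 2) ≤ ee P y * (8 * P.s ^ 2) :=
      mul_le_mul_of_nonneg_left (by linarith) hee.le
    have h2 : (0.4 * (y ^ 2 / P.s ^ 2 + P.g)) * (8 * P.s ^ 2) ≤ ee P y * (8 * P.s ^ 2) := by
      have h3 : (0.4 * (y ^ 2 / P.s ^ 2 + P.g)) * (8 * P.s ^ 2) =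
          3.2 * y ^ 2 + 3.2 * (P.g * P.s ^ 2) := by field_simp; ring
      rw [h3]
      have h4 : |y| ^ 2 = y ^ 2 := sq_abs y
      have h5 : 0 ≤ P.g * P.s ^ 2 := by positivity
      nlinarith only [hlow, h1, h4, h5, sq_nonneg y]
    exact le_of_mul_le_mul_right h2 (by positivity)
  · intro h
    rcases eq_or_lt_of_le ha0 with h0 | h0
    · rw [← h0]; simpa using hee.le
    have h1 : ee P y * (2 * |y| + 6 * P.s ^ 2) ≤ ee P y * (8 * |y|) :=
      mul_le_mul_of_nonneg_left (by linarith) hee.le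
    have h2 : (0.4 * |y|) * (8 * |y|) ≤ ee P y * (8 * |y|) := by
      have h5 : 0 ≤ P.g * P.s ^ 2 := by positivity
      nlinarith only [hlow, h1, h5, sq_nonneg |y|]
    exact le_of_mul_le_mul_right h2 (by positivity)

theorem ee_upper : ∃ C : ℝ, 0 < C ∧ ∀ (P : Par) (y : ℝ), |y| ≤ 1 / 20 →
    ee P y ≤ C * (y ^ 2 / P.s ^ 2 + P.g) := by
  refine ⟨1, by norm_num, ?_⟩
  intro P y hy
  have hs := P.s_pos
  have hs2 : 0 < P.s ^ 2 := by positivity
  have hg := P.g_pos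
  have hm := pe1_main P y
  have hrg := pe1_ge P y
  have hsin := pe1_sin y hy
  have hTh := P.Th_bd
  have hwh := P.wh_bd
  have hee : 0 < ee P y := lt_of_lt_of_le hg (ee_ge P y)
  have hT2 : 2.4 * P.s ^ 2 ≤ P.s ^ 2 * P.Th := by nlinarith only [hTh]
  have hw2 : 2.4 * P.s ^ 2 ≤ P.s ^ 2 * P.wh := by nlinarith only [hwh]
  have hsq : 4 * Real.sin y ^ 2 ≤ 4 * y ^ 2 := by
    have h1 : |Real.sin y| ^ 2 ≤ |y| ^ 2 := pow_le_pow_left₀ (abs_nonneg _) hsin.2 2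
    rw [sq_abs, sq_abs] at h1
    linarith
  set A := P.s ^ 2 * P.Th + P.s ^ 2 * P.wh with hA
  have hA0 : 4.8 * P.s ^ 2 ≤ A := by rw [hA]; linarith
  have hApos : 0 < A := by nlinarith only [hs2, hT2, hw2]
  have h1 : ee P y * A ≤ 4 * y ^ 2 + P.g * A := by
    have h2 : ee P y * A ≤ ee P y * (rho P y + P.s ^ 2 * P.wh) :=
      mul_le_mul_of_nonneg_left (by rw [hA]; linarith) hee.le
    rw [hm] at h2
    linarith
  have h3 : 4 * y ^ 2 ≤ (y ^ 2 / P.s ^ 2) * A := by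
    have h4 : (y ^ 2 / P.s ^ 2) * (4.8 * P.s ^ 2) ≤ (y ^ 2 / P.s ^ 2) * A :=
      mul_le_mul_of_nonneg_left hA0 (by positivity)
    have h5 : (y ^ 2 / P.s ^ 2) * (4.8 * P.s ^ 2) = 4.8 * y ^ 2 := by field_simp
    rw [h5] at h4
    nlinarith only [h4, sq_nonneg y]
  have h6 : ee P y * A ≤ (1 * (y ^ 2 / P.s ^ 2 + P.g)) * A := by nlinarith only [h1, h3]
  exact le_of_mul_le_mul_right h6 hApos

theorem eb_lower : ∃ c : ℝ, 0 < c ∧ ∀ (P : Par) (y : ℝ), |y| ≤ 1 / 20 →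
    c * (|y| + P.s ^ 2) ≤ eb P y := by
  refine ⟨1, by norm_num, ?_⟩
  intro P y hy
  have hs := P.s_pos
  have hs2 : 0 < P.s ^ 2 := by positivity
  have hsin := pe1_sin y hy
  have hwh := P.wh_bd
  have hw2 : 2.4 * P.s ^ 2 ≤ P.s ^ 2 * P.wh := by nlinarith
  have hr : 2 * |Real.sin y| ≤ rho P y := by
    unfold rho
    apply Real.le_sqrt_of_sq_le
    have h1 : |Real.sin y| ^ 2 = Real.sin y ^ 2 := sq_abs _
    have h2 : 0 ≤ P.s ^ 4 * P.Th ^ 2 := by positivity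
    nlinarith only [h1, h2]
  unfold eb
  have := abs_nonneg y
  linarith [hsin.1]

private theorem pe1_powers (P : Par) :
    P.s ^ 2 = (P.L ^ 20)⁻¹ ∧ P.g = (P.L ^ 24)⁻¹ := by
  constructor
  · unfold Par.s; rw [inv_pow, ← pow_mul]
  · exact P.g_eq

/-- `s² (|y| + |δ|)` is small against `e` -/
theorem wY_small : ∃ C : ℝ, 0 < C ∧ ∀ (P : Par) (y : ℝ), |y| ≤ 1 / 20 →
    P.s ^ 2 * (|y| + |P.del|) ≤ C * (P.L ^ 16)⁻¹ * ee P y := by
  obtain ⟨c, hc, hlow⟩ := ee_lower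
  refine ⟨1 / c + 1, by positivity, ?_⟩
  intro P y hy
  obtain ⟨h1, h2⟩ := hlow P y hy
  obtain ⟨hsq, hgq⟩ := pe1_powers P
  have hL := P.hL
  have hLp : 0 < P.L := by linarith
  have hg := P.g_pos
  have hge := ee_ge P y
  have hee : 0 < ee P y := lt_of_lt_of_le hg hge
  have hdel := P.del_le
  have ha0 := abs_nonneg y
  -- the part with del
  have hD : P.s ^ 2 * |P.del| ≤ (P.L ^ 16)⁻¹ * ee P y := by
    have e1 : P.s ^ 2 * |P.del| ≤ (P.L ^ 20)⁻¹ * (P.L ^ 40)⁻¹ := by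
      rw [hsq]; exact mul_le_mul_of_nonneg_left hdel (by positivity)
    have e2 : (P.L ^ 20)⁻¹ * (P.L ^ 40)⁻¹ ≤ (P.L ^ 16)⁻¹ * (P.L ^ 24)⁻¹ := by
      rw [← mul_inv, ← mul_inv, ← pow_add, ← pow_add]
      apply inv_anti₀ (by positivity)
      exact pow_le_pow_right₀ (by linarith) (by norm_num)
    have e3 : (P.L ^ 16)⁻¹ * (P.L ^ 24)⁻¹ ≤ (P.L ^ 16)⁻¹ * ee P y := by
      rw [← hgq]; exact mul_le_mul_of_nonneg_left hge (by positivity)
    linarith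
  -- the part with y
  have hY : P.s ^ 2 * |y| ≤ (1 / c) * (P.L ^ 16)⁻¹ * ee P y := by
    rcases le_total |y| (P.s ^ 2) with h | h
    · have h3 := h1 h
      -- y^2/s^2 + g ≥ 2 |y| √g / s = 2 |y| L^{-2}
      have h4 : 2 * |y| * (P.L ^ 2)⁻¹ ≤ y ^ 2 / P.s ^ 2 + P.g := by
        rw [hsq, hgq, ← sq_abs y, div_inv_eq_mul]
        have e1 : (|y| * P.L ^ 10 - (P.L ^ 12)⁻¹) ^ 2 =
            |y| ^ 2 * P.L ^ 20 - 2 * |y| * (P.L ^ 2)⁻¹ + (P.L ^ 24)⁻¹ := by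
          field_simp; ring
        have := sq_nonneg (|y| * P.L ^ 10 - (P.L ^ 12)⁻¹)
        rw [e1] at this
        linarith
      have h5 : c * (2 * |y| * (P.L ^ 2)⁻¹) ≤ ee P y :=
        (mul_le_mul_of_nonneg_left h4 hc.le).trans h3
      have h6 : P.s ^ 2 * |y| ≤ (1 / c) * (P.L ^ 16)⁻¹ * (c * (2 * |y| * (P.L ^ 2)⁻¹)) := by
        rw [hsq]
        have e2 : (1 / c) * (P.L ^ 16)⁻¹ * (c * (2 * |y| * (P.L ^ 2)⁻¹)) =
            2 * (P.L ^ 18)⁻¹ * |y| := by field_simp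
        rw [e2]
        apply mul_le_mul_of_nonneg_right _ ha0
        have e3 : (P.L ^ 20)⁻¹ ≤ (P.L ^ 18)⁻¹ := by
          apply inv_anti₀ (by positivity)
          exact pow_le_pow_right₀ (by linarith) (by norm_num)
        have e4 : 0 < (P.L ^ 18)⁻¹ := by positivity
        linarith
      exact h6.trans (mul_le_mul_of_nonneg_left h5 (by positivity))
    · have h3 := h2 h
      have h6 : P.s ^ 2 * |y| ≤ (1 / c) * (P.L ^ 16)⁻¹ * (c * |y|) := by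
        rw [hsq]
        have e2 : (1 / c) * (P.L ^ 16)⁻¹ * (c * |y|) = (P.L ^ 16)⁻¹ * |y| := by field_simp
        rw [e2]
        apply mul_le_mul_of_nonneg_right _ ha0
        apply inv_anti₀ (by positivity)
        exact pow_le_pow_right₀ (by linarith) (by norm_num)
      exact h6.trans (mul_le_mul_of_nonneg_left h3 (by positivity))
  have : (1 / c + 1) * (P.L ^ 16)⁻¹ * ee P y =
      (1 / c) * (P.L ^ 16)⁻¹ * ee P y + (P.L ^ 16)⁻¹ * ee P y := by ring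
  rw [this, mul_add]
  linarith

end Pool.Agent.Helper92.HRU
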