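import Pool.Agent.Helper92.HRU.BDefs
import Pool.Agent.Helper92.HRU.Pf.PE1

/-! Piece PE2: integrals of 1/e. -/

set_option autoImplicit false

namespace Pool.Agent.Helper92.HRU

open Complex Set MeasureTheory Filter Topology
open scoped ComplexConjugate Real ENNReal
open Pool.Agent.Helper84.HRT (Weyl node chi mu8 XL Data Aop Bop Good)

private theorem pe2_lint {f : ℝ → ℝ} {a b : ℝ} (hab : a ≤ b) (hf : ContinuousOn f (Icc a b))
    (h0 : ∀ y ∈ Icc a b, 0 ≤ f y) :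
    ∫⁻ y in Ioc a b, ENNReal.ofReal (f y) = ENNReal.ofReal (∫ y in a..b, f y) := by
  rw [intervalIntegral.integral_of_le hab, ofReal_integral_eq_lintegral_ofReal]
  · exact (hf.integrableOn_compact isCompact_Icc).mono_set Ioc_subset_Icc_self
  · exact (ae_restrict_iff' measurableSet_Ioc).mpr
      (Eventually.of_forall fun y hy => h0 y (Ioc_subset_Icc_self hy))

/-- Lemma A -/
private theorem pe2_A (t : ℝ) (ht : 0 < t) :
    ∫⁻ y in Iy, ENNReal.ofReal ((y ^ 2 + t ^ 2)⁻¹) ≤ ENNReal.ofReal (π / t) := by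
  have hint : Integrable (fun y : ℝ => (t ^ 2)⁻¹ * (1 + (y / t) ^ 2)⁻¹) :=
    (integrable_inv_one_add_sq.comp_div ht.ne').const_mul _
  have heq : ∀ y : ℝ, (y ^ 2 + t ^ 2)⁻¹ = (t ^ 2)⁻¹ * (1 + (y / t) ^ 2)⁻¹ := by
    intro y
    rw [← mul_inv]
    congr 1
    field_simp
    ring
  calc ∫⁻ y in Iy, ENNReal.ofReal ((y ^ 2 + t ^ 2)⁻¹)
      ≤ ∫⁻ y, ENNReal.ofReal ((y ^ 2 + t ^ 2)⁻¹) := setLIntegral_le_lintegral _ _
    _ = ∫⁻ y, ENNReal.ofReal ((t ^ 2)⁻¹ * (1 + (y / t) ^ 2)⁻¹) := by simp_rw [heq]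
    _ = ENNReal.ofReal (∫ y, (t ^ 2)⁻¹ * (1 + (y / t) ^ 2)⁻¹) := by
        rw [ofReal_integral_eq_lintegral_ofReal hint]
        exact Eventually.of_forall fun y => by positivity
    _ = ENNReal.ofReal (π / t) := by
        congr 1
        rw [integral_const_mul,
          MeasureTheory.Measure.integral_comp_div (fun y : ℝ => (1 + y ^ 2)⁻¹) t,
          integral_univ_inv_one_add_sq, smul_eq_mul, abs_of_pos ht]
        field_simp

/-- Lemma B -/
private theorem pe2_B (t : ℝ) (ht : 0 < t) (ht1 : t ≤ 1 / 2) :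
    ∫⁻ y in Iy, ENNReal.ofReal ((|y| + t)⁻¹) ≤ ENNReal.ofReal (2 * Real.log (1 / t)) := by
  have hc : Continuous fun y : ℝ => (|y| + t)⁻¹ :=
    Continuous.inv₀ (by fun_prop) fun y => by positivity
  have hlog : ∫ y in (0 : ℝ)..(1 / 20), (|y| + t)⁻¹ ≤ Real.log (1 / t) := by
    have h1 : ∫ y in (0 : ℝ)..(1 / 20), (|y| + t)⁻¹ = ∫ y in (0 : ℝ)..(1 / 20), (y + t)⁻¹ := by
      apply intervalIntegral.integral_congr
      intro y hy
      rw [uIcc_of_le (by norm_num)] at hy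
      simp only
      rw [abs_of_nonneg hy.1]
    rw [h1, intervalIntegral.integral_comp_add_right (fun y : ℝ => y⁻¹) t,
      integral_inv_of_pos (by linarith) (by linarith)]
    apply Real.log_le_log (by positivity)
    rw [zero_add]
    apply div_le_div_of_nonneg_right _ ht.le
    linarith
  have hneg : ∫ y in (-(1 / 20) : ℝ)..0, (|y| + t)⁻¹ = ∫ y in (0 : ℝ)..(1 / 20), (|y| + t)⁻¹ := by
    have := intervalIntegral.integral_comp_neg (a := (0 : ℝ)) (b := 1 / 20)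
      (fun y : ℝ => (|y| + t)⁻¹)
    simp only [abs_neg, neg_zero] at this
    rw [this]
  have hsub : Iy ⊆ Ioc (-(1 / 20) : ℝ) 0 ∪ Ioc (0 : ℝ) (1 / 20) := by
    intro y hy
    unfold Iy at hy
    rcases le_or_gt y 0 with h | h
    · exact Or.inl ⟨hy.1, h⟩
    · exact Or.inr ⟨h, hy.2.le⟩
  calc ∫⁻ y in Iy, ENNReal.ofReal ((|y| + t)⁻¹)
      ≤ ∫⁻ y in Ioc (-(1 / 20) : ℝ) 0 ∪ Ioc (0 : ℝ) (1 / 20), ENNReal.ofReal ((|y| + t)⁻¹) :=
        lintegral_mono_set hsub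
    _ ≤ (∫⁻ y in Ioc (-(1 / 20) : ℝ) 0, ENNReal.ofReal ((|y| + t)⁻¹)) +
        ∫⁻ y in Ioc (0 : ℝ) (1 / 20), ENNReal.ofReal ((|y| + t)⁻¹) := lintegral_union_le _ _ _
    _ = ENNReal.ofReal (∫ y in (-(1 / 20) : ℝ)..0, (|y| + t)⁻¹) +
        ENNReal.ofReal (∫ y in (0 : ℝ)..(1 / 20), (|y| + t)⁻¹) := by
        rw [pe2_lint (by norm_num) hc.continuousOn fun y _ => by positivity,
          pe2_lint (by norm_num) hc.continuousOn fun y _ => by positivity]
    _ ≤ ENNReal.ofReal (Real.log (1 / t)) + ENNReal.ofReal (Real.log (1 / t)) := by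
        rw [hneg]
        exact add_le_add (ENNReal.ofReal_le_ofReal hlog) (ENNReal.ofReal_le_ofReal hlog)
    _ = ENNReal.ofReal (2 * Real.log (1 / t)) := by
        have : 0 ≤ Real.log (1 / t) := by
          apply Real.log_nonneg
          rw [le_div_iff₀ ht]; linarith
        rw [← ENNReal.ofReal_add this this]
        congr 1; ring

private theorem pe2_powers (P : Par) :
    P.s ^ 2 = (P.L ^ 20)⁻¹ ∧ P.g = (P.L ^ 24)⁻¹ ∧ 0 < P.L ∧ 1 ≤ P.L := by
  have hL := P.hL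
  refine ⟨?_, P.g_eq, by linarith, by linarith⟩
  unfold Par.s; rw [inv_pow, ← pow_mul]

private theorem pe2_half (P : Par) : P.s ^ 2 ≤ 1 / 2 ∧ 0 < P.s ^ 2 := by
  obtain ⟨h1, _, hL, _⟩ := pe2_powers P
  constructor
  · rw [h1]
    have h2 : (2 : ℝ) ≤ P.L ^ 20 := by
      calc (2 : ℝ) ≤ 100 ^ 1 := by norm_num
        _ ≤ P.L ^ 1 := by gcongr; exact P.hL
        _ ≤ P.L ^ 20 := pow_le_pow_right₀ (by linarith [P.hL]) (by norm_num)
    have : (P.L ^ 20)⁻¹ ≤ (2 : ℝ)⁻¹ := inv_anti₀ (by norm_num) h2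
    linarith
  · rw [h1]; positivity

private theorem pe2_log (P : Par) : 2 * Real.log (1 / P.s ^ 2) ≤ 40 * P.L := by
  obtain ⟨h1, _, hL, _⟩ := pe2_powers P
  rw [h1, one_div, inv_inv, Real.log_pow]
  have := Real.log_le_self hL.le
  push_cast
  linarith

theorem Lam_lint (P : Par) : ∫⁻ y in Iy, ENNReal.ofReal (ee P y)⁻¹ = ENNReal.ofReal (Lam P) := by
  unfold Lam Iy
  have hg := P.g_pos
  have hc : Continuous fun y => (ee P y)⁻¹ :=
    (ee_cont P).inv₀ fun y => (lt_of_lt_of_le hg (ee_ge P y)).ne'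
  rw [ofReal_integral_eq_lintegral_ofReal]
  · exact (hc.continuousOn.integrableOn_compact isCompact_Icc).mono_set Ioo_subset_Icc_self
  · exact Eventually.of_forall fun y => inv_nonneg.mpr (hg.le.trans (ee_ge P y))

private theorem pe2_abs {y : ℝ} (hy : y ∈ Iy) : |y| ≤ 1 / 20 := by
  unfold Iy at hy
  exact abs_le.mpr ⟨hy.1.le, hy.2.le⟩

/-- combination of the two lemmas -/
private theorem pe2_comb (P : Par) (a b t : ℝ) (ha : 0 ≤ a) (hb : 0 ≤ b) (ht : 0 < t) :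
    ∫⁻ y in Iy, ENNReal.ofReal (a * (y ^ 2 + t ^ 2)⁻¹ + b * (|y| + P.s ^ 2)⁻¹) ≤
      ENNReal.ofReal (a * (π / t) + b * (40 * P.L)) := by
  obtain ⟨hs1, hs0⟩ := pe2_half P
  have hL := P.hL
  have h1 : ∀ y : ℝ, ENNReal.ofReal (a * (y ^ 2 + t ^ 2)⁻¹ + b * (|y| + P.s ^ 2)⁻¹) =
      ENNReal.ofReal a * ENNReal.ofReal ((y ^ 2 + t ^ 2)⁻¹) +
        ENNReal.ofReal b * ENNReal.ofReal ((|y| + P.s ^ 2)⁻¹) := by
    intro y
    rw [ENNReal.ofReal_add (by positivity) (by positivity), ENNReal.ofReal_mul ha,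
      ENNReal.ofReal_mul hb]
  simp_rw [h1]
  have hm1 : Measurable fun y : ℝ => ENNReal.ofReal a * ENNReal.ofReal ((y ^ 2 + t ^ 2)⁻¹) := by
    fun_prop
  rw [lintegral_add_left hm1, lintegral_const_mul' _ _ ENNReal.ofReal_ne_top,
    lintegral_const_mul' _ _ ENNReal.ofReal_ne_top,
    ENNReal.ofReal_add (by positivity) (by positivity), ENNReal.ofReal_mul ha,
    ENNReal.ofReal_mul hb]
  refine add_le_add (mul_le_mul_right (pe2_A t ht) _) (mul_le_mul_right ?_ _)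
  exact (pe2_B _ hs0 hs1).trans (ENNReal.ofReal_le_ofReal (pe2_log P))

/-- pointwise majorants of `1/e` -/
private theorem pe2_point (P : Par) {c : ℝ} (hc : 0 < c) {y t u : ℝ} (hu : u ≤ 2)
    (ht : 0 < t) (hee : 0 < ee P y)
    (h1 : |y| ≤ P.s ^ 2 → c * (y ^ 2 + t ^ 2) ≤ u * P.s ^ 2 * ee P y)
    (h2 : P.s ^ 2 ≤ |y| → c * |y| ≤ ee P y) :
    (ee P y)⁻¹ ≤ (2 / c * P.s ^ 2) * (y ^ 2 + t ^ 2)⁻¹ + (2 / c) * (|y| + P.s ^ 2)⁻¹ := by
  obtain ⟨_, hs0⟩ := pe2_half P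
  have hpos : 0 < y ^ 2 + t ^ 2 := by positivity
  have ha0 := abs_nonneg y
  rcases le_total |y| (P.s ^ 2) with h | h
  · have h3 := h1 h
    have h4 : (ee P y)⁻¹ ≤ (2 / c * P.s ^ 2) * (y ^ 2 + t ^ 2)⁻¹ := by
      rw [inv_le_iff_one_le_mul₀ hee]
      have h5 : (2 / c * P.s ^ 2) * (y ^ 2 + t ^ 2)⁻¹ * ee P y =
          (2 * P.s ^ 2 * ee P y) / (c * (y ^ 2 + t ^ 2)) := by field_simp
      rw [h5, le_div_iff₀ (by positivity), one_mul]
      refine h3.trans ?_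
      have : 0 ≤ P.s ^ 2 * ee P y := by positivity
      nlinarith
    have h6 : 0 ≤ (2 / c) * (|y| + P.s ^ 2)⁻¹ := by positivity
    linarith
  · have h3 := h2 h
    have h4 : (ee P y)⁻¹ ≤ (2 / c) * (|y| + P.s ^ 2)⁻¹ := by
      rw [inv_le_iff_one_le_mul₀ hee]
      have h5 : (2 / c) * (|y| + P.s ^ 2)⁻¹ * ee P y = (2 * ee P y) / (c * (|y| + P.s ^ 2)) := by
        field_simp
      rw [h5, le_div_iff₀ (by positivity), one_mul]
      nlinarith
    have h6 : 0 ≤ (2 / c * P.s ^ 2) * (y ^ 2 + t ^ 2)⁻¹ := by positivity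
    linarith

/-- (B4.2) -/
theorem Lam_bounds : ∃ c C : ℝ, 0 < c ∧ 0 < C ∧ ∀ P : Par,
    c * P.L ^ 2 ≤ Lam P ∧ Lam P ≤ C * P.L ^ 2 := by
  obtain ⟨c, hc, hlow⟩ := ee_lower
  obtain ⟨C, hC, hup⟩ := ee_upper
  refine ⟨1 / C, 2 / c * π + 80 / c, by positivity, by positivity, ?_⟩
  intro P
  obtain ⟨hs2, hgq, hL, hL1⟩ := pe2_powers P
  obtain ⟨hsh, hs0⟩ := pe2_half P
  have hg := P.g_pos
  have hee : ∀ y, 0 < ee P y := fun y => lt_of_lt_of_le hg (ee_ge P y)
  have hLam0 : 0 ≤ Lam P := by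
    unfold Lam
    exact integral_nonneg fun y => (inv_pos.mpr (hee y)).le
  have ht : 0 < (P.L ^ 22)⁻¹ := by positivity
  have htt : ((P.L ^ 22)⁻¹) ^ 2 = P.s ^ 2 * P.g := by
    rw [hs2, hgq, ← mul_inv, ← pow_add, inv_pow, ← pow_mul]
  constructor
  · -- lower bound
    have hsub : Ioc (-(P.L ^ 22)⁻¹) ((P.L ^ 22)⁻¹) ⊆ Iy := by
      have h1 : (P.L ^ 22)⁻¹ < 1 / 20 := by
        have h2 : (100 : ℝ) ≤ P.L ^ 22 := by
          calc (100 : ℝ) ≤ P.L ^ 1 := by rw [pow_one]; exact P.hL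
            _ ≤ P.L ^ 22 := pow_le_pow_right₀ hL1 (by norm_num)
        have h3 : (P.L ^ 22)⁻¹ ≤ (100 : ℝ)⁻¹ := inv_anti₀ (by norm_num) h2
        linarith
      intro y hy
      unfold Iy
      exact ⟨by linarith [hy.1], by linarith [hy.2]⟩
    have h1 : ENNReal.ofReal ((1 / C) * P.L ^ 2) ≤ ENNReal.ofReal (Lam P) := by
      rw [← Lam_lint]
      calc ENNReal.ofReal ((1 / C) * P.L ^ 2)
          = ENNReal.ofReal ((2 * C * P.g)⁻¹) * ENNReal.ofReal (2 * (P.L ^ 22)⁻¹) := by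
            rw [← ENNReal.ofReal_mul (by positivity)]
            congr 1
            rw [hgq]
            field_simp
        _ = ∫⁻ y in Ioc (-(P.L ^ 22)⁻¹) ((P.L ^ 22)⁻¹), ENNReal.ofReal ((2 * C * P.g)⁻¹) := by
            rw [setLIntegral_const, Real.volume_Ioc]
            congr 2; ring
        _ ≤ ∫⁻ y in Ioc (-(P.L ^ 22)⁻¹) ((P.L ^ 22)⁻¹), ENNReal.ofReal (ee P y)⁻¹ := by
            apply setLIntegral_mono' measurableSet_Ioc
            intro y hy
            apply ENNReal.ofReal_le_ofReal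
            apply inv_anti₀ (hee y)
            have h2 := hup P y (pe2_abs (hsub hy))
            have h3 : y ^ 2 ≤ P.s ^ 2 * P.g := by
              rw [← htt, sq_le_sq, abs_of_pos ht]
              exact abs_le.mpr ⟨hy.1.le, hy.2⟩
            have h4 : y ^ 2 / P.s ^ 2 ≤ P.g := by
              rw [div_le_iff₀ hs0]; linarith
            nlinarith
        _ ≤ ∫⁻ y in Iy, ENNReal.ofReal (ee P y)⁻¹ := lintegral_mono_set hsub
    exact (ENNReal.ofReal_le_ofReal_iff hLam0).mp h1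
  · -- upper bound
    have h1 : ENNReal.ofReal (Lam P) ≤
        ENNReal.ofReal ((2 / c * π + 80 / c) * P.L ^ 2) := by
      rw [← Lam_lint]
      calc ∫⁻ y in Iy, ENNReal.ofReal (ee P y)⁻¹
          ≤ ∫⁻ y in Iy, ENNReal.ofReal ((2 / c * P.s ^ 2) * (y ^ 2 + ((P.L ^ 22)⁻¹) ^ 2)⁻¹
              + (2 / c) * (|y| + P.s ^ 2)⁻¹) := by
            apply setLIntegral_mono' measurableSet_Ioo
            intro y hy
            apply ENNReal.ofReal_le_ofReal
            obtain ⟨e1, e2⟩ := hlow P y (pe2_abs hy)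
            refine pe2_point P hc (u := 1) (by norm_num) ht (hee y) ?_ e2
            intro h
            have e3 := e1 h
            rw [htt]
            have hsne := P.s_pos.ne'
            have e4 : c * (y ^ 2 + P.s ^ 2 * P.g) = P.s ^ 2 * (c * (y ^ 2 / P.s ^ 2 + P.g)) := by
              field_simp
            rw [e4]
            have := mul_le_mul_of_nonneg_left e3 hs0.le
            linarith
        _ ≤ ENNReal.ofReal ((2 / c * P.s ^ 2) * (π / (P.L ^ 22)⁻¹) + (2 / c) * (40 * P.L)) :=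
            pe2_comb P _ _ _ (by positivity) (by positivity) ht
        _ ≤ ENNReal.ofReal ((2 / c * π + 80 / c) * P.L ^ 2) := by
            apply ENNReal.ofReal_le_ofReal
            rw [hs2]
            have e1 : (2 / c * (P.L ^ 20)⁻¹) * (π / (P.L ^ 22)⁻¹) = (2 / c * π) * P.L ^ 2 := by
              field_simp
            have e2 : (2 / c) * (40 * P.L) ≤ (80 / c) * P.L ^ 2 := by
              have e3 : (2 / c) * (40 * P.L) = (80 / c) * P.L := by ring
              rw [e3]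
              apply mul_le_mul_of_nonneg_left _ (by positivity)
              nlinarith
            rw [e1]
            linarith
    exact (ENNReal.ofReal_le_ofReal_iff (by positivity)).mp h1

theorem Lam_tail : ∃ C : ℝ, 0 < C ∧ ∀ P : Par,
    ∫⁻ y in Iy \ Icc (-(P.s ^ 2 / P.L)) (P.s ^ 2 / P.L), ENNReal.ofReal (ee P y)⁻¹
      ≤ ENNReal.ofReal (C * P.L) := by
  obtain ⟨c, hc, hlow⟩ := ee_lower
  refine ⟨2 / c * π + 80 / c, by positivity, ?_⟩
  intro P
  obtain ⟨hs2, hgq, hL, hL1⟩ := pe2_powers P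
  obtain ⟨hsh, hs0⟩ := pe2_half P
  have hg := P.g_pos
  have hee : ∀ y, 0 < ee P y := fun y => lt_of_lt_of_le hg (ee_ge P y)
  have ht : 0 < P.s ^ 2 / P.L := by positivity
  calc ∫⁻ y in Iy \ Icc (-(P.s ^ 2 / P.L)) (P.s ^ 2 / P.L), ENNReal.ofReal (ee P y)⁻¹
      ≤ ∫⁻ y in Iy \ Icc (-(P.s ^ 2 / P.L)) (P.s ^ 2 / P.L),
          ENNReal.ofReal ((2 / c * P.s ^ 2) * (y ^ 2 + (P.s ^ 2 / P.L) ^ 2)⁻¹
              + (2 / c) * (|y| + P.s ^ 2)⁻¹) := by
        apply setLIntegral_mono' (measurableSet_Ioo.diff measurableSet_Icc)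
        intro y hy
        apply ENNReal.ofReal_le_ofReal
        obtain ⟨e1, e2⟩ := hlow P y (pe2_abs hy.1)
        refine pe2_point P hc (u := 2) le_rfl ht (hee y) ?_ e2
        intro h
        have e3 := e1 h
        have hyt : (P.s ^ 2 / P.L) ^ 2 ≤ y ^ 2 := by
          rw [sq_le_sq, abs_of_pos ht]
          by_contra hlt
          rw [not_le] at hlt
          exact hy.2 ⟨(abs_lt.mp hlt).1.le, (abs_lt.mp hlt).2.le⟩
        have e4 : c * y ^ 2 ≤ P.s ^ 2 * ee P y := by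
          have hsne := P.s_pos.ne'
          have e5 : c * y ^ 2 = P.s ^ 2 * (c * (y ^ 2 / P.s ^ 2)) := by field_simp
          rw [e5]
          apply mul_le_mul_of_nonneg_left _ hs0.le
          refine le_trans ?_ e3
          nlinarith
        nlinarith
    _ ≤ ∫⁻ y in Iy, ENNReal.ofReal ((2 / c * P.s ^ 2) * (y ^ 2 + (P.s ^ 2 / P.L) ^ 2)⁻¹
              + (2 / c) * (|y| + P.s ^ 2)⁻¹) := lintegral_mono_set sdiff_subset
    _ ≤ ENNReal.ofReal ((2 / c * P.s ^ 2) * (π / (P.s ^ 2 / P.L)) + (2 / c) * (40 * P.L)) :=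
        pe2_comb P _ _ _ (by positivity) (by positivity) ht
    _ = ENNReal.ofReal ((2 / c * π + 80 / c) * P.L) := by
        have hsne := P.s_pos.ne'
        congr 1
        field_simp
        ring

theorem y2_int : ∃ C : ℝ, 0 < C ∧ ∀ P : Par,
    ∫⁻ y in Iy, ENNReal.ofReal (y ^ 2 * (ee P y)⁻¹) ≤ ENNReal.ofReal C := by
  obtain ⟨c, hc, hlow⟩ := ee_lower
  refine ⟨1 / c, by positivity, ?_⟩
  intro P
  obtain ⟨hsh, hs0⟩ := pe2_half P
  have hg := P.g_pos
  have hee : ∀ y, 0 < ee P y := fun y => lt_of_lt_of_le hg (ee_ge P y)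
  calc ∫⁻ y in Iy, ENNReal.ofReal (y ^ 2 * (ee P y)⁻¹)
      ≤ ∫⁻ y in Iy, ENNReal.ofReal (1 / c) := by
        apply setLIntegral_mono' measurableSet_Ioo
        intro y hy
        apply ENNReal.ofReal_le_ofReal
        have hya := pe2_abs hy
        obtain ⟨e1, e2⟩ := hlow P y hya
        have ha0 := abs_nonneg y
        rw [← div_eq_mul_inv, div_le_iff₀ (hee y), one_div, ← div_eq_inv_mul, le_div_iff₀ hc]
        rcases le_total |y| (P.s ^ 2) with h | h
        · have e3 := e1 h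
          have e4 : y ^ 2 * c ≤ P.s ^ 2 * ee P y := by
            have hsne := P.s_pos.ne'
            have e5 : y ^ 2 * c = P.s ^ 2 * (c * (y ^ 2 / P.s ^ 2)) := by field_simp
            rw [e5]
            apply mul_le_mul_of_nonneg_left _ hs0.le
            refine le_trans ?_ e3
            nlinarith
          have := hee y
          nlinarith
        · have e3 := e2 h
          rw [← sq_abs y]
          have e4 : |y| * (c * |y|) ≤ 1 / 20 * (c * |y|) :=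
            mul_le_mul_of_nonneg_right hya (by positivity)
          have e5 : 0 ≤ c * |y| := by positivity
          nlinarith
    _ = ENNReal.ofReal (1 / c) * ENNReal.ofReal (1 / 20 - -(1 / 20)) := by
        unfold Iy
        rw [setLIntegral_const, Real.volume_Ioo]
    _ ≤ ENNReal.ofReal (1 / c) * 1 := by
        apply mul_le_mul_right
        rw [← ENNReal.ofReal_one]
        exact ENNReal.ofReal_le_ofReal (by norm_num)
    _ = ENNReal.ofReal (1 / c) := mul_one _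

theorem Lam_minus : ∃ C : ℝ, 0 < C ∧ ∀ P : Par,
    ∫⁻ y in Iy, ENNReal.ofReal (eb P y)⁻¹ ≤ ENNReal.ofReal (C * P.L) := by
  obtain ⟨c, hc, hlow⟩ := eb_lower
  refine ⟨40 / c, by positivity, ?_⟩
  intro P
  obtain ⟨hsh, hs0⟩ := pe2_half P
  have hL := P.hL
  calc ∫⁻ y in Iy, ENNReal.ofReal (eb P y)⁻¹
      ≤ ∫⁻ y in Iy, ENNReal.ofReal (1 / c) * ENNReal.ofReal ((|y| + P.s ^ 2)⁻¹) := by
        apply setLIntegral_mono' measurableSet_Ioo
        intro y hy
        rw [← ENNReal.ofReal_mul (by positivity)]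
        apply ENNReal.ofReal_le_ofReal
        have e1 := hlow P y (pe2_abs hy)
        have e2 : 0 < |y| + P.s ^ 2 := by positivity
        have e3 : (1 / c) * (|y| + P.s ^ 2)⁻¹ = (c * (|y| + P.s ^ 2))⁻¹ := by
          rw [mul_inv, one_div]
        rw [e3]
        exact inv_anti₀ (by positivity) e1
    _ = ENNReal.ofReal (1 / c) * ∫⁻ y in Iy, ENNReal.ofReal ((|y| + P.s ^ 2)⁻¹) :=
        lintegral_const_mul' _ _ ENNReal.ofReal_ne_top
    _ ≤ ENNReal.ofReal (1 / c) * ENNReal.ofReal (40 * P.L) := by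
        apply mul_le_mul_right
        exact (pe2_B _ hs0 hsh).trans (ENNReal.ofReal_le_ofReal (pe2_log P))
    _ = ENNReal.ofReal (40 / c * P.L) := by
        rw [← ENNReal.ofReal_mul (by positivity)]
        congr 1; ring

theorem e2_int : ∃ c : ℝ, 0 < c ∧ ∀ P : Par,
    ENNReal.ofReal (c * Lam P / P.g) ≤ ∫⁻ y in Iy, ENNReal.ofReal ((ee P y ^ 2)⁻¹) := by
  obtain ⟨C, hC, hup⟩ := ee_upper
  obtain ⟨c1, C1, hc1, hC1, hLb⟩ := Lam_bounds
  refine ⟨1 / (2 * C ^ 2 * C1), by positivity, ?_⟩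
  intro P
  obtain ⟨hs2, hgq, hL, hL1⟩ := pe2_powers P
  obtain ⟨hsh, hs0⟩ := pe2_half P
  have hg := P.g_pos
  have hee : ∀ y, 0 < ee P y := fun y => lt_of_lt_of_le hg (ee_ge P y)
  have ht : 0 < (P.L ^ 22)⁻¹ := by positivity
  have htt : ((P.L ^ 22)⁻¹) ^ 2 = P.s ^ 2 * P.g := by
    rw [hs2, hgq, ← mul_inv, ← pow_add, inv_pow, ← pow_mul]
  have hsub : Ioc (-(P.L ^ 22)⁻¹) ((P.L ^ 22)⁻¹) ⊆ Iy := by
    have h1 : (P.L ^ 22)⁻¹ < 1 / 20 := by
      have h2 : (100 : ℝ) ≤ P.L ^ 22 := by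
        calc (100 : ℝ) ≤ P.L ^ 1 := by rw [pow_one]; exact P.hL
          _ ≤ P.L ^ 22 := pow_le_pow_right₀ hL1 (by norm_num)
      have h3 : (P.L ^ 22)⁻¹ ≤ (100 : ℝ)⁻¹ := inv_anti₀ (by norm_num) h2
      linarith
    intro y hy
    unfold Iy
    exact ⟨by linarith [hy.1], by linarith [hy.2]⟩
  calc ENNReal.ofReal (1 / (2 * C ^ 2 * C1) * Lam P / P.g)
      ≤ ENNReal.ofReal ((4 * C ^ 2 * P.g ^ 2)⁻¹ * (2 * (P.L ^ 22)⁻¹)) := by
        apply ENNReal.ofReal_le_ofReal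
        have h1 := (hLb P).2
        have h2 : (4 * C ^ 2 * P.g ^ 2)⁻¹ * (2 * (P.L ^ 22)⁻¹) =
            1 / (2 * C ^ 2 * C1) * (C1 * P.L ^ 2) / P.g := by
          rw [hgq]
          field_simp
          ring
        rw [h2]
        apply div_le_div_of_nonneg_right _ hg.le
        exact mul_le_mul_of_nonneg_left h1 (by positivity)
    _ = ENNReal.ofReal ((4 * C ^ 2 * P.g ^ 2)⁻¹) * ENNReal.ofReal (2 * (P.L ^ 22)⁻¹) :=
        ENNReal.ofReal_mul (by positivity)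
    _ = ∫⁻ y in Ioc (-(P.L ^ 22)⁻¹) ((P.L ^ 22)⁻¹), ENNReal.ofReal ((4 * C ^ 2 * P.g ^ 2)⁻¹) := by
        rw [setLIntegral_const, Real.volume_Ioc]
        congr 2; ring
    _ ≤ ∫⁻ y in Ioc (-(P.L ^ 22)⁻¹) ((P.L ^ 22)⁻¹), ENNReal.ofReal ((ee P y ^ 2)⁻¹) := by
        apply setLIntegral_mono' measurableSet_Ioc
        intro y hy
        apply ENNReal.ofReal_le_ofReal
        apply inv_anti₀ (by have := hee y; positivity)
        have h2 := hup P y (pe2_abs (hsub hy))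
        have h3 : y ^ 2 ≤ P.s ^ 2 * P.g := by
          rw [← htt, sq_le_sq, abs_of_pos ht]
          exact abs_le.mpr ⟨hy.1.le, hy.2⟩
        have h4 : y ^ 2 / P.s ^ 2 ≤ P.g := by
          rw [div_le_iff₀ hs0]; linarith
        have h5 : ee P y ≤ 2 * C * P.g := by nlinarith
        have h6 : ee P y ^ 2 ≤ (2 * C * P.g) ^ 2 := pow_le_pow_left₀ (hee y).le h5 2
        nlinarith
    _ ≤ ∫⁻ y in Iy, ENNReal.ofReal ((ee P y ^ 2)⁻¹) := lintegral_mono_set hsub

end Pool.Agent.Helper92.HRU
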