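import Pool.Agent.Helper92.HRU.BDefs

/-! Piece PA1: the norm a(f). -/

set_option autoImplicit false

namespace Pool.Agent.Helper92.HRU

open Complex Set MeasureTheory Filter Topology
open scoped ComplexConjugate Real ENNReal
open Pool.Agent.Helper84.HRT (Weyl node chi mu8 XL Data Aop Bop Good)

private theorem pa1_vol (n : ℤ) :
    (volume.restrict (Ico (π * n) (π * (n + 1)))).real univ = π := by
  have hp := Real.pi_pos
  rw [measureReal_def, Measure.restrict_apply_univ, Real.volume_Ico, ENNReal.toReal_ofReal]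
  · ring
  · nlinarith

private theorem pa1_fin (n : ℤ) : IsFiniteMeasure (volume.restrict (Ico (π * n) (π * (n + 1)))) :=
  ⟨by rw [Measure.restrict_apply_univ, Real.volume_Ico]; exact ENNReal.ofReal_lt_top⟩

private theorem pa1_sq (f : L2) : Integrable (fun x => ‖f x‖ ^ 2) (volume : Measure ℝ) :=
  (memLp_two_iff_integrable_sq_norm (Lp.aestronglyMeasurable f)).mp (Lp.memLp f)

theorem aF_nonneg (f : L2) (n : ℤ) : 0 ≤ aF f n :=
  integral_nonneg fun _ => norm_nonneg _

theorem integrable_cell (f : L2) (n : ℤ) :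
    IntegrableOn (fun x => ‖f x‖) (Ico (π * n) (π * (n + 1))) := by
  have := pa1_fin n
  exact (((Lp.memLp f).restrict (Ico (π * n) (π * (n + 1)))).integrable (by norm_num)).norm

theorem aF_sq_le (f : L2) (n : ℤ) :
    aF f n ^ 2 ≤ π * ∫ x in Ico (π * n) (π * (n + 1)), ‖f x‖ ^ 2 := by
  have hp := Real.pi_pos
  have := pa1_fin n
  have hv := pa1_vol n
  set s := Ico (π * n) (π * (n + 1)) with hs
  have h1 : Integrable (fun x => ‖f x‖) (volume.restrict s) := integrable_cell f n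
  have h2 : Integrable (fun x => ‖f x‖ ^ 2) (volume.restrict s) := (pa1_sq f).restrict
  set a := aF f n / π with ha
  have h3 : 0 ≤ ∫ x in s, (‖f x‖ - a) ^ 2 := integral_nonneg fun _ => sq_nonneg _
  have h4 : ∫ x in s, (‖f x‖ - a) ^ 2 = (∫ x in s, ‖f x‖ ^ 2) - 2 * a * aF f n + a ^ 2 * π := by
    have h5 : ∀ x, (‖f x‖ - a) ^ 2 = ‖f x‖ ^ 2 - 2 * a * ‖f x‖ + a ^ 2 := fun x => by ring
    have h9 : Integrable (fun x => 2 * a * ‖f x‖) (volume.restrict s) := h1.const_mul _
    have h10 : Integrable (fun x => ‖f x‖ ^ 2 - 2 * a * ‖f x‖) (volume.restrict s) := h2.sub h9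
    simp_rw [h5]
    rw [integral_add h10 (integrable_const _),
      integral_sub h2 h9, integral_const_mul, integral_const, hv, smul_eq_mul]
    rw [aF]
    ring
  rw [h4] at h3
  have h6 : a * π = aF f n := by
    rw [ha]
    field_simp
  have h7 : a ^ 2 * π = a * aF f n := by
    rw [sq, mul_assoc, h6]
  rw [h7] at h3
  have h8 : aF f n ^ 2 = π * (a * aF f n) := by
    rw [← mul_assoc, mul_comm π a, h6, sq]
  rw [h8]
  exact mul_le_mul_of_nonneg_left (by linarith) hp.le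

private theorem pa1_hasSum (f : L2) :
    HasSum (fun n : ℤ => ∫ x in Ico (π * n) (π * (n + 1)), ‖f x‖ ^ 2) (∫ x, ‖f x‖ ^ 2) := by
  have hp := Real.pi_pos
  have h1 := iUnion_Ico_zsmul hp
  have h2 := pairwise_disjoint_Ico_zsmul (π : ℝ)
  have e : (fun n : ℤ => Ico (n • (π : ℝ)) ((n + 1) • (π : ℝ)))
      = fun n : ℤ => Ico (π * n) (π * (n + 1)) := by
    funext n
    rw [zsmul_eq_mul, zsmul_eq_mul]
    push_cast
    rw [mul_comm, mul_comm π (n + 1 : ℝ)]
  rw [e] at h2
  have h3 : (⋃ n : ℤ, Ico (π * n) (π * (n + 1))) = univ := by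
    rw [← h1]
    exact congrArg iUnion e.symm
  have h4 := hasSum_integral_iUnion (f := fun x => ‖f x‖ ^ 2) (μ := (volume : Measure ℝ))
    (s := fun n : ℤ => Ico (π * n) (π * (n + 1))) (fun n => measurableSet_Ico) h2
    (pa1_sq f).integrableOn
  rw [h3, setIntegral_univ] at h4
  exact h4

theorem summable_aF (f : L2) : Summable fun n : ℤ => aF f n ^ 2 :=
  Summable.of_nonneg_of_le (fun _ => sq_nonneg _) (fun n => aF_sq_le f n)
    ((pa1_hasSum f).summable.mul_left π)

theorem aN_nonneg (f : L2) : 0 ≤ aN f := Real.sqrt_nonneg _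

theorem aN_sq (f : L2) : aN f ^ 2 = ∑' n : ℤ, aF f n ^ 2 :=
  Real.sq_sqrt (tsum_nonneg fun _ => sq_nonneg _)

private theorem pa1_norm (f : L2) : ‖f‖ ^ 2 = ∫ x, ‖f x‖ ^ 2 := by
  have h := norm_toLp_sq (Lp.memLp f)
  rwa [Lp.toLp_coeFn] at h

/-- (B1.1) -/
theorem aN_le (f : L2) : aN f ≤ 2 * ‖f‖ := by
  have hp := Real.pi_pos
  have hp4 := Real.pi_lt_d2
  have h1 : aN f ^ 2 ≤ π * ‖f‖ ^ 2 := by
    rw [aN_sq, pa1_norm, ← (pa1_hasSum f).tsum_eq, ← tsum_mul_left]
    exact (summable_aF f).tsum_le_tsum (fun n => aF_sq_le f n)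
      ((pa1_hasSum f).summable.mul_left π)
  have h2 : aN f ^ 2 ≤ (2 * ‖f‖) ^ 2 := by
    refine h1.trans ?_
    have : 0 ≤ ‖f‖ ^ 2 := by positivity
    nlinarith
  exact le_of_sq_le_sq h2 (by positivity)

private theorem pa1_mono {f g : L2} {C : ℝ} (hC : 0 ≤ C) (h : ∀ n, aF g n ≤ C * aF f n) :
    aN g ≤ C * aN f := by
  refine le_of_sq_le_sq ?_ (mul_nonneg hC (aN_nonneg f))
  rw [mul_pow, aN_sq, aN_sq, ← tsum_mul_left]
  refine (summable_aF g).tsum_le_tsum (fun n => ?_) ((summable_aF f).mul_left _)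
  rw [← mul_pow]
  exact pow_le_pow_left₀ (aF_nonneg g n) (h n) 2

private theorem pa1_congr {f g : L2} (h : ∀ᵐ x : ℝ, ‖f x‖ = ‖g x‖) (n : ℤ) : aF f n = aF g n :=
  setIntegral_congr_ae measurableSet_Ico (by
    filter_upwards [h] with x hx _
    exact hx)

theorem aN_zero : aN 0 = 0 := by
  have h : ∀ n, aF 0 n = 0 := by
    intro n
    rw [aF]
    have : ∀ᵐ x : ℝ, x ∈ Ico (π * n) (π * (n + 1)) → ‖(0 : L2) x‖ = (0 : ℝ) := by
      filter_upwards [Lp.coeFn_zero ℂ 2 (volume : Measure ℝ)] with x hx _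
      rw [hx]
      simp
    rw [setIntegral_congr_ae measurableSet_Ico this]
    simp
  rw [aN]
  simp [h]

theorem aN_neg (f : L2) : aN (-f) = aN f := by
  rw [aN, aN]
  congr 1
  refine tsum_congr fun n => ?_
  congr 1
  refine pa1_congr ?_ n
  filter_upwards [Lp.coeFn_neg f] with x hx
  rw [hx, Pi.neg_apply, norm_neg]

private theorem pa1_add (f g : L2) (n : ℤ) : aF (f + g) n ≤ aF f n + aF g n := by
  rw [aF, aF, aF, ← integral_add (integrable_cell f n) (integrable_cell g n)]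
  refine integral_mono_ae (integrable_cell (f + g) n)
    ((integrable_cell f n).add (integrable_cell g n)) ?_
  refine ae_restrict_of_ae ?_
  filter_upwards [Lp.coeFn_add f g] with x hx
  rw [hx]
  exact norm_add_le _ _

theorem aN_add (f g : L2) : aN (f + g) ≤ aN f + aN g := by
  have e : ∀ (u : ℤ → ℝ), (∑' n, u n ^ (2 : ℝ)) ^ (1 / (2 : ℝ)) = √(∑' n, u n ^ 2) := by
    intro u
    rw [Real.sqrt_eq_rpow]
    simp only [Real.rpow_two]
  have h1 := Real.Lp_add_le_tsum_of_nonneg (p := 2) (by norm_num) (aF_nonneg f) (aF_nonneg g)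
    (by simpa only [Real.rpow_two] using summable_aF f)
    (by simpa only [Real.rpow_two] using summable_aF g)
  obtain ⟨h2, h3⟩ := h1
  rw [e, e, e] at h3
  have h4 : √(∑' n, aF (f + g) n ^ 2) ≤ √(∑' n, (aF f n + aF g n) ^ 2) := by
    refine Real.sqrt_le_sqrt ?_
    refine (summable_aF (f + g)).tsum_le_tsum (fun n => ?_) (by
      simpa only [Real.rpow_two] using h2)
    exact pow_le_pow_left₀ (aF_nonneg _ n) (pa1_add f g n) 2
  exact h4.trans h3

theorem aN_sub (f g : L2) : aN (f - g) ≤ aN f + aN g := by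
  rw [sub_eq_add_neg, ← aN_neg g]
  exact aN_add f (-g)

theorem aN_smul (c : ℂ) (f : L2) : aN (c • f) = ‖c‖ * aN f := by
  have h : ∀ n, aF (c • f) n = ‖c‖ * aF f n := by
    intro n
    rw [aF, aF, ← integral_const_mul]
    refine setIntegral_congr_ae measurableSet_Ico ?_
    filter_upwards [Lp.coeFn_smul c f] with x hx _
    rw [hx, Pi.smul_apply, norm_smul]
  have h2 : aN (c • f) ^ 2 = (‖c‖ * aN f) ^ 2 := by
    rw [mul_pow, aN_sq, aN_sq, ← tsum_mul_left]
    refine tsum_congr fun n => ?_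
    rw [h, mul_pow]
  exact (pow_left_inj₀ (aN_nonneg _) (mul_nonneg (norm_nonneg _) (aN_nonneg f))
    (by norm_num)).1 h2

theorem aN_mul {φ : ℝ → ℂ} (h : BddM φ) {C : ℝ} (hC : ∀ x, ‖φ x‖ ≤ C) (f : L2) :
    aN (mulOp φ f) ≤ C * aN f := by
  have hC0 : 0 ≤ C := (norm_nonneg _).trans (hC 0)
  refine pa1_mono hC0 fun n => ?_
  rw [aF, aF, ← integral_const_mul]
  refine integral_mono_ae (integrable_cell _ n) ((integrable_cell f n).const_mul C) ?_
  refine ae_restrict_of_ae ?_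
  filter_upwards [mulOp_coe h f] with x hx
  rw [hx, norm_mul]
  exact mul_le_mul_of_nonneg_right (hC x) (norm_nonneg _)

end Pool.Agent.Helper92.HRU
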