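import Pool.Agent.Helper92.HRU.BDefs
import Pool.Agent.Helper92.HRU.Pf.PA1
import Pool.Agent.Helper92.HRU.Pf.PQ1

/-! Piece PQ2: algebra of Q, Qc, Cos2, G, Wb. -/

set_option autoImplicit false

namespace Pool.Agent.Helper92.HRU

open Complex Set MeasureTheory Filter Topology
open scoped ComplexConjugate Real ENNReal
open Pool.Agent.Helper84.HRT (Weyl node chi mu8 XL Data Aop Bop Good)

private theorem bddQ (P : Par) : BddM ((Qs P).indicator fun _ => (1 : ℂ)) :=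
  bddM_ind (meas_Qs P)

private theorem bddQc (P : Par) : BddM ((Qs P)ᶜ.indicator fun _ => (1 : ℂ)) :=
  bddM_ind (meas_Qs P).compl

private theorem bddCos : BddM fun x : ℝ => ((2 * Real.cos x : ℝ) : ℂ) := by
  refine ⟨by fun_prop, 2, fun x => ?_⟩
  rw [Complex.norm_real, Real.norm_eq_abs, abs_mul, abs_of_pos (by norm_num : (0 : ℝ) < 2)]
  have := Real.abs_cos_le_one x
  linarith

private theorem mulOp_congr {φ ψ : ℝ → ℂ} (h : ∀ x, φ x = ψ x) (f : L2) :
    mulOp φ f = mulOp ψ f := by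
  have : φ = ψ := funext h
  rw [this]

private theorem mulOp_zero' {φ : ℝ → ℂ} (hφ : BddM φ) (h : ∀ x, φ x = 0) (f : L2) :
    mulOp φ f = 0 := by
  refine Lp.ext ?_
  filter_upwards [mulOp_coe hφ f, Lp.coeFn_zero ℂ 2 (volume : Measure ℝ)] with x h1 h2
  rw [h1, h2, h x, zero_mul, Pi.zero_apply]

theorem Q_Q (P : Par) (f : L2) : Q P (Q P f) = Q P f := by
  unfold Q
  rw [mulOp_mulOp (bddQ P) (bddQ P)]
  refine mulOp_congr (fun x => ?_) f
  by_cases hx : x ∈ Qs P <;> simp [hx]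

theorem Qc_Qc (P : Par) (f : L2) : Qc P (Qc P f) = Qc P f := by
  unfold Qc
  rw [mulOp_mulOp (bddQc P) (bddQc P)]
  refine mulOp_congr (fun x => ?_) f
  by_cases hx : x ∈ Qs P <;> simp [hx]

theorem Q_Qc (P : Par) (f : L2) : Q P (Qc P f) = 0 := by
  unfold Q Qc
  rw [mulOp_mulOp (bddQ P) (bddQc P)]
  refine mulOp_zero' ((bddQ P).mul (bddQc P)) (fun x => ?_) f
  by_cases hx : x ∈ Qs P <;> simp [hx]

theorem Qc_Q (P : Par) (f : L2) : Qc P (Q P f) = 0 := by
  unfold Q Qc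
  rw [mulOp_mulOp (bddQc P) (bddQ P)]
  refine mulOp_zero' ((bddQc P).mul (bddQ P)) (fun x => ?_) f
  by_cases hx : x ∈ Qs P <;> simp [hx]

theorem Q_add_Qc (P : Par) (f : L2) : Q P f + Qc P f = f := by
  unfold Q Qc
  refine Lp.ext ?_
  filter_upwards [Lp.coeFn_add (mulOp ((Qs P).indicator fun _ => 1) f)
    (mulOp ((Qs P)ᶜ.indicator fun _ => 1) f), mulOp_coe (bddQ P) f, mulOp_coe (bddQc P) f]
    with x h1 h2 h3
  rw [h1, Pi.add_apply, h2, h3]
  by_cases hx : x ∈ Qs P <;> simp [hx]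

theorem Q_symm (P : Par) (f g : L2) : inner ℂ (Q P f) g = inner ℂ f (Q P g) := by
  unfold Q
  rw [inner_mulOp (bddQ P)]
  congr 1
  refine mulOp_congr (fun x => ?_) g
  by_cases hx : x ∈ Qs P <;> simp [hx]

theorem Qc_symm (P : Par) (f g : L2) : inner ℂ (Qc P f) g = inner ℂ f (Qc P g) := by
  unfold Qc
  rw [inner_mulOp (bddQc P)]
  congr 1
  refine mulOp_congr (fun x => ?_) g
  by_cases hx : x ∈ Qs P <;> simp [hx]

theorem norm_Q_le (P : Par) (f : L2) : ‖Q P f‖ ≤ ‖f‖ := by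
  have h := norm_mulOp_le (bddQ P) (C := 1) (fun x => ?_) f
  · rw [one_mul] at h
    exact h
  · by_cases hx : x ∈ Qs P <;> simp [hx]

theorem norm_Qc_le (P : Par) (f : L2) : ‖Qc P f‖ ≤ ‖f‖ := by
  have h := norm_mulOp_le (bddQc P) (C := 1) (fun x => ?_) f
  · rw [one_mul] at h
    exact h
  · by_cases hx : x ∈ Qs P <;> simp [hx]

theorem norm_sq_Q (P : Par) (f : L2) : ‖f‖ ^ 2 = ‖Q P f‖ ^ 2 + ‖Qc P f‖ ^ 2 := by
  have h0 : inner ℂ (Q P f) (Qc P f) = 0 := by
    rw [Q_symm, Q_Qc, inner_zero_right]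
  have h := norm_add_sq_eq_norm_sq_add_norm_sq_of_inner_eq_zero (Q P f) (Qc P f) h0
  rw [Q_add_Qc] at h
  nlinarith [h]

theorem Cos2_Q (P : Par) (f : L2) : Cos2 (Q P f) = Q P (Cos2 f) := by
  unfold Cos2 Q
  rw [mulOp_mulOp bddCos (bddQ P), mulOp_mulOp (bddQ P) bddCos]
  exact mulOp_congr (fun x => mul_comm _ _) f

theorem Cos2_Qc (P : Par) (f : L2) : Cos2 (Qc P f) = Qc P (Cos2 f) := by
  unfold Cos2 Qc
  rw [mulOp_mulOp bddCos (bddQc P), mulOp_mulOp (bddQc P) bddCos]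
  exact mulOp_congr (fun x => mul_comm _ _) f

theorem Cos2_symm (f g : L2) : inner ℂ (Cos2 f) g = inner ℂ f (Cos2 g) := by
  unfold Cos2
  rw [inner_mulOp bddCos]
  congr 1
  exact mulOp_congr (fun x => Complex.conj_ofReal _) g

theorem norm_Cos2_le (f : L2) : ‖Cos2 f‖ ≤ 2 * ‖f‖ := by
  refine norm_mulOp_le bddCos (C := 2) (fun x => ?_) f
  rw [Complex.norm_real, Real.norm_eq_abs, abs_mul, abs_of_pos (by norm_num : (0 : ℝ) < 2)]
  have := Real.abs_cos_le_one x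
  linarith

theorem Cos2_eq (f : L2) : Cos2 f = W 1 f + W (-1) f := by
  unfold Cos2
  refine Lp.ext ?_
  filter_upwards [Lp.coeFn_add (W 1 f) (W (-1) f), mulOp_coe bddCos f, W_coe 1 f, W_coe (-1) f]
    with x h1 h2 h3 h4
  rw [h1, Pi.add_apply, h2, h3, h4]
  have e1 : x - 2 * (1 : ℂ).im = x := by simp
  have e2 : x - 2 * (-1 : ℂ).im = x := by simp
  rw [e1, e2, ← add_mul]
  congr 1
  unfold chr
  simp only [Complex.one_re, Complex.one_im, Complex.neg_re, Complex.neg_im, sub_zero, neg_zero,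
    one_mul, neg_mul]
  push_cast
  rw [Complex.cos]
  rw [show (I * -(x : ℂ)) = -(x : ℂ) * I by ring, show I * (x : ℂ) = (x : ℂ) * I by ring]
  ring

theorem G_symm (P : Par) (f g : L2) : inner ℂ (G P f) g = inner ℂ f (G P g) := by
  unfold G
  rw [inner_mulOp (bddM_gf P)]
  congr 1
  refine mulOp_congr (fun x => ?_) g
  unfold gf
  by_cases hx : x ∈ Qs P
  · simp [hx]
  · rw [Set.indicator_of_mem (show x ∈ (Qs P)ᶜ from hx), Complex.conj_ofReal]

theorem norm_G_le (P : Par) (f : L2) : ‖G P f‖ ≤ 11 * ‖f‖ :=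
  norm_mulOp_le (bddM_gf P) (gf_le P) f

theorem G_Q (P : Par) (f : L2) : G P (Q P f) = 0 := by
  unfold G Q
  rw [mulOp_mulOp (bddM_gf P) (bddQ P)]
  refine mulOp_zero' ((bddM_gf P).mul (bddQ P)) (fun x => ?_) f
  unfold gf
  by_cases hx : x ∈ Qs P <;> simp [hx]

theorem Q_G (P : Par) (f : L2) : Q P (G P f) = 0 := by
  unfold G Q
  rw [mulOp_mulOp (bddQ P) (bddM_gf P)]
  refine mulOp_zero' ((bddQ P).mul (bddM_gf P)) (fun x => ?_) f
  unfold gf
  by_cases hx : x ∈ Qs P <;> simp [hx]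

private theorem cos_gf (P : Par) (x : ℝ) :
    ((2 * Real.cos x : ℝ) : ℂ) * gf P x = (Qs P)ᶜ.indicator (fun _ => (1 : ℂ)) x := by
  unfold gf
  by_cases hx : x ∈ Qs P
  · simp [hx]
  · rw [Set.indicator_of_mem (show x ∈ (Qs P)ᶜ from hx),
      Set.indicator_of_mem (show x ∈ (Qs P)ᶜ from hx), ← Complex.ofReal_mul]
    have h := cos_ge P x hx
    have h0 : 2 * Real.cos x ≠ 0 := by
      intro h1
      have h2 : Real.cos x = 0 := by linarith
      rw [h2, abs_zero] at h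
      norm_num at h
    rw [mul_inv_cancel₀ h0, Complex.ofReal_one]

theorem Cos2_G (P : Par) (f : L2) : Cos2 (G P f) = Qc P f := by
  unfold Cos2 G Qc
  rw [mulOp_mulOp bddCos (bddM_gf P)]
  exact mulOp_congr (cos_gf P) f

theorem G_Cos2 (P : Par) (f : L2) : G P (Cos2 f) = Qc P f := by
  unfold Cos2 G Qc
  rw [mulOp_mulOp (bddM_gf P) bddCos]
  exact mulOp_congr (fun x => by rw [mul_comm, cos_gf]) f

theorem Wb_symm (P : Par) (gb : ℂ) (f g : L2) :
    inner ℂ (Wb P gb f) g = inner ℂ f (Wb P gb g) := by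
  unfold Wb
  simp only [ContinuousLinearMap.add_apply, ContinuousLinearMap.smul_apply, inner_add_left,
    inner_add_right, inner_smul_left, inner_smul_right, inner_W, neg_neg, Complex.conj_ofReal,
    Complex.conj_conj]
  ring

theorem B0_symm (P : Par) (gb : ℂ) (f g : L2) :
    inner ℂ (B0 P gb f) g = inner ℂ f (B0 P gb g) := by
  unfold B0
  simp only [ContinuousLinearMap.add_apply, ContinuousLinearMap.smul_apply, inner_add_left,
    inner_add_right, inner_smul_left, inner_smul_right, Cos2_symm, Wb_symm, Complex.conj_ofReal]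

theorem aN_Q_le (P : Par) (f : L2) : aN (Q P f) ≤ aN f := by
  have h := aN_mul (bddQ P) (C := 1) (fun x => ?_) f
  · rw [one_mul] at h
    exact h
  · by_cases hx : x ∈ Qs P <;> simp [hx]

theorem aN_G_le (P : Par) (f : L2) : aN (G P f) ≤ 11 * aN f :=
  aN_mul (bddM_gf P) (gf_le P) f

end Pool.Agent.Helper92.HRU
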