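import Pool.Agent.Helper92.HRU.Pf.PN1
import Pool.Agent.Helper92.HRU.Pf.PN2
import Pool.Agent.Helper92.HRU.Pf.PA1
import Pool.Agent.Helper92.HRU.Pf.PQ1
import Pool.Agent.Helper92.HRU.Pf.PQ2

/-! Piece PJ1: the swap. -/

set_option autoImplicit false

namespace Pool.Agent.Helper92.HRU

open Complex Set MeasureTheory Filter Topology
open scoped ComplexConjugate Real ENNReal
open Pool.Agent.Helper84.HRT (Weyl node chi mu8 XL Data Aop Bop Good)

theorem rho_pos (P : Par) (y : ℝ) : 0 < rho P y := by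
  have h1 := P.s_pos
  have h2 := P.Th_bd.1
  have h3 : 0 < P.s ^ 4 * P.Th ^ 2 := by
    have : 0 < P.Th := by linarith only [h2]
    positivity
  unfold rho
  apply Real.sqrt_pos.2
  nlinarith only [h3, sq_nonneg (Real.sin y)]

theorem cf_sq_add_sf_sq (P : Par) (y : ℝ) : cf P y ^ 2 + sf P y ^ 2 = 1 := by
  have h := rho_pos P y
  have h2 : rho P y ^ 2 = 4 * Real.sin y ^ 2 + P.s ^ 4 * P.Th ^ 2 := by
    unfold rho
    rw [Real.sq_sqrt]
    positivity
  unfold cf sf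
  rw [div_pow, div_pow, ← add_div, div_eq_one_iff_eq (by positivity), h2]
  ring

theorem norm_ze (P : Par) (gb : ℂ) (hg : ‖gb‖ = 1) (k : ℤ) : ‖ze P gb k‖ = 1 := by
  unfold ze
  rw [norm_neg, norm_mul, hg, one_mul, mul_comm, Complex.norm_exp_ofReal_mul_I]

theorem pj1_mem (P : Par) {x : ℝ} (hx : x ∈ Qs P) : |yo P x| ≤ 1 := by
  have := (mem_Qs P x).1 hx
  linarith

theorem pj1_eq (P : Par) (x : ℝ) : x = Pt P (idx x) + yo P x := by
  unfold yo
  ring

/-- shift from an even line to the odd line on its left -/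
theorem pj1_shift_even (P : Par) {x : ℝ} (hx : x ∈ Qs P) (he : Even (idx x)) :
    x - P.sh ∈ Qs P ∧ idx (x - P.sh) = idx x - 1 ∧ yo P (x - P.sh) = yo P x := by
  have h1 := pj1_mem P hx
  have ho : ¬ Even (idx x - 1) := by
    rw [Int.not_even_iff_odd]
    exact he.sub_odd odd_one
  have h2 : x - P.sh = Pt P (idx x - 1) + yo P x := by
    have h3 := pj1_eq P x
    have h4 : Pt P (idx x) - P.sh = Pt P (idx x - 1) := by
      unfold Pt Par.sh
      rw [if_pos he, if_neg ho]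
      push_cast
      ring
    linarith
  have h5 := idx_of_near P (idx x - 1) (yo P x) h1
  have h6 := yo_of_near P (idx x - 1) (yo P x) h1
  rw [← h2] at h5 h6
  refine ⟨?_, h5, h6⟩
  rw [mem_Qs, h6]
  exact (mem_Qs P x).1 hx

/-- shift from an odd line to the even line on its right -/
theorem pj1_shift_odd (P : Par) {x : ℝ} (hx : x ∈ Qs P) (ho : Odd (idx x)) :
    x + P.sh ∈ Qs P ∧ idx (x + P.sh) = idx x + 1 ∧ yo P (x + P.sh) = yo P x := by
  have h1 := pj1_mem P hx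
  have he : Even (idx x + 1) := ho.add_odd odd_one
  have ho' : ¬ Even (idx x) := by rwa [Int.not_even_iff_odd]
  have h2 : x + P.sh = Pt P (idx x + 1) + yo P x := by
    have h3 := pj1_eq P x
    have h4 : Pt P (idx x) + P.sh = Pt P (idx x + 1) := by
      unfold Pt Par.sh
      rw [if_pos he, if_neg ho']
      push_cast
      ring
    linarith
  have h5 := idx_of_near P (idx x + 1) (yo P x) h1
  have h6 := yo_of_near P (idx x + 1) (yo P x) h1
  rw [← h2] at h5 h6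
  refine ⟨?_, h5, h6⟩
  rw [mem_Qs, h6]
  exact (mem_Qs P x).1 hx

theorem pj1_s1_pos (P : Par) (gb : ℂ) {x : ℝ} (hx : x ∈ Qs P) (he : Even (idx x)) :
    s1 P gb x = ze P gb (idx x / 2) := by
  unfold s1
  rw [if_pos ⟨hx, he⟩]

theorem pj1_s1_neg (P : Par) (gb : ℂ) {x : ℝ} (h : ¬ (x ∈ Qs P ∧ Even (idx x))) :
    s1 P gb x = 0 := by
  unfold s1
  rw [if_neg h]

theorem pj1_s2_pos (P : Par) (gb : ℂ) {x : ℝ} (hx : x ∈ Qs P) (ho : Odd (idx x)) :
    s2 P gb x = conj (ze P gb ((idx x + 1) / 2)) := by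
  unfold s2
  rw [if_pos ⟨hx, ho⟩]

theorem pj1_s2_neg (P : Par) (gb : ℂ) {x : ℝ} (h : ¬ (x ∈ Qs P ∧ Odd (idx x))) :
    s2 P gb x = 0 := by
  unfold s2
  rw [if_neg h]

theorem pj1_norm_s1 (P : Par) (gb : ℂ) (hg : ‖gb‖ = 1) (x : ℝ) : ‖s1 P gb x‖ ≤ 1 := by
  by_cases h : x ∈ Qs P ∧ Even (idx x)
  · rw [pj1_s1_pos P gb h.1 h.2, norm_ze P gb hg]
  · rw [pj1_s1_neg P gb h, norm_zero]
    exact zero_le_one

theorem pj1_norm_s2 (P : Par) (gb : ℂ) (hg : ‖gb‖ = 1) (x : ℝ) : ‖s2 P gb x‖ ≤ 1 := by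
  by_cases h : x ∈ Qs P ∧ Odd (idx x)
  · rw [pj1_s2_pos P gb h.1 h.2, RCLike.norm_conj, norm_ze P gb hg]
  · rw [pj1_s2_neg P gb h, norm_zero]
    exact zero_le_one

theorem pj1_bdd_s1 (P : Par) (gb : ℂ) (hg : ‖gb‖ = 1) : BddM (s1 P gb) := by
  classical
  refine ⟨?_, 1, pj1_norm_s1 P gb hg⟩
  have h1 : s1 P gb = (Qs P).indicator
      ((fun n : ℤ => if Even n then ze P gb (n / 2) else 0) ∘ idx) := by
    funext x
    by_cases hx : x ∈ Qs P
    · rw [Set.indicator_of_mem hx]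
      by_cases he : Even (idx x)
      · rw [pj1_s1_pos P gb hx he, Function.comp_apply, if_pos he]
      · rw [pj1_s1_neg P gb (fun h => he h.2), Function.comp_apply, if_neg he]
    · rw [Set.indicator_of_notMem hx, pj1_s1_neg P gb (fun h => hx h.1)]
  rw [h1]
  exact ((measurable_from_top).comp idx_meas).indicator (meas_Qs P)

theorem pj1_bdd_s2 (P : Par) (gb : ℂ) (hg : ‖gb‖ = 1) : BddM (s2 P gb) := by
  classical
  refine ⟨?_, 1, pj1_norm_s2 P gb hg⟩
  have h1 : s2 P gb = (Qs P).indicator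
      ((fun n : ℤ => if Odd n then conj (ze P gb ((n + 1) / 2)) else 0) ∘ idx) := by
    funext x
    by_cases hx : x ∈ Qs P
    · rw [Set.indicator_of_mem hx]
      by_cases he : Odd (idx x)
      · rw [pj1_s2_pos P gb hx he, Function.comp_apply, if_pos he]
      · rw [pj1_s2_neg P gb (fun h => he h.2), Function.comp_apply, if_neg he]
    · rw [Set.indicator_of_notMem hx, pj1_s2_neg P gb (fun h => hx h.1)]
  rw [h1]
  exact ((measurable_from_top).comp idx_meas).indicator (meas_Qs P)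

theorem pj1_Sw_apply (P : Par) (gb : ℂ) (f : L2) :
    Sw P gb f = mulOp (s1 P gb) (trOp P.sh f) + mulOp (s2 P gb) (trOp (-P.sh) f) := rfl

/-- pointwise formula for the swap -/
theorem Sw_coe (P : Par) (gb : ℂ) (hg : ‖gb‖ = 1) (f : L2) : (Sw P gb f : ℝ → ℂ) =ᵐ[volume]
    fun x => s1 P gb x * f (x - P.sh) + s2 P gb x * f (x + P.sh) := by
  rw [pj1_Sw_apply]
  filter_upwards [Lp.coeFn_add (mulOp (s1 P gb) (trOp P.sh f)) (mulOp (s2 P gb) (trOp (-P.sh) f)),
    mulOp_coe (pj1_bdd_s1 P gb hg) (trOp P.sh f), mulOp_coe (pj1_bdd_s2 P gb hg) (trOp (-P.sh) f),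
    trOp_coe P.sh f, trOp_coe (-P.sh) f] with x h1 h2 h3 h4 h5
  rw [h1, Pi.add_apply, h2, h3, h4, h5, sub_neg_eq_add]

theorem pj1_s1_conj (P : Par) (gb : ℂ) (x : ℝ) : conj (s1 P gb (x + P.sh)) = s2 P gb x := by
  by_cases h : x ∈ Qs P ∧ Odd (idx x)
  · obtain ⟨h1, h2, _⟩ := pj1_shift_odd P h.1 h.2
    have h4 : Even (idx (x + P.sh)) := by rw [h2]; exact h.2.add_odd odd_one
    rw [pj1_s1_pos P gb h1 h4, pj1_s2_pos P gb h.1 h.2, h2]
  · rw [pj1_s2_neg P gb h]
    by_cases h' : x + P.sh ∈ Qs P ∧ Even (idx (x + P.sh))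
    · exfalso
      obtain ⟨h1, h2, _⟩ := pj1_shift_even P h'.1 h'.2
      rw [add_sub_cancel_right] at h1 h2
      refine h ⟨h1, ?_⟩
      rw [h2]
      exact h'.2.sub_odd odd_one
    · rw [pj1_s1_neg P gb h', map_zero]

theorem pj1_s2_conj (P : Par) (gb : ℂ) (x : ℝ) : conj (s2 P gb (x - P.sh)) = s1 P gb x := by
  rw [← pj1_s1_conj P gb (x - P.sh), sub_add_cancel, Complex.conj_conj]

theorem pj1_ze_conj (P : Par) (gb : ℂ) (hg : ‖gb‖ = 1) (k : ℤ) :
    ze P gb k * conj (ze P gb k) = 1 := by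
  rw [Complex.mul_conj, Complex.normSq_eq_norm_sq, norm_ze P gb hg]
  norm_num

/-- the four products -/
theorem pj1_prod (P : Par) (gb : ℂ) (hg : ‖gb‖ = 1) (x : ℝ) :
    s1 P gb x * s1 P gb (x - P.sh) = 0 ∧ s2 P gb x * s2 P gb (x + P.sh) = 0 ∧
    s1 P gb x * s2 P gb (x - P.sh) + s2 P gb x * s1 P gb (x + P.sh)
      = (Qs P).indicator (fun _ => 1) x := by
  by_cases hx : x ∈ Qs P
  · rw [Set.indicator_of_mem hx]
    rcases Int.even_or_odd (idx x) with he | ho
    · obtain ⟨h1, h2, _⟩ := pj1_shift_even P hx he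
      have ho' : Odd (idx (x - P.sh)) := by rw [h2]; exact he.sub_odd odd_one
      have h3 : s2 P gb x = 0 :=
        pj1_s2_neg P gb (fun h => (Int.not_odd_iff_even.2 he) h.2)
      have h4 : s1 P gb (x - P.sh) = 0 :=
        pj1_s1_neg P gb (fun h => (Int.not_even_iff_odd.2 ho') h.2)
      refine ⟨by rw [h4, mul_zero], by rw [h3, zero_mul], ?_⟩
      rw [h3, zero_mul, add_zero, pj1_s1_pos P gb hx he, pj1_s2_pos P gb h1 ho', h2,
        sub_add_cancel]
      exact pj1_ze_conj P gb hg _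
    · obtain ⟨h1, h2, _⟩ := pj1_shift_odd P hx ho
      have he' : Even (idx (x + P.sh)) := by rw [h2]; exact ho.add_odd odd_one
      have h3 : s1 P gb x = 0 :=
        pj1_s1_neg P gb (fun h => (Int.not_even_iff_odd.2 ho) h.2)
      have h4 : s2 P gb (x + P.sh) = 0 :=
        pj1_s2_neg P gb (fun h => (Int.not_odd_iff_even.2 he') h.2)
      refine ⟨by rw [h3, zero_mul], by rw [h4, mul_zero], ?_⟩
      rw [h3, zero_mul, zero_add, pj1_s2_pos P gb hx ho, pj1_s1_pos P gb h1 he', h2, mul_comm]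
      exact pj1_ze_conj P gb hg _
  · rw [Set.indicator_of_notMem hx, pj1_s1_neg P gb (fun h => hx h.1),
      pj1_s2_neg P gb (fun h => hx h.1)]
    simp

theorem pj1_Q_coe (P : Par) (f : L2) : (Q P f : ℝ → ℂ) =ᵐ[volume]
    fun x => (Qs P).indicator (fun _ => (1 : ℂ)) x * f x :=
  mulOp_coe (bddM_ind (meas_Qs P)) f

theorem pj1_ae_add {p : ℝ → Prop} (h : ∀ᵐ x, p x) (c : ℝ) : ∀ᵐ x, p (x + c) := by
  filter_upwards [ae_comp_sub h (-c)] with x hx
  rwa [sub_neg_eq_add] at hx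

theorem Sw_Sw (P : Par) (gb : ℂ) (hg : ‖gb‖ = 1) (f : L2) : Sw P gb (Sw P gb f) = Q P f := by
  refine Lp.ext ?_
  filter_upwards [Sw_coe P gb hg (Sw P gb f), ae_comp_sub (Sw_coe P gb hg f) P.sh,
    pj1_ae_add (Sw_coe P gb hg f) P.sh, pj1_Q_coe P f] with x h1 h2 h3 h4
  rw [h1, h2, h3, h4, sub_add_cancel, add_sub_cancel_right]
  obtain ⟨h5, h6, h7⟩ := pj1_prod P gb hg x
  rw [← h7]
  linear_combination (f (x - P.sh - P.sh)) * h5 + (f (x + P.sh + P.sh)) * h6

theorem Sw_symm (P : Par) (gb : ℂ) (hg : ‖gb‖ = 1) (f h : L2) :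
    inner ℂ (Sw P gb f) h = inner ℂ f (Sw P gb h) := by
  have b1 := pj1_bdd_s1 P gb hg
  have b2 := pj1_bdd_s2 P gb hg
  rw [pj1_Sw_apply, pj1_Sw_apply, inner_add_left, inner_add_right, inner_mulOp b1,
    inner_mulOp b2, inner_trOp, inner_trOp, neg_neg, trOp_mulOp b1.star, trOp_mulOp b2.star,
    add_comm]
  congr 4
  · funext x
    exact pj1_s2_conj P gb x
  · funext x
    rw [sub_neg_eq_add]
    exact pj1_s1_conj P gb x

theorem Q_Sw (P : Par) (gb : ℂ) (hg : ‖gb‖ = 1) (f : L2) : Q P (Sw P gb f) = Sw P gb f := by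
  refine Lp.ext ?_
  filter_upwards [Sw_coe P gb hg f, pj1_Q_coe P (Sw P gb f)] with x h1 h2
  rw [h2, h1]
  by_cases hx : x ∈ Qs P
  · rw [Set.indicator_of_mem hx, one_mul]
  · rw [Set.indicator_of_notMem hx, pj1_s1_neg P gb (fun h => hx h.1),
      pj1_s2_neg P gb (fun h => hx h.1)]
    simp

theorem Sw_Q (P : Par) (gb : ℂ) (hg : ‖gb‖ = 1) (f : L2) : Sw P gb (Q P f) = Sw P gb f := by
  rw [← Sw_Sw P gb hg f, Sw_Sw P gb hg (Sw P gb f), Q_Sw P gb hg]

theorem norm_Sw_le (P : Par) (gb : ℂ) (hg : ‖gb‖ = 1) (f : L2) : ‖Sw P gb f‖ ≤ ‖f‖ := by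
  have h1 : (inner ℂ (Sw P gb f) (Sw P gb f) : ℂ) = inner ℂ f (Q P f) := by
    rw [Sw_symm P gb hg, Sw_Sw P gb hg]
  have h2 : ‖Sw P gb f‖ ^ 2 ≤ ‖f‖ * ‖Q P f‖ := by
    have h3 := norm_inner_le_norm (𝕜 := ℂ) f (Q P f)
    rw [← h1, inner_self_eq_norm_sq_to_K] at h3
    have h4 : ‖((‖Sw P gb f‖ : ℝ) : ℂ) ^ 2‖ = ‖Sw P gb f‖ ^ 2 := by
      rw [norm_pow, Complex.norm_real, norm_norm]
    have h5 : ‖((‖Sw P gb f‖ : ℝ) : ℂ) ^ 2‖ ≤ ‖f‖ * ‖Q P f‖ := h3
    rwa [h4] at h5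
  have h3 := norm_Q_le P f
  nlinarith only [h2, h3, norm_nonneg f, norm_nonneg (Sw P gb f), norm_nonneg (Q P f)]

/-- the permutation of the lines -/
theorem pj1_inv : Function.Involutive (fun n : ℤ => if Even n then n - 1 else n + 1) := by
  intro n
  by_cases h : Even n
  · have ho : ¬ Even (n - 1) := by
      rw [Int.not_even_iff_odd]
      exact h.sub_odd odd_one
    simp only [if_pos h, if_neg ho, sub_add_cancel]
  · have he : Even (n + 1) := by
      rw [Int.not_even_iff_odd] at h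
      exact h.add_odd odd_one
    simp only [if_neg h, if_pos he, add_sub_cancel_right]

theorem pj1_idx_cell {n : ℤ} {x : ℝ} (hx : x ∈ Ico (π * n) (π * (n + 1))) : idx x = n := by
  unfold idx
  rw [Int.floor_eq_iff]
  constructor
  · rw [le_div_iff₀ Real.pi_pos]; linarith [hx.1]
  · rw [div_lt_iff₀ Real.pi_pos]; linarith [hx.2]

theorem pj1_cell_idx (x : ℝ) : x ∈ Ico (π * (idx x : ℤ)) (π * ((idx x : ℤ) + 1)) := by
  unfold idx
  constructor
  · have := Int.floor_le (x / π)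
    rw [le_div_iff₀ Real.pi_pos] at this
    linarith
  · have := Int.lt_floor_add_one (x / π)
    rw [div_lt_iff₀ Real.pi_pos] at this
    linarith

theorem pj1_aF_shift (f : L2) (m : ℤ) (c : ℝ) :
    ∫ x, (Ico (π * m) (π * (m + 1))).indicator (fun x => ‖f x‖) (x - c) = aF f m := by
  rw [integral_sub_right_eq_self (fun x => (Ico (π * m) (π * (m + 1))).indicator
    (fun x => ‖f x‖) x) c, integral_indicator measurableSet_Ico]
  rfl

theorem pj1_int_shift (f : L2) (m : ℤ) (c : ℝ) :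
    Integrable (fun x => (Ico (π * m) (π * (m + 1))).indicator (fun x => ‖f x‖) (x - c)) := by
  have h := (integrable_indicator_iff (measurableSet_Ico (a := π * (m : ℝ))
    (b := π * (m + 1)))).2 (integrable_cell f m)
  exact h.comp_sub_right c

theorem pj1_aF (P : Par) (gb : ℂ) (hg : ‖gb‖ = 1) (f : L2) (n : ℤ) :
    aF (Sw P gb f) n ≤ aF f (if Even n then n - 1 else n + 1) := by
  have key : ∃ c : ℝ, ∀ᵐ x : ℝ, x ∈ Ico (π * n) (π * (n + 1)) →
      ‖(Sw P gb f : ℝ → ℂ) x‖ ≤ (Ico (π * ((if Even n then n - 1 else n + 1 : ℤ) : ℝ))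
        (π * (((if Even n then n - 1 else n + 1 : ℤ) : ℝ) + 1))).indicator
          (fun x => ‖f x‖) (x - c) := by
    by_cases he : Even n
    · refine ⟨P.sh, ?_⟩
      filter_upwards [Sw_coe P gb hg f] with x h1 hx
      have hi := pj1_idx_cell hx
      rw [h1, pj1_s2_neg P gb (fun h => (Int.not_odd_iff_even.2 he) (hi ▸ h.2)), zero_mul,
        add_zero, if_pos he]
      by_cases hq : x ∈ Qs P
      · obtain ⟨_, h3, _⟩ := pj1_shift_even P hq (hi.symm ▸ he)
        have h4 := pj1_cell_idx (x - P.sh)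
        rw [h3, hi] at h4
        rw [Set.indicator_of_mem h4, norm_mul]
        exact mul_le_of_le_one_left (norm_nonneg _) (pj1_norm_s1 P gb hg x)
      · rw [pj1_s1_neg P gb (fun h => hq h.1), zero_mul, norm_zero]
        exact Set.indicator_nonneg (fun _ _ => norm_nonneg _) _
    · refine ⟨-P.sh, ?_⟩
      filter_upwards [Sw_coe P gb hg f] with x h1 hx
      have hi := pj1_idx_cell hx
      have ho : Odd n := Int.not_even_iff_odd.1 he
      rw [h1, pj1_s1_neg P gb (fun h => he (hi ▸ h.2)), zero_mul, zero_add, if_neg he,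
        sub_neg_eq_add]
      by_cases hq : x ∈ Qs P
      · obtain ⟨_, h3, _⟩ := pj1_shift_odd P hq (hi.symm ▸ ho)
        have h4 := pj1_cell_idx (x + P.sh)
        rw [h3, hi] at h4
        rw [Set.indicator_of_mem h4, norm_mul]
        exact mul_le_of_le_one_left (norm_nonneg _) (pj1_norm_s2 P gb hg x)
      · rw [pj1_s2_neg P gb (fun h => hq h.1), zero_mul, norm_zero]
        exact Set.indicator_nonneg (fun _ _ => norm_nonneg _) _
  obtain ⟨c, hc⟩ := key
  set m : ℤ := if Even n then n - 1 else n + 1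
  calc aF (Sw P gb f) n
      ≤ ∫ x in Ico (π * n) (π * (n + 1)),
          (Ico (π * m) (π * (m + 1))).indicator (fun x => ‖f x‖) (x - c) := by
        unfold aF
        refine setIntegral_mono_ae_restrict (integrable_cell _ n)
          (pj1_int_shift f m c).integrableOn ?_
        exact (ae_restrict_iff' measurableSet_Ico).2 hc
    _ ≤ ∫ x, (Ico (π * m) (π * (m + 1))).indicator (fun x => ‖f x‖) (x - c) := by
        refine setIntegral_le_integral (pj1_int_shift f m c) (ae_of_all _ fun x => ?_)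
        exact Set.indicator_nonneg (fun _ _ => norm_nonneg _) _
    _ = aF f m := pj1_aF_shift f m c

theorem pj1_aN_Sw_le (P : Par) (gb : ℂ) (hg : ‖gb‖ = 1) (f : L2) : aN (Sw P gb f) ≤ aN f := by
  unfold aN
  apply Real.sqrt_le_sqrt
  set e : ℤ ≃ ℤ := pj1_inv.toPerm
  have h1 : ∑' n : ℤ, aF f n ^ 2 = ∑' n : ℤ, aF f (e n) ^ 2 :=
    (e.tsum_eq (fun n => aF f n ^ 2)).symm
  rw [h1]
  refine (summable_aF _).tsum_le_tsum (fun n => ?_) ((e.summable_iff).2 (summable_aF f))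
  exact pow_le_pow_left₀ (aF_nonneg _ n) (pj1_aF P gb hg f n) 2

theorem aN_Sw_le (P : Par) (gb : ℂ) (hg : ‖gb‖ = 1) (f : L2) : aN (Sw P gb f) ≤ 4 * aN f := by
  have h1 := pj1_aN_Sw_le P gb hg f
  have h2 := aN_nonneg f
  linarith

end Pool.Agent.Helper92.HRU
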