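import Pool.Agent.Helper92.HRU.BDefs
import Pool.Agent.Helper54.HRT.KX

/-! Piece PK1: basics of the perturbation X. -/

set_option autoImplicit false

namespace Pool.Agent.Helper92.HRU

open Complex Set MeasureTheory Filter Topology
open scoped ComplexConjugate Real ENNReal
open Pool.Agent.Helper84.HRT (Weyl node chi mu8 XL Data Aop Bop Good)

/-- (general kernel formula) -/
theorem XL_kernel (M : ℝ) (ξ : ℝ → ℂ) (hm : Measurable ξ)
    (hs : ∀ᵐ t : ℝ, ξ (t + 1 / 2) = conj (ξ t))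
    (hb : ∀ᵐ t : ℝ, ‖ξ t‖ ≤ M * |Real.cos (2 * π * t)|) (f : L2) :
    (XL LW mu8 ξ f : ℝ → ℂ) =ᵐ[volume]
      kerf (fun u => ξ (Real.arcsin (u / 2) / (2 * π)) / ((4 * π * cc u : ℝ) : ℂ)) f := by
  have hM : ∀ᵐ t : ℝ, ‖ξ t‖ ≤ |M| := by
    filter_upwards [hb] with t ht
    refine ht.trans ?_
    have h1 := Real.abs_cos_le_one (2 * π * t)
    calc M * |Real.cos (2 * π * t)| ≤ |M| * |Real.cos (2 * π * t)| :=
          mul_le_mul_of_nonneg_right (le_abs_self M) (abs_nonneg _)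
      _ ≤ |M| * 1 := mul_le_mul_of_nonneg_left h1 (abs_nonneg _)
      _ = |M| := mul_one _
  filter_upwards [Pool.Agent.Helper54.HRT.XL_kernel hm hM hs f] with x hx
  exact hx.2

private theorem pk1_sin (t : ℝ) :
    2 * Real.sin (2 * π * (t + 1 / 2)) = -(2 * Real.sin (2 * π * t)) := by
  have : 2 * π * (t + 1 / 2) = 2 * π * t + π := by ring
  rw [this, Real.sin_add_pi]
  ring

private theorem pk1_win (t : ℝ) : t + 1 / 2 ∈ Win ↔ t ∈ Win := by
  change (1 / 2 < |2 * Real.sin (2 * π * (t + 1 / 2))| ∧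
    |2 * Real.sin (2 * π * (t + 1 / 2))| < 3 / 2) ↔ (1 / 2 < |2 * Real.sin (2 * π * t)| ∧
    |2 * Real.sin (2 * π * t)| < 3 / 2)
  rw [pk1_sin, abs_neg]

private theorem pk1_winMeas : MeasurableSet Win := by
  have h1 : Measurable fun t : ℝ => |2 * Real.sin (2 * π * t)| := by fun_prop
  exact (measurableSet_lt measurable_const h1).inter (measurableSet_lt h1 measurable_const)

theorem AdmX.win {P : Par} {r : ℝ} {ξ : ℝ → ℂ} (h : AdmX P r ξ) : AdmX P r (Win.indicator ξ) := by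
  refine ⟨h.meas.indicator pk1_winMeas, ?_, ?_⟩
  · filter_upwards [h.sym] with t ht
    by_cases hw : t ∈ Win
    · rw [indicator_of_mem hw, indicator_of_mem ((pk1_win t).2 hw), ht]
    · rw [indicator_of_notMem hw, indicator_of_notMem (fun h' => hw ((pk1_win t).1 h')), map_zero]
  · filter_upwards [h.bd] with t ht
    by_cases hw : t ∈ Win
    · rwa [indicator_of_mem hw]
    · rw [indicator_of_notMem hw, norm_zero]
      exact (norm_nonneg _).trans ht

theorem AdmX.compl {P : Par} {r : ℝ} {ξ : ℝ → ℂ} (h : AdmX P r ξ) :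
    AdmX P r (Winᶜ.indicator ξ) := by
  refine ⟨h.meas.indicator pk1_winMeas.compl, ?_, ?_⟩
  · filter_upwards [h.sym] with t ht
    by_cases hw : t ∈ Winᶜ
    · have hw' : t + 1 / 2 ∈ Winᶜ := fun h' => hw ((pk1_win t).1 h')
      rw [indicator_of_mem hw, indicator_of_mem hw', ht]
    · have hw' : t + 1 / 2 ∉ Winᶜ := fun h' => hw fun h'' => h' ((pk1_win t).2 h'')
      rw [indicator_of_notMem hw, indicator_of_notMem hw', map_zero]
  · filter_upwards [h.bd] with t ht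
    by_cases hw : t ∈ Winᶜ
    · rwa [indicator_of_mem hw]
    · rw [indicator_of_notMem hw, norm_zero]
      exact (norm_nonneg _).trans ht

theorem AdmX.smul {P : Par} {r : ℝ} {ξ : ℝ → ℂ} (h : AdmX P r ξ) {t : ℝ} (h0 : 0 ≤ t)
    (h1 : t ≤ 1) : AdmX P r (fun x => (t : ℂ) * ξ x) := by
  refine ⟨h.meas.const_mul _, ?_, ?_⟩
  · filter_upwards [h.sym] with x hx
    rw [hx, map_mul, Complex.conj_ofReal]
  · filter_upwards [h.bd] with x hx
    rw [norm_mul, Complex.norm_real, Real.norm_eq_abs, abs_of_nonneg h0]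
    calc t * ‖ξ x‖ ≤ 1 * ‖ξ x‖ := mul_le_mul_of_nonneg_right h1 (norm_nonneg _)
      _ = ‖ξ x‖ := one_mul _
      _ ≤ _ := hx

private theorem pk1_e2 (P : Par) : 0 ≤ P.e2 ∧ P.e2 ≤ 1 := by
  have h := P.hL
  have h1 : (1 : ℝ) ≤ P.L ^ 3 := one_le_pow₀ (by linarith)
  exact ⟨by unfold Par.e2; positivity, inv_le_one_of_one_le₀ h1⟩

private theorem pk1_kaph (P : Par) (u : ℝ) : 0 ≤ kaph P u ∧ kaph P u ≤ 1 := by
  unfold kaph
  split_ifs
  · exact ⟨zero_le_one, le_rfl⟩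
  · exact pk1_e2 P

theorem kap_nonneg (P : Par) (t : ℝ) : 0 ≤ kap P t :=
  mul_nonneg (abs_nonneg _) (pk1_kaph P _).1

theorem kap_le (P : Par) (t : ℝ) : kap P t ≤ 1 := by
  have h := pk1_kaph P (2 * Real.sin (2 * π * t))
  calc kap P t ≤ 1 * 1 := mul_le_mul (Real.abs_cos_le_one _) h.2 h.1 zero_le_one
    _ = 1 := one_mul 1

theorem AdmX.zero (P : Par) {r : ℝ} (hr : 0 ≤ r) : AdmX P r (fun _ => 0) := by
  refine ⟨measurable_const, ae_of_all _ fun t => by simp, ae_of_all _ fun t => ?_⟩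
  rw [norm_zero]
  exact mul_nonneg hr (kap_nonneg P t)

theorem kap_meas (P : Par) : Measurable (kap P) := by
  have h1 : Measurable fun u : ℝ => |u| := by fun_prop
  have h2 : Measurable (kaph P) := by
    unfold kaph
    refine Measurable.ite ?_ measurable_const measurable_const
    exact (measurableSet_lt measurable_const h1).inter (measurableSet_lt h1 measurable_const)
  have h3 : Measurable fun t : ℝ => 2 * Real.sin (2 * π * t) := by fun_prop
  have h4 : Measurable fun t : ℝ => |Real.cos (2 * π * t)| := by fun_prop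
  exact h4.mul (h2.comp h3)

/-! general facts with a bounded coefficient function -/

private theorem pk1_bd {M : ℝ} {ξ : ℝ → ℂ} (hm : Measurable ξ) (hM : ∀ᵐ t : ℝ, ‖ξ t‖ ≤ M) :
    Pool.Agent.Helper84.HRT.Bd mu8 M ξ := Pool.Agent.Helper54.HRT.bd_mu8 hm hM

private theorem pk1_int {M : ℝ} {ξ : ℝ → ℂ} (hm : Measurable ξ) (hM : ∀ᵐ t : ℝ, ‖ξ t‖ ≤ M)
    (f : L2) : Integrable (fun t => ξ t • W (node t) f) mu8 :=
  Pool.Agent.Helper54.HRT.XL_integrable LW mu8 (pk1_bd hm hM) f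

private theorem pk1_inner {M : ℝ} {ξ : ℝ → ℂ} (hm : Measurable ξ) (hM : ∀ᵐ t : ℝ, ‖ξ t‖ ≤ M)
    (c f : L2) : inner ℂ c (XL LW mu8 ξ f) = ∫ t, inner ℂ c (ξ t • W (node t) f) ∂mu8 :=
  Pool.Agent.Helper54.HRT.inner_XL LW mu8 (pk1_bd hm hM) c f

private theorem pk1_apply {M : ℝ} {ξ : ℝ → ℂ} (hm : Measurable ξ) (hM : ∀ᵐ t : ℝ, ‖ξ t‖ ≤ M)
    (f : L2) : XL LW mu8 ξ f = ∫ t, ξ t • W (node t) f ∂mu8 := by
  refine ext_inner_left ℂ fun c => ?_
  rw [pk1_inner hm hM, integral_inner (pk1_int hm hM f)]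

private theorem pk1_M {P : Par} {r : ℝ} {ξ : ℝ → ℂ} (h : AdmX P r ξ) :
    ∀ᵐ t : ℝ, ‖ξ t‖ ≤ |r| := by
  filter_upwards [h.bd] with t ht
  calc ‖ξ t‖ ≤ r * kap P t := ht
    _ ≤ |r| * kap P t := mul_le_mul_of_nonneg_right (le_abs_self r) (kap_nonneg P t)
    _ ≤ |r| * 1 := mul_le_mul_of_nonneg_left (kap_le P t) (abs_nonneg r)
    _ = |r| := mul_one _

theorem X_apply {P : Par} {r : ℝ} {ξ : ℝ → ℂ} (h : AdmX P r ξ) (f : L2) :
    X ξ f = ∫ t, ξ t • W (node t) f ∂mu8 := pk1_apply h.meas (pk1_M h) f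

theorem X_symm {P : Par} {r : ℝ} {ξ : ℝ → ℂ} (h : AdmX P r ξ) (f g : L2) :
    inner ℂ (X ξ f) g = inner ℂ f (X ξ g) := by
  have hM := pk1_M h
  have hnode : Continuous node := Pool.Agent.Helper54.HRT.node_cont
  set F : ℝ → ℂ := fun t => ξ t * inner ℂ f (W (node t) g) with hF
  have hn2 : ∀ t, node (t + 1 / 2) = -node t := by
    intro t
    have h7 : 2 * π * (t + 1 / 2) = 2 * π * t + π := by ring
    apply Complex.ext
    · rw [Pool.Agent.Helper54.HRT.node_re, Complex.neg_re, Pool.Agent.Helper54.HRT.node_re, h7,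
        Real.cos_add_pi]
    · rw [Pool.Agent.Helper54.HRT.node_im, Complex.neg_im, Pool.Agent.Helper54.HRT.node_im, h7,
        Real.sin_add_pi]
  have hsym2 : ∀ᵐ t : ℝ, ξ (t + 1 / 2 + 1 / 2) = conj (ξ (t + 1 / 2)) :=
    (measurePreserving_add_right volume (1 / 2 : ℝ)).quasiMeasurePreserving.ae h.sym
  have hM2 : ∀ᵐ t : ℝ, ‖ξ (t + 1 / 2)‖ ≤ |r| :=
    (measurePreserving_add_right volume (1 / 2 : ℝ)).quasiMeasurePreserving.ae hM
  have hper : ∀ᵐ t : ℝ, F (t + 1) = F t := by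
    filter_upwards [h.sym, hsym2] with t h3 h4
    have h5 : t + 1 / 2 + 1 / 2 = t + 1 := by ring
    have h6 := hn2 (t + 1 / 2)
    rw [h5] at h4 h6
    rw [hF]
    simp only
    rw [h4, h3, Complex.conj_conj, h6, hn2, neg_neg]
  have hmeasF : Measurable F := by
    have hc : Continuous fun t : ℝ => inner ℂ f (W (node t) g) :=
      continuous_const.inner ((continuous_W g).comp hnode)
    exact h.meas.mul hc.measurable
  have hbF : ∀ᵐ t : ℝ, ‖F t‖ ≤ |r| * (‖f‖ * ‖g‖) := by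
    filter_upwards [hM] with t ht
    rw [hF]
    simp only [norm_mul]
    refine mul_le_mul ht ?_ (norm_nonneg _) (abs_nonneg r)
    refine (norm_inner_le_norm f _).trans ?_
    rw [norm_W]
  have hbF2 : ∀ᵐ t : ℝ, ‖F (t + 1 / 2)‖ ≤ |r| * (‖f‖ * ‖g‖) :=
    (measurePreserving_add_right volume (1 / 2 : ℝ)).quasiMeasurePreserving.ae hbF
  have hint : IntegrableOn F (Ico 0 1) :=
    Integrable.of_bound hmeasF.aestronglyMeasurable _ (ae_restrict_of_ae hbF)
  have hint2 : IntegrableOn (fun t => F (t + 1 / 2)) (Ico 0 1) :=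
    Integrable.of_bound (hmeasF.comp (measurable_id.add_const _)).aestronglyMeasurable _
      (ae_restrict_of_ae hbF2)
  have hper2 : ∀ᵐ t : ℝ, F (t + 1 + 1 / 2) = F (t + 1 / 2) := by
    have := (measurePreserving_add_right volume (1 / 2 : ℝ)).quasiMeasurePreserving.ae hper
    filter_upwards [this] with t ht
    have h5 : t + 1 / 2 + 1 = t + 1 + 1 / 2 := by ring
    rw [h5] at ht
    exact ht
  have e1 := (Pool.Agent.Helper54.HRT.split_period F hint hper).2.2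
  have e2 := (Pool.Agent.Helper54.HRT.split_period (fun t => F (t + 1 / 2)) hint2 hper2).2.2
  have e3 : ∫ t in Ioo (-(1 / 4) : ℝ) (1 / 4), F (t + 1 / 2 + 1 / 2)
      = ∫ t in Ioo (-(1 / 4) : ℝ) (1 / 4), F t := by
    refine setIntegral_congr_ae measurableSet_Ioo ?_
    filter_upwards [hper] with t ht _
    have h5 : t + 1 / 2 + 1 / 2 = t + 1 := by ring
    rw [h5, ht]
  have e4 : ∫ t in Ico (0 : ℝ) 1, F (t + 1 / 2) = ∫ t in Ico (0 : ℝ) 1, F t := by
    rw [e1, e2, e3, add_comm]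
  have e5 : inner ℂ f (X ξ g) = ∫ t in Ico (0 : ℝ) 1, F t := by
    change inner ℂ f (XL LW mu8 ξ g) = _
    rw [pk1_inner h.meas hM]
    refine integral_congr_ae (ae_of_all _ fun t => ?_)
    simp only [inner_smul_right, hF]
  have e6 : inner ℂ (X ξ f) g = ∫ t in Ico (0 : ℝ) 1, F (t + 1 / 2) := by
    rw [← inner_conj_symm]
    change conj (inner ℂ g (XL LW mu8 ξ f)) = _
    rw [pk1_inner h.meas hM, ← integral_conj]
    refine integral_congr_ae (ae_restrict_of_ae ?_)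
    filter_upwards [h.sym] with t ht
    rw [inner_smul_right, map_mul, inner_conj_symm, inner_W, hF]
    simp only
    rw [ht, hn2]
  rw [e5, e6, e4]

theorem X_split {P : Par} {r : ℝ} {ξ : ℝ → ℂ} (h : AdmX P r ξ) (f : L2) :
    X ξ f = X0 ξ f + X1 ξ f := by
  have h0 : X0 ξ f = ∫ t, Win.indicator ξ t • W (node t) f ∂mu8 := X_apply h.win f
  have h1 : X1 ξ f = ∫ t, Winᶜ.indicator ξ t • W (node t) f ∂mu8 := X_apply h.compl f
  rw [X_apply h f, h0, h1, ← integral_add (pk1_int h.win.meas (pk1_M h.win) f)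
    (pk1_int h.compl.meas (pk1_M h.compl) f)]
  refine integral_congr_ae (ae_of_all _ fun t => ?_)
  simp only
  rw [← add_smul]
  congr 1
  by_cases hw : t ∈ Win
  · rw [indicator_of_mem hw, indicator_of_notMem (show t ∉ Winᶜ from fun h' => h' hw), add_zero]
  · rw [indicator_of_notMem hw, indicator_of_mem (show t ∈ Winᶜ from hw), zero_add]

private theorem pk1_smul {M : ℝ} {ξ : ℝ → ℂ} (hm : Measurable ξ) (hM : ∀ᵐ t : ℝ, ‖ξ t‖ ≤ M)
    (t : ℝ) : XL LW mu8 (fun x => (t : ℂ) * ξ x) = (t : ℂ) • XL LW mu8 ξ := by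
  refine ContinuousLinearMap.ext fun f => ?_
  have hM' : ∀ᵐ x : ℝ, ‖(t : ℂ) * ξ x‖ ≤ |t| * M := by
    filter_upwards [hM] with x hx
    rw [norm_mul, Complex.norm_real, Real.norm_eq_abs]
    exact mul_le_mul_of_nonneg_left hx (abs_nonneg t)
  refine ext_inner_left ℂ fun c => ?_
  change inner ℂ c (XL LW mu8 (fun x => (t : ℂ) * ξ x) f) = inner ℂ c ((t : ℂ) • XL LW mu8 ξ f)
  rw [pk1_inner (hm.const_mul _) hM', inner_smul_right,
    pk1_inner hm hM, ← integral_const_mul]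
  refine integral_congr_ae (ae_of_all _ fun x => ?_)
  simp only [inner_smul_right]
  ring

theorem X_smul {P : Par} {r : ℝ} {ξ : ℝ → ℂ} (h : AdmX P r ξ) (t : ℝ) :
    X (fun x => (t : ℂ) * ξ x) = (t : ℂ) • X ξ := pk1_smul h.meas (pk1_M h) t

theorem X0_smul {P : Par} {r : ℝ} {ξ : ℝ → ℂ} (h : AdmX P r ξ) (t : ℝ) :
    X0 (fun x => (t : ℂ) * ξ x) = (t : ℂ) • X0 ξ := by
  have e : Win.indicator (fun x => (t : ℂ) * ξ x) = fun x => (t : ℂ) * Win.indicator ξ x := by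
    funext x
    by_cases hw : x ∈ Win
    · rw [indicator_of_mem hw, indicator_of_mem hw]
    · rw [indicator_of_notMem hw, indicator_of_notMem hw, mul_zero]
  unfold X0
  rw [e]
  exact pk1_smul h.win.meas (pk1_M h.win) t

theorem X_zero : X (fun _ => 0) = 0 := by
  refine ContinuousLinearMap.ext fun f => ?_
  change XL LW mu8 (fun _ => 0) f = 0
  rw [pk1_apply (M := 0) measurable_const (ae_of_all _ fun t => by simp)]
  simp

theorem norm_X_le {P : Par} {r : ℝ} (hr : 0 ≤ r) {ξ : ℝ → ℂ} (h : AdmX P r ξ) (f : L2) :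
    ‖X ξ f‖ ≤ r * ‖f‖ := by
  rw [X_apply h f]
  have h1 : ∀ᵐ t ∂mu8, ‖ξ t • W (node t) f‖ ≤ r * ‖f‖ := by
    refine ae_restrict_of_ae ?_
    filter_upwards [pk1_M h] with t ht
    rw [norm_smul, norm_W]
    rw [abs_of_nonneg hr] at ht
    exact mul_le_mul_of_nonneg_right ht (norm_nonneg _)
  refine (norm_integral_le_of_norm_le_const h1).trans (le_of_eq ?_)
  have h2 : mu8.real univ = 1 := by
    rw [measureReal_def, mu8, Measure.restrict_apply_univ, Real.volume_Ico]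
    simp
  rw [h2, mul_one]

end Pool.Agent.Helper92.HRU
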