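import Pool.Agent.Helper92.HRU.BDefs
import Pool.Agent.Helper92.HRU.Pf.PK1

/-! Piece PK2: kernels of X, X0, X1. -/

set_option autoImplicit false

namespace Pool.Agent.Helper92.HRU

open Complex Set MeasureTheory Filter Topology
open scoped ComplexConjugate Real ENNReal
open Pool.Agent.Helper84.HRT (Weyl node chi mu8 XL Data Aop Bop Good)

private theorem pk2_congr {k k' : ℝ → ℂ} (h : ∀ᵐ u : ℝ, u ∈ Ioo (-2 : ℝ) 2 → k u = k' u)
    (f : ℝ → ℂ) (x : ℝ) : kerf k f x = kerf k' f x := by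
  have h2 : ∀ᵐ u : ℝ, -u ∈ Ioo (-2 : ℝ) 2 → k (-u) = k' (-u) :=
    (Measure.measurePreserving_neg (volume : Measure ℝ)).quasiMeasurePreserving.ae h
  refine setIntegral_congr_ae measurableSet_Ioo ?_
  filter_upwards [h, h2] with u h3 h4 hu
  have hu' : -u ∈ Ioo (-2 : ℝ) 2 := ⟨by linarith [hu.2], by linarith [hu.1]⟩
  rw [h3 hu, h4 hu']

/-- the kernel function -/
private noncomputable def k0 (ξ : ℝ → ℂ) (u : ℝ) : ℂ :=
  ξ (Real.arcsin (u / 2) / (2 * π)) / ((4 * π * cc u : ℝ) : ℂ)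

private theorem pk2_meas {ξ : ℝ → ℂ} (h : Measurable ξ) : Measurable (k0 ξ) :=
  Pool.Agent.Helper54.HRT.kk_measurable h

private theorem pk2_bd {P : Par} {r : ℝ} {ξ : ℝ → ℂ} (h : AdmX P r ξ) :
    ∀ᵐ u : ℝ, u ∈ Ioo (-2 : ℝ) 2 → ‖k0 ξ u‖ ≤ r / (4 * π) * kaph P u := by
  have h1 : ∀ᵐ t : ℝ, ‖ξ t‖ ≤ |Real.cos (2 * π * t)| *
      (fun u => r * kaph P u) (2 * Real.sin (2 * π * t)) := by
    filter_upwards [h.bd] with t ht
    refine ht.trans (le_of_eq ?_)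
    simp only [kap]
    ring
  filter_upwards [Pool.Agent.Helper54.HRT.kk_bound (ξ := ξ) (φ := fun u => r * kaph P u) h1]
    with u hu hu2
  refine (hu hu2).trans (le_of_eq ?_)
  ring

private theorem pk2_hb {P : Par} {r : ℝ} (hr : 0 ≤ r) {ξ : ℝ → ℂ} (h : AdmX P r ξ) :
    ∀ᵐ t : ℝ, ‖ξ t‖ ≤ r * |Real.cos (2 * π * t)| := by
  filter_upwards [h.bd] with t ht
  refine ht.trans (mul_le_mul_of_nonneg_left ?_ hr)
  have h1 : kaph P (2 * Real.sin (2 * π * t)) ≤ 1 := by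
    unfold kaph
    split_ifs
    · exact le_rfl
    · have hL : (1 : ℝ) ≤ P.L ^ 3 := one_le_pow₀ (by linarith [P.hL])
      exact inv_le_one_of_one_le₀ hL
  calc kap P t ≤ |Real.cos (2 * π * t)| * 1 := mul_le_mul_of_nonneg_left h1 (abs_nonneg _)
    _ = _ := mul_one _

private theorem pk2_sin {u : ℝ} (hu : u ∈ Ioo (-2 : ℝ) 2) :
    2 * Real.sin (2 * π * (Real.arcsin (u / 2) / (2 * π))) = u := by
  have hp := Real.pi_pos
  have h7 : 2 * π * (Real.arcsin (u / 2) / (2 * π)) = Real.arcsin (u / 2) := by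
    field_simp
  rw [h7, Real.sin_arcsin (by linarith [hu.1]) (by linarith [hu.2])]
  ring

private theorem pk2_cos {u : ℝ} (hu : u ∈ Ioo (-2 : ℝ) 2) :
    |Real.cos (2 * π * (Real.arcsin (u / 2) / (2 * π)))| = cc u ∧ 0 < cc u := by
  have hp := Real.pi_pos
  have h7 : 2 * π * (Real.arcsin (u / 2) / (2 * π)) = Real.arcsin (u / 2) := by
    field_simp
  have h8 : 0 < 1 - u ^ 2 / 4 := by nlinarith [hu.1, hu.2]
  have h9 : cc u = √(1 - u ^ 2 / 4) := rfl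
  rw [h7, Real.cos_arcsin, abs_of_nonneg (Real.sqrt_nonneg _), h9]
  refine ⟨?_, Real.sqrt_pos.2 h8⟩
  congr 1
  ring

private theorem pk2_win {u : ℝ} (hu : u ∈ Ioo (-2 : ℝ) 2) :
    Real.arcsin (u / 2) / (2 * π) ∈ Win ↔ u ∈ {u : ℝ | 1 / 2 < |u| ∧ |u| < 3 / 2} := by
  change (1 / 2 < |2 * Real.sin (2 * π * (Real.arcsin (u / 2) / (2 * π)))| ∧
    |2 * Real.sin (2 * π * (Real.arcsin (u / 2) / (2 * π)))| < 3 / 2) ↔ _
  rw [pk2_sin hu]
  rfl

private theorem pk2_k0_win (ξ : ℝ → ℂ) {u : ℝ} (hu : u ∈ Ioo (-2 : ℝ) 2) :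
    k0 (Win.indicator ξ) u = {u : ℝ | 1 / 2 < |u| ∧ |u| < 3 / 2}.indicator (k0 ξ) u := by
  by_cases h : u ∈ {u : ℝ | 1 / 2 < |u| ∧ |u| < 3 / 2}
  · rw [indicator_of_mem h, k0, k0, indicator_of_mem ((pk2_win hu).2 h)]
  · rw [indicator_of_notMem h, k0, indicator_of_notMem (fun h' => h ((pk2_win hu).1 h')), zero_div]

private theorem pk2_k0_winc (ξ : ℝ → ℂ) {u : ℝ} (hu : u ∈ Ioo (-2 : ℝ) 2) :
    k0 (Winᶜ.indicator ξ) u = {u : ℝ | 1 / 2 < |u| ∧ |u| < 3 / 2}ᶜ.indicator (k0 ξ) u := by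
  by_cases h : u ∈ {u : ℝ | 1 / 2 < |u| ∧ |u| < 3 / 2}ᶜ
  · have h1 : Real.arcsin (u / 2) / (2 * π) ∈ Winᶜ := fun h' => h ((pk2_win hu).1 h')
    rw [indicator_of_mem h, k0, k0, indicator_of_mem h1]
  · have h1 : Real.arcsin (u / 2) / (2 * π) ∉ Winᶜ :=
      fun h' => h fun h'' => h' ((pk2_win hu).2 h'')
    rw [indicator_of_notMem h, k0, indicator_of_notMem h1, zero_div]

open scoped Classical in
/-- (B0.1) the kernel of `X`, `X₀`, `X₁` -/
theorem exists_kernel (P : Par) (r : ℝ) (hr : 0 ≤ r) (ξ : ℝ → ℂ) (h : AdmX P r ξ) :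
    ∃ k : ℝ → ℂ, Measurable k ∧ (∀ u, ‖k u‖ ≤ r / (4 * π) * kaph P u) ∧
      (∀ u, 2 ≤ |u| → k u = 0) ∧
      (∀ f : L2, (X ξ f : ℝ → ℂ) =ᵐ[volume] kerf k f) ∧
      (∀ f : L2, (X0 ξ f : ℝ → ℂ) =ᵐ[volume]
        kerf ({u : ℝ | 1 / 2 < |u| ∧ |u| < 3 / 2}.indicator k) f) ∧
      (∀ f : L2, (X1 ξ f : ℝ → ℂ) =ᵐ[volume]
        kerf ({u : ℝ | 1 / 2 < |u| ∧ |u| < 3 / 2}ᶜ.indicator k) f) := by
  have hp := Real.pi_pos
  have hkm : Measurable (kaph P) := by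
    have h1 : Measurable fun u : ℝ => |u| := by fun_prop
    unfold kaph
    refine Measurable.ite ?_ measurable_const measurable_const
    exact (measurableSet_lt measurable_const h1).inter (measurableSet_lt h1 measurable_const)
  have hk0 : ∀ u, 0 ≤ kaph P u := by
    intro u
    have hL := P.hL
    unfold kaph Par.e2
    split_ifs <;> positivity
  set S : Set ℝ := Ioo (-2 : ℝ) 2 ∩ {u | ‖k0 ξ u‖ ≤ r / (4 * π) * kaph P u} with hS
  have hSm : MeasurableSet S := measurableSet_Ioo.inter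
    (measurableSet_le (pk2_meas h.meas).norm (hkm.const_mul _))
  have hSae : ∀ᵐ u : ℝ, u ∈ Ioo (-2 : ℝ) 2 → u ∈ S := by
    filter_upwards [pk2_bd h] with u hu hu2
    exact ⟨hu2, hu hu2⟩
  have hk : ∀ᵐ u : ℝ, u ∈ Ioo (-2 : ℝ) 2 → k0 ξ u = S.indicator (k0 ξ) u := by
    filter_upwards [hSae] with u hu hu2
    rw [indicator_of_mem (hu hu2)]
  refine ⟨S.indicator (k0 ξ), (pk2_meas h.meas).indicator hSm, ?_, ?_, ?_, ?_, ?_⟩
  · intro u
    by_cases hu : u ∈ S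
    · rw [indicator_of_mem hu]
      exact hu.2
    · rw [indicator_of_notMem hu, norm_zero]
      exact mul_nonneg (by positivity) (hk0 u)
  · intro u hu
    refine indicator_of_notMem (fun hu2 => ?_) _
    have h3 := hu2.1
    have h4 : |u| < 2 := abs_lt.2 ⟨h3.1, h3.2⟩
    linarith
  · intro f
    filter_upwards [XL_kernel r ξ h.meas h.sym (pk2_hb hr h) f] with x hx
    refine hx.trans (pk2_congr ?_ _ _)
    exact hk
  · intro f
    filter_upwards [XL_kernel r _ h.win.meas h.win.sym (pk2_hb hr h.win) f] with x hx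
    refine hx.trans (pk2_congr ?_ _ _)
    filter_upwards [hk] with u hu hu2
    refine (pk2_k0_win ξ hu2).trans ?_
    by_cases h5 : u ∈ {u : ℝ | 1 / 2 < |u| ∧ |u| < 3 / 2}
    · rw [indicator_of_mem h5, indicator_of_mem h5, hu hu2]
    · rw [indicator_of_notMem h5, indicator_of_notMem h5]
  · intro f
    filter_upwards [XL_kernel r _ h.compl.meas h.compl.sym (pk2_hb hr h.compl) f] with x hx
    refine hx.trans (pk2_congr ?_ _ _)
    filter_upwards [hk] with u hu hu2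
    refine (pk2_k0_winc ξ hu2).trans ?_
    by_cases h5 : u ∈ {u : ℝ | 1 / 2 < |u| ∧ |u| < 3 / 2}ᶜ
    · rw [indicator_of_mem h5, indicator_of_mem h5, hu hu2]
    · rw [indicator_of_notMem h5, indicator_of_notMem h5]

theorem trial_adm (P : Par) (r : ℝ) (hr : 0 ≤ r) :
    AdmX P r (fun t => ((r * kap P t : ℝ) : ℂ)) := by
  refine ⟨?_, ae_of_all _ fun t => ?_, ae_of_all _ fun t => ?_⟩
  · exact Complex.measurable_ofReal.comp ((kap_meas P).const_mul r)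
  · rw [Complex.conj_ofReal]
    congr 2
    have h7 : 2 * π * (t + 1 / 2) = 2 * π * t + π := by ring
    unfold kap
    rw [h7, Real.cos_add_pi, Real.sin_add_pi, abs_neg]
    congr 1
    unfold kaph
    have h8 : |2 * -Real.sin (2 * π * t)| = |2 * Real.sin (2 * π * t)| := by
      rw [mul_neg, abs_neg]
    rw [h8]
  · rw [Complex.norm_real, Real.norm_eq_abs, abs_of_nonneg (mul_nonneg hr (kap_nonneg P t))]

/-- the kernel of the trial perturbation `ξ = r κ` -/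
theorem trial_kernel (P : Par) (r : ℝ) (hr : 0 ≤ r) (f : L2) :
    (X0 (fun t => ((r * kap P t : ℝ) : ℂ)) f : ℝ → ℂ) =ᵐ[volume]
      kerf ({u : ℝ | 1 / 2 < |u| ∧ |u| < 3 / 2}.indicator fun _ => ((r / (4 * π) : ℝ) : ℂ)) f := by
  have hp := Real.pi_pos
  have h := trial_adm P r hr
  filter_upwards [XL_kernel r _ h.win.meas h.win.sym (pk2_hb hr h.win) f] with x hx
  refine hx.trans (pk2_congr (ae_of_all _ fun u hu => ?_) _ _)
  refine (pk2_k0_win _ hu).trans ?_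
  by_cases h5 : u ∈ {u : ℝ | 1 / 2 < |u| ∧ |u| < 3 / 2}
  · rw [indicator_of_mem h5, indicator_of_mem h5, k0]
    obtain ⟨h6, h7⟩ := pk2_cos hu
    have h8 : kap P (Real.arcsin (u / 2) / (2 * π)) = cc u := by
      unfold kap
      rw [h6, pk2_sin hu, kaph, if_pos (show 1 / 2 < |u| ∧ |u| < 3 / 2 from h5), mul_one]
    rw [h8, ← Complex.ofReal_div]
    congr 1
    field_simp
  · rw [indicator_of_notMem h5, indicator_of_notMem h5]

end Pool.Agent.Helper92.HRU
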