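import Pool.Agent.Helper92.HRU.BDefs
import Pool.Agent.Helper92.HRU.Pf.PQ1
import Pool.Agent.Helper92.HRU.Pf.PJ1

/-! Piece PJ2: y-multipliers. -/

set_option autoImplicit false

namespace Pool.Agent.Helper92.HRU

open Complex Set MeasureTheory Filter Topology
open scoped ComplexConjugate Real ENNReal
open Pool.Agent.Helper84.HRT (Weyl node chi mu8 XL Data Aop Bop Good)

theorem pj2_bddM (P : Par) {φ : ℝ → ℝ} (h : BddY φ) :
    BddM ((Qs P).indicator fun x => ((φ (yo P x) : ℝ) : ℂ)) := by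
  obtain ⟨hm, C, hC⟩ := h
  refine ⟨?_, max C 0, fun x => ?_⟩
  · exact (measurable_ofReal.comp (hm.comp (yo_meas P))).indicator (meas_Qs P)
  · by_cases hx : x ∈ Qs P
    · rw [indicator_of_mem hx, norm_real, Real.norm_eq_abs]
      exact (hC _ ((mem_Qs P x).1 hx)).trans (le_max_left _ _)
    · rw [indicator_of_notMem hx, norm_zero]
      exact le_max_right _ _

theorem pj2_ind_mul (P : Par) (φ ψ : ℝ → ℝ) :
    (fun x => (Qs P).indicator (fun x => ((φ (yo P x) : ℝ) : ℂ)) x *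
      (Qs P).indicator (fun x => ((ψ (yo P x) : ℝ) : ℂ)) x) =
    (Qs P).indicator (fun x => (((φ (yo P x) * ψ (yo P x) : ℝ)) : ℂ)) := by
  funext x
  by_cases hx : x ∈ Qs P
  · simp only [indicator_of_mem hx]
    push_cast
    rfl
  · simp only [indicator_of_notMem hx, mul_zero]

theorem pj2_bddY_one : BddY (fun _ => 1) :=
  ⟨measurable_const, 1, fun y _ => by simp⟩

theorem yMul_coe (P : Par) {φ : ℝ → ℝ} (h : BddY φ) (f : L2) : (yMul P φ f : ℝ → ℂ) =ᵐ[volume]
    fun x => (Qs P).indicator (fun x => ((φ (yo P x) : ℝ) : ℂ)) x * f x :=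
  mulOp_coe (pj2_bddM P h) f

theorem yMul_mul (P : Par) {φ ψ : ℝ → ℝ} (h : BddY φ) (h' : BddY ψ) (f : L2) :
    yMul P φ (yMul P ψ f) = yMul P (fun y => φ y * ψ y) f := by
  unfold yMul
  rw [mulOp_mulOp (pj2_bddM P h) (pj2_bddM P h'), pj2_ind_mul]

theorem yMul_symm (P : Par) {φ : ℝ → ℝ} (h : BddY φ) (f g : L2) :
    inner ℂ (yMul P φ f) g = inner ℂ f (yMul P φ g) := by
  unfold yMul
  rw [inner_mulOp (pj2_bddM P h)]
  congr 2
  congr 1
  funext x
  by_cases hx : x ∈ Qs P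
  · simp only [indicator_of_mem hx, conj_ofReal]
  · simp only [indicator_of_notMem hx, map_zero]

theorem yMul_one (P : Par) (f : L2) : yMul P (fun _ => 1) f = Q P f := by
  unfold yMul Q
  simp only [ofReal_one]

theorem yMul_Q (P : Par) {φ : ℝ → ℝ} (h : BddY φ) (f : L2) :
    yMul P φ (Q P f) = yMul P φ f ∧ Q P (yMul P φ f) = yMul P φ f := by
  rw [← yMul_one, ← yMul_one, yMul_mul P h pj2_bddY_one, yMul_mul P pj2_bddY_one h]
  simp only [mul_one, one_mul, and_self]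

theorem pj2_sub_sh (P : Par) {x : ℝ} (hx : x ∈ Qs P) (he : Even (idx x)) :
    x - P.sh ∈ Qs P ∧ yo P (x - P.sh) = yo P x := by
  have h1 := (mem_Qs P x).1 hx
  have h2 : x - P.sh = Pt P (idx x - 1) + yo P x := by
    have hodd : ¬ Even (idx x - 1) := by
      rw [Int.not_even_iff_odd]
      exact he.sub_odd odd_one
    unfold yo Pt Par.sh
    rw [if_pos he, if_neg hodd]
    push_cast
    ring
  have h3 : yo P (x - P.sh) = yo P x := by
    rw [h2]
    exact yo_of_near P _ _ (by linarith)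
  refine ⟨?_, h3⟩
  rw [mem_Qs, h3]
  exact h1

theorem pj2_add_sh (P : Par) {x : ℝ} (hx : x ∈ Qs P) (he : Odd (idx x)) :
    x + P.sh ∈ Qs P ∧ yo P (x + P.sh) = yo P x := by
  have h1 := (mem_Qs P x).1 hx
  have h2 : x + P.sh = Pt P (idx x + 1) + yo P x := by
    have hev : Even (idx x + 1) := he.add_odd odd_one
    have hne : ¬ Even (idx x) := Int.not_even_iff_odd.2 he
    unfold yo Pt Par.sh
    rw [if_pos hev, if_neg hne]
    push_cast
    ring
  have h3 : yo P (x + P.sh) = yo P x := by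
    rw [h2]
    exact yo_of_near P _ _ (by linarith)
  refine ⟨?_, h3⟩
  rw [mem_Qs, h3]
  exact h1

theorem yMul_Sw (P : Par) (gb : ℂ) (hg : ‖gb‖ = 1) {φ : ℝ → ℝ} (h : BddY φ) (f : L2) :
    yMul P φ (Sw P gb f) = Sw P gb (yMul P φ f) := by
  refine Lp.ext ?_
  have h4 := ae_comp_sub (yMul_coe P h f) P.sh
  have h5 := ae_comp_sub (yMul_coe P h f) (-P.sh)
  filter_upwards [yMul_coe P h (Sw P gb f), Sw_coe P gb hg f, Sw_coe P gb hg (yMul P φ f), h4, h5]
    with x e1 e2 e3 e4 e5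
  rw [sub_neg_eq_add] at e5
  rw [e1, e3, e2, e4, e5]
  by_cases hx : x ∈ Qs P
  · rcases Int.even_or_odd (idx x) with he | ho
    · have hs2 : s2 P gb x = 0 := by
        unfold s2
        rw [if_neg]
        rintro ⟨_, ho⟩
        exact (Int.not_even_iff_odd.2 ho) he
      obtain ⟨h6, h7⟩ := pj2_sub_sh P hx he
      rw [hs2, indicator_of_mem hx, indicator_of_mem h6, h7]
      ring
    · have hs1 : s1 P gb x = 0 := by
        unfold s1
        rw [if_neg]
        rintro ⟨_, he⟩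
        exact (Int.not_even_iff_odd.2 ho) he
      obtain ⟨h6, h7⟩ := pj2_add_sh P hx ho
      rw [hs1, indicator_of_mem hx, indicator_of_mem h6, h7]
      ring
  · have hs1 : s1 P gb x = 0 := by
      unfold s1
      rw [if_neg]
      rintro ⟨hq, _⟩
      exact hx hq
    have hs2 : s2 P gb x = 0 := by
      unfold s2
      rw [if_neg]
      rintro ⟨hq, _⟩
      exact hx hq
    rw [hs1, hs2]
    ring

theorem norm_yMul_le (P : Par) {φ : ℝ → ℝ} (h : BddY φ) {C : ℝ} (hC : ∀ y, |y| < 1 / 20 → |φ y| ≤ C)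
    (h0 : 0 ≤ C) (f : L2) : ‖yMul P φ f‖ ≤ C * ‖f‖ := by
  refine norm_mulOp_le (pj2_bddM P h) (fun x => ?_) f
  by_cases hx : x ∈ Qs P
  · rw [indicator_of_mem hx, norm_real, Real.norm_eq_abs]
    exact hC _ ((mem_Qs P x).1 hx)
  · rw [indicator_of_notMem hx, norm_zero]
    exact h0

theorem yMul_mono (P : Par) {φ ψ : ℝ → ℝ} (h : BddY φ) (h' : BddY ψ)
    (hle : ∀ y, |y| < 1 / 20 → |φ y| ≤ |ψ y|) (f : L2) : ‖yMul P φ f‖ ≤ ‖yMul P ψ f‖ := by
  refine Lp.norm_le_norm_of_ae_le ?_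
  filter_upwards [yMul_coe P h f, yMul_coe P h' f] with x e1 e2
  rw [e1, e2, norm_mul, norm_mul]
  refine mul_le_mul_of_nonneg_right ?_ (norm_nonneg _)
  by_cases hx : x ∈ Qs P
  · rw [indicator_of_mem hx, indicator_of_mem hx, norm_real, norm_real, Real.norm_eq_abs,
      Real.norm_eq_abs]
    exact hle _ ((mem_Qs P x).1 hx)
  · rw [indicator_of_notMem hx, indicator_of_notMem hx]

end Pool.Agent.Helper92.HRU
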