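import Pool.Agent.Helper92.HRU.BDefs
import Pool.Agent.Helper92.HRU.Pf.PN1
import Pool.Agent.Helper92.HRU.Pf.PA1
import Pool.Agent.Helper92.HRU.Pf.PQ1
import Pool.Agent.Helper92.HRU.Pf.PQ2
import Pool.Agent.Helper92.HRU.Pf.PJ1
import Pool.Agent.Helper92.HRU.Pf.PJ2

/-! Piece PJ3: the involution J and the projections on the bands. -/

set_option autoImplicit false

namespace Pool.Agent.Helper92.HRU

open Complex Set MeasureTheory Filter Topology
open scoped ComplexConjugate Real ENNReal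
open Pool.Agent.Helper84.HRT (Weyl node chi mu8 XL Data Aop Bop Good)

/-! Auxiliary facts. -/

private theorem pj3_abs_cf (P : Par) (y : ℝ) : |cf P y| ≤ 1 := by
  have h := cf_sq_add_sf_sq P y
  have h2 := sq_nonneg (sf P y)
  exact abs_le_one_iff_mul_self_le_one.mpr (by nlinarith)

private theorem pj3_abs_sf (P : Par) (y : ℝ) : |sf P y| ≤ 1 := by
  have h := cf_sq_add_sf_sq P y
  have h2 := sq_nonneg (cf P y)
  exact abs_le_one_iff_mul_self_le_one.mpr (by nlinarith)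

private theorem pj3_meas_rho (P : Par) : Measurable (rho P) := by
  unfold rho
  fun_prop

private theorem pj3_meas_cf (P : Par) : Measurable (cf P) := by
  have h := pj3_meas_rho P
  unfold cf
  fun_prop

private theorem pj3_meas_sf (P : Par) : Measurable (sf P) := by
  have h := pj3_meas_rho P
  unfold sf
  fun_prop

private theorem pj3_bddY_cf (P : Par) : BddY (cf P) :=
  ⟨pj3_meas_cf P, 1, fun y _ => pj3_abs_cf P y⟩

private theorem pj3_bddY_sf (P : Par) : BddY (sf P) :=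
  ⟨pj3_meas_sf P, 1, fun y _ => pj3_abs_sf P y⟩

private theorem pj3_bddY_mul {φ ψ : ℝ → ℝ} (h : BddY φ) (h' : BddY ψ) :
    BddY fun y => φ y * ψ y := by
  obtain ⟨hm, C, hC⟩ := h
  obtain ⟨hm', C', hC'⟩ := h'
  refine ⟨hm.mul hm', C * C', fun y hy => ?_⟩
  rw [abs_mul]
  exact mul_le_mul (hC y hy) (hC' y hy) (abs_nonneg _) ((abs_nonneg _).trans (hC y hy))

private theorem pj3_meas_j0 (P : Par) : Measurable (j0 P) := by
  classical
  have h1 : Measurable fun x => ((cf P (yo P x) : ℝ) : ℂ) :=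
    Complex.measurable_ofReal.comp ((pj3_meas_cf P).comp (yo_meas P))
  have h2 : MeasurableSet {x : ℝ | Even (idx x)} :=
    idx_meas (MeasurableSpace.measurableSet_top (s := {n : ℤ | Even n}))
  unfold j0
  exact Measurable.ite (meas_Qs P) (Measurable.ite h2 h1.neg h1) measurable_const

private theorem pj3_norm_j0 (P : Par) (x : ℝ) : ‖j0 P x‖ ≤ 1 := by
  classical
  have h := pj3_abs_cf P (yo P x)
  unfold j0
  split_ifs
  · rw [norm_neg, Complex.norm_real]; exact h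
  · rw [Complex.norm_real]; exact h
  · simp

private theorem pj3_bdd_j0 (P : Par) : BddM (j0 P) :=
  ⟨pj3_meas_j0 P, 1, pj3_norm_j0 P⟩

private theorem pj3_conj_j0 (P : Par) (x : ℝ) : conj (j0 P x) = j0 P x := by
  classical
  unfold j0
  split_ifs <;> simp

private theorem pj3_bdd_ind (P : Par) {φ : ℝ → ℝ} (h : BddY φ) :
    BddM ((Qs P).indicator fun x => ((φ (yo P x) : ℝ) : ℂ)) := by
  obtain ⟨hm, C, hC⟩ := h
  refine ⟨(Complex.measurable_ofReal.comp (hm.comp (yo_meas P))).indicator (meas_Qs P), |C|,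
    fun x => ?_⟩
  by_cases hx : x ∈ Qs P
  · rw [indicator_of_mem hx, Complex.norm_real]
    exact (hC _ ((mem_Qs P x).mp hx)).trans (le_abs_self _)
  · rw [indicator_of_notMem hx, norm_zero]
    exact abs_nonneg _

private theorem pj3_even (P : Par) (x : ℝ) (hx : x ∈ Qs P) (he : Even (idx x)) :
    x - P.sh ∈ Qs P ∧ idx (x - P.sh) = idx x - 1 ∧ yo P (x - P.sh) = yo P x := by
  have hy : |yo P x| < 1 / 20 := (mem_Qs P x).mp hx
  have hy1 : |yo P x| ≤ 1 := by linarith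
  have ho : ¬ Even (idx x - 1) := by
    rw [Int.not_even_iff_odd]
    exact he.sub_odd odd_one
  have hshift : x - P.sh = Pt P (idx x - 1) + yo P x := by
    unfold yo Pt Par.sh
    rw [if_pos he, if_neg ho]
    push_cast
    ring
  have h1 : idx (x - P.sh) = idx x - 1 := by rw [hshift]; exact idx_of_near P _ _ hy1
  have h2 : yo P (x - P.sh) = yo P x := by rw [hshift]; exact yo_of_near P _ _ hy1
  exact ⟨(mem_Qs P _).mpr (by rw [h2]; exact hy), h1, h2⟩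

private theorem pj3_odd (P : Par) (x : ℝ) (hx : x ∈ Qs P) (ho : Odd (idx x)) :
    x + P.sh ∈ Qs P ∧ idx (x + P.sh) = idx x + 1 ∧ yo P (x + P.sh) = yo P x := by
  have hy : |yo P x| < 1 / 20 := (mem_Qs P x).mp hx
  have hy1 : |yo P x| ≤ 1 := by linarith
  have hne : ¬ Even (idx x) := Int.not_even_iff_odd.mpr ho
  have he : Even (idx x + 1) := ho.add_odd odd_one
  have hshift : x + P.sh = Pt P (idx x + 1) + yo P x := by
    unfold yo Pt Par.sh
    rw [if_neg hne, if_pos he]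
    push_cast
    ring
  have h1 : idx (x + P.sh) = idx x + 1 := by rw [hshift]; exact idx_of_near P _ _ hy1
  have h2 : yo P (x + P.sh) = yo P x := by rw [hshift]; exact yo_of_near P _ _ hy1
  exact ⟨(mem_Qs P _).mpr (by rw [h2]; exact hy), h1, h2⟩

private theorem pj3_s1 (P : Par) (gb : ℂ) (x : ℝ) :
    j0 P x * s1 P gb x + s1 P gb x * j0 P (x - P.sh) = 0 := by
  classical
  by_cases h : x ∈ Qs P ∧ Even (idx x)
  · obtain ⟨h1, h2, h3⟩ := pj3_even P x h.1 h.2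
    have ho : ¬ Even (idx x - 1) := by
      rw [Int.not_even_iff_odd]
      exact h.2.sub_odd odd_one
    have e1 : j0 P x = -((cf P (yo P x) : ℝ) : ℂ) := by
      unfold j0; rw [if_pos h.1, if_pos h.2]
    have e2 : j0 P (x - P.sh) = ((cf P (yo P x) : ℝ) : ℂ) := by
      unfold j0; rw [if_pos h1, h2, if_neg ho, h3]
    rw [e1, e2]; ring
  · have : s1 P gb x = 0 := by unfold s1; rw [if_neg h]
    rw [this]; ring

private theorem pj3_s2 (P : Par) (gb : ℂ) (x : ℝ) :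
    j0 P x * s2 P gb x + s2 P gb x * j0 P (x + P.sh) = 0 := by
  classical
  by_cases h : x ∈ Qs P ∧ Odd (idx x)
  · obtain ⟨h1, h2, h3⟩ := pj3_odd P x h.1 h.2
    have hne : ¬ Even (idx x) := Int.not_even_iff_odd.mpr h.2
    have he : Even (idx x + 1) := h.2.add_odd odd_one
    have e1 : j0 P x = ((cf P (yo P x) : ℝ) : ℂ) := by
      unfold j0; rw [if_pos h.1, if_neg hne]
    have e2 : j0 P (x + P.sh) = -((cf P (yo P x) : ℝ) : ℂ) := by
      unfold j0; rw [if_pos h1, h2, if_pos he, h3]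
    rw [e1, e2]; ring
  · have : s2 P gb x = 0 := by unfold s2; rw [if_neg h]
    rw [this]; ring

/-- `j0` anticommutes with the swap -/
private theorem pj3_anti (P : Par) (gb : ℂ) (hg : ‖gb‖ = 1) (f : L2) :
    mulOp (j0 P) (Sw P gb f) + Sw P gb (mulOp (j0 P) f) = 0 := by
  refine Lp.ext ?_
  have hm := mulOp_coe (pj3_bdd_j0 P) f
  filter_upwards [Lp.coeFn_add (mulOp (j0 P) (Sw P gb f)) (Sw P gb (mulOp (j0 P) f)),
    mulOp_coe (pj3_bdd_j0 P) (Sw P gb f), Sw_coe P gb hg f, Sw_coe P gb hg (mulOp (j0 P) f),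
    ae_comp_sub hm P.sh, ae_comp_sub hm (-P.sh), Lp.coeFn_zero ℂ 2 (volume : Measure ℝ)]
    with x h1 h2 h3 h4 h5 h6 h7
  simp only [sub_neg_eq_add] at h6
  rw [h1, Pi.add_apply, h2, h3, h4, h5, h6, h7, Pi.zero_apply]
  linear_combination (f (x - P.sh)) * pj3_s1 P gb x + (f (x + P.sh)) * pj3_s2 P gb x

private theorem pj3_j0_sq (P : Par) (x : ℝ) :
    j0 P x * j0 P x = (Qs P).indicator (fun x => ((cf P (yo P x) * cf P (yo P x) : ℝ) : ℂ)) x := by
  classical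
  by_cases hx : x ∈ Qs P
  · rw [indicator_of_mem hx]
    unfold j0
    rw [if_pos hx]
    split_ifs <;> push_cast <;> ring
  · rw [indicator_of_notMem hx]
    unfold j0
    rw [if_neg hx]; ring

private theorem pj3_M0_M0 (P : Par) (f : L2) :
    mulOp (j0 P) (mulOp (j0 P) f) = yMul P (fun y => cf P y * cf P y) f := by
  rw [mulOp_mulOp (pj3_bdd_j0 P) (pj3_bdd_j0 P)]
  unfold yMul
  congr 1
  congr 1
  funext x
  exact pj3_j0_sq P x

private theorem pj3_yMul_M0 (P : Par) {φ : ℝ → ℝ} (h : BddY φ) (f : L2) :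
    yMul P φ (mulOp (j0 P) f) = mulOp (j0 P) (yMul P φ f) := by
  unfold yMul
  rw [mulOp_mulOp (pj3_bdd_ind P h) (pj3_bdd_j0 P), mulOp_mulOp (pj3_bdd_j0 P) (pj3_bdd_ind P h)]
  congr 2
  funext x
  ring

private theorem pj3_yMul_comm (P : Par) {φ ψ : ℝ → ℝ} (h : BddY φ) (h' : BddY ψ) (f : L2) :
    yMul P φ (yMul P ψ f) = yMul P ψ (yMul P φ f) := by
  rw [yMul_mul P h h', yMul_mul P h' h]
  congr 2
  funext y
  ring

private theorem pj3_Q_M0 (P : Par) (f : L2) : Q P (mulOp (j0 P) f) = mulOp (j0 P) f := by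
  unfold Q
  rw [mulOp_mulOp (bddM_ind (meas_Qs P)) (pj3_bdd_j0 P)]
  congr 2
  funext x
  by_cases hx : x ∈ Qs P
  · rw [indicator_of_mem hx, one_mul]
  · rw [indicator_of_notMem hx]
    unfold j0
    rw [if_neg hx, mul_zero]

private theorem pj3_M0_Q (P : Par) (f : L2) : mulOp (j0 P) (Q P f) = mulOp (j0 P) f := by
  unfold Q
  rw [mulOp_mulOp (pj3_bdd_j0 P) (bddM_ind (meas_Qs P))]
  congr 2
  funext x
  by_cases hx : x ∈ Qs P
  · rw [indicator_of_mem hx, mul_one]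
  · rw [indicator_of_notMem hx]
    unfold j0
    rw [if_neg hx, mul_zero]

private theorem pj3_M0_symm (P : Par) (f h : L2) :
    inner ℂ (mulOp (j0 P) f) h = inner ℂ f (mulOp (j0 P) h) := by
  rw [inner_mulOp (pj3_bdd_j0 P)]
  congr 3
  funext x
  exact pj3_conj_j0 P x

private theorem pj3_Jo_apply (P : Par) (gb : ℂ) (f : L2) :
    Jo P gb f = mulOp (j0 P) f + yMul P (sf P) (Sw P gb f) := rfl

private theorem pj3_Qp_apply (P : Par) (gb : ℂ) (f : L2) :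
    Qp P gb f = (1 / 2 : ℂ) • (Q P f + Jo P gb f) := rfl

private theorem pj3_Qm_apply (P : Par) (gb : ℂ) (f : L2) :
    Qm P gb f = (1 / 2 : ℂ) • (Q P f - Jo P gb f) := rfl

private theorem pj3_yMul_add (P : Par) {φ ψ : ℝ → ℝ} (h : BddY φ) (h' : BddY ψ)
    (h'' : BddY fun y => φ y + ψ y) (f : L2) :
    yMul P φ f + yMul P ψ f = yMul P (fun y => φ y + ψ y) f := by
  refine Lp.ext ?_
  filter_upwards [Lp.coeFn_add (yMul P φ f) (yMul P ψ f), yMul_coe P h f, yMul_coe P h' f,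
    yMul_coe P h'' f] with x h1 h2 h3 h4
  rw [h1, Pi.add_apply, h2, h3, h4]
  by_cases hx : x ∈ Qs P
  · simp only [indicator_of_mem hx]
    push_cast
    ring
  · simp only [indicator_of_notMem hx]
    ring

/-! The theorems of the piece. -/

theorem yMul_Jo (P : Par) (gb : ℂ) (hg : ‖gb‖ = 1) {φ : ℝ → ℝ} (h : BddY φ) (f : L2) :
    yMul P φ (Jo P gb f) = Jo P gb (yMul P φ f) := by
  rw [pj3_Jo_apply, pj3_Jo_apply, map_add, pj3_yMul_M0 P h,
    pj3_yMul_comm P h (pj3_bddY_sf P), yMul_Sw P gb hg h]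

theorem Jo_Jo (P : Par) (gb : ℂ) (hg : ‖gb‖ = 1) (f : L2) : Jo P gb (Jo P gb f) = Q P f := by
  have hs := pj3_bddY_sf P
  have hss := pj3_bddY_mul hs hs
  have hcc := pj3_bddY_mul (pj3_bddY_cf P) (pj3_bddY_cf P)
  have e1 : Jo P gb (Jo P gb f) =
      mulOp (j0 P) (mulOp (j0 P) f) + yMul P (sf P) (mulOp (j0 P) (Sw P gb f) +
        Sw P gb (mulOp (j0 P) f)) + yMul P (sf P) (yMul P (sf P) (Sw P gb (Sw P gb f))) := by
    rw [pj3_Jo_apply P gb (Jo P gb f), pj3_Jo_apply P gb f]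
    simp only [map_add]
    rw [pj3_yMul_M0 P hs, ← yMul_Sw P gb hg hs]
    abel
  have e2 : (fun y => cf P y * cf P y + sf P y * sf P y) = fun _ => (1 : ℝ) := by
    funext y
    have := cf_sq_add_sf_sq P y
    nlinarith
  have h1 : BddY fun y => cf P y * cf P y + sf P y * sf P y := by
    rw [e2]
    exact ⟨measurable_const, 1, fun y _ => by simp⟩
  rw [e1, pj3_anti P gb hg, map_zero, add_zero, Sw_Sw P gb hg, pj3_M0_M0,
    (yMul_Q P hs f).1, yMul_mul P hs hs, pj3_yMul_add P hcc hss h1, e2, yMul_one]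

theorem Jo_symm (P : Par) (gb : ℂ) (hg : ‖gb‖ = 1) (f h : L2) :
    inner ℂ (Jo P gb f) h = inner ℂ f (Jo P gb h) := by
  rw [pj3_Jo_apply, pj3_Jo_apply, inner_add_left, inner_add_right, pj3_M0_symm,
    yMul_symm P (pj3_bddY_sf P), Sw_symm P gb hg, yMul_Sw P gb hg (pj3_bddY_sf P)]

theorem Q_Jo (P : Par) (gb : ℂ) (hg : ‖gb‖ = 1) (f : L2) : Q P (Jo P gb f) = Jo P gb f := by
  rw [pj3_Jo_apply, map_add, pj3_Q_M0, (yMul_Q P (pj3_bddY_sf P) _).2]

theorem Jo_Q (P : Par) (gb : ℂ) (hg : ‖gb‖ = 1) (f : L2) : Jo P gb (Q P f) = Jo P gb f := by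
  rw [pj3_Jo_apply, pj3_Jo_apply, pj3_M0_Q, Sw_Q P gb hg]

theorem aN_Jo_le (P : Par) (gb : ℂ) (hg : ‖gb‖ = 1) (f : L2) : aN (Jo P gb f) ≤ 5 * aN f := by
  rw [pj3_Jo_apply]
  have h1 := aN_mul (pj3_bdd_j0 P) (C := 1) (pj3_norm_j0 P) f
  have h2 : aN (yMul P (sf P) (Sw P gb f)) ≤ 1 * aN (Sw P gb f) := by
    refine aN_mul (pj3_bdd_ind P (pj3_bddY_sf P)) (C := 1) (fun x => ?_) _
    by_cases hx : x ∈ Qs P
    · rw [indicator_of_mem hx, Complex.norm_real]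
      exact pj3_abs_sf P _
    · rw [indicator_of_notMem hx, norm_zero]
      exact zero_le_one
  have h3 := aN_Sw_le P gb hg f
  have h4 := aN_add (mulOp (j0 P) f) (yMul P (sf P) (Sw P gb f))
  linarith

private theorem pj3_half (a : L2) : (1 / 2 : ℂ) • ((1 / 2 : ℂ) • (a + a)) = (1 / 2 : ℂ) • a := by
  rw [← two_smul ℂ a, smul_smul, smul_smul]
  norm_num

theorem Qp_Qp (P : Par) (gb : ℂ) (hg : ‖gb‖ = 1) (f : L2) : Qp P gb (Qp P gb f) = Qp P gb f := by
  rw [pj3_Qp_apply P gb (Qp P gb f), pj3_Qp_apply P gb f, map_smul, map_smul, map_add, map_add,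
    Q_Q, Q_Jo P gb hg, Jo_Q P gb hg, Jo_Jo P gb hg, ← smul_add,
    add_comm (Jo P gb f) (Q P f), pj3_half]

theorem Qm_Qm (P : Par) (gb : ℂ) (hg : ‖gb‖ = 1) (f : L2) : Qm P gb (Qm P gb f) = Qm P gb f := by
  rw [pj3_Qm_apply P gb (Qm P gb f), pj3_Qm_apply P gb f, map_smul, map_smul, map_sub, map_sub,
    Q_Q, Q_Jo P gb hg, Jo_Q P gb hg, Jo_Jo P gb hg, ← smul_sub]
  have : Q P f - Jo P gb f - (Jo P gb f - Q P f) = (Q P f - Jo P gb f) + (Q P f - Jo P gb f) := by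
    abel
  rw [this, pj3_half]

theorem Qp_Qm (P : Par) (gb : ℂ) (hg : ‖gb‖ = 1) (f : L2) : Qp P gb (Qm P gb f) = 0 := by
  rw [pj3_Qp_apply P gb (Qm P gb f), pj3_Qm_apply P gb f, map_smul, map_smul, map_sub, map_sub,
    Q_Q, Q_Jo P gb hg, Jo_Q P gb hg, Jo_Jo P gb hg, ← smul_add]
  have : Q P f - Jo P gb f + (Jo P gb f - Q P f) = 0 := by abel
  rw [this, smul_zero, smul_zero]

theorem Qm_Qp (P : Par) (gb : ℂ) (hg : ‖gb‖ = 1) (f : L2) : Qm P gb (Qp P gb f) = 0 := by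
  rw [pj3_Qm_apply P gb (Qp P gb f), pj3_Qp_apply P gb f, map_smul, map_smul, map_add, map_add,
    Q_Q, Q_Jo P gb hg, Jo_Q P gb hg, Jo_Jo P gb hg, ← smul_sub]
  have : Q P f + Jo P gb f - (Jo P gb f + Q P f) = 0 := by abel
  rw [this, smul_zero, smul_zero]

theorem Qp_add_Qm (P : Par) (gb : ℂ) (f : L2) : Qp P gb f + Qm P gb f = Q P f := by
  rw [pj3_Qp_apply, pj3_Qm_apply, ← smul_add]
  have : Q P f + Jo P gb f + (Q P f - Jo P gb f) = (2 : ℂ) • Q P f := by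
    rw [two_smul]; abel
  rw [this, smul_smul]
  norm_num

theorem Qp_symm (P : Par) (gb : ℂ) (hg : ‖gb‖ = 1) (f h : L2) :
    inner ℂ (Qp P gb f) h = inner ℂ f (Qp P gb h) := by
  rw [pj3_Qp_apply, pj3_Qp_apply, inner_smul_left, inner_smul_right, inner_add_left,
    inner_add_right, Q_symm, Jo_symm P gb hg]
  congr 1
  rw [map_div₀, map_one, map_ofNat]

theorem Qm_symm (P : Par) (gb : ℂ) (hg : ‖gb‖ = 1) (f h : L2) :
    inner ℂ (Qm P gb f) h = inner ℂ f (Qm P gb h) := by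
  rw [pj3_Qm_apply, pj3_Qm_apply, inner_smul_left, inner_smul_right, inner_sub_left,
    inner_sub_right, Q_symm, Jo_symm P gb hg]
  congr 1
  rw [map_div₀, map_one, map_ofNat]

theorem Q_Qp (P : Par) (gb : ℂ) (hg : ‖gb‖ = 1) (f : L2) : Q P (Qp P gb f) = Qp P gb f := by
  rw [pj3_Qp_apply, map_smul, map_add, Q_Q, Q_Jo P gb hg]

theorem Q_Qm (P : Par) (gb : ℂ) (hg : ‖gb‖ = 1) (f : L2) : Q P (Qm P gb f) = Qm P gb f := by
  rw [pj3_Qm_apply, map_smul, map_sub, Q_Q, Q_Jo P gb hg]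

theorem Qp_Q (P : Par) (gb : ℂ) (hg : ‖gb‖ = 1) (f : L2) : Qp P gb (Q P f) = Qp P gb f := by
  rw [pj3_Qp_apply, pj3_Qp_apply, Q_Q, Jo_Q P gb hg]

theorem Qm_Q (P : Par) (gb : ℂ) (hg : ‖gb‖ = 1) (f : L2) : Qm P gb (Q P f) = Qm P gb f := by
  rw [pj3_Qm_apply, pj3_Qm_apply, Q_Q, Jo_Q P gb hg]

theorem norm_sq_pm (P : Par) (gb : ℂ) (hg : ‖gb‖ = 1) (f : L2) :
    ‖Q P f‖ ^ 2 = ‖Qp P gb f‖ ^ 2 + ‖Qm P gb f‖ ^ 2 := by
  have h1 : (inner ℂ (Qp P gb f) (Qm P gb f) : ℂ) = 0 := by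
    rw [Qp_symm P gb hg, Qp_Qm P gb hg, inner_zero_right]
  rw [← Qp_add_Qm P gb f, sq, sq, sq]
  exact norm_add_sq_eq_norm_sq_add_norm_sq_of_inner_eq_zero _ _ h1

end Pool.Agent.Helper92.HRU
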