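import Pool.Agent.Helper92.HRU.BDefs
import Pool.Agent.Helper92.HRU.Pf.PQ1

/-! Piece PE3: Cauchy-Schwarz on the lines. -/

set_option autoImplicit false

namespace Pool.Agent.Helper92.HRU

open Complex Set MeasureTheory Filter Topology
open scoped ComplexConjugate Real ENNReal
open Pool.Agent.Helper84.HRT (Weyl node chi mu8 XL Data Aop Bop Good)

private theorem pe3_idx {n : ℤ} {x : ℝ} (hx : x ∈ Ico (π * n) (π * (n + 1))) : idx x = n := by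
  unfold idx
  rw [Int.floor_eq_iff]
  have hπ := Real.pi_pos
  constructor
  · rw [le_div_iff₀ hπ]; linarith [hx.1]
  · rw [div_lt_iff₀ hπ]; linarith [hx.2]

private theorem pe3_bdd (P : Par) (φ : ℝ → ℝ) (hφ : Continuous φ) :
    BddM ((Qs P).indicator fun x => ((φ (yo P x) : ℝ) : ℂ)) := by
  constructor
  · refine Measurable.indicator ?_ (meas_Qs P)
    exact Complex.measurable_ofReal.comp (hφ.measurable.comp (yo_meas P))
  · obtain ⟨C, hC⟩ := (isCompact_Icc (a := -(1 / 20 : ℝ)) (b := 1 / 20)).exists_bound_of_continuousOn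
      hφ.continuousOn
    refine ⟨max C 0, fun x => ?_⟩
    by_cases hx : x ∈ Qs P
    · rw [indicator_of_mem hx]
      have h1 := (mem_Qs P x).1 hx
      have h2 := hC (yo P x) (by rw [abs_lt] at h1; exact ⟨h1.1.le, h1.2.le⟩)
      rw [Complex.norm_real]
      exact le_max_of_le_left h2
    · rw [indicator_of_notMem hx, norm_zero]
      exact le_max_right _ _

private theorem pe3_cells (h : ℝ → ℝ≥0∞) :
    ∑' n : ℤ, ∫⁻ x in Ico (π * (n : ℝ)) (π * (n + 1)), h x = ∫⁻ x, h x := by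
  have hU : (⋃ n : ℤ, Ico (π * (n : ℝ)) (π * (n + 1))) = univ := by
    have := iUnion_Ico_zsmul Real.pi_pos
    rw [← this]
    refine iUnion_congr fun n => ?_
    congr 1
    · rw [zsmul_eq_mul]; ring
    · rw [zsmul_eq_mul]; push_cast; ring
  rw [← setLIntegral_univ h, ← hU, lintegral_iUnion (fun n => measurableSet_Ico)]
  intro m n hmn
  rw [Function.onFun, Set.disjoint_left]
  intro x hx hx'
  exact hmn ((pe3_idx hx).symm.trans (pe3_idx hx'))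

private theorem pe3_weight (P : Par) (φ : ℝ → ℝ) (hφ : Continuous φ) (n : ℤ) :
    ∫⁻ x in Ico (π * (n : ℝ)) (π * (n + 1)),
      ((Qs P).indicator (fun x => ENNReal.ofReal (φ (yo P x))⁻¹) x) ^ (2 : ℝ)
      ≤ ∫⁻ y in Iy, ENNReal.ofReal (φ y ^ 2)⁻¹ := by
  have h1 : ∫⁻ y in Iy, ENNReal.ofReal (φ y ^ 2)⁻¹
      = ∫⁻ x, (Iy.indicator (fun y => ENNReal.ofReal (φ y ^ 2)⁻¹)) (x - Pt P n) := by
    rw [lintegral_sub_right_eq_self (fun x => (Iy.indicator (fun y => ENNReal.ofReal (φ y ^ 2)⁻¹)) x)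
      (Pt P n)]
    rw [lintegral_indicator (by unfold Iy; exact measurableSet_Ioo)]
  rw [h1]
  refine le_trans ?_ (setLIntegral_le_lintegral (Ico (π * (n : ℝ)) (π * (n + 1))) _)
  refine setLIntegral_mono' measurableSet_Ico fun x hx => ?_
  by_cases hq : x ∈ Qs P
  · rw [indicator_of_mem hq]
    have h2 := (mem_Qs P x).1 hq
    have h3 : yo P x = x - Pt P n := by unfold yo; rw [pe3_idx hx]
    rw [h3] at h2 ⊢
    have h4 : x - Pt P n ∈ Iy := by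
      unfold Iy
      rw [abs_lt] at h2
      exact ⟨h2.1, h2.2⟩
    rw [indicator_of_mem h4]
    rw [ENNReal.rpow_two]
    by_cases h0 : 0 ≤ (φ (x - Pt P n))⁻¹
    · rw [← ENNReal.ofReal_pow h0, inv_pow]
    · rw [ENNReal.ofReal_of_nonpos (not_le.1 h0).le]
      simp
  · rw [indicator_of_notMem hq]
    simp

/-- Cauchy-Schwarz on the lines: `a(f)² ≤ (∫ φ⁻²) ‖φ(y) f‖²` -/
theorem aN_weight (P : Par) (φ : ℝ → ℝ) (hφ : Continuous φ) (hp : ∀ y, 0 < φ y) (M : ℝ)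
    (hM : 0 ≤ M) (hI : ∫⁻ y in Iy, ENNReal.ofReal (φ y ^ 2)⁻¹ ≤ ENNReal.ofReal M)
    (f : L2) (hf : Q P f = f) : aN f ^ 2 ≤ M * ‖yMul P φ f‖ ^ 2 := by
  set g := yMul P φ f with hg
  have hbd := pe3_bdd P φ hφ
  have hgc : (g : ℝ → ℂ) =ᵐ[volume]
      fun x => ((Qs P).indicator fun x => ((φ (yo P x) : ℝ) : ℂ)) x * f x := mulOp_coe hbd f
  have hfc : (f : ℝ → ℂ) =ᵐ[volume] fun x => ((Qs P).indicator fun _ => (1 : ℂ)) x * f x := by
    have h1 : (Q P f : ℝ → ℂ) =ᵐ[volume] fun x => ((Qs P).indicator fun _ => (1 : ℂ)) x * f x :=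
      mulOp_coe (bddM_ind (meas_Qs P)) f
    rw [hf] at h1
    exact h1
  let w : ℝ → ℝ≥0∞ := (Qs P).indicator (fun x => ENNReal.ofReal (φ (yo P x))⁻¹)
  have hwm : Measurable w := by
    refine Measurable.indicator ?_ (meas_Qs P)
    exact ((hφ.measurable.comp (yo_meas P)).inv).ennreal_ofReal
  -- pointwise identity
  have hpt : ∀ᵐ x : ℝ, ‖(f : ℝ → ℂ) x‖ₑ = w x * ‖(g : ℝ → ℂ) x‖ₑ := by
    filter_upwards [hgc, hfc] with x h1 h2
    by_cases hx : x ∈ Qs P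
    · rw [h1]
      simp only [w, indicator_of_mem hx]
      rw [enorm_mul, ← mul_assoc]
      have h3 : ‖((φ (yo P x) : ℝ) : ℂ)‖ₑ = ENNReal.ofReal (φ (yo P x)) := by
        rw [← ofReal_norm, Complex.norm_real, Real.norm_of_nonneg (hp _).le]
      rw [h3, ← ENNReal.ofReal_mul (inv_nonneg.2 (hp _).le), inv_mul_cancel₀ (hp _).ne',
        ENNReal.ofReal_one, one_mul]
    · rw [indicator_of_notMem hx, zero_mul] at h2
      simp only [w, indicator_of_notMem hx]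
      rw [h2]
      simp
  have hgm : AEMeasurable (fun x => ‖(g : ℝ → ℂ) x‖ₑ) volume :=
    (Lp.aestronglyMeasurable g).enorm
  -- Cauchy-Schwarz in a cell
  have hcs : ∀ n : ℤ, (∫⁻ x in Ico (π * (n : ℝ)) (π * (n + 1)), ‖(f : ℝ → ℂ) x‖ₑ) ^ 2
      ≤ ENNReal.ofReal M * ∫⁻ x in Ico (π * (n : ℝ)) (π * (n + 1)), ‖(g : ℝ → ℂ) x‖ₑ ^ 2 := by
    intro n
    set μ := volume.restrict (Ico (π * (n : ℝ)) (π * (n + 1))) with hμ
    have h1 : ∫⁻ x, ‖(f : ℝ → ℂ) x‖ₑ ∂μ = ∫⁻ x, (w * fun x => ‖(g : ℝ → ℂ) x‖ₑ) x ∂μ := by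
      refine lintegral_congr_ae ?_
      filter_upwards [ae_restrict_of_ae hpt] with x hx
      rw [hx]; rfl
    have h2 := ENNReal.lintegral_mul_le_Lp_mul_Lq μ (Real.HolderConjugate.two_two)
      (hwm.aemeasurable) (hgm.restrict (s := Ico (π * (n : ℝ)) (π * (n + 1))))
    have h3 : (∫⁻ x, w x ^ (2 : ℝ) ∂μ) ≤ ENNReal.ofReal M := (pe3_weight P φ hφ n).trans hI
    rw [h1]
    calc (∫⁻ x, (w * fun x => ‖(g : ℝ → ℂ) x‖ₑ) x ∂μ) ^ 2
        ≤ ((∫⁻ x, w x ^ (2 : ℝ) ∂μ) ^ (1 / (2 : ℝ)) *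
            (∫⁻ x, ‖(g : ℝ → ℂ) x‖ₑ ^ (2 : ℝ) ∂μ) ^ (1 / (2 : ℝ))) ^ 2 := by gcongr
      _ = (∫⁻ x, w x ^ (2 : ℝ) ∂μ) * ∫⁻ x, ‖(g : ℝ → ℂ) x‖ₑ ^ (2 : ℝ) ∂μ := by
          rw [mul_pow]
          have h4 : ∀ a : ℝ≥0∞, (a ^ (1 / (2 : ℝ))) ^ 2 = a := by
            intro a
            rw [← ENNReal.rpow_two, ← ENNReal.rpow_mul]
            norm_num
          rw [h4, h4]
      _ ≤ ENNReal.ofReal M * ∫⁻ x, ‖(g : ℝ → ℂ) x‖ₑ ^ (2 : ℝ) ∂μ := by gcongr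
      _ = ENNReal.ofReal M * ∫⁻ x, ‖(g : ℝ → ℂ) x‖ₑ ^ 2 ∂μ := by simp only [ENNReal.rpow_two]
  -- the norm of g
  have hnorm : ∫⁻ x, ‖(g : ℝ → ℂ) x‖ₑ ^ 2 = ENNReal.ofReal (‖g‖ ^ 2) := by
    have h1 : ‖g‖ₑ = eLpNorm (g : ℝ → ℂ) 2 volume := Lp.enorm_def g
    have h2 := eLpNorm_eq_lintegral_rpow_enorm_toReal (p := 2) (μ := (volume : Measure ℝ))
      (f := (g : ℝ → ℂ)) (by norm_num) (by norm_num)
    rw [← h1] at h2
    simp only [ENNReal.toReal_ofNat, ENNReal.rpow_two] at h2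
    rw [ENNReal.ofReal_pow (norm_nonneg g), ofReal_norm, h2, ← ENNReal.rpow_two,
      ← ENNReal.rpow_mul]
    norm_num
  have hle : ∀ n : ℤ, (∫⁻ x in Ico (π * (n : ℝ)) (π * (n + 1)), ‖(g : ℝ → ℂ) x‖ₑ ^ 2) ≠ ⊤ := by
    intro n
    refine ne_top_of_le_ne_top ?_ (setLIntegral_le_lintegral _ _)
    rw [hnorm]
    exact ENNReal.ofReal_ne_top
  have hfin : ∀ n : ℤ, (∫⁻ x in Ico (π * (n : ℝ)) (π * (n + 1)), ‖(f : ℝ → ℂ) x‖ₑ) ^ 2 ≠ ⊤ := by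
    intro n
    exact ne_top_of_le_ne_top (ENNReal.mul_ne_top ENNReal.ofReal_ne_top (hle n)) (hcs n)
  have haF : ∀ n : ℤ, aF f n ^ 2
      = ((∫⁻ x in Ico (π * (n : ℝ)) (π * (n + 1)), ‖(f : ℝ → ℂ) x‖ₑ) ^ 2).toReal := by
    intro n
    rw [ENNReal.toReal_pow]
    unfold aF
    rw [integral_norm_eq_lintegral_enorm (Lp.aestronglyMeasurable f).restrict]
  have haN : aN f ^ 2
      = (∑' n : ℤ, (∫⁻ x in Ico (π * (n : ℝ)) (π * (n + 1)), ‖(f : ℝ → ℂ) x‖ₑ) ^ 2).toReal := by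
    unfold aN
    rw [Real.sq_sqrt (tsum_nonneg fun n => sq_nonneg _), ENNReal.tsum_toReal_eq hfin]
    exact tsum_congr haF
  have hsum : (∑' n : ℤ, (∫⁻ x in Ico (π * (n : ℝ)) (π * (n + 1)), ‖(f : ℝ → ℂ) x‖ₑ) ^ 2)
      ≤ ENNReal.ofReal (M * ‖g‖ ^ 2) := by
    calc _ ≤ ∑' n : ℤ, ENNReal.ofReal M *
          ∫⁻ x in Ico (π * (n : ℝ)) (π * (n + 1)), ‖(g : ℝ → ℂ) x‖ₑ ^ 2 :=
          ENNReal.tsum_le_tsum hcs
      _ = ENNReal.ofReal M * ENNReal.ofReal (‖g‖ ^ 2) := by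
          rw [ENNReal.tsum_mul_left, pe3_cells, hnorm]
      _ = _ := by rw [ENNReal.ofReal_mul hM]
  rw [haN]
  exact ENNReal.toReal_le_of_le_ofReal (by positivity) hsum

end Pool.Agent.Helper92.HRU
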