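import Pool.Agent.Helper92.HRU.BDefs
import Pool.Agent.Helper92.HRU.Pf.PN1
import Pool.Agent.Helper92.HRU.Pf.PA1
import Pool.Agent.Helper92.HRU.Pf.PJ2
import Pool.Agent.Helper92.HRU.Pf.PJ3
import Pool.Agent.Helper92.HRU.Pf.PE1
import Pool.Agent.Helper92.HRU.Pf.PE2
import Pool.Agent.Helper92.HRU.Pf.PE3

/-! Piece PE4: the energy. -/

set_option autoImplicit false

namespace Pool.Agent.Helper92.HRU

open Complex Set MeasureTheory Filter Topology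
open scoped ComplexConjugate Real ENNReal
open Pool.Agent.Helper84.HRT (Weyl node chi mu8 XL Data Aop Bop Good)

private theorem pe4_Qp (P : Par) (gb : ℂ) (f : L2) :
    Qp P gb f = (1 / 2 : ℂ) • (Q P f + Jo P gb f) := rfl

private theorem pe4_Qm (P : Par) (gb : ℂ) (f : L2) :
    Qm P gb f = (1 / 2 : ℂ) • (Q P f - Jo P gb f) := rfl

private theorem pe4_comm_p (P : Par) (gb : ℂ) (hg : ‖gb‖ = 1) {φ : ℝ → ℝ} (h : BddY φ) (f : L2) :
    yMul P φ (Qp P gb f) = Qp P gb (yMul P φ f) := by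
  rw [pe4_Qp, pe4_Qp, map_smul, map_add, (yMul_Q P h f).1, (yMul_Q P h f).2, yMul_Jo P gb hg h]

private theorem pe4_comm_m (P : Par) (gb : ℂ) (hg : ‖gb‖ = 1) {φ : ℝ → ℝ} (h : BddY φ) (f : L2) :
    yMul P φ (Qm P gb f) = Qm P gb (yMul P φ f) := by
  rw [pe4_Qm, pe4_Qm, map_smul, map_sub, (yMul_Q P h f).1, (yMul_Q P h f).2, yMul_Jo P gb hg h]

private theorem pe4_bdd_mul {φ : ℝ → ℝ} (h : BddY φ) (c : ℝ) : BddY fun y => c * φ y := by
  obtain ⟨hm, C, hC⟩ := h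
  refine ⟨hm.const_mul c, |c| * C, fun y hy => ?_⟩
  rw [abs_mul]
  exact mul_le_mul_of_nonneg_left (hC y hy) (abs_nonneg c)

private theorem pe4_one : BddY fun _ => 1 := ⟨measurable_const, 1, fun _ _ => by simp⟩

private theorem pe4_scal (P : Par) {φ : ℝ → ℝ} (h : BddY φ) (c : ℝ) (f : L2) :
    yMul P (fun y => c * φ y) f = (c : ℂ) • yMul P φ f := by
  refine Lp.ext ?_
  filter_upwards [yMul_coe P (pe4_bdd_mul h c) f, yMul_coe P h f,
    Lp.coeFn_smul (c : ℂ) (yMul P φ f)] with x h1 h2 h3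
  rw [h1, h3, Pi.smul_apply, h2, smul_eq_mul]
  by_cases hx : x ∈ Qs P
  · rw [indicator_of_mem hx, indicator_of_mem hx]
    push_cast
    ring
  · rw [indicator_of_notMem hx, indicator_of_notMem hx]
    ring

private theorem pe4_cmp (P : Par) {φ ψ : ℝ → ℝ} (h : BddY φ) (h' : BddY ψ) {a b : ℝ} (ha : 0 ≤ a)
    (hb : 0 ≤ b) (hle : ∀ y, |y| < 1 / 20 → a * φ y ^ 2 ≤ b * ψ y ^ 2) (u : L2) :
    a * ‖yMul P φ u‖ ^ 2 ≤ b * ‖yMul P ψ u‖ ^ 2 := by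
  have h1 := yMul_mono P (pe4_bdd_mul h (√a)) (pe4_bdd_mul h' (√b)) (fun y hy => by
    refine sq_le_sq.1 ?_
    rw [mul_pow, mul_pow, Real.sq_sqrt ha, Real.sq_sqrt hb]
    exact hle y hy) u
  rw [pe4_scal P h, pe4_scal P h', norm_smul, norm_smul, Complex.norm_real, Complex.norm_real,
    Real.norm_eq_abs, Real.norm_eq_abs, abs_of_nonneg (Real.sqrt_nonneg a),
    abs_of_nonneg (Real.sqrt_nonneg b)] at h1
  have h2 := pow_le_pow_left₀ (by positivity) h1 2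
  rwa [mul_pow, mul_pow, Real.sq_sqrt ha, Real.sq_sqrt hb] at h2

private theorem pe4_ee0 (P : Par) (y : ℝ) : 0 < ee P y := P.g_pos.trans_le (ee_ge P y)

private theorem pe4_eb0 (P : Par) (y : ℝ) : 0 < eb P y := (pe4_ee0 P y).trans_le (ee_le_eb P y)

private theorem pe4_bee (P : Par) : BddY (ee P) :=
  ⟨(ee_cont P).measurable, 3, fun y _ => by
    rw [abs_of_pos (pe4_ee0 P y)]
    exact (ee_le_eb P y).trans (eb_le P y)⟩

private theorem pe4_beb (P : Par) : BddY (eb P) :=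
  ⟨(eb_cont P).measurable, 3, fun y _ => by
    rw [abs_of_pos (pe4_eb0 P y)]
    exact eb_le P y⟩

private theorem pe4_bse (P : Par) : BddY fun y => √(ee P y) :=
  ⟨(Real.continuous_sqrt.comp (ee_cont P)).measurable, √3, fun y _ => by
    rw [abs_of_nonneg (Real.sqrt_nonneg _)]
    exact Real.sqrt_le_sqrt ((ee_le_eb P y).trans (eb_le P y))⟩

private theorem pe4_bsb (P : Par) : BddY fun y => √(eb P y) :=
  ⟨(Real.continuous_sqrt.comp (eb_cont P)).measurable, √3, fun y _ => by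
    rw [abs_of_nonneg (Real.sqrt_nonneg _)]
    exact Real.sqrt_le_sqrt (eb_le P y)⟩

private theorem pe4_bw (P : Par) : BddY fun y => √(|y| + |P.del|) :=
  ⟨by fun_prop, √(1 / 20 + |P.del|), fun y hy => by
    rw [abs_of_nonneg (Real.sqrt_nonneg _)]
    exact Real.sqrt_le_sqrt (by linarith)⟩

private theorem pe4_mul_e (P : Par) (f : L2) :
    yMul P (ee P) f = yMul P (fun y => √(ee P y)) (yMul P (fun y => √(ee P y)) f) := by
  rw [yMul_mul P (pe4_bse P) (pe4_bse P)]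
  congr 2
  funext y
  rw [Real.mul_self_sqrt (pe4_ee0 P y).le]

private theorem pe4_mul_b (P : Par) (f : L2) :
    yMul P (eb P) f = yMul P (fun y => √(eb P y)) (yMul P (fun y => √(eb P y)) f) := by
  rw [yMul_mul P (pe4_bsb P) (pe4_bsb P)]
  congr 2
  funext y
  rw [Real.mul_self_sqrt (pe4_eb0 P y).le]

/-- the energy -/
theorem En_nonneg (P : Par) (gb : ℂ) (f : L2) : 0 ≤ En P gb f := by
  unfold En
  positivity

theorem En_Q (P : Par) (gb : ℂ) (hg : ‖gb‖ = 1) (f : L2) : En P gb (Q P f) = En P gb f := by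
  unfold En
  rw [Qp_Q P gb hg, Qm_Q P gb hg]

theorem En_Qp (P : Par) (gb : ℂ) (hg : ‖gb‖ = 1) (f : L2) :
    En P gb (Qp P gb f) = ‖yMul P (fun y => √(ee P y)) (Qp P gb f)‖ ^ 2 := by
  unfold En
  rw [Qp_Qp P gb hg, Qm_Qp P gb hg, map_zero, norm_zero]
  ring

theorem En_Qm (P : Par) (gb : ℂ) (hg : ‖gb‖ = 1) (f : L2) :
    En P gb (Qm P gb f) = ‖yMul P (fun y => √(eb P y)) (Qm P gb f)‖ ^ 2 := by
  unfold En
  rw [Qm_Qm P gb hg, Qp_Qm P gb hg, map_zero, norm_zero]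
  ring

theorem En_split (P : Par) (gb : ℂ) (hg : ‖gb‖ = 1) (f : L2) :
    En P gb f = En P gb (Qp P gb f) + En P gb (Qm P gb f) := by
  rw [En_Qp P gb hg, En_Qm P gb hg]
  rfl

theorem En_ge (P : Par) (gb : ℂ) (hg : ‖gb‖ = 1) (f : L2) : P.g * ‖Q P f‖ ^ 2 ≤ En P gb f := by
  have h1 := pe4_cmp P pe4_one (pe4_bse P) P.g_pos.le zero_le_one (fun y _ => by
    rw [Real.sq_sqrt (pe4_ee0 P y).le, one_mul, one_pow, mul_one]
    exact ee_ge P y) (Qp P gb f)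
  have h2 := pe4_cmp P pe4_one (pe4_bsb P) P.g_pos.le zero_le_one (fun y _ => by
    rw [Real.sq_sqrt (pe4_eb0 P y).le, one_mul, one_pow, mul_one]
    exact (ee_ge P y).trans (ee_le_eb P y)) (Qm P gb f)
  rw [yMul_one, Q_Qp P gb hg, one_mul] at h1
  rw [yMul_one, Q_Qm P gb hg, one_mul] at h2
  rw [norm_sq_pm P gb hg, mul_add]
  exact add_le_add h1 h2

theorem En_le (P : Par) (gb : ℂ) (hg : ‖gb‖ = 1) (f : L2) : En P gb f ≤ 3 * ‖Q P f‖ ^ 2 := by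
  have h1 := pe4_cmp P (pe4_bse P) pe4_one zero_le_one (show (0 : ℝ) ≤ 3 by norm_num)
    (fun y _ => by
      rw [Real.sq_sqrt (pe4_ee0 P y).le, one_mul, one_pow, mul_one]
      exact (ee_le_eb P y).trans (eb_le P y)) (Qp P gb f)
  have h2 := pe4_cmp P (pe4_bsb P) pe4_one zero_le_one (show (0 : ℝ) ≤ 3 by norm_num)
    (fun y _ => by
      rw [Real.sq_sqrt (pe4_eb0 P y).le, one_mul, one_pow, mul_one]
      exact eb_le P y) (Qm P gb f)
  rw [yMul_one, Q_Qp P gb hg, one_mul] at h1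
  rw [yMul_one, Q_Qm P gb hg, one_mul] at h2
  rw [norm_sq_pm P gb hg, mul_add]
  exact add_le_add h1 h2

theorem HD_Qp (P : Par) (gb : ℂ) (hg : ‖gb‖ = 1) (f : L2) :
    (inner ℂ (Qp P gb f) (HD P gb f) : ℂ) = (En P gb (Qp P gb f) : ℂ) := by
  have h0 : HD P gb f = yMul P (ee P) (Qp P gb f) - yMul P (eb P) (Qm P gb f) := rfl
  have h1 : (inner ℂ (Qp P gb f) (yMul P (eb P) (Qm P gb f)) : ℂ) = 0 := by
    rw [pe4_comm_m P gb hg (pe4_beb P), ← Qm_symm P gb hg, Qm_Qp P gb hg, inner_zero_left]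
  have h2 : (inner ℂ (Qp P gb f) (yMul P (ee P) (Qp P gb f)) : ℂ) =
      ((‖yMul P (fun y => √(ee P y)) (Qp P gb f)‖ ^ 2 : ℝ) : ℂ) := by
    rw [pe4_mul_e, ← yMul_symm P (pe4_bse P), inner_self_eq_norm_sq_to_K]
    push_cast
    rfl
  rw [h0, inner_sub_right, h1, h2, sub_zero, En_Qp P gb hg]

theorem HD_Qm (P : Par) (gb : ℂ) (hg : ‖gb‖ = 1) (f : L2) :
    (inner ℂ (Qm P gb f) (HD P gb f) : ℂ) = -(En P gb (Qm P gb f) : ℂ) := by
  have h0 : HD P gb f = yMul P (ee P) (Qp P gb f) - yMul P (eb P) (Qm P gb f) := rfl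
  have h1 : (inner ℂ (Qm P gb f) (yMul P (ee P) (Qp P gb f)) : ℂ) = 0 := by
    rw [pe4_comm_p P gb hg (pe4_bee P), ← Qp_symm P gb hg, Qp_Qm P gb hg, inner_zero_left]
  have h2 : (inner ℂ (Qm P gb f) (yMul P (eb P) (Qm P gb f)) : ℂ) =
      ((‖yMul P (fun y => √(eb P y)) (Qm P gb f)‖ ^ 2 : ℝ) : ℂ) := by
    rw [pe4_mul_b, ← yMul_symm P (pe4_bsb P), inner_self_eq_norm_sq_to_K]
    push_cast
    rfl
  rw [h0, inner_sub_right, h1, h2, zero_sub, En_Qm P gb hg]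

private theorem pe4_Lam (P : Par) : 0 ≤ Lam P := by
  unfold Lam
  exact setIntegral_nonneg measurableSet_Ioo fun y _ => (inv_pos.2 (pe4_ee0 P y)).le

/-- (B4.3) -/
theorem aN_Qp (P : Par) (gb : ℂ) (hg : ‖gb‖ = 1) (f : L2) :
    aN (Qp P gb f) ^ 2 ≤ Lam P * En P gb (Qp P gb f) := by
  rw [En_Qp P gb hg]
  refine aN_weight P (fun y => √(ee P y)) (Real.continuous_sqrt.comp (ee_cont P))
    (fun y => Real.sqrt_pos.2 (pe4_ee0 P y)) (Lam P) (pe4_Lam P) ?_ _ (Q_Qp P gb hg f)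
  rw [← Lam_lint P]
  refine le_of_eq (lintegral_congr fun y => ?_)
  rw [Real.sq_sqrt (pe4_ee0 P y).le]

theorem aN_Qm : ∃ C : ℝ, 0 < C ∧ ∀ (P : Par) (gb : ℂ), ‖gb‖ = 1 → ∀ f : L2,
    aN (Qm P gb f) ^ 2 ≤ C * P.L * En P gb (Qm P gb f) := by
  obtain ⟨C, hC, h⟩ := Lam_minus
  refine ⟨C, hC, fun P gb hg f => ?_⟩
  have hL : 0 < P.L := by linarith [P.hL]
  rw [En_Qm P gb hg]
  refine aN_weight P (fun y => √(eb P y)) (Real.continuous_sqrt.comp (eb_cont P))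
    (fun y => Real.sqrt_pos.2 (pe4_eb0 P y)) (C * P.L) (by positivity) ?_ _ (Q_Qm P gb hg f)
  refine le_trans (le_of_eq (lintegral_congr fun y => ?_)) (h P)
  rw [Real.sq_sqrt (pe4_eb0 P y).le]

theorem aN_QE : ∃ C : ℝ, 0 < C ∧ ∀ (P : Par) (gb : ℂ), ‖gb‖ = 1 → ∀ f : L2,
    aN (Q P f) ^ 2 ≤ C * P.L ^ 2 * En P gb f := by
  obtain ⟨C1, hC1, h1⟩ := aN_Qm
  obtain ⟨c, C2, _, hC2, h2⟩ := Lam_bounds
  refine ⟨2 * (C1 + C2), by positivity, fun P gb hg f => ?_⟩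
  have hL : 100 ≤ P.L := P.hL
  have h3 : aN (Q P f) ≤ aN (Qp P gb f) + aN (Qm P gb f) := by
    rw [← Qp_add_Qm P gb f]
    exact aN_add _ _
  have h4 : aN (Q P f) ^ 2 ≤ 2 * aN (Qp P gb f) ^ 2 + 2 * aN (Qm P gb f) ^ 2 := by
    have := pow_le_pow_left₀ (aN_nonneg _) h3 2
    nlinarith [sq_nonneg (aN (Qp P gb f) - aN (Qm P gb f))]
  have e1 := En_nonneg P gb (Qp P gb f)
  have e2 := En_nonneg P gb (Qm P gb f)
  have h5 : aN (Qp P gb f) ^ 2 ≤ C2 * P.L ^ 2 * En P gb (Qp P gb f) :=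
    (aN_Qp P gb hg f).trans (mul_le_mul_of_nonneg_right (h2 P).2 e1)
  have h6 : aN (Qm P gb f) ^ 2 ≤ C1 * P.L ^ 2 * En P gb (Qm P gb f) := by
    refine (h1 P gb hg f).trans (mul_le_mul_of_nonneg_right ?_ e2)
    exact mul_le_mul_of_nonneg_left (by nlinarith) hC1.le
  rw [En_split P gb hg f]
  have hL2 : 0 ≤ P.L ^ 2 := by positivity
  have h7 : 0 ≤ C1 * P.L ^ 2 * En P gb (Qp P gb f) := by positivity
  have h8 : 0 ≤ C2 * P.L ^ 2 * En P gb (Qm P gb f) := by positivity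
  calc aN (Q P f) ^ 2 ≤ 2 * aN (Qp P gb f) ^ 2 + 2 * aN (Qm P gb f) ^ 2 := h4
    _ ≤ 2 * (C2 * P.L ^ 2 * En P gb (Qp P gb f)) + 2 * (C1 * P.L ^ 2 * En P gb (Qm P gb f)) := by
        linarith
    _ ≤ 2 * (C1 + C2) * P.L ^ 2 * (En P gb (Qp P gb f) + En P gb (Qm P gb f)) := by
        nlinarith

theorem wY_E : ∃ C : ℝ, 0 < C ∧ ∀ (P : Par) (gb : ℂ), ‖gb‖ = 1 → ∀ f : L2, Q P f = f →
    P.s ^ 2 * ‖wY P f‖ ^ 2 ≤ C * (P.L ^ 16)⁻¹ * En P gb f := by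
  obtain ⟨C, hC, h⟩ := wY_small
  refine ⟨C, hC, fun P gb hg f _ => ?_⟩
  have hL : 0 < P.L := by linarith [P.hL]
  have hw : ∀ y : ℝ, √(|y| + |P.del|) ^ 2 = |y| + |P.del| := fun y =>
    Real.sq_sqrt (by positivity)
  have hb0 : 0 ≤ C * (P.L ^ 16)⁻¹ := by positivity
  have h1 := pe4_cmp P (pe4_bw P) (pe4_bse P) (sq_nonneg P.s) hb0
    (fun y hy => by
      rw [Real.sq_sqrt (pe4_ee0 P y).le, hw]
      exact h P y hy.le) (Qp P gb f)
  have h2 := pe4_cmp P (pe4_bw P) (pe4_bsb P) (sq_nonneg P.s) hb0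
    (fun y hy => by
      rw [Real.sq_sqrt (pe4_eb0 P y).le, hw]
      exact (h P y hy.le).trans (mul_le_mul_of_nonneg_left (ee_le_eb P y) hb0)) (Qm P gb f)
  have h3 : ‖wY P f‖ ^ 2 = ‖yMul P (fun y => √(|y| + |P.del|)) (Qp P gb f)‖ ^ 2 +
      ‖yMul P (fun y => √(|y| + |P.del|)) (Qm P gb f)‖ ^ 2 := by
    rw [pe4_comm_p P gb hg (pe4_bw P), pe4_comm_m P gb hg (pe4_bw P), ← norm_sq_pm P gb hg,
      (yMul_Q P (pe4_bw P) f).2]
    rfl
  rw [h3, mul_add]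
  have h4 : En P gb f = ‖yMul P (fun y => √(ee P y)) (Qp P gb f)‖ ^ 2 +
      ‖yMul P (fun y => √(eb P y)) (Qm P gb f)‖ ^ 2 := rfl
  rw [h4, mul_add]
  exact add_le_add h1 h2

end Pool.Agent.Helper92.HRU
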