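import Pool.Agent.Helper92.HRU.BDefs
import Pool.Agent.Helper92.HRU.Pf.PN1
import Pool.Agent.Helper92.HRU.Pf.PN2
import Pool.Agent.Helper92.HRU.Pf.PA1

/-! Piece PA2: a(f), translations, kernel operators. -/

set_option autoImplicit false

namespace Pool.Agent.Helper92.HRU

open Complex Set MeasureTheory Filter Topology
open scoped ComplexConjugate Real ENNReal
open Pool.Agent.Helper84.HRT (Weyl node chi mu8 XL Data Aop Bop Good)

private lemma pa2_int_Ico (f : L2) (a b : ℝ) :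
    IntegrableOn (fun x => ‖f x‖) (Ico a b) := by
  have h1 : MemLp f 2 (volume.restrict (Ico a b)) := (Lp.memLp f).restrict _
  exact (h1.integrable (by norm_num)).norm

private lemma pa2_shift_int (f : L2) (a b c : ℝ) :
    ∫ x in Ico a b, ‖f (x - c)‖ = ∫ x in Ico (a - c) (b - c), ‖f x‖ := by
  rw [integral_Ico_eq_integral_Ioc, integral_Ico_eq_integral_Ioc]
  rcases le_total a b with h | h
  · rw [← intervalIntegral.integral_of_le h, ← intervalIntegral.integral_of_le (by linarith)]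
    exact intervalIntegral.integral_comp_sub_right (fun x => ‖f x‖) c
  · rw [Ioc_eq_empty (by simpa using h), Ioc_eq_empty (by simpa using h)]
    simp

private lemma pa2_two (f : L2) (n : ℤ) :
    ∫ x in Ico (π * n) (π * (n + 2)), ‖f x‖ = aF f n + aF f (n + 1) := by
  have hp := Real.pi_pos
  have h1 : Ico (π * (n : ℝ)) (π * (n + 2))
      = Ico (π * (n : ℝ)) (π * (n + 1)) ∪ Ico (π * (n + 1)) (π * (n + 2)) := by
    rw [Ico_union_Ico_eq_Ico] <;> nlinarith
  have h2 : Disjoint (Ico (π * (n : ℝ)) (π * (n + 1))) (Ico (π * ((n : ℝ) + 1)) (π * (n + 2))) := by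
    rw [Set.disjoint_left]
    intro x hx hx'
    exact absurd hx.2 (not_lt.mpr hx'.1)
  rw [h1, setIntegral_union h2 measurableSet_Ico (pa2_int_Ico f _ _) (pa2_int_Ico f _ _)]
  unfold aF
  push_cast
  congr 3
  ring_nf

private lemma pa2_le (f : L2) {a b c d : ℝ} (hca : c ≤ a) (hbd : b ≤ d) :
    ∫ x in Ico a b, ‖f x‖ ≤ ∫ x in Ico c d, ‖f x‖ := by
  refine setIntegral_mono_set (pa2_int_Ico f _ _) (ae_of_all _ fun x => norm_nonneg _) ?_
  exact (Ico_subset_Ico hca hbd).eventuallyLE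

private lemma pa2_aF_tr (c : ℝ) (f : L2) (n : ℤ) :
    aF (trOp c f) n = ∫ x in Ico (π * n - c) (π * (n + 1) - c), ‖f x‖ := by
  rw [← pa2_shift_int]
  unfold aF
  refine integral_congr_ae (ae_restrict_of_ae ?_)
  filter_upwards [trOp_coe c f] with x hx
  rw [hx]

private lemma pa2_shift_sum (a : ℤ → ℝ) (i : ℤ) (ha : Summable fun n => a n ^ 2) :
    Summable (fun n => a (n + i) ^ 2) ∧ ∑' n, a (n + i) ^ 2 = ∑' n, a n ^ 2 := by
  constructor
  · exact (Equiv.addRight i).summable_iff.mpr ha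
  · exact (Equiv.addRight i).tsum_eq (fun n => a n ^ 2)

private lemma pa2_sqrt_two {u a : ℤ → ℝ} (hu : ∀ n, 0 ≤ u n)
    (ha : Summable fun n => a n ^ 2) (i j : ℤ) (h : ∀ n, u n ≤ a (n + i) + a (n + j)) :
    √(∑' n, u n ^ 2) ≤ 2 * √(∑' n, a n ^ 2) := by
  obtain ⟨si, ti⟩ := pa2_shift_sum a i ha
  obtain ⟨sj, tj⟩ := pa2_shift_sum a j ha
  have h1 : ∀ n, u n ^ 2 ≤ 2 * a (n + i) ^ 2 + 2 * a (n + j) ^ 2 := fun n => by
    have := pow_le_pow_left₀ (hu n) (h n) 2
    nlinarith [sq_nonneg (a (n + i) - a (n + j))]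
  have h2 : Summable fun n => 2 * a (n + i) ^ 2 + 2 * a (n + j) ^ 2 :=
    (si.mul_left 2).add (sj.mul_left 2)
  have h3 : Summable fun n => u n ^ 2 :=
    Summable.of_nonneg_of_le (fun n => sq_nonneg _) h1 h2
  have h4 : ∑' n, u n ^ 2 ≤ 4 * ∑' n, a n ^ 2 := by
    refine (h3.tsum_le_tsum h1 h2).trans ?_
    rw [(si.mul_left 2).tsum_add (sj.mul_left 2), tsum_mul_left, tsum_mul_left, ti, tj]
    linarith
  have h5 : √(4 * ∑' n, a n ^ 2) = 2 * √(∑' n, a n ^ 2) := by
    rw [Real.sqrt_mul (by norm_num)]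
    congr 1
    rw [show (4 : ℝ) = 2 ^ 2 by norm_num]
    exact Real.sqrt_sq (by norm_num)
  rw [← h5]
  exact Real.sqrt_le_sqrt h4

theorem aN_tr (c : ℝ) (hc : |c| ≤ π) (f : L2) : aN (trOp c f) ≤ 2 * aN f := by
  have hp := Real.pi_pos
  rw [abs_le] at hc
  unfold aN
  rcases le_total 0 c with h0 | h0
  · refine pa2_sqrt_two (fun n => aF_nonneg _ n) (summable_aF f) (-1) 0 fun n => ?_
    rw [pa2_aF_tr]
    have h := pa2_two f (n + -1)
    rw [show n + -1 + 1 = n + 0 by ring] at h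
    rw [← h]
    refine pa2_le f ?_ ?_
    · push_cast
      nlinarith
    · push_cast
      nlinarith
  · refine pa2_sqrt_two (fun n => aF_nonneg _ n) (summable_aF f) 0 1 fun n => ?_
    rw [pa2_aF_tr]
    have h := pa2_two f (n + 0)
    rw [show n + 0 + 1 = n + 1 by ring] at h
    rw [← h]
    refine pa2_le f ?_ ?_
    · push_cast
      nlinarith
    · push_cast
      nlinarith

/-- (B1.2) -/
theorem aN_W (α : ℂ) (hα : ‖α‖ = 1) (f : L2) : aN (W α f) ≤ 2 * aN f := by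
  rw [W_apply]
  refine (aN_mul (bddM_chr α) (C := 1) (fun x => (norm_chr α x).le) _).trans ?_
  rw [one_mul]
  refine aN_tr _ ?_ f
  have h1 : |α.im| ≤ 1 := hα ▸ Complex.abs_im_le_norm α
  rw [abs_mul, abs_two]
  linarith [Real.pi_gt_three]

theorem Wb_bounds : ∃ C : ℝ, 0 < C ∧ ∀ (P : Par) (gb : ℂ), ‖gb‖ = 1 → ∀ f : L2,
    aN (Wb P gb f) ≤ C * aN f ∧ ‖Wb P gb f‖ ≤ C * ‖f‖ := by
  refine ⟨18, by norm_num, fun P gb hgb f => ?_⟩
  have hv := P.v2_bd
  have he := P.ep_bd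
  have hv' : ‖(P.v2 : ℂ)‖ = P.v2 := by
    rw [Complex.norm_real, Real.norm_eq_abs, abs_of_nonneg (by linarith)]
  have he' : ‖(P.ep : ℂ)‖ = P.ep := by
    rw [Complex.norm_real, Real.norm_eq_abs, abs_of_nonneg (by linarith)]
  have hgb' : ‖conj gb‖ = 1 := by rw [RCLike.norm_conj, hgb]
  have e : Wb P gb f = (W o1 f + W (-o1) f) + (P.v2 : ℂ) • (W o2 f + W (-o2) f)
    + (P.ep : ℂ) • (gb • W P.b f + (conj gb) • W (-P.b) f) := rfl
  have n1 : ‖-o1‖ = 1 := by rw [norm_neg, norm_o1]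
  have n2 : ‖-o2‖ = 1 := by rw [norm_neg, norm_o2]
  have n3 : ‖-P.b‖ = 1 := by rw [norm_neg, P.norm_b]
  constructor
  · have a0 := aN_nonneg f
    have a1 := aN_W o1 norm_o1 f
    have a1' := aN_W (-o1) n1 f
    have a2 := aN_W o2 norm_o2 f
    have a2' := aN_W (-o2) n2 f
    have a3 := aN_W P.b P.norm_b f
    have a3' := aN_W (-P.b) n3 f
    have t1 : aN (W o1 f + W (-o1) f) ≤ 4 * aN f := (aN_add _ _).trans (by linarith)
    have t2 : aN ((P.v2 : ℂ) • (W o2 f + W (-o2) f)) ≤ 1.8 * (4 * aN f) := by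
      rw [aN_smul, hv']
      refine mul_le_mul hv.2 ((aN_add _ _).trans (by linarith)) (aN_nonneg _) (by norm_num)
    have t3 : aN ((P.ep : ℂ) • (gb • W P.b f + (conj gb) • W (-P.b) f)) ≤ 1.6 * (4 * aN f) := by
      rw [aN_smul, he']
      refine mul_le_mul he.2 ((aN_add _ _).trans ?_) (aN_nonneg _) (by norm_num)
      rw [aN_smul, aN_smul, hgb, hgb']
      linarith
    rw [e]
    have t4 := aN_add ((W o1 f + W (-o1) f) + (P.v2 : ℂ) • (W o2 f + W (-o2) f))
      ((P.ep : ℂ) • (gb • W P.b f + (conj gb) • W (-P.b) f))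
    have t5 := aN_add (W o1 f + W (-o1) f) ((P.v2 : ℂ) • (W o2 f + W (-o2) f))
    linarith only [a0, t1, t2, t3, t4, t5]
  · have a0 := norm_nonneg f
    have t1 : ‖W o1 f + W (-o1) f‖ ≤ 2 * ‖f‖ := (norm_add_le _ _).trans (by
      rw [norm_W, norm_W]
      linarith)
    have t2 : ‖(P.v2 : ℂ) • (W o2 f + W (-o2) f)‖ ≤ 1.8 * (2 * ‖f‖) := by
      rw [norm_smul, hv']
      refine mul_le_mul hv.2 ((norm_add_le _ _).trans ?_) (norm_nonneg _) (by norm_num)
      rw [norm_W, norm_W]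
      linarith
    have t3 : ‖(P.ep : ℂ) • (gb • W P.b f + (conj gb) • W (-P.b) f)‖ ≤ 1.6 * (2 * ‖f‖) := by
      rw [norm_smul, he']
      refine mul_le_mul he.2 ((norm_add_le _ _).trans ?_) (norm_nonneg _) (by norm_num)
      rw [norm_smul, norm_smul, norm_W, norm_W, hgb, hgb']
      linarith
    rw [e]
    have t4 := norm_add_le ((W o1 f + W (-o1) f) + (P.v2 : ℂ) • (W o2 f + W (-o2) f))
      ((P.ep : ℂ) • (gb • W P.b f + (conj gb) • W (-P.b) f))
    have t5 := norm_add_le (W o1 f + W (-o1) f) ((P.v2 : ℂ) • (W o2 f + W (-o2) f))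
    linarith only [a0, t1, t2, t3, t4, t5]

private lemma pa2_three (f : L2) (n : ℤ) :
    ∫ x in Ico (π * (n - 1)) (π * (n + 2)), ‖f x‖ = aF f (n - 1) + aF f n + aF f (n + 1) := by
  have hp := Real.pi_pos
  have h1 : Ico (π * ((n : ℝ) - 1)) (π * (n + 2))
      = Ico (π * ((n : ℝ) - 1)) (π * n) ∪ Ico (π * n) (π * (n + 2)) := by
    rw [Ico_union_Ico_eq_Ico] <;> nlinarith
  have h2 : Disjoint (Ico (π * ((n : ℝ) - 1)) (π * n)) (Ico (π * (n : ℝ)) (π * (n + 2))) := by
    rw [Set.disjoint_left]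
    intro x hx hx'
    exact absurd hx.2 (not_lt.mpr hx'.1)
  rw [h1, setIntegral_union h2 measurableSet_Ico (pa2_int_Ico f _ _) (pa2_int_Ico f _ _),
    pa2_two, ← add_assoc]
  congr 2
  unfold aF
  push_cast
  congr 3
  ring_nf

/-- the kernel operators are bounded from `a` to `L∞` on cells -/
theorem kerf_bound (k : ℝ → ℂ) (hk : Measurable k) (M : ℝ) (hM : 0 ≤ M)
    (hb : ∀ u, ‖k u‖ ≤ M / (4 * π)) (f : L2) (n : ℤ) (x : ℝ)
    (hx : x ∈ Ico (π * n) (π * (n + 1))) :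
    ‖kerf k f x‖ ≤ M / (2 * π) * (aF f (n - 1) + aF f n + aF f (n + 1)) := by
  have hp := Real.pi_gt_three
  have e1 : ∀ u : ℝ, ‖exp (I * ((cc u * (x - u / 2) : ℝ) : ℂ))‖ = 1 := fun u => by
    rw [mul_comm]
    exact Complex.norm_exp_ofReal_mul_I _
  have e2 : ∀ u : ℝ, ‖exp (-(I * ((cc u * (x - u / 2) : ℝ) : ℂ)))‖ = 1 := fun u => by
    rw [Complex.exp_neg, norm_inv, e1, inv_one]
  have e3 : ∀ u : ℝ, ‖(k u * exp (I * ((cc u * (x - u / 2) : ℝ) : ℂ))
    + conj (k (-u)) * exp (-(I * ((cc u * (x - u / 2) : ℝ) : ℂ)))) * f (x - u)‖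
      ≤ M / (2 * π) * ‖f (x - u)‖ := fun u => by
    rw [norm_mul]
    refine mul_le_mul_of_nonneg_right ?_ (norm_nonneg _)
    refine (norm_add_le _ _).trans ?_
    rw [norm_mul, norm_mul, e1, e2, RCLike.norm_conj]
    have := hb u
    have := hb (-u)
    have h4 : M / (2 * π) = M / (4 * π) + M / (4 * π) := by
      field_simp
      ring
    linarith
  -- the integral of the shifted reflected function
  have s1 : ∫ u in Ioo (-2 : ℝ) 2, ‖f (x - u)‖ = ∫ v in Ico (x - 2) (x + 2), ‖f v‖ := by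
    rw [← integral_Ioc_eq_integral_Ioo, ← intervalIntegral.integral_of_le (by norm_num),
      integral_Ico_eq_integral_Ioc, ← intervalIntegral.integral_of_le (by linarith)]
    have := intervalIntegral.integral_comp_sub_left (a := -2) (b := 2) (fun v => ‖f v‖) x
    rw [this]
    congr 1
    ring
  have s2 : Integrable (fun u => M / (2 * π) * ‖f (x - u)‖) (volume.restrict (Ioo (-2 : ℝ) 2)) := by
    refine Integrable.const_mul ?_ _
    have h5 : IntervalIntegrable (fun v => ‖f v‖) volume (x - 2) (x + 2) := by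
      rw [intervalIntegrable_iff_integrableOn_Ico_of_le (by linarith)]
      exact pa2_int_Ico f _ _
    have h6 := h5.comp_sub_left x
    have h7 : IntervalIntegrable (fun u => ‖f (x - u)‖) volume (-2) 2 := by
      have h8 := h6.symm
      convert h8 using 1 <;> ring
    rw [intervalIntegrable_iff_integrableOn_Ioo_of_le (by norm_num)] at h7
    exact h7
  have s3 : ‖kerf k f x‖ ≤ ∫ u in Ioo (-2 : ℝ) 2, M / (2 * π) * ‖f (x - u)‖ := by
    unfold kerf
    exact norm_integral_le_of_norm_le s2 (ae_of_all _ e3)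
  refine s3.trans ?_
  rw [integral_const_mul, s1, ← pa2_three]
  refine mul_le_mul_of_nonneg_left ?_ (by positivity)
  refine pa2_le f ?_ ?_
  · nlinarith [hx.1]
  · nlinarith [hx.2]

private lemma pa2_cells_union : (⋃ n : ℤ, Ico (π * (n : ℝ)) (π * (n + 1))) = univ := by
  rw [← iUnion_Ico_zsmul Real.pi_pos]
  refine iUnion_congr fun n => ?_
  rw [zsmul_eq_mul, zsmul_eq_mul, mul_comm π, mul_comm π]
  push_cast
  rfl

private lemma pa2_cells_disj :
    Pairwise (Function.onFun Disjoint fun n : ℤ => Ico (π * (n : ℝ)) (π * (n + 1))) := by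
  have h := pairwise_disjoint_Ico_zsmul π
  intro i j hij
  have h1 := h hij
  simp only [Function.onFun, zsmul_eq_mul] at h1 ⊢
  rw [mul_comm π, mul_comm π, mul_comm π, mul_comm π]
  push_cast at h1
  exact h1

private lemma pa2_hasSum {g : ℝ → ℝ} (hg : Integrable g) :
    HasSum (fun n : ℤ => ∫ x in Ico (π * (n : ℝ)) (π * (n + 1)), g x) (∫ x, g x) := by
  have h := hasSum_integral_iUnion (μ := volume) (f := g)
    (s := fun n : ℤ => Ico (π * (n : ℝ)) (π * (n + 1)))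
    (fun n => measurableSet_Ico) pa2_cells_disj hg.integrableOn
  rwa [pa2_cells_union, setIntegral_univ] at h

private lemma pa2_vol (n : ℤ) : volume.real (Ico (π * (n : ℝ)) (π * (n + 1))) = π := by
  have hp := Real.pi_pos
  rw [Real.volume_real_Ico_of_le (by nlinarith)]
  ring

/-- square sums of three neighbours -/
private lemma pa2_three_sum {a : ℤ → ℝ} (ha : Summable fun n => a n ^ 2) :
    Summable (fun n : ℤ => (a (n - 1) + a n + a (n + 1)) ^ 2) ∧
      ∑' n : ℤ, (a (n - 1) + a n + a (n + 1)) ^ 2 ≤ 9 * ∑' n, a n ^ 2 := by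
  obtain ⟨si, ti⟩ := pa2_shift_sum a (-1) ha
  obtain ⟨sj, tj⟩ := pa2_shift_sum a 1 ha
  simp only [← sub_eq_add_neg] at si ti
  have h1 : ∀ n : ℤ, (a (n - 1) + a n + a (n + 1)) ^ 2
      ≤ 3 * a (n - 1) ^ 2 + 3 * a n ^ 2 + 3 * a (n + 1) ^ 2 := fun n => by
    nlinarith only [sq_nonneg (a (n - 1) - a n), sq_nonneg (a (n - 1) - a (n + 1)),
      sq_nonneg (a n - a (n + 1))]
  have h2 : Summable fun n : ℤ => 3 * a (n - 1) ^ 2 + 3 * a n ^ 2 + 3 * a (n + 1) ^ 2 :=
    ((si.mul_left 3).add (ha.mul_left 3)).add (sj.mul_left 3)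
  have h3 : Summable fun n : ℤ => (a (n - 1) + a n + a (n + 1)) ^ 2 :=
    Summable.of_nonneg_of_le (fun n => sq_nonneg _) h1 h2
  refine ⟨h3, (h3.tsum_le_tsum h1 h2).trans ?_⟩
  rw [((si.mul_left 3).add (ha.mul_left 3)).tsum_add (sj.mul_left 3),
    (si.mul_left 3).tsum_add (ha.mul_left 3), tsum_mul_left, tsum_mul_left, tsum_mul_left, ti, tj]
  linarith

private lemma pa2_cs {x y : ℤ → ℝ} (hx0 : ∀ n, 0 ≤ x n) (hy0 : ∀ n, 0 ≤ y n)
    (hx : Summable fun n => x n ^ 2) (hy : Summable fun n => y n ^ 2) :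
    Summable (fun n => x n * y n) ∧
      ∑' n, x n * y n ≤ √(∑' n, x n ^ 2) * √(∑' n, y n ^ 2) := by
  have h2 := Real.inner_le_Lp_mul_Lq_tsum_of_nonneg (p := 2) (q := 2)
    Real.HolderConjugate.two_two hx0 hy0 (by simpa using hx) (by simpa using hy)
  refine ⟨?_, ?_⟩
  · refine Summable.of_nonneg_of_le (fun n => mul_nonneg (hx0 n) (hy0 n)) (fun n => ?_)
      (hx.add hy)
    nlinarith only [sq_nonneg (x n - y n), sq_nonneg (x n), sq_nonneg (y n)]
  · simp only [Real.rpow_ofNat] at h2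
    rw [Real.sqrt_eq_rpow, Real.sqrt_eq_rpow]
    exact h2

/-- (B1.4) abstract form: operators dominated by three neighbouring cells -/
theorem three_cells (T : L2 →L[ℂ] L2) (M : ℝ) (hM : 0 ≤ M)
    (hT : ∀ (f : L2) (n : ℤ), ∀ᵐ x : ℝ, x ∈ Ico (π * n) (π * (n + 1)) →
      ‖(T f : ℝ → ℂ) x‖ ≤ M / (2 * π) * (aF f (n - 1) + aF f n + aF f (n + 1))) :
    (∀ f' f : L2, ‖(inner ℂ f' (T f) : ℂ)‖ ≤ M * (aN f' * aN f)) ∧
    (∀ f : L2, ‖T f‖ ≤ M * aN f) ∧ (∀ f : L2, aN (T f) ≤ 2 * M * aN f) := by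
  have hp := Real.pi_gt_three
  have t0 : ∀ (f : L2) (n : ℤ), 0 ≤ aF f (n - 1) + aF f n + aF f (n + 1) := fun f n =>
    add_nonneg (add_nonneg (aF_nonneg _ _) (aF_nonneg _ _)) (aF_nonneg _ _)
  have s9 : ∀ f : L2, √(∑' n : ℤ, (aF f (n - 1) + aF f n + aF f (n + 1)) ^ 2) ≤ 3 * aN f := by
    intro f
    have h5 : √(9 * ∑' n, aF f n ^ 2) = 3 * aN f := by
      rw [Real.sqrt_mul (by norm_num)]
      unfold aN
      congr 1
      rw [show (9 : ℝ) = 3 ^ 2 by norm_num]
      exact Real.sqrt_sq (by norm_num)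
    rw [← h5]
    exact Real.sqrt_le_sqrt (pa2_three_sum (summable_aF f)).2
  have M2 : 0 ≤ M / (2 * π) := by positivity
  refine ⟨fun f' f => ?_, fun f => ?_, fun f => ?_⟩
  · -- inner product
    rw [inner_eq]
    have i1 : Integrable (fun x => ‖conj (f' x) * (T f : ℝ → ℂ) x‖) := by
      have := L2.integrable_inner (𝕜 := ℂ) f' (T f)
      refine Integrable.norm ?_
      refine this.congr (ae_of_all _ fun x => ?_)
      exact RCLike.inner_apply' _ _
    have i2 := pa2_hasSum i1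
    have i3 : ∀ n : ℤ, ∫ x in Ico (π * (n : ℝ)) (π * (n + 1)), ‖conj (f' x) * (T f : ℝ → ℂ) x‖
        ≤ M / (2 * π) * (aF f' n * (aF f (n - 1) + aF f n + aF f (n + 1))) := fun n => by
      have j1 : M / (2 * π) * (aF f' n * (aF f (n - 1) + aF f n + aF f (n + 1)))
          = ∫ x in Ico (π * (n : ℝ)) (π * (n + 1)),
            ‖f' x‖ * (M / (2 * π) * (aF f (n - 1) + aF f n + aF f (n + 1))) := by
        rw [integral_mul_const]
        unfold aF
        ring
      rw [j1]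
      refine integral_mono_ae i1.integrableOn ((pa2_int_Ico f' _ _).mul_const _) ?_
      rw [EventuallyLE, ae_restrict_iff' measurableSet_Ico]
      filter_upwards [hT f n] with x hx hx'
      rw [norm_mul, RCLike.norm_conj]
      exact mul_le_mul_of_nonneg_left (hx hx') (norm_nonneg _)
    obtain ⟨c1, c2⟩ := pa2_cs (aF_nonneg f') (t0 f) (summable_aF f')
      (pa2_three_sum (summable_aF f)).1
    have i4 : ∫ x, ‖conj (f' x) * (T f : ℝ → ℂ) x‖
        ≤ M / (2 * π) * ∑' n : ℤ, (aF f' n * (aF f (n - 1) + aF f n + aF f (n + 1))) := by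
      rw [← tsum_mul_left]
      exact hasSum_le i3 i2 (c1.mul_left _).hasSum
    refine (norm_integral_le_integral_norm _).trans (i4.trans ?_)
    have i5 : ∑' n : ℤ, (aF f' n * (aF f (n - 1) + aF f n + aF f (n + 1)))
        ≤ aN f' * (3 * aN f) :=
      c2.trans (mul_le_mul_of_nonneg_left (s9 f) (Real.sqrt_nonneg _))
    refine (mul_le_mul_of_nonneg_left i5 M2).trans ?_
    have a1 := mul_nonneg (aN_nonneg f') (aN_nonneg f)
    have h6 : M / (2 * π) * (aN f' * (3 * aN f)) = (3 / (2 * π)) * (M * (aN f' * aN f)) := by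
      field_simp
    rw [h6]
    have h7 : 3 / (2 * π) ≤ 1 := by
      rw [div_le_one (by positivity)]
      linarith
    calc 3 / (2 * π) * (M * (aN f' * aN f)) ≤ 1 * (M * (aN f' * aN f)) :=
          mul_le_mul_of_nonneg_right h7 (mul_nonneg hM a1)
      _ = _ := one_mul _
  · -- norm
    have i1 : Integrable (fun x => ‖(T f : ℝ → ℂ) x‖ ^ 2) :=
      (memLp_two_iff_integrable_sq_norm (Lp.aestronglyMeasurable _)).mp (Lp.memLp _)
    have i2 := pa2_hasSum i1
    have n2 : ‖T f‖ ^ 2 = ∫ x, ‖(T f : ℝ → ℂ) x‖ ^ 2 := by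
      have := norm_toLp_sq (Lp.memLp (T f))
      rwa [Lp.toLp_coeFn] at this
    have i3 : ∀ n : ℤ, ∫ x in Ico (π * (n : ℝ)) (π * (n + 1)), ‖(T f : ℝ → ℂ) x‖ ^ 2
        ≤ (π * (M / (2 * π)) ^ 2) * (aF f (n - 1) + aF f n + aF f (n + 1)) ^ 2 := fun n => by
      have j1 : (π * (M / (2 * π)) ^ 2) * (aF f (n - 1) + aF f n + aF f (n + 1)) ^ 2
          = ∫ x in Ico (π * (n : ℝ)) (π * (n + 1)),
            (M / (2 * π) * (aF f (n - 1) + aF f n + aF f (n + 1))) ^ 2 := by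
        rw [setIntegral_const, pa2_vol, smul_eq_mul]
        ring
      rw [j1]
      refine integral_mono_ae i1.integrableOn ?_ ?_
      · refine integrableOn_const ?_
        rw [Real.volume_Ico]
        exact ENNReal.ofReal_ne_top
      · rw [EventuallyLE, ae_restrict_iff' measurableSet_Ico]
        filter_upwards [hT f n] with x hx hx'
        exact pow_le_pow_left₀ (norm_nonneg _) (hx hx') 2
    obtain ⟨c1, c2⟩ := pa2_three_sum (summable_aF f)
    have i4 : ‖T f‖ ^ 2 ≤ (π * (M / (2 * π)) ^ 2) *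
        ∑' n : ℤ, (aF f (n - 1) + aF f n + aF f (n + 1)) ^ 2 := by
      rw [n2, ← tsum_mul_left]
      exact hasSum_le i3 i2 (c1.mul_left _).hasSum
    have i5 : ‖T f‖ ^ 2 ≤ (π * (M / (2 * π)) ^ 2) * (9 * aN f ^ 2) := by
      refine i4.trans (mul_le_mul_of_nonneg_left ?_ (by positivity))
      rw [aN_sq]
      exact c2
    have i6 : (π * (M / (2 * π)) ^ 2) * (9 * aN f ^ 2) = (9 / (4 * π)) * (M * aN f) ^ 2 := by
      field_simp
      ring
    have i7 : 9 / (4 * π) ≤ 1 := by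
      rw [div_le_one (by positivity)]
      linarith
    have i8 : ‖T f‖ ^ 2 ≤ (M * aN f) ^ 2 := by
      rw [i6] at i5
      refine i5.trans ?_
      calc 9 / (4 * π) * (M * aN f) ^ 2 ≤ 1 * (M * aN f) ^ 2 :=
            mul_le_mul_of_nonneg_right i7 (sq_nonneg _)
        _ = _ := one_mul _
    exact le_of_sq_le_sq i8 (mul_nonneg hM (aN_nonneg f))
  · -- aN
    have i3 : ∀ n : ℤ, aF (T f) n ≤ M / 2 * (aF f (n - 1) + aF f n + aF f (n + 1)) := fun n => by
      have j1 : M / 2 * (aF f (n - 1) + aF f n + aF f (n + 1))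
          = ∫ x in Ico (π * (n : ℝ)) (π * (n + 1)),
            (M / (2 * π) * (aF f (n - 1) + aF f n + aF f (n + 1))) := by
        rw [setIntegral_const, pa2_vol, smul_eq_mul]
        field_simp
      rw [j1]
      refine integral_mono_ae (pa2_int_Ico (T f) _ _) ?_ ?_
      · refine integrableOn_const ?_
        rw [Real.volume_Ico]
        exact ENNReal.ofReal_ne_top
      · rw [EventuallyLE, ae_restrict_iff' measurableSet_Ico]
        filter_upwards [hT f n] with x hx hx'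
        exact hx hx'
    obtain ⟨c1, c2⟩ := pa2_three_sum (summable_aF f)
    have i4 : ∀ n : ℤ, aF (T f) n ^ 2
        ≤ (M / 2) ^ 2 * (aF f (n - 1) + aF f n + aF f (n + 1)) ^ 2 := fun n => by
      rw [← mul_pow]
      exact pow_le_pow_left₀ (aF_nonneg _ _) (i3 n) 2
    have i5 : aN (T f) ^ 2 ≤ (M / 2) ^ 2 * (9 * aN f ^ 2) := by
      rw [aN_sq, aN_sq]
      refine ((summable_aF (T f)).tsum_le_tsum i4 (c1.mul_left _)).trans ?_
      rw [tsum_mul_left]
      exact mul_le_mul_of_nonneg_left c2 (sq_nonneg _)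
    have i8 : aN (T f) ^ 2 ≤ (2 * M * aN f) ^ 2 := by
      refine i5.trans ?_
      have : (M / 2) ^ 2 * (9 * aN f ^ 2) = 9 / 4 * (M * aN f) ^ 2 := by ring
      rw [this]
      have : (2 * M * aN f) ^ 2 = 4 * (M * aN f) ^ 2 := by ring
      rw [this]
      nlinarith only [sq_nonneg (M * aN f)]
    exact le_of_sq_le_sq i8 (mul_nonneg (mul_nonneg (by norm_num) hM) (aN_nonneg f))

end Pool.Agent.Helper92.HRU
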