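import Pool.Agent.Helper92.HRU.BDefs
import Pool.Agent.Helper92.HRU.Pf.PA2
import Pool.Agent.Helper92.HRU.Pf.PK2

/-! Piece PA3: bounds of X, X0, X1. -/

set_option autoImplicit false

namespace Pool.Agent.Helper92.HRU

open Complex Set MeasureTheory Filter Topology
open scoped ComplexConjugate Real ENNReal
open Pool.Agent.Helper84.HRT (Weyl node chi mu8 XL Data Aop Bop Good)

private theorem pa3_aux (T : L2 →L[ℂ] L2) (k : ℝ → ℂ) (hk : Measurable k) (M : ℝ) (hM : 0 ≤ M)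
    (hb : ∀ u, ‖k u‖ ≤ M / (4 * π)) (hT : ∀ f : L2, (T f : ℝ → ℂ) =ᵐ[volume] kerf k f)
    (f' f : L2) : ‖(inner ℂ f' (T f) : ℂ)‖ ≤ M * (aN f' * aN f) ∧ ‖T f‖ ≤ M * aN f ∧
      aN (T f) ≤ 2 * M * aN f := by
  have h := three_cells T M hM (fun f n => by
    filter_upwards [hT f] with x hx hxn
    rw [hx]
    exact kerf_bound k hk M hM hb f n x hxn)
  exact ⟨h.1 f' f, h.2.1 f, h.2.2 f⟩

private theorem pa3_e2_nonneg (P : Par) : 0 ≤ P.e2 := by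
  have hL := P.hL
  unfold Par.e2
  positivity

private theorem pa3_e2_le (P : Par) : P.e2 ≤ 1 := by
  have hL := P.hL
  unfold Par.e2
  exact inv_le_one_of_one_le₀ (one_le_pow₀ (by linarith))

private theorem pa3_kaph_le (P : Par) (u : ℝ) : kaph P u ≤ 1 := by
  unfold kaph
  split_ifs
  · exact le_rfl
  · exact pa3_e2_le P

private theorem pa3_div_nonneg {r : ℝ} (hr : 0 ≤ r) : 0 ≤ r / (4 * π) :=
  div_nonneg hr (by positivity)

private theorem pa3_win_meas : MeasurableSet {u : ℝ | 1 / 2 < |u| ∧ |u| < 3 / 2} :=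
  (measurableSet_lt measurable_const measurable_abs).inter
    (measurableSet_lt measurable_abs measurable_const)

/-- (B1.4) -/
theorem X_bounds (P : Par) (r : ℝ) (hr : 0 ≤ r) (ξ : ℝ → ℂ) (h : AdmX P r ξ) (f' f : L2) :
    ‖(inner ℂ f' (X ξ f) : ℂ)‖ ≤ r * (aN f' * aN f) ∧ ‖X ξ f‖ ≤ r * aN f ∧
      aN (X ξ f) ≤ 2 * r * aN f := by
  obtain ⟨k, hk, hb, _, hX, _, _⟩ := exists_kernel P r hr ξ h
  refine pa3_aux (X ξ) k hk r hr (fun u => (hb u).trans ?_) hX f' f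
  exact mul_le_of_le_one_right (pa3_div_nonneg hr) (pa3_kaph_le P u)

theorem X0_bounds (P : Par) (r : ℝ) (hr : 0 ≤ r) (ξ : ℝ → ℂ) (h : AdmX P r ξ) (f' f : L2) :
    ‖(inner ℂ f' (X0 ξ f) : ℂ)‖ ≤ r * (aN f' * aN f) ∧ ‖X0 ξ f‖ ≤ r * aN f ∧
      aN (X0 ξ f) ≤ 2 * r * aN f := by
  obtain ⟨k, hk, hb, _, _, hX, _⟩ := exists_kernel P r hr ξ h
  refine pa3_aux (X0 ξ) _ (hk.indicator pa3_win_meas) r hr (fun u => ?_) hX f' f
  refine (norm_indicator_le_norm_self k u).trans ((hb u).trans ?_)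
  exact mul_le_of_le_one_right (pa3_div_nonneg hr) (pa3_kaph_le P u)

theorem X1_bounds (P : Par) (r : ℝ) (hr : 0 ≤ r) (ξ : ℝ → ℂ) (h : AdmX P r ξ) (f' f : L2) :
    ‖(inner ℂ f' (X1 ξ f) : ℂ)‖ ≤ P.e2 * r * (aN f' * aN f) ∧ ‖X1 ξ f‖ ≤ P.e2 * r * aN f ∧
      aN (X1 ξ f) ≤ 2 * (P.e2 * r) * aN f := by
  obtain ⟨k, hk, hb, _, _, _, hX⟩ := exists_kernel P r hr ξ h
  have he := pa3_e2_nonneg P
  refine pa3_aux (X1 ξ) _ (hk.indicator pa3_win_meas.compl) (P.e2 * r) (mul_nonneg he hr)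
    (fun u => ?_) hX f' f
  by_cases hu : u ∈ {u : ℝ | 1 / 2 < |u| ∧ |u| < 3 / 2}ᶜ
  · rw [indicator_of_mem hu]
    refine (hb u).trans (le_of_eq ?_)
    have hu' : ¬ (1 / 2 < |u| ∧ |u| < 3 / 2) := hu
    unfold kaph
    rw [if_neg hu']
    ring
  · rw [indicator_of_notMem hu, norm_zero]
    exact pa3_div_nonneg (mul_nonneg he hr)

end Pool.Agent.Helper92.HRU
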