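import Pool.Agent.Helper92.HRU.BDefs
import Pool.Agent.Helper92.HRU.Pf.PN1
import Pool.Agent.Helper92.HRU.Pf.PN2
import Pool.Agent.Helper92.HRU.Pf.PA1
import Pool.Agent.Helper92.HRU.Pf.PA2
import Pool.Agent.Helper92.HRU.Pf.PQ2

/-! Piece PD: the operator D. -/

set_option autoImplicit false

namespace Pool.Agent.Helper92.HRU

open Complex Set MeasureTheory Filter Topology
open scoped ComplexConjugate Real ENNReal
open Pool.Agent.Helper84.HRT (Weyl node chi mu8 XL Data Aop Bop Good)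

private theorem pd_Wb_apply (P : Par) (gb : ℂ) (f : L2) :
    Wb P gb f = (W o1 f + W (-o1) f) + (P.v2 : ℂ) • (W o2 f + W (-o2) f) +
      (P.ep : ℂ) • (gb • W P.b f + (conj gb) • W (-P.b) f) := rfl

private theorem pd_norm_Wb (P : Par) (gb : ℂ) (hg : ‖gb‖ = 1) (f : L2) :
    ‖Wb P gb f‖ ≤ 8.8 * ‖f‖ := by
  have hv := P.v2_bd
  have he := P.ep_bd
  have hf := norm_nonneg f
  have hc : ‖conj gb‖ = 1 := by rw [RCLike.norm_conj, hg]
  have a1 : ‖W o1 f + W (-o1) f‖ ≤ 2 * ‖f‖ := by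
    refine (norm_add_le _ _).trans ?_
    rw [norm_W, norm_W, two_mul]
  have a2 : ‖(P.v2 : ℂ) • (W o2 f + W (-o2) f)‖ ≤ 1.8 * (2 * ‖f‖) := by
    rw [norm_smul, Complex.norm_real, Real.norm_of_nonneg (by linarith [hv.1])]
    refine mul_le_mul hv.2 ?_ (norm_nonneg _) (by norm_num)
    refine (norm_add_le _ _).trans ?_
    rw [norm_W, norm_W, two_mul]
  have a3 : ‖(P.ep : ℂ) • (gb • W P.b f + (conj gb) • W (-P.b) f)‖ ≤ 1.6 * (2 * ‖f‖) := by
    rw [norm_smul, Complex.norm_real, Real.norm_of_nonneg (by linarith [he.1])]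
    refine mul_le_mul he.2 ?_ (norm_nonneg _) (by norm_num)
    refine (norm_add_le _ _).trans ?_
    rw [norm_smul, norm_smul, norm_W, norm_W, hg, hc, two_mul]
    linarith
  rw [pd_Wb_apply]
  refine (norm_add_le _ _).trans ((add_le_add (norm_add_le _ _) le_rfl).trans ?_)
  linarith

private theorem pd_aN_Wb (P : Par) (gb : ℂ) (hg : ‖gb‖ = 1) (f : L2) :
    aN (Wb P gb f) ≤ 17.6 * aN f := by
  have hv := P.v2_bd
  have he := P.ep_bd
  have hf := aN_nonneg f
  have hc : ‖conj gb‖ = 1 := by rw [RCLike.norm_conj, hg]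
  have n1 : ‖-o1‖ = 1 := by rw [norm_neg, norm_o1]
  have n2 : ‖-o2‖ = 1 := by rw [norm_neg, norm_o2]
  have n3 : ‖-P.b‖ = 1 := by rw [norm_neg, P.norm_b]
  have a1 : aN (W o1 f + W (-o1) f) ≤ 4 * aN f := by
    have h1 := aN_add (W o1 f) (W (-o1) f)
    have h2 := aN_W o1 norm_o1 f
    have h3 := aN_W (-o1) n1 f
    linarith
  have a2 : aN ((P.v2 : ℂ) • (W o2 f + W (-o2) f)) ≤ 1.8 * (4 * aN f) := by
    rw [aN_smul, Complex.norm_real, Real.norm_of_nonneg (by linarith [hv.1])]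
    refine mul_le_mul hv.2 ?_ (aN_nonneg _) (by norm_num)
    have h1 := aN_add (W o2 f) (W (-o2) f)
    have h2 := aN_W o2 norm_o2 f
    have h3 := aN_W (-o2) n2 f
    linarith
  have a3 : aN ((P.ep : ℂ) • (gb • W P.b f + (conj gb) • W (-P.b) f)) ≤ 1.6 * (4 * aN f) := by
    rw [aN_smul, Complex.norm_real, Real.norm_of_nonneg (by linarith [he.1])]
    refine mul_le_mul he.2 ?_ (aN_nonneg _) (by norm_num)
    have h1 := aN_add (gb • W P.b f) ((conj gb) • W (-P.b) f)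
    rw [aN_smul, aN_smul, hg, hc] at h1
    have h2 := aN_W P.b P.norm_b f
    have h3 := aN_W (-P.b) n3 f
    linarith
  rw [pd_Wb_apply]
  have h1 := aN_add ((W o1 f + W (-o1) f) + (P.v2 : ℂ) • (W o2 f + W (-o2) f))
    ((P.ep : ℂ) • (gb • W P.b f + (conj gb) • W (-P.b) f))
  have h2 := aN_add (W o1 f + W (-o1) f) ((P.v2 : ℂ) • (W o2 f + W (-o2) f))
  linarith

private theorem pd_G_Qc (P : Par) (f : L2) : G P (Qc P f) = G P f := by
  have h1 : G P f = G P (Q P f + Qc P f) := by rw [Q_add_Qc]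
  rw [h1, map_add, G_Q, zero_add]

private theorem pd_Qc_G (P : Par) (f : L2) : Qc P (G P f) = G P f := by
  have h1 : Q P (G P f) + Qc P (G P f) = G P f := Q_add_Qc P _
  rwa [Q_G, zero_add] at h1

private theorem pd_B0_apply (P : Par) (gb : ℂ) (f : L2) :
    B0 P gb f = Cos2 f + (P.s : ℂ) • Wb P gb f := rfl

/-- (B1.5) existence: `D = G (1 + s W G)⁻¹ = Σ (-s)^j G (W G)^j` (Neumann series, `11 s ‖W‖ ≤ 1/2`). -/
theorem exists_D (P : Par) (gb : ℂ) (hg : ‖gb‖ = 1) : ∃ D : L2 →L[ℂ] L2, IsD P gb D := by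
  have hs0 := P.s_pos
  have hs1 := P.s_le
  have hsn : ‖(P.s : ℂ)‖ = P.s := by rw [Complex.norm_real, Real.norm_of_nonneg hs0.le]
  -- the Neumann series
  set t : L2 →L[ℂ] L2 := -((P.s : ℂ) • (Wb P gb ∘L G P)) with ht
  have htn : ‖t‖ < 1 := by
    have h1 : ‖t‖ ≤ 1 / 2 := by
      refine ContinuousLinearMap.opNorm_le_bound _ (by norm_num) fun f => ?_
      have e : t f = -((P.s : ℂ) • Wb P gb (G P f)) := rfl
      rw [e, norm_neg, norm_smul, hsn]
      have h2 := pd_norm_Wb P gb hg (G P f)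
      have h3 := norm_G_le P f
      have h4 := norm_nonneg f
      calc P.s * ‖Wb P gb (G P f)‖ ≤ (1 / 10 ^ 20) * (8.8 * (11 * ‖f‖)) := by
            refine mul_le_mul hs1 (h2.trans ?_) (norm_nonneg _) (by norm_num)
            linarith
        _ ≤ 1 / 2 * ‖f‖ := by linarith
    linarith
  set u : (L2 →L[ℂ] L2)ˣ := Units.oneSub t htn with hu
  set R : L2 →L[ℂ] L2 := ((u⁻¹ : (L2 →L[ℂ] L2)ˣ) : L2 →L[ℂ] L2) with hR
  have huv : (u : L2 →L[ℂ] L2) = 1 - t := rfl
  have hu_apply : ∀ f, (u : L2 →L[ℂ] L2) f = f + (P.s : ℂ) • Wb P gb (G P f) := by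
    intro f
    have e : (1 - t) f = f - t f := rfl
    rw [huv, e]
    have e2 : t f = -((P.s : ℂ) • Wb P gb (G P f)) := rfl
    rw [e2, sub_neg_eq_add]
  have hRu : ∀ f, R (f + (P.s : ℂ) • Wb P gb (G P f)) = f := by
    intro f
    rw [← hu_apply f]
    have h1 : R * (u : L2 →L[ℂ] L2) = 1 := u.inv_mul
    have h2 := congrArg (fun T : L2 →L[ℂ] L2 => T f) h1
    exact h2
  have huR : ∀ f, R f + (P.s : ℂ) • Wb P gb (G P (R f)) = f := by
    intro f
    rw [← hu_apply (R f)]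
    have h1 : (u : L2 →L[ℂ] L2) * R = 1 := u.mul_inv
    have h2 := congrArg (fun T : L2 →L[ℂ] L2 => T f) h1
    exact h2
  set D : L2 →L[ℂ] L2 := G P ∘L R with hD
  have hDa : ∀ f, D f = G P (R f) := fun f => rfl
  -- the two basic identities
  have e1 : ∀ f, D f = G P f - (P.s : ℂ) • G P (Wb P gb (D f)) := by
    intro f
    have h1 := congrArg (G P) (huR f)
    rw [map_add, map_smul] at h1
    rw [hDa f, ← h1]
    abel
  have e2 : ∀ f, D f = G P f - (P.s : ℂ) • D (Wb P gb (G P f)) := by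
    intro f
    have h1 := congrArg (G P) (hRu f)
    rw [← hDa, map_add, map_smul] at h1
    exact eq_sub_of_add_eq h1
  have hleft : ∀ f, Q P (D f) = 0 := by
    intro f
    rw [hDa, Q_G]
  have hright : ∀ f, D (Q P f) = 0 := by
    intro f
    rw [e2, G_Q, map_zero, map_zero, smul_zero, sub_zero]
  refine ⟨D, hleft, hright, ?_, ?_, ?_, ?_, ?_⟩
  · intro f
    have h1 : (P.s : ℂ) • Wb P gb (D f) = f - R f := by
      rw [hDa]
      exact eq_sub_of_add_eq' (huR f)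
    rw [pd_B0_apply, h1, hDa, Cos2_G, map_add, Qc_Qc, map_sub]
    abel
  · intro f
    have h1 : (P.s : ℂ) • D (Wb P gb (Qc P f)) = Qc P f - D (Cos2 f) := by
      have h2 := e2 (Cos2 f)
      rw [G_Cos2] at h2
      rw [h2]
      abel
    have h3 : D (Cos2 (Qc P f)) = D (Cos2 f) := by
      have h4 : D (Cos2 f) = D (Cos2 (Q P f + Qc P f)) := by rw [Q_add_Qc]
      rw [h4, map_add, map_add, Cos2_Q, hright, zero_add]
    rw [pd_B0_apply, map_add, map_smul, h1, h3]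
    abel
  · intro f h
    -- write `f = (1 + s W G) a`, `h = (1 + s W G) c`
    have hf := huR f
    have hh := huR h
    rw [hDa, hDa]
    conv_lhs => rw [← hh]
    conv_rhs => rw [← hf]
    rw [inner_add_left, inner_add_right, inner_smul_left, inner_smul_right, G_symm, Wb_symm,
      Complex.conj_ofReal]
  · intro f
    have h1 := e1 f
    have h2 : ‖D f‖ ≤ ‖G P f‖ + ‖(P.s : ℂ) • G P (Wb P gb (D f))‖ := by
      conv_lhs => rw [h1]
      exact norm_sub_le _ _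
    rw [norm_smul, hsn] at h2
    have h3 := norm_G_le P f
    have h4 := norm_G_le P (Wb P gb (D f))
    have h5 := pd_norm_Wb P gb hg (D f)
    have h6 : P.s * ‖G P (Wb P gb (D f))‖ ≤ (1 / 10 ^ 20) * (11 * (8.8 * ‖D f‖)) := by
      refine mul_le_mul hs1 (h4.trans ?_) (norm_nonneg _) (by norm_num)
      linarith
    have h7 := norm_nonneg (D f)
    linarith
  · intro f
    have h1 := e1 f
    have h2 : aN (D f) ≤ aN (G P f) + aN ((P.s : ℂ) • G P (Wb P gb (D f))) := by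
      conv_lhs => rw [h1]
      exact aN_sub _ _
    rw [aN_smul, hsn] at h2
    have h3 := aN_G_le P f
    have h4 := aN_G_le P (Wb P gb (D f))
    have h5 := pd_aN_Wb P gb hg (D f)
    have h6 : P.s * aN (G P (Wb P gb (D f))) ≤ (1 / 10 ^ 20) * (11 * (17.6 * aN (D f))) := by
      refine mul_le_mul hs1 (h4.trans ?_) (aN_nonneg _) (by norm_num)
      linarith
    have h7 := aN_nonneg (D f)
    linarith

/-- `D = G - s G W D` and `D = G - s D W G` -/
theorem IsD.eq1 {P : Par} {gb : ℂ} {D : L2 →L[ℂ] L2} (h : IsD P gb D) (f : L2) :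
    D f = G P f - (P.s : ℂ) • G P (Wb P gb (D f)) := by
  have h1 := congrArg (G P) (h.inv1 f)
  rw [pd_G_Qc, pd_G_Qc, pd_B0_apply, map_add, map_smul, G_Cos2] at h1
  have h2 : Qc P (D f) = D f := by
    have h3 : Q P (D f) + Qc P (D f) = D f := Q_add_Qc P _
    rwa [h.left, zero_add] at h3
  rw [h2] at h1
  exact eq_sub_of_add_eq h1

theorem IsD.eq2 {P : Par} {gb : ℂ} {D : L2 →L[ℂ] L2} (h : IsD P gb D) (f : L2) :
    D f = G P f - (P.s : ℂ) • D (Wb P gb (G P f)) := by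
  have h1 := h.inv2 (G P f)
  rw [pd_Qc_G, pd_B0_apply, map_add, map_smul, Cos2_G] at h1
  have h2 : D (Qc P f) = D f := by
    have h3 : D f = D (Q P f + Qc P f) := by rw [Q_add_Qc]
    rw [h3, map_add, h.right, zero_add]
  rw [h2] at h1
  exact eq_sub_of_add_eq h1

theorem IsD.sub_le : ∃ C : ℝ, 0 < C ∧ ∀ (P : Par) (gb : ℂ) (D : L2 →L[ℂ] L2), ‖gb‖ = 1 →
    IsD P gb D → ∀ f : L2, ‖D f - G P f‖ ≤ C * P.s * ‖f‖ := by
  refine ⟨2200, by norm_num, fun P gb D hg h f => ?_⟩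
  have hs0 := P.s_pos
  have hsn : ‖(P.s : ℂ)‖ = P.s := by rw [Complex.norm_real, Real.norm_of_nonneg hs0.le]
  have h1 := h.eq1 f
  have h2 : D f - G P f = -((P.s : ℂ) • G P (Wb P gb (D f))) := by
    conv_lhs => rw [h1]
    abel
  rw [h2, norm_neg, norm_smul, hsn]
  have h3 := norm_G_le P (Wb P gb (D f))
  have h4 := pd_norm_Wb P gb hg (D f)
  have h5 := h.bound f
  have h6 := norm_nonneg f
  have h7 : ‖G P (Wb P gb (D f))‖ ≤ 2200 * ‖f‖ := by linarith
  calc P.s * ‖G P (Wb P gb (D f))‖ ≤ P.s * (2200 * ‖f‖) := mul_le_mul_of_nonneg_left h7 hs0.le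
    _ = 2200 * P.s * ‖f‖ := by ring

end Pool.Agent.Helper92.HRU
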