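import Pool.Agent.Helper92.HRU.BDefs
import Pool.Agent.Helper92.HRU.Pf.PN2
import Pool.Agent.Helper92.HRU.Pf.PK2
import Pool.Agent.Helper92.HRU.Pf.PQ1

/-! Piece PQ3: non-resonance. -/

set_option autoImplicit false

namespace Pool.Agent.Helper92.HRU

open Complex Set MeasureTheory Filter Topology
open scoped ComplexConjugate Real ENNReal
open Pool.Agent.Helper84.HRT (Weyl node chi mu8 XL Data Aop Bop Good)

theorem pq3_Q_coe (P : Par) (f : L2) : (Q P f : ℝ → ℂ) =ᵐ[volume]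
    fun x => (Qs P).indicator (fun _ => (1 : ℂ)) x * f x :=
  mulOp_coe (bddM_ind (meas_Qs P)) f

theorem pq3_Q_eq_zero (P : Par) (g : L2) (h : ∀ᵐ x : ℝ, x ∈ Qs P → (g : ℝ → ℂ) x = 0) :
    Q P g = 0 := by
  refine Lp.ext ?_
  filter_upwards [pq3_Q_coe P g, h, Lp.coeFn_zero ℂ 2 (volume : Measure ℝ)] with x h1 h2 h3
  rw [h1, h3]
  by_cases hx : x ∈ Qs P
  · rw [h2 hx, mul_zero]
    rfl
  · rw [indicator_of_notMem hx, zero_mul]
    rfl

theorem pq3_dist {c : ℝ} (h1 : 3 / 20 ≤ c) (h2 : c ≤ π - 3 / 20) (n : ℤ) :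
    3 / 20 ≤ |c - π * n| := by
  have hpi := Real.pi_pos
  rcases le_or_gt n 0 with hn | hn
  · have h3 : (n : ℝ) ≤ 0 := by exact_mod_cast hn
    have h4 : π * n ≤ 0 := mul_nonpos_of_nonneg_of_nonpos hpi.le h3
    exact (by linarith : 3 / 20 ≤ c - π * n).trans (le_abs_self _)
  · have h3 : (1 : ℝ) ≤ n := by exact_mod_cast hn
    have h4 : π ≤ π * n := by nlinarith
    rw [abs_sub_comm]
    exact (by linarith : 3 / 20 ≤ π * n - c).trans (le_abs_self _)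

theorem pq3_dist_neg {c : ℝ} (h : ∀ n : ℤ, 3 / 20 ≤ |c - π * n|) (n : ℤ) :
    3 / 20 ≤ |(-c) - π * n| := by
  have h1 := h (-n)
  push_cast at h1
  have h2 : -c - π * n = -(c - π * -n) := by ring
  rw [h2, abs_neg]
  exact h1

theorem pq3_Q_W_Q (P : Par) (α : ℂ) (hα : ∀ n : ℤ, 3 / 20 ≤ |2 * α.im - π * n|) (f : L2) :
    Q P (W α (Q P f)) = 0 := by
  refine pq3_Q_eq_zero P _ ?_
  filter_upwards [W_coe α (Q P f), ae_comp_sub (pq3_Q_coe P f) (2 * α.im)] with x h1 h2 hx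
  rw [h1, h2, indicator_of_notMem (shift_off P _ hα x hx), zero_mul, mul_zero]

/-- (B1.6) -/
theorem Q_Wb_Q (P : Par) (gb : ℂ) (f : L2) : Q P (Wb P gb (Q P f)) = 0 := by
  have hpi := Real.pi_gt_three
  have hs1 : (1 : ℝ) ≤ √3 := by
    rw [show (1 : ℝ) = √1 by simp]
    exact Real.sqrt_le_sqrt (by norm_num)
  have hs2 : √3 ≤ 2 := by
    rw [show (2 : ℝ) = √4 by rw [show (4 : ℝ) = 2 ^ 2 by norm_num]; simp]
    exact Real.sqrt_le_sqrt (by norm_num)
  have him := P.im_b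
  have d1 : ∀ n : ℤ, 3 / 20 ≤ |2 * o1.im - π * n| := by
    have h : 2 * o1.im = √3 := by
      simp only [o1]
      ring
    rw [h]
    exact pq3_dist (by linarith) (by linarith)
  have d2 : ∀ n : ℤ, 3 / 20 ≤ |2 * o2.im - π * n| := by
    have h : 2 * o2.im = √3 := by
      simp only [o2]
      ring
    rw [h]
    exact pq3_dist (by linarith) (by linarith)
  have d3 : ∀ n : ℤ, 3 / 20 ≤ |2 * P.b.im - π * n| :=
    pq3_dist (by linarith [him.1]) (by linarith [him.2])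
  have n1 : ∀ n : ℤ, 3 / 20 ≤ |2 * (-o1).im - π * n| := by
    intro n
    have h : 2 * (-o1).im = -(2 * o1.im) := by
      rw [neg_im]
      ring
    rw [h]
    exact pq3_dist_neg d1 n
  have n2 : ∀ n : ℤ, 3 / 20 ≤ |2 * (-o2).im - π * n| := by
    intro n
    have h : 2 * (-o2).im = -(2 * o2.im) := by
      rw [neg_im]
      ring
    rw [h]
    exact pq3_dist_neg d2 n
  have n3 : ∀ n : ℤ, 3 / 20 ≤ |2 * (-P.b).im - π * n| := by
    intro n
    have h : 2 * (-P.b).im = -(2 * P.b.im) := by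
      rw [neg_im]
      ring
    rw [h]
    exact pq3_dist_neg d3 n
  have hW : Wb P gb (Q P f) = (W o1 (Q P f) + W (-o1) (Q P f)) +
      (P.v2 : ℂ) • (W o2 (Q P f) + W (-o2) (Q P f)) +
      (P.ep : ℂ) • (gb • W P.b (Q P f) + (conj gb) • W (-P.b) (Q P f)) := rfl
  rw [hW]
  simp only [map_add, map_smul, pq3_Q_W_Q P _ d1, pq3_Q_W_Q P _ d2, pq3_Q_W_Q P _ d3,
    pq3_Q_W_Q P _ n1, pq3_Q_W_Q P _ n2, pq3_Q_W_Q P _ n3, smul_zero, add_zero]

theorem pq3_kaph_nonneg (P : Par) (u : ℝ) : 0 ≤ kaph P u := by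
  unfold kaph
  split_ifs
  · exact zero_le_one
  · have := P.hL
    unfold Par.e2
    positivity

theorem pq3_adm_abs {P : Par} {r : ℝ} {ξ : ℝ → ℂ} (h : AdmX P r ξ) : AdmX P |r| ξ := by
  refine ⟨h.meas, h.sym, ?_⟩
  filter_upwards [h.bd] with t ht
  refine ht.trans (mul_le_mul_of_nonneg_right (le_abs_self r) ?_)
  exact mul_nonneg (abs_nonneg _) (pq3_kaph_nonneg P _)

theorem pq3_dist_win {u : ℝ} (h1 : 1 / 2 < |u|) (h2 : |u| < 3 / 2) (n : ℤ) :
    3 / 20 ≤ |u - π * n| := by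
  have hpi := Real.pi_gt_three
  rcases le_or_gt 0 u with hu | hu
  · rw [abs_of_nonneg hu] at h1 h2
    exact pq3_dist (by linarith) (by linarith) n
  · rw [abs_of_neg hu] at h1 h2
    have h3 := pq3_dist_neg (pq3_dist (c := -u) (by linarith) (by linarith)) n
    rwa [neg_neg] at h3

theorem Q_X0_Q (P : Par) (r : ℝ) (ξ : ℝ → ℂ) (h : AdmX P r ξ) (f : L2) :
    Q P (X0 ξ (Q P f)) = 0 := by
  obtain ⟨k, _, _, _, _, hk, _⟩ := exists_kernel P |r| (abs_nonneg r) ξ (pq3_adm_abs h)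
  refine pq3_Q_eq_zero P _ ?_
  filter_upwards [hk (Q P f)] with x h1 hx
  rw [h1]
  unfold kerf
  have h2 : ∀ᵐ u : ℝ, (Q P f : ℝ → ℂ) (x - u) =
      (Qs P).indicator (fun _ => (1 : ℂ)) (x - u) * f (x - u) :=
    (Measure.measurePreserving_sub_left volume x).quasiMeasurePreserving.ae (pq3_Q_coe P f)
  rw [integral_eq_zero_of_ae]
  refine ae_restrict_of_ae ?_
  filter_upwards [h2] with u hu
  rw [Pi.zero_apply]
  by_cases hw : 1 / 2 < |u| ∧ |u| < 3 / 2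
  · rw [hu, indicator_of_notMem (shift_off P u (pq3_dist_win hw.1 hw.2) x hx), zero_mul,
      mul_zero]
  · have e1 : u ∉ {u : ℝ | 1 / 2 < |u| ∧ |u| < 3 / 2} := hw
    have e2 : -u ∉ {u : ℝ | 1 / 2 < |u| ∧ |u| < 3 / 2} := by
      rw [mem_setOf_eq, abs_neg]
      exact hw
    rw [indicator_of_notMem e1, indicator_of_notMem e2]
    simp

end Pool.Agent.Helper92.HRU
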