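import Pool.Agent.Helper92.HRU.BDefs
import Pool.Agent.Helper92.HRU.Pf.PN1
import Pool.Agent.Helper92.HRU.Pf.PA1
import Pool.Agent.Helper92.HRU.Pf.PA2
import Pool.Agent.Helper92.HRU.Pf.PA3
import Pool.Agent.Helper92.HRU.Pf.PK1
import Pool.Agent.Helper92.HRU.Pf.PQ2
import Pool.Agent.Helper92.HRU.Pf.PQ3
import Pool.Agent.Helper92.HRU.Pf.PD

/-! Piece PB3: reduction to the lines (Lemma B3). -/

set_option autoImplicit false

namespace Pool.Agent.Helper92.HRU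

open Complex Set MeasureTheory Filter Topology
open scoped ComplexConjugate Real ENNReal
open Pool.Agent.Helper84.HRT (Weyl node chi mu8 XL Data Aop Bop Good)

/-- the running data of the proof of Lemma B3 -/
structure pb3_Ctx (P : Par) (gb : ℂ) (r : ℝ) (ξ : ℝ → ℂ) (D : L2 →L[ℂ] L2) (CW CD : ℝ) :
    Prop where
  r0 : 0 ≤ r
  r1 : r ≤ 1 / 100
  adm : AdmX P r ξ
  hD : IsD P gb D
  W1 : ∀ f, aN (Wb P gb f) ≤ CW * aN f
  W2 : ∀ f, ‖Wb P gb f‖ ≤ CW * ‖f‖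
  CW1 : 0 < CW
  CD1 : 0 < CD
  DG : ∀ f, ‖D f - G P f‖ ≤ CD * P.s * ‖f‖

section
variable {P : Par} {gb : ℂ} {r : ℝ} {ξ : ℝ → ℂ} {D : L2 →L[ℂ] L2} {CW CD : ℝ}

theorem pb3_s_le_one (P : Par) : P.s ≤ 1 := P.s_le.trans (by norm_num)

theorem pb3_e2_le_one (P : Par) : P.e2 ≤ 1 := P.e2_le.trans (by norm_num)

theorem pb3_aN_zero : aN 0 = 0 := aN_zero

theorem pb3_AA (P : Par) (gb : ℂ) (ξ : ℝ → ℂ) (u : L2) :
    AA P gb ξ u = Cos2 u + (P.s : ℂ) • Wb P gb u + X ξ u := rfl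

theorem pb3_B0 (P : Par) (gb : ℂ) (u : L2) :
    B0 P gb u = Cos2 u + (P.s : ℂ) • Wb P gb u := rfl

/-- the formula for `h = Q' u` -/
theorem pb3_h (c : pb3_Ctx P gb r ξ D CW CD) (u : L2) :
    Qc P u = -((P.s : ℂ) • D (Wb P gb (Q P u))) +
      (D (Qc P (AA P gb ξ u)) - D (X ξ u)) := by
  have e1 := c.hD.inv2 u
  have e2 : Qc P u = u - Q P u := eq_sub_of_add_eq' (Q_add_Qc P u)
  have e3 : B0 P gb (Qc P u) = AA P gb ξ u - X ξ u - Q P (Cos2 u)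
      - (P.s : ℂ) • Wb P gb (Q P u) := by
    rw [e2, map_sub, pb3_B0 P gb (Q P u), Cos2_Q, pb3_AA, pb3_B0]
    abel
  have e4 : D (AA P gb ξ u) = D (Qc P (AA P gb ξ u)) := by
    conv_lhs => rw [← Q_add_Qc P (AA P gb ξ u)]
    rw [map_add, c.hD.right, zero_add]
  rw [e3, map_sub, map_sub, map_sub, c.hD.right, map_smul, e4] at e1
  rw [← e1]
  abel

theorem pb3_g (c : pb3_Ctx P gb r ξ D CW CD) (f : L2) :
    aN ((P.s : ℂ) • D (Wb P gb f)) ≤ 22 * CW * (P.s * aN f) ∧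
    ‖(P.s : ℂ) • D (Wb P gb f)‖ ≤ 22 * CW * (P.s * ‖f‖) := by
  have hs := P.s_pos
  have hn : ‖(P.s : ℂ)‖ = P.s := by
    rw [Complex.norm_real, Real.norm_eq_abs, abs_of_pos hs]
  constructor
  · rw [aN_smul, hn]
    have h1 := c.hD.boundA (Wb P gb f)
    have h2 := c.W1 f
    have h3 : aN (D (Wb P gb f)) ≤ 22 * (CW * aN f) := h1.trans (by linarith)
    calc P.s * aN (D (Wb P gb f)) ≤ P.s * (22 * (CW * aN f)) :=
          mul_le_mul_of_nonneg_left h3 hs.le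
      _ = 22 * CW * (P.s * aN f) := by ring
  · rw [norm_smul, hn]
    have h1 := c.hD.bound (Wb P gb f)
    have h2 := c.W2 f
    have h3 : ‖D (Wb P gb f)‖ ≤ 22 * (CW * ‖f‖) := h1.trans (by linarith)
    calc P.s * ‖D (Wb P gb f)‖ ≤ P.s * (22 * (CW * ‖f‖)) :=
          mul_le_mul_of_nonneg_left h3 hs.le
      _ = 22 * CW * (P.s * ‖f‖) := by ring

theorem pb3_h1 (c : pb3_Ctx P gb r ξ D CW CD) (f : L2) :
    aN (-((P.s : ℂ) • D (Wb P gb f))) ≤ 22 * CW * (P.s * aN f) ∧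
    ‖-((P.s : ℂ) • D (Wb P gb f))‖ ≤ 22 * CW * (P.s * ‖f‖) := by
  rw [aN_neg, norm_neg]
  exact pb3_g c f

/-- the splitting `X u = X f + X h₁ + X h₂` -/
theorem pb3_Xu (c : pb3_Ctx P gb r ξ D CW CD) (u : L2) :
    X ξ u = X ξ (Q P u) + X ξ (-((P.s : ℂ) • D (Wb P gb (Q P u)))) +
      X ξ (D (Qc P (AA P gb ξ u)) - D (X ξ u)) := by
  have e : u = Q P u + (-((P.s : ℂ) • D (Wb P gb (Q P u))) +
      (D (Qc P (AA P gb ξ u)) - D (X ξ u))) := by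
    rw [← pb3_h c u]
    exact (Q_add_Qc P u).symm
  calc X ξ u = X ξ (Q P u + (-((P.s : ℂ) • D (Wb P gb (Q P u))) +
      (D (Qc P (AA P gb ξ u)) - D (X ξ u)))) := congrArg (X ξ) e
    _ = _ := by rw [map_add (X ξ) (Q P u), map_add (X ξ) (-((P.s : ℂ) • D (Wb P gb (Q P u)))),
          add_assoc]

/-- the bound for `h₂` -/
theorem pb3_h2 (c : pb3_Ctx P gb r ξ D CW CD) (u : L2) :
    ‖D (Qc P (AA P gb ξ u)) - D (X ξ u)‖ ≤
      30 * (1 + 22 * CW) * (‖Qc P (AA P gb ξ u)‖ + r * aN (Q P u)) := by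
  have hXu := pb3_Xu c u
  set h1 : L2 := -((P.s : ℂ) • D (Wb P gb (Q P u))) with hh1
  set h2 : L2 := D (Qc P (AA P gb ξ u)) - D (X ξ u) with hh2
  set R := ‖Qc P (AA P gb ξ u)‖ with hR
  have hr0 := c.r0
  have hr1 := c.r1
  have ha := aN_nonneg (Q P u)
  have hR0 : 0 ≤ R := norm_nonneg _
  have hCW := c.CW1
  have n1 : ‖X ξ (Q P u)‖ ≤ r * aN (Q P u) := (X_bounds P r c.r0 ξ c.adm 0 (Q P u)).2.1
  have n2 : ‖X ξ h1‖ ≤ r * (22 * CW * aN (Q P u)) := by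
    refine (X_bounds P r c.r0 ξ c.adm 0 h1).2.1.trans (mul_le_mul_of_nonneg_left ?_ hr0)
    refine (pb3_h1 c (Q P u)).1.trans (mul_le_mul_of_nonneg_left ?_ (by positivity))
    exact mul_le_of_le_one_left ha (pb3_s_le_one P)
  have n3 : ‖X ξ h2‖ ≤ r * ‖h2‖ := norm_X_le c.r0 c.adm h2
  have n4 : ‖X ξ u‖ ≤ r * aN (Q P u) + r * (22 * CW * aN (Q P u)) + r * ‖h2‖ := by
    rw [hXu]
    refine (norm_add_le _ _).trans (add_le_add ((norm_add_le _ _).trans (add_le_add n1 n2)) n3)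
  have n5 : ‖h2‖ ≤ 22 * R + 22 * ‖X ξ u‖ :=
    (norm_sub_le _ _).trans (add_le_add (c.hD.bound _) (c.hD.bound _))
  have n6 : r * ‖h2‖ ≤ 1 / 100 * ‖h2‖ := mul_le_mul_of_nonneg_right hr1 (norm_nonneg _)
  have m1 : 0 ≤ r * aN (Q P u) := mul_nonneg hr0 ha
  have m2 : 0 ≤ CW * (r * aN (Q P u)) := mul_nonneg hCW.le m1
  have m3 : 0 ≤ CW * R := mul_nonneg hCW.le hR0
  nlinarith [n4, n5, n6, m1, m2, m3, hR0]

/-- the main term: `⟨f', X h⟩ = - T(f', f) + err` -/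
theorem pb3_T5 (c : pb3_Ctx P gb r ξ D CW CD) (u f' : L2) :
    ‖(inner ℂ f' (X ξ (Qc P u)) : ℂ) + TT P ξ f' (Q P u)‖ ≤
      (100 + 2500 * (1 + 22 * CW) + CD) *
        ((P.s * r + r * P.e2 + r ^ 3) * (aN f' * aN (Q P u))
          + ‖Qc P (AA P gb ξ u)‖ * ‖f'‖) := by
  have hXu := pb3_Xu c u
  have hh := pb3_h c u
  have hh2n := pb3_h2 c u
  have hh1 := pb3_h1 c (Q P u)
  set h1 : L2 := -((P.s : ℂ) • D (Wb P gb (Q P u))) with hh1d
  set h2 : L2 := D (Qc P (AA P gb ξ u)) - D (X ξ u) with hh2d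
  set ρ : L2 := Qc P (AA P gb ξ u) with hρ
  set f : L2 := Q P u with hf
  have hr0 := c.r0
  have hr1 : r ≤ 1 := c.r1.trans (by norm_num)
  have hs0 := P.s_pos.le
  have hs1 := pb3_s_le_one P
  have he0 := P.e2_pos.le
  have he1 := pb3_e2_le_one P
  have hCW := c.CW1
  have hCD := c.CD1
  have ha := aN_nonneg f
  have ha' := aN_nonneg f'
  have hF' := norm_nonneg f'
  have hR0 := norm_nonneg ρ
  have haF := aN_le f'
  -- the identity
  have key : (inner ℂ f' (X ξ (Qc P u)) : ℂ) + TT P ξ f' f =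
      inner ℂ f' (X ξ h1) + inner ℂ (X ξ f') (D ρ) - inner ℂ (X ξ f') (D (X ξ h1))
        - inner ℂ (X ξ f') (D (X ξ h2)) - inner ℂ (X ξ f') (D (X ξ f) - G P (X ξ f))
        - inner ℂ (X0 ξ f') (G P (X1 ξ f)) - inner ℂ (X1 ξ f') (G P (X0 ξ f))
        - inner ℂ (X1 ξ f') (G P (X1 ξ f)) := by
    have k1 : (inner ℂ f' (X ξ (Qc P u)) : ℂ) = inner ℂ f' (X ξ h1) + inner ℂ (X ξ f') h2 := by
      rw [hh, map_add, inner_add_right, X_symm c.adm f' h2]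
    have k2 : (inner ℂ (X ξ f') h2 : ℂ) = inner ℂ (X ξ f') (D ρ) - inner ℂ (X ξ f') (D (X ξ f))
        - inner ℂ (X ξ f') (D (X ξ h1)) - inner ℂ (X ξ f') (D (X ξ h2)) := by
      rw [hh2d, inner_sub_right]
      conv_lhs => rw [hXu]
      rw [map_add, map_add, inner_add_right, inner_add_right]
      ring
    have k3 : (inner ℂ (X ξ f') (D (X ξ f)) : ℂ) =
        inner ℂ (X ξ f') (D (X ξ f) - G P (X ξ f)) + inner ℂ (X ξ f') (G P (X ξ f)) := by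
      rw [inner_sub_right]; ring
    have k4 : (inner ℂ (X ξ f') (G P (X ξ f)) : ℂ) = TT P ξ f' f
        + inner ℂ (X0 ξ f') (G P (X1 ξ f)) + inner ℂ (X1 ξ f') (G P (X0 ξ f))
        + inner ℂ (X1 ξ f') (G P (X1 ξ f)) := by
      rw [TT, X_split c.adm f, X_split c.adm f', map_add, inner_add_left, inner_add_right,
        inner_add_right]
      ring
    rw [k1, k2, k3, k4]
    ring
  -- the bounds
  have X' : ‖X ξ f'‖ ≤ r * aN f' := (X_bounds P r hr0 ξ c.adm 0 f').2.1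
  have X0' : ‖X0 ξ f'‖ ≤ r * aN f' := (X0_bounds P r hr0 ξ c.adm 0 f').2.1
  have X1' : ‖X1 ξ f'‖ ≤ P.e2 * r * aN f' := (X1_bounds P r hr0 ξ c.adm 0 f').2.1
  have Xf : ‖X ξ f‖ ≤ r * aN f := (X_bounds P r hr0 ξ c.adm 0 f).2.1
  have X0f : ‖X0 ξ f‖ ≤ r * aN f := (X0_bounds P r hr0 ξ c.adm 0 f).2.1
  have X1f : ‖X1 ξ f‖ ≤ P.e2 * r * aN f := (X1_bounds P r hr0 ξ c.adm 0 f).2.1
  have Xh1 : ‖X ξ h1‖ ≤ r * (22 * CW * (P.s * aN f)) :=
    (X_bounds P r hr0 ξ c.adm 0 h1).2.1.trans (mul_le_mul_of_nonneg_left hh1.1 hr0)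
  have Xh2 : ‖X ξ h2‖ ≤ r * (30 * (1 + 22 * CW) * (‖ρ‖ + r * aN f)) :=
    (norm_X_le hr0 c.adm h2).trans (mul_le_mul_of_nonneg_left hh2n hr0)
  have gen : ∀ (x y : L2) (A B : ℝ), ‖x‖ ≤ A → ‖y‖ ≤ B → ‖(inner ℂ x y : ℂ)‖ ≤ A * B :=
    fun x y A B hx hy => (norm_inner_le_norm x y).trans
      (mul_le_mul hx hy (norm_nonneg _) ((norm_nonneg _).trans hx))
  have DX : ∀ (x : L2) (B : ℝ), ‖x‖ ≤ B → ‖D x‖ ≤ 22 * B := fun x B hx =>
    (c.hD.bound x).trans (by linarith)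
  have GX : ∀ (x : L2) (B : ℝ), ‖x‖ ≤ B → ‖G P x‖ ≤ 11 * B := fun x B hx =>
    (norm_G_le P x).trans (by linarith)
  have b1 : ‖(inner ℂ f' (X ξ h1) : ℂ)‖ ≤ r * (aN f' * (22 * CW * (P.s * aN f))) :=
    (X_bounds P r hr0 ξ c.adm f' h1).1.trans
      (mul_le_mul_of_nonneg_left (mul_le_mul_of_nonneg_left hh1.1 ha') hr0)
  have b2 := gen (X ξ f') (D ρ) _ _ X' (DX ρ _ le_rfl)
  have b3 := gen (X ξ f') (D (X ξ h1)) _ _ X' (DX _ _ Xh1)
  have b4 := gen (X ξ f') (D (X ξ h2)) _ _ X' (DX _ _ Xh2)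
  have b5 := gen (X ξ f') (D (X ξ f) - G P (X ξ f)) _ _ X' ((c.DG (X ξ f)).trans
    (mul_le_mul_of_nonneg_left Xf (by positivity)))
  have b6 := gen (X0 ξ f') (G P (X1 ξ f)) _ _ X0' (GX _ _ X1f)
  have b7 := gen (X1 ξ f') (G P (X0 ξ f)) _ _ X1' (GX _ _ X0f)
  have b8 := gen (X1 ξ f') (G P (X1 ξ f)) _ _ X1' (GX _ _ X1f)
  rw [key]
  have tri : ‖(inner ℂ f' (X ξ h1) : ℂ) + inner ℂ (X ξ f') (D ρ) - inner ℂ (X ξ f') (D (X ξ h1))
        - inner ℂ (X ξ f') (D (X ξ h2)) - inner ℂ (X ξ f') (D (X ξ f) - G P (X ξ f))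
        - inner ℂ (X0 ξ f') (G P (X1 ξ f)) - inner ℂ (X1 ξ f') (G P (X0 ξ f))
        - inner ℂ (X1 ξ f') (G P (X1 ξ f))‖ ≤
      ‖(inner ℂ f' (X ξ h1) : ℂ)‖ + ‖(inner ℂ (X ξ f') (D ρ) : ℂ)‖
        + ‖(inner ℂ (X ξ f') (D (X ξ h1)) : ℂ)‖
        + ‖(inner ℂ (X ξ f') (D (X ξ h2)) : ℂ)‖
        + ‖(inner ℂ (X ξ f') (D (X ξ f) - G P (X ξ f)) : ℂ)‖
        + ‖(inner ℂ (X0 ξ f') (G P (X1 ξ f)) : ℂ)‖ + ‖(inner ℂ (X1 ξ f') (G P (X0 ξ f)) : ℂ)‖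
        + ‖(inner ℂ (X1 ξ f') (G P (X1 ξ f)) : ℂ)‖ := by
    refine (norm_sub_le _ _).trans (add_le_add_left ?_ _)
    refine (norm_sub_le _ _).trans (add_le_add_left ?_ _)
    refine (norm_sub_le _ _).trans (add_le_add_left ?_ _)
    refine (norm_sub_le _ _).trans (add_le_add_left ?_ _)
    refine (norm_sub_le _ _).trans (add_le_add_left ?_ _)
    refine (norm_sub_le _ _).trans (add_le_add_left ?_ _)
    exact norm_add_le _ _
  refine tri.trans ?_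
  generalize aN f' = a' at *
  generalize aN f = a at *
  generalize ‖f'‖ = F' at *
  generalize ‖ρ‖ = R at *
  generalize P.s = s at *
  generalize P.e2 = e at *
  have haa : 0 ≤ a' * a := mul_nonneg ha' ha
  have x0 : 0 ≤ s * r * (a' * a) := by positivity
  have y0 : 0 ≤ r * e * (a' * a) := by positivity
  have z0 : 0 ≤ r ^ 3 * (a' * a) := by positivity
  have v0 : 0 ≤ R * F' := by positivity
  have rx : r * (s * r * (a' * a)) ≤ s * r * (a' * a) := mul_le_of_le_one_left x0 hr1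
  have ry : r * (r * e * (a' * a)) ≤ r * e * (a' * a) := mul_le_of_le_one_left y0 hr1
  have ey : e * (r * (r * e * (a' * a))) ≤ r * e * (a' * a) :=
    (mul_le_of_le_one_left (by positivity) he1).trans ry
  have v1 : r * (a' * R) ≤ 2 * (R * F') := by
    have : a' * R ≤ 2 * F' * R := mul_le_mul_of_nonneg_right haF hR0
    calc r * (a' * R) ≤ a' * R := mul_le_of_le_one_left (by positivity) hr1
      _ ≤ 2 * (R * F') := by linarith
  have v2 : r * (r * (a' * R)) ≤ 2 * (R * F') :=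
    (mul_le_of_le_one_left (by positivity) hr1).trans v1
  have q1 := mul_le_mul_of_nonneg_left rx hCW.le
  have q2 := mul_le_mul_of_nonneg_left rx hCD.le
  have q3 := mul_le_mul_of_nonneg_left v2 hCW.le
  have q4 := mul_nonneg hCW.le x0
  have q5 := mul_nonneg hCW.le y0
  have q6 := mul_nonneg hCW.le z0
  have q7 := mul_nonneg hCW.le v0
  have p4 := mul_nonneg hCD.le x0
  have p5 := mul_nonneg hCD.le y0
  have p6 := mul_nonneg hCD.le z0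
  have p7 := mul_nonneg hCD.le v0
  nlinarith [b1, b2, b3, b4, b5, b6, b7, b8, rx, ry, ey, v1, v2, q1, q2, q3, q4, q5, q6, q7,
    p4, p5, p6, p7, x0, y0, z0, v0]

/-- the term `s ⟨f', W h₂⟩` -/
theorem pb3_T3 (c : pb3_Ctx P gb r ξ D CW CD) (u f' : L2) :
    ‖(P.s : ℂ) * (inner ℂ f' (Wb P gb (D (Qc P (AA P gb ξ u)) - D (X ξ u))) : ℂ)‖ ≤
      (22 * CW * (1 + 22 * CW + 90 * (1 + 22 * CW))) *
        ((P.s * r + r * P.e2 + r ^ 3) * (aN f' * aN (Q P u))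
          + ‖Qc P (AA P gb ξ u)‖ * ‖f'‖) := by
  have hXu := pb3_Xu c u
  have hh2n := pb3_h2 c u
  have hh1 := pb3_h1 c (Q P u)
  have hg := pb3_g c f'
  set h1 : L2 := -((P.s : ℂ) • D (Wb P gb (Q P u))) with hh1d
  set h2 : L2 := D (Qc P (AA P gb ξ u)) - D (X ξ u) with hh2d
  set ρ : L2 := Qc P (AA P gb ξ u) with hρ
  set f : L2 := Q P u with hf
  set g' : L2 := (P.s : ℂ) • D (Wb P gb f') with hg'
  have hr0 := c.r0
  have hr1 : r ≤ 1 := c.r1.trans (by norm_num)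
  have hs0 := P.s_pos.le
  have hs1 := pb3_s_le_one P
  have he0 := P.e2_pos.le
  have hCW := c.CW1
  have ha := aN_nonneg f
  have ha' := aN_nonneg f'
  have hF' := norm_nonneg f'
  have hR0 := norm_nonneg ρ
  have haF := aN_le f'
  have hag := aN_nonneg g'
  have key : (P.s : ℂ) * (inner ℂ f' (Wb P gb h2) : ℂ) =
      inner ℂ g' ρ - inner ℂ g' (X ξ f) - inner ℂ g' (X ξ h1) - inner ℂ (X ξ g') h2 := by
    have k1 : (P.s : ℂ) * (inner ℂ f' (Wb P gb h2) : ℂ) = inner ℂ g' ρ - inner ℂ g' (X ξ u) := by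
      rw [← Wb_symm, hh2d, inner_sub_right, ← c.hD.symm, ← c.hD.symm, hg', inner_smul_left,
        inner_smul_left, Complex.conj_ofReal]
      ring
    have k2 : (inner ℂ g' (X ξ u) : ℂ) = inner ℂ g' (X ξ f) + inner ℂ g' (X ξ h1)
        + inner ℂ (X ξ g') h2 := by
      rw [X_symm c.adm g' h2]
      conv_lhs => rw [hXu]
      rw [inner_add_right, inner_add_right]
    rw [k1, k2]
    ring
  have gen : ∀ (x y : L2) (A B : ℝ), ‖x‖ ≤ A → ‖y‖ ≤ B → ‖(inner ℂ x y : ℂ)‖ ≤ A * B :=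
    fun x y A B hx hy => (norm_inner_le_norm x y).trans
      (mul_le_mul hx hy (norm_nonneg _) ((norm_nonneg _).trans hx))
  have b1 := gen g' ρ _ _ hg.2 le_rfl
  have b2 : ‖(inner ℂ g' (X ξ f) : ℂ)‖ ≤ r * (22 * CW * (P.s * aN f') * aN f) :=
    (X_bounds P r hr0 ξ c.adm g' f).1.trans
      (mul_le_mul_of_nonneg_left (mul_le_mul_of_nonneg_right hg.1 ha) hr0)
  have b3 : ‖(inner ℂ g' (X ξ h1) : ℂ)‖ ≤
      r * (22 * CW * (P.s * aN f') * (22 * CW * (P.s * aN f))) :=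
    (X_bounds P r hr0 ξ c.adm g' h1).1.trans
      (mul_le_mul_of_nonneg_left (mul_le_mul hg.1 hh1.1 (aN_nonneg _) (hag.trans hg.1)) hr0)
  have Xg : ‖X ξ g'‖ ≤ r * (22 * CW * (P.s * aN f')) :=
    (X_bounds P r hr0 ξ c.adm 0 g').2.1.trans (mul_le_mul_of_nonneg_left hg.1 hr0)
  have b4 := gen (X ξ g') h2 _ _ Xg hh2n
  rw [key]
  have tri : ‖(inner ℂ g' ρ : ℂ) - inner ℂ g' (X ξ f) - inner ℂ g' (X ξ h1)
      - inner ℂ (X ξ g') h2‖ ≤ ‖(inner ℂ g' ρ : ℂ)‖ + ‖(inner ℂ g' (X ξ f) : ℂ)‖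
        + ‖(inner ℂ g' (X ξ h1) : ℂ)‖ + ‖(inner ℂ (X ξ g') h2 : ℂ)‖ := by
    refine (norm_sub_le _ _).trans (add_le_add_left ?_ _)
    refine (norm_sub_le _ _).trans (add_le_add_left ?_ _)
    exact norm_sub_le _ _
  refine tri.trans ?_
  clear tri key Xg
  generalize aN f' = a' at *
  generalize aN f = a at *
  generalize ‖f'‖ = F' at *
  generalize ‖ρ‖ = R at *
  generalize P.s = s at *
  generalize P.e2 = e at *
  have haa : 0 ≤ a' * a := mul_nonneg ha' ha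
  have x0 : 0 ≤ s * r * (a' * a) := by positivity
  have y0 : 0 ≤ r * e * (a' * a) := by positivity
  have z0 : 0 ≤ r ^ 3 * (a' * a) := by positivity
  have v0 : 0 ≤ R * F' := by positivity
  have rx : r * (s * r * (a' * a)) ≤ s * r * (a' * a) := mul_le_of_le_one_left x0 hr1
  have sx : s * (s * r * (a' * a)) ≤ s * r * (a' * a) := mul_le_of_le_one_left x0 hs1
  have sv : s * (R * F') ≤ R * F' := mul_le_of_le_one_left v0 hs1
  have v1 : r * (s * (a' * R)) ≤ 2 * (R * F') := by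
    have : a' * R ≤ 2 * F' * R := mul_le_mul_of_nonneg_right haF hR0
    calc r * (s * (a' * R)) ≤ s * (a' * R) := mul_le_of_le_one_left (by positivity) hr1
      _ ≤ a' * R := mul_le_of_le_one_left (by positivity) hs1
      _ ≤ 2 * (R * F') := by linarith
  have hC2 : 0 ≤ CW * CW := by positivity
  have q0 := mul_le_mul_of_nonneg_left sv hCW.le
  have q1 := mul_le_mul_of_nonneg_left rx hCW.le
  have q2 := mul_le_mul_of_nonneg_left rx hC2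
  have q3 := mul_le_mul_of_nonneg_left sx hC2
  have q4 := mul_le_mul_of_nonneg_left v1 hCW.le
  have q5 := mul_le_mul_of_nonneg_left v1 hC2
  have w1 := mul_nonneg hCW.le x0
  have w2 := mul_nonneg hCW.le y0
  have w3 := mul_nonneg hCW.le z0
  have w4 := mul_nonneg hCW.le v0
  have w5 := mul_nonneg hC2 x0
  have w6 := mul_nonneg hC2 y0
  have w7 := mul_nonneg hC2 z0
  have w8 := mul_nonneg hC2 v0
  nlinarith [b1, b2, b3, b4, q0, q1, q2, q3, q4, q5, w1, w2, w3, w4, w5, w6, w7, w8]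

/-- the term `s ⟨f', W h₁⟩` -/
theorem pb3_T2 (c : pb3_Ctx P gb r ξ D CW CD) (u f' : L2) :
    ‖(P.s : ℂ) * (inner ℂ f' (Wb P gb (-((P.s : ℂ) • D (Wb P gb (Q P u))))) : ℂ)
      + (P.s ^ 2 : ℝ) * inner ℂ f' (Wb P gb (G P (Wb P gb (Q P u))))‖ ≤
      CW ^ 2 * CD * (P.s ^ 3 * (‖f'‖ * ‖Q P u‖)) := by
  set f : L2 := Q P u with hf
  have hs0 := P.s_pos.le
  have hCW := c.CW1
  have hCD := c.CD1
  have key : (P.s : ℂ) * (inner ℂ f' (Wb P gb (-((P.s : ℂ) • D (Wb P gb f)))) : ℂ)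
      + (P.s ^ 2 : ℝ) * inner ℂ f' (Wb P gb (G P (Wb P gb f))) =
      -((P.s ^ 2 : ℝ) * inner ℂ (Wb P gb f') (D (Wb P gb f) - G P (Wb P gb f))) := by
    rw [← Wb_symm, ← Wb_symm, inner_neg_right, inner_smul_right, inner_sub_right]
    push_cast
    ring
  rw [key, norm_neg, norm_mul, Complex.norm_real, Real.norm_eq_abs, abs_of_nonneg (by positivity)]
  have b : ‖(inner ℂ (Wb P gb f') (D (Wb P gb f) - G P (Wb P gb f)) : ℂ)‖ ≤
      CW * ‖f'‖ * (CD * P.s * (CW * ‖f‖)) := by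
    refine (norm_inner_le_norm _ _).trans (mul_le_mul (c.W2 f') ?_ (norm_nonneg _)
      (by positivity))
    exact (c.DG _).trans (mul_le_mul_of_nonneg_left (c.W2 f) (by positivity))
  calc P.s ^ 2 * ‖(inner ℂ (Wb P gb f') (D (Wb P gb f) - G P (Wb P gb f)) : ℂ)‖
      ≤ P.s ^ 2 * (CW * ‖f'‖ * (CD * P.s * (CW * ‖f‖))) :=
        mul_le_mul_of_nonneg_left b (by positivity)
    _ = _ := by ring

/-- part (i) -/
theorem pb3_i (c : pb3_Ctx P gb r ξ D CW CD) (u : L2) :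
    ‖Qc P u‖ ≤ (30 * (1 + 22 * CW)) *
      (‖Qc P (AA P gb ξ u)‖ + r * aN (Q P u) + P.s * ‖Q P u‖) := by
  have hs0 := P.s_pos.le
  have hCW := c.CW1
  have h1 := (pb3_h1 c (Q P u)).2
  have h2 := pb3_h2 c u
  have h3 : ‖Qc P u‖ ≤ ‖-((P.s : ℂ) • D (Wb P gb (Q P u)))‖ +
      ‖D (Qc P (AA P gb ξ u)) - D (X ξ u)‖ := by
    conv_lhs => rw [pb3_h c u]
    exact norm_add_le _ _
  have h4 : 0 ≤ P.s * ‖Q P u‖ := by positivity
  have h5 : 0 ≤ CW * (P.s * ‖Q P u‖) := by positivity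
  nlinarith [h1, h2, h3, h4, h5]

/-- part (ii) -/
theorem pb3_ii (c : pb3_Ctx P gb r ξ D CW CD) (u f' : L2) (hf' : Q P f' = f') :
    ‖(inner ℂ f' (AA P gb ξ u) : ℂ) - (inner ℂ f' (Cos2 (Q P u))
        - (P.s ^ 2 : ℝ) * inner ℂ f' (Wb P gb (G P (Wb P gb (Q P u)))) - TT P ξ f' (Q P u))‖
      ≤ (1 + CW ^ 2 * CD + (22 * CW * (1 + 22 * CW + 90 * (1 + 22 * CW)))
          + (100 + 2500 * (1 + 22 * CW) + CD)) *
        ((P.s * r + r * P.e2 + r ^ 3) * (aN f' * aN (Q P u)) + P.s ^ 3 * (‖f'‖ * ‖Q P u‖)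
        + ‖Qc P (AA P gb ξ u)‖ * ‖f'‖) := by
  have T2 := pb3_T2 c u f'
  have T3 := pb3_T3 c u f'
  have T5 := pb3_T5 c u f'
  have hh := pb3_h c u
  set h1 : L2 := -((P.s : ℂ) • D (Wb P gb (Q P u))) with hh1d
  set h2 : L2 := D (Qc P (AA P gb ξ u)) - D (X ξ u) with hh2d
  have hr0 := c.r0
  have hs0 := P.s_pos.le
  have he0 := P.e2_pos.le
  have hCW := c.CW1
  have hCD := c.CD1
  have ha := aN_nonneg (Q P u)
  have ha' := aN_nonneg f'
  have T1 : ‖(inner ℂ f' (X1 ξ (Q P u)) : ℂ)‖ ≤ P.e2 * r * (aN f' * aN (Q P u)) :=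
    (X1_bounds P r hr0 ξ c.adm f' (Q P u)).1
  have hu : u = Q P u + Qc P u := (Q_add_Qc P u).symm
  have a1 : (inner ℂ f' (Cos2 u) : ℂ) = inner ℂ f' (Cos2 (Q P u)) := by
    conv_lhs => rw [← hf', Q_symm, ← Cos2_Q]
  have a2 : (inner ℂ f' (Wb P gb u) : ℂ) = inner ℂ f' (Wb P gb h1) + inner ℂ f' (Wb P gb h2) := by
    have z : (inner ℂ f' (Wb P gb (Q P u)) : ℂ) = 0 := by
      rw [← hf', Q_symm, Q_Wb_Q, inner_zero_right]
    calc (inner ℂ f' (Wb P gb u) : ℂ) = inner ℂ f' (Wb P gb (Q P u + Qc P u)) := by rw [← hu]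
      _ = inner ℂ f' (Wb P gb (Q P u)) + inner ℂ f' (Wb P gb (Qc P u)) := by
        rw [map_add, inner_add_right]
      _ = inner ℂ f' (Wb P gb (Qc P u)) := by rw [z, zero_add]
      _ = _ := by rw [hh, map_add, inner_add_right]
  have a3 : (inner ℂ f' (X ξ u) : ℂ) = inner ℂ f' (X1 ξ (Q P u)) + inner ℂ f' (X ξ (Qc P u)) := by
    have z : (inner ℂ f' (X0 ξ (Q P u)) : ℂ) = 0 := by
      rw [← hf', Q_symm, Q_X0_Q P r ξ c.adm, inner_zero_right]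
    calc (inner ℂ f' (X ξ u) : ℂ) = inner ℂ f' (X ξ (Q P u + Qc P u)) := by rw [← hu]
      _ = inner ℂ f' (X ξ (Q P u)) + inner ℂ f' (X ξ (Qc P u)) := by
        rw [map_add, inner_add_right]
      _ = _ := by rw [X_split c.adm (Q P u), inner_add_right, z, zero_add]
  have key : (inner ℂ f' (AA P gb ξ u) : ℂ) - (inner ℂ f' (Cos2 (Q P u))
        - (P.s ^ 2 : ℝ) * inner ℂ f' (Wb P gb (G P (Wb P gb (Q P u)))) - TT P ξ f' (Q P u)) =
      inner ℂ f' (X1 ξ (Q P u))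
      + ((P.s : ℂ) * (inner ℂ f' (Wb P gb h1) : ℂ)
        + (P.s ^ 2 : ℝ) * inner ℂ f' (Wb P gb (G P (Wb P gb (Q P u)))))
      + (P.s : ℂ) * (inner ℂ f' (Wb P gb h2) : ℂ)
      + ((inner ℂ f' (X ξ (Qc P u)) : ℂ) + TT P ξ f' (Q P u)) := by
    rw [pb3_AA, inner_add_right, inner_add_right, inner_smul_right, a1, a2, a3]
    ring
  rw [key]
  refine (norm_add_le _ _).trans ((add_le_add ((norm_add_le _ _).trans (add_le_add
    ((norm_add_le _ _).trans (add_le_add T1 T2)) T3)) T5).trans ?_)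
  have x0 : 0 ≤ P.s * r * (aN f' * aN (Q P u)) := by positivity
  have y0 : 0 ≤ r * P.e2 * (aN f' * aN (Q P u)) := by positivity
  have z0 : 0 ≤ r ^ 3 * (aN f' * aN (Q P u)) := by positivity
  have v0 : 0 ≤ ‖Qc P (AA P gb ξ u)‖ * ‖f'‖ := by positivity
  have w0 : 0 ≤ P.s ^ 3 * (‖f'‖ * ‖Q P u‖) := by positivity
  have K2 : 0 ≤ CW ^ 2 * CD := by positivity
  have K3 : 0 ≤ 22 * CW * (1 + 22 * CW + 90 * (1 + 22 * CW)) := by positivity
  have K5 : 0 ≤ 100 + 2500 * (1 + 22 * CW) + CD := by positivity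
  generalize CW ^ 2 * CD = k2 at *
  generalize 22 * CW * (1 + 22 * CW + 90 * (1 + 22 * CW)) = k3 at *
  generalize 100 + 2500 * (1 + 22 * CW) + CD = k5 at *
  nlinarith [mul_nonneg K2 x0, mul_nonneg K2 y0, mul_nonneg K2 z0, mul_nonneg K2 v0,
    mul_nonneg K3 w0, mul_nonneg K5 w0, x0, y0, z0, v0, w0]

/-- part (iii) -/
theorem pb3_iii (c : pb3_Ctx P gb r ξ D CW CD) (u : L2) :
    ‖(inner ℂ u (X ξ u) : ℂ) + 2 * TT P ξ (Q P u) (Q P u)‖
      ≤ (1 + 2 * (100 + 2500 * (1 + 22 * CW) + CD) + 2000 * (1 + 22 * CW) ^ 2) *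
        ((P.s * r + r * P.e2 + r ^ 3) * aN (Q P u) ^ 2
        + ‖Qc P (AA P gb ξ u)‖ * (‖Q P u‖ + ‖Qc P (AA P gb ξ u)‖)) := by
  have T5 := pb3_T5 c u (Q P u)
  have hh := pb3_h c u
  have hh2n := pb3_h2 c u
  have hh1 := pb3_h1 c (Q P u)
  set h1 : L2 := -((P.s : ℂ) • D (Wb P gb (Q P u))) with hh1d
  set h2 : L2 := D (Qc P (AA P gb ξ u)) - D (X ξ u) with hh2d
  have hr0 := c.r0
  have hr1 : r ≤ 1 := c.r1.trans (by norm_num)
  have hs0 := P.s_pos.le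
  have hs1 := pb3_s_le_one P
  have he0 := P.e2_pos.le
  have hCW := c.CW1
  have hCD := c.CD1
  have ha := aN_nonneg (Q P u)
  have haF := aN_le (Q P u)
  have hR0 := norm_nonneg (Qc P (AA P gb ξ u))
  have hF0 := norm_nonneg (Q P u)
  have T1 : ‖(inner ℂ (Q P u) (X1 ξ (Q P u)) : ℂ)‖ ≤ P.e2 * r * (aN (Q P u) * aN (Q P u)) :=
    (X1_bounds P r hr0 ξ c.adm (Q P u) (Q P u)).1
  have hu : u = Q P u + Qc P u := (Q_add_Qc P u).symm
  have tr : conj (TT P ξ (Q P u) (Q P u)) = TT P ξ (Q P u) (Q P u) := by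
    rw [TT, inner_conj_symm, G_symm]
  have a0 : (inner ℂ (Q P u) (X ξ (Q P u)) : ℂ) = inner ℂ (Q P u) (X1 ξ (Q P u)) := by
    have z : (inner ℂ (Q P u) (X0 ξ (Q P u)) : ℂ) = 0 := by
      rw [← Q_Q P u, Q_symm, Q_Q, Q_X0_Q P r ξ c.adm, inner_zero_right]
    rw [X_split c.adm (Q P u), inner_add_right, z, zero_add]
  have a1 : (inner ℂ (Qc P u) (X ξ (Q P u)) : ℂ) = conj (inner ℂ (Q P u) (X ξ (Qc P u)) : ℂ) := by
    rw [inner_conj_symm, X_symm c.adm]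
  have key : (inner ℂ u (X ξ u) : ℂ) + 2 * TT P ξ (Q P u) (Q P u) =
      inner ℂ (Q P u) (X1 ξ (Q P u))
      + ((inner ℂ (Q P u) (X ξ (Qc P u)) : ℂ) + TT P ξ (Q P u) (Q P u))
      + conj ((inner ℂ (Q P u) (X ξ (Qc P u)) : ℂ) + TT P ξ (Q P u) (Q P u))
      + inner ℂ (Qc P u) (X ξ (Qc P u)) := by
    have e : (inner ℂ u (X ξ u) : ℂ) = inner ℂ (Q P u + Qc P u) (X ξ (Q P u + Qc P u)) := by
      rw [← hu]
    rw [e, map_add (X ξ), inner_add_left, inner_add_right, inner_add_right, a0, a1, map_add, tr]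
    ring
  have a2 : (inner ℂ (Qc P u) (X ξ (Qc P u)) : ℂ) = inner ℂ h1 (X ξ h1) + inner ℂ (X ξ h1) h2
      + inner ℂ h2 (X ξ h1) + inner ℂ h2 (X ξ h2) := by
    rw [hh, map_add (X ξ), inner_add_left, inner_add_right, inner_add_right, X_symm c.adm h1 h2]
    ring
  have gen : ∀ (x y : L2) (A B : ℝ), ‖x‖ ≤ A → ‖y‖ ≤ B → ‖(inner ℂ x y : ℂ)‖ ≤ A * B :=
    fun x y A B hx hy => (norm_inner_le_norm x y).trans
      (mul_le_mul hx hy (norm_nonneg _) ((norm_nonneg _).trans hx))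
  have Xh1 : ‖X ξ h1‖ ≤ r * (22 * CW * (P.s * aN (Q P u))) :=
    (X_bounds P r hr0 ξ c.adm 0 h1).2.1.trans (mul_le_mul_of_nonneg_left hh1.1 hr0)
  have Xh2 : ‖X ξ h2‖ ≤ r * (30 * (1 + 22 * CW) *
      (‖Qc P (AA P gb ξ u)‖ + r * aN (Q P u))) :=
    (norm_X_le hr0 c.adm h2).trans (mul_le_mul_of_nonneg_left hh2n hr0)
  have b1 : ‖(inner ℂ h1 (X ξ h1) : ℂ)‖ ≤
      r * (22 * CW * (P.s * aN (Q P u)) * (22 * CW * (P.s * aN (Q P u)))) :=
    (X_bounds P r hr0 ξ c.adm h1 h1).1.trans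
      (mul_le_mul_of_nonneg_left (mul_le_mul hh1.1 hh1.1 (aN_nonneg _) (by positivity)) hr0)
  have b2 := gen (X ξ h1) h2 _ _ Xh1 hh2n
  have b3 := gen h2 (X ξ h1) _ _ hh2n Xh1
  have b4 := gen h2 (X ξ h2) _ _ hh2n Xh2
  have T6 : ‖conj ((inner ℂ (Q P u) (X ξ (Qc P u)) : ℂ) + TT P ξ (Q P u) (Q P u))‖ ≤
      (100 + 2500 * (1 + 22 * CW) + CD) *
        ((P.s * r + r * P.e2 + r ^ 3) * (aN (Q P u) * aN (Q P u))
          + ‖Qc P (AA P gb ξ u)‖ * ‖Q P u‖) := by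
    rw [RCLike.norm_conj]; exact T5
  have T7 : ‖(inner ℂ (Qc P u) (X ξ (Qc P u)) : ℂ)‖ ≤ 2000 * (1 + 22 * CW) ^ 2 *
      ((P.s * r + r ^ 3) * aN (Q P u) ^ 2
        + ‖Qc P (AA P gb ξ u)‖ * (‖Q P u‖ + ‖Qc P (AA P gb ξ u)‖)) := by
    rw [a2]
    refine (norm_add_le _ _).trans ((add_le_add ((norm_add_le _ _).trans (add_le_add
      ((norm_add_le _ _).trans (add_le_add b1 b2)) b3)) b4).trans ?_)
    clear b1 b2 b3 b4 a2 key a1 a0 tr T5 T6 T1 Xh1 Xh2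
    generalize aN (Q P u) = a at *
    generalize ‖Qc P (AA P gb ξ u)‖ = R at *
    generalize ‖Q P u‖ = F at *
    generalize P.s = s at *
    have hc : 0 ≤ 22 * CW := by positivity
    have hc1 : 22 * CW ≤ 1 + 22 * CW := by linarith
    have hd0 : 0 ≤ 1 + 22 * CW := by positivity
    generalize 1 + 22 * CW = d at *
    generalize 22 * CW = c1 at *
    have x0 : 0 ≤ s * r * a ^ 2 := by positivity
    have z0 : 0 ≤ r ^ 3 * a ^ 2 := by positivity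
    have v0 : 0 ≤ R * (F + R) := by positivity
    have m1 : c1 * (s * a) ≤ d * (s * a) := mul_le_mul_of_nonneg_right hc1 (by positivity)
    have m0 : 0 ≤ c1 * (s * a) := by positivity
    -- first term
    have t1 : r * (c1 * (s * a) * (c1 * (s * a))) ≤ d ^ 2 * (s * r * a ^ 2) := by
      calc r * (c1 * (s * a) * (c1 * (s * a))) ≤ r * (d * (s * a) * (d * (s * a))) := by gcongr
        _ = s * (d ^ 2 * (s * r * a ^ 2)) := by ring
        _ ≤ d ^ 2 * (s * r * a ^ 2) := mul_le_of_le_one_left (by positivity) hs1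
    have rsR : r * (s * (a * R)) ≤ 2 * (R * (F + R)) := by
      have q : a * R ≤ 2 * F * R := mul_le_mul_of_nonneg_right haF hR0
      have q2 : 0 ≤ R * R := by positivity
      calc r * (s * (a * R)) ≤ s * (a * R) := mul_le_of_le_one_left (by positivity) hr1
        _ ≤ a * R := mul_le_of_le_one_left (by positivity) hs1
        _ ≤ 2 * (R * (F + R)) := by linarith
    have rrs : r * (s * r * a ^ 2) ≤ s * r * a ^ 2 := mul_le_of_le_one_left x0 hr1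
    have t2 : r * (c1 * (s * a)) * (30 * d * (R + r * a)) ≤
        60 * d ^ 2 * (s * r * a ^ 2 + R * (F + R)) := by
      calc r * (c1 * (s * a)) * (30 * d * (R + r * a))
          ≤ r * (d * (s * a)) * (30 * d * (R + r * a)) := by gcongr
        _ = 30 * d ^ 2 * (r * (s * (a * R)) + r * (s * r * a ^ 2)) := by ring
        _ ≤ 30 * d ^ 2 * (2 * (R * (F + R)) + s * r * a ^ 2) := by gcongr
        _ ≤ 60 * d ^ 2 * (s * r * a ^ 2 + R * (F + R)) := by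
          have : 0 ≤ d ^ 2 * (s * r * a ^ 2) := by positivity
          linarith
    have rR : r * (R * R) ≤ R * (F + R) := by
      have q : 0 ≤ R * F := by positivity
      calc r * (R * R) ≤ R * R := mul_le_of_le_one_left (by positivity) hr1
        _ ≤ _ := by linarith
    have t4 : 30 * d * (R + r * a) * (r * (30 * d * (R + r * a))) ≤
        1800 * d ^ 2 * (r ^ 3 * a ^ 2 + R * (F + R)) := by
      have q : (R + r * a) ^ 2 ≤ 2 * (R * R) + 2 * (r ^ 2 * a ^ 2) := by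
        nlinarith [sq_nonneg (R - r * a)]
      calc 30 * d * (R + r * a) * (r * (30 * d * (R + r * a)))
          = 900 * d ^ 2 * (r * (R + r * a) ^ 2) := by ring
        _ ≤ 900 * d ^ 2 * (r * (2 * (R * R) + 2 * (r ^ 2 * a ^ 2))) := by gcongr
        _ = 900 * d ^ 2 * (2 * (r * (R * R)) + 2 * (r ^ 3 * a ^ 2)) := by ring
        _ ≤ 900 * d ^ 2 * (2 * (R * (F + R)) + 2 * (r ^ 3 * a ^ 2)) := by gcongr
        _ = _ := by ring
    have w1 : 0 ≤ d ^ 2 * (s * r * a ^ 2) := by positivity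
    have w2 : 0 ≤ d ^ 2 * (r ^ 3 * a ^ 2) := by positivity
    have w3 : 0 ≤ d ^ 2 * (R * (F + R)) := by positivity
    linarith [t1, t2, t4, w1, w2, w3]
  rw [key]
  refine (norm_add_le _ _).trans ((add_le_add ((norm_add_le _ _).trans (add_le_add
    ((norm_add_le _ _).trans (add_le_add T1 T5)) T6)) T7).trans ?_)
  have x0 : 0 ≤ P.s * r * aN (Q P u) ^ 2 := by positivity
  have y0 : 0 ≤ r * P.e2 * aN (Q P u) ^ 2 := by positivity
  have z0 : 0 ≤ r ^ 3 * aN (Q P u) ^ 2 := by positivity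
  have v0 : 0 ≤ ‖Qc P (AA P gb ξ u)‖ * ‖Q P u‖ := by positivity
  have v1 : 0 ≤ ‖Qc P (AA P gb ξ u)‖ * ‖Qc P (AA P gb ξ u)‖ := by positivity
  have K7 : 0 ≤ 2000 * (1 + 22 * CW) ^ 2 := by positivity
  have K5 : 0 ≤ 100 + 2500 * (1 + 22 * CW) + CD := by positivity
  generalize 2000 * (1 + 22 * CW) ^ 2 = k7 at *
  generalize 100 + 2500 * (1 + 22 * CW) + CD = k5 at *
  nlinarith [mul_nonneg K7 y0, mul_nonneg K5 v1, x0, y0, z0, v0, v1]

end

/-- LEMMA B3 -/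
theorem lemB3 : ∃ C : ℝ, 0 < C ∧ ∀ (P : Par) (gb : ℂ) (r : ℝ) (ξ : ℝ → ℂ), ‖gb‖ = 1 → 0 ≤ r →
    r ≤ 1 / 100 → AdmX P r ξ → ∀ u : L2,
    ‖Qc P u‖ ≤ C * (‖Qc P (AA P gb ξ u)‖ + r * aN (Q P u) + P.s * ‖Q P u‖) ∧
    (∀ f' : L2, Q P f' = f' →
      ‖(inner ℂ f' (AA P gb ξ u) : ℂ) - (inner ℂ f' (Cos2 (Q P u))
        - (P.s ^ 2 : ℝ) * inner ℂ f' (Wb P gb (G P (Wb P gb (Q P u)))) - TT P ξ f' (Q P u))‖
      ≤ C * ((P.s * r + r * P.e2 + r ^ 3) * (aN f' * aN (Q P u)) + P.s ^ 3 * (‖f'‖ * ‖Q P u‖)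
        + ‖Qc P (AA P gb ξ u)‖ * ‖f'‖)) ∧
    ‖(inner ℂ u (X ξ u) : ℂ) + 2 * TT P ξ (Q P u) (Q P u)‖
      ≤ C * ((P.s * r + r * P.e2 + r ^ 3) * aN (Q P u) ^ 2
        + ‖Qc P (AA P gb ξ u)‖ * (‖Q P u‖ + ‖Qc P (AA P gb ξ u)‖)) := by
  obtain ⟨CW, hCW, hW⟩ := Wb_bounds
  obtain ⟨CD, hCD, hDG⟩ := IsD.sub_le
  have K1 : 0 < 30 * (1 + 22 * CW) := by positivity
  have K2 : 0 < 1 + CW ^ 2 * CD + (22 * CW * (1 + 22 * CW + 90 * (1 + 22 * CW)))
          + (100 + 2500 * (1 + 22 * CW) + CD) := by positivity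
  have K3 : 0 < 1 + 2 * (100 + 2500 * (1 + 22 * CW) + CD) + 2000 * (1 + 22 * CW) ^ 2 := by
    positivity
  refine ⟨30 * (1 + 22 * CW) + (1 + CW ^ 2 * CD + (22 * CW * (1 + 22 * CW + 90 * (1 + 22 * CW)))
          + (100 + 2500 * (1 + 22 * CW) + CD)) +
      (1 + 2 * (100 + 2500 * (1 + 22 * CW) + CD) + 2000 * (1 + 22 * CW) ^ 2), by linarith, ?_⟩
  intro P gb r ξ hg hr0 hr1 hadm u
  obtain ⟨D, hD⟩ := exists_D P gb hg
  have c : pb3_Ctx P gb r ξ D CW CD :=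
    ⟨hr0, hr1, hadm, hD, fun f => (hW P gb hg f).1, fun f => (hW P gb hg f).2, hCW, hCD,
      fun f => hDG P gb D hg hD f⟩
  have hs0 := P.s_pos.le
  have he0 := P.e2_pos.le
  have ha := aN_nonneg (Q P u)
  refine ⟨(pb3_i c u).trans (mul_le_mul_of_nonneg_right (by linarith) (by positivity)), ?_,
    (pb3_iii c u).trans (mul_le_mul_of_nonneg_right (by linarith) (by positivity))⟩
  intro f' hf'
  have ha' := aN_nonneg f'
  exact (pb3_ii c u f' hf').trans (mul_le_mul_of_nonneg_right (by linarith) (by positivity))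

end Pool.Agent.Helper92.HRU
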