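import Pool.Agent.Helper92.HRU.BDefs
import Pool.Agent.Helper92.HRU.Pf.PN1
import Pool.Agent.Helper92.HRU.Pf.PQ1
import Pool.Agent.Helper92.HRU.Pf.PJ1
import Pool.Agent.Helper92.HRU.Pf.PJ2

/-! Piece PJ4: the dimer operator and 2 cos x. -/

set_option autoImplicit false

namespace Pool.Agent.Helper92.HRU

open Complex Set MeasureTheory Filter Topology
open scoped ComplexConjugate Real ENNReal
open Pool.Agent.Helper84.HRT (Weyl node chi mu8 XL Data Aop Bop Good)

theorem pj4_rho_cont (P : Par) : Continuous (rho P) := by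
  unfold rho
  fun_prop

theorem pj4_rho_le (P : Par) (y : ℝ) : |rho P y| ≤ √(4 + P.s ^ 4 * P.Th ^ 2) := by
  rw [abs_of_pos (rho_pos P y)]
  unfold rho
  apply Real.sqrt_le_sqrt
  have := Real.sin_sq_le_one y
  linarith

theorem pj4_bdd_rho (P : Par) : BddY (rho P) :=
  ⟨(pj4_rho_cont P).measurable, _, fun y _ => pj4_rho_le P y⟩

theorem pj4_bdd_const (c : ℝ) : BddY (fun _ => c) := ⟨measurable_const, |c|, fun _ _ => le_rfl⟩

theorem pj4_bdd_ee (P : Par) : BddY (ee P) := by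
  refine ⟨?_, √(4 + P.s ^ 4 * P.Th ^ 2) + |P.s ^ 2 * P.wh|, fun y _ => ?_⟩
  · unfold ee
    exact (pj4_rho_cont P).measurable.sub_const _
  · unfold ee
    exact (abs_sub _ _).trans (add_le_add (pj4_rho_le P y) le_rfl)

theorem pj4_bdd_eb (P : Par) : BddY (eb P) := by
  refine ⟨?_, √(4 + P.s ^ 4 * P.Th ^ 2) + |P.s ^ 2 * P.wh|, fun y _ => ?_⟩
  · unfold eb
    exact (pj4_rho_cont P).measurable.add_const _
  · unfold eb
    exact (abs_add_le _ _).trans (add_le_add (pj4_rho_le P y) le_rfl)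

theorem pj4_cf_le (P : Par) (y : ℝ) : |cf P y| ≤ 1 := by
  have h := cf_sq_add_sf_sq P y
  rw [abs_le_one_iff_mul_self_le_one]
  nlinarith [sq_nonneg (sf P y)]

theorem pj4_sf_le (P : Par) (y : ℝ) : |sf P y| ≤ 1 := by
  have h := cf_sq_add_sf_sq P y
  rw [abs_le_one_iff_mul_self_le_one]
  nlinarith [sq_nonneg (cf P y)]

theorem pj4_bdd_sf (P : Par) : BddY (sf P) := by
  refine ⟨?_, 1, fun y _ => pj4_sf_le P y⟩
  unfold sf
  exact measurable_const.div (pj4_rho_cont P).measurable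

theorem pj4_cf_meas (P : Par) : Measurable (cf P) := by
  unfold cf
  exact (Real.continuous_sin.measurable.const_mul 2).div (pj4_rho_cont P).measurable

theorem pj4_bdd_j0 (P : Par) : BddM (j0 P) := by
  refine ⟨?_, 1, fun x => ?_⟩
  · unfold j0
    refine Measurable.ite (meas_Qs P) (Measurable.ite ?_ ?_ ?_) measurable_const
    · exact idx_meas (MeasurableSet.of_discrete (s := {n : ℤ | Even n}))
    · exact (measurable_ofReal.comp ((pj4_cf_meas P).comp (yo_meas P))).neg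
    · exact measurable_ofReal.comp ((pj4_cf_meas P).comp (yo_meas P))
  · unfold j0
    split_ifs
    · rw [norm_neg, norm_real, Real.norm_eq_abs]
      exact pj4_cf_le P _
    · rw [norm_real, Real.norm_eq_abs]
      exact pj4_cf_le P _
    · simp

theorem pj4_sub (P : Par) {φ ψ : ℝ → ℝ} (h : BddY φ) (h' : BddY ψ) (f : L2)
    (θ : ℝ → ℝ) (hθ : BddY θ) (he : ∀ y, θ y = φ y - ψ y) :
    yMul P θ f = yMul P φ f - yMul P ψ f := by
  refine Lp.ext ?_
  filter_upwards [yMul_coe P h f, yMul_coe P h' f, yMul_coe P hθ f,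
    Lp.coeFn_sub (yMul P φ f) (yMul P ψ f)] with x e1 e2 e3 e4
  rw [e3, e4, Pi.sub_apply, e1, e2]
  by_cases hx : x ∈ Qs P
  · simp only [indicator_of_mem hx, he]
    push_cast
    ring
  · simp only [indicator_of_notMem hx]
    ring

theorem pj4_smul (P : Par) {φ : ℝ → ℝ} (h : BddY φ) (f : L2) (c : ℝ)
    (θ : ℝ → ℝ) (hθ : BddY θ) (he : ∀ y, θ y = c * φ y) :
    yMul P θ f = (c : ℂ) • yMul P φ f := by
  refine Lp.ext ?_
  filter_upwards [yMul_coe P h f, yMul_coe P hθ f,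
    Lp.coeFn_smul (c : ℂ) (yMul P φ f)] with x e1 e3 e4
  rw [e3, e4, Pi.smul_apply, e1, smul_eq_mul]
  by_cases hx : x ∈ Qs P
  · simp only [indicator_of_mem hx, he]
    push_cast
    ring
  · simp only [indicator_of_notMem hx]
    ring

/-- the dimer operator in terms of `ρ` and `J` -/
theorem pj4_HD (P : Par) (gb : ℂ) (hg : ‖gb‖ = 1) (f : L2) (hf : Q P f = f) :
    HD P gb f = -((P.s ^ 2 * P.wh : ℝ) : ℂ) • f + yMul P (rho P) (mulOp (j0 P) f)
      + ((P.s ^ 2 * P.Th : ℝ) : ℂ) • Sw P gb f := by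
  have h1 : HD P gb f = (1 / 2 : ℂ) • (yMul P (ee P) (Q P f) - yMul P (eb P) (Q P f))
      + (1 / 2 : ℂ) • (yMul P (ee P) (Jo P gb f) + yMul P (eb P) (Jo P gb f)) := by
    unfold HD Qp Qm
    simp only [ContinuousLinearMap.sub_apply, ContinuousLinearMap.comp_apply,
      ContinuousLinearMap.smul_apply, ContinuousLinearMap.add_apply, map_smul, map_add, map_sub]
    module
  have h2 : yMul P (ee P) (Q P f) - yMul P (eb P) (Q P f) =
      (-(2 * (P.s ^ 2 * P.wh : ℝ) : ℝ) : ℂ) • f := by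
    rw [← pj4_sub P (pj4_bdd_ee P) (pj4_bdd_eb P) (Q P f) (fun _ => -(2 * (P.s ^ 2 * P.wh)))
      (pj4_bdd_const _) (fun y => by unfold ee eb; ring)]
    rw [pj4_smul P (pj4_bdd_const 1) (Q P f) (-(2 * (P.s ^ 2 * P.wh))) _ (pj4_bdd_const _)
      (fun y => by ring), yMul_one, hf, hf]
    push_cast
    rfl
  have h3 : yMul P (ee P) (Jo P gb f) + yMul P (eb P) (Jo P gb f) =
      (2 : ℂ) • yMul P (rho P) (Jo P gb f) := by
    have e1 := pj4_sub P (pj4_bdd_ee P) (pj4_bdd_const (-(P.s ^ 2 * P.wh))) (Jo P gb f) (rho P)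
      (pj4_bdd_rho P) (fun y => by unfold ee; ring)
    have e2 := pj4_sub P (pj4_bdd_eb P) (pj4_bdd_const (P.s ^ 2 * P.wh)) (Jo P gb f) (rho P)
      (pj4_bdd_rho P) (fun y => by unfold eb; ring)
    have e3 := pj4_smul P (pj4_bdd_const (P.s ^ 2 * P.wh)) (Jo P gb f) (-1)
      (fun _ => -(P.s ^ 2 * P.wh)) (pj4_bdd_const _) (fun y => by ring)
    rw [e3] at e1
    have e4 : yMul P (ee P) (Jo P gb f) = yMul P (rho P) (Jo P gb f) -
        yMul P (fun _ => P.s ^ 2 * P.wh) (Jo P gb f) := by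
      rw [e1]
      push_cast
      module
    have e5 : yMul P (eb P) (Jo P gb f) = yMul P (rho P) (Jo P gb f) +
        yMul P (fun _ => P.s ^ 2 * P.wh) (Jo P gb f) := by
      rw [e2]
      module
    rw [e4, e5]
    module
  have h4 : yMul P (rho P) (Jo P gb f) = yMul P (rho P) (mulOp (j0 P) f)
      + ((P.s ^ 2 * P.Th : ℝ) : ℂ) • Sw P gb f := by
    unfold Jo
    simp only [ContinuousLinearMap.add_apply, ContinuousLinearMap.comp_apply, map_add]
    congr 1
    rw [yMul_mul P (pj4_bdd_rho P) (pj4_bdd_sf P)]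
    have e1 : (fun y => rho P y * sf P y) = fun _ => P.s ^ 2 * P.Th := by
      funext y
      unfold sf
      have := (rho_pos P y).ne'
      field_simp
    rw [e1, pj4_smul P (pj4_bdd_const 1) (Sw P gb f) (P.s ^ 2 * P.Th) _ (pj4_bdd_const _)
      (fun y => by ring), yMul_one, Q_Sw P gb hg]
  rw [h1, h2, h3, h4]
  push_cast
  module

/-- `2 cos x` on the lines: `H_D = 2cos x - s² wh + s² Th Sw` up to `O(δ)` -/
theorem HD_eq (P : Par) (gb : ℂ) (hg : ‖gb‖ = 1) (f f' : L2) (hf : Q P f = f) (hf' : Q P f' = f') :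
    ‖(inner ℂ f' (HD P gb f) : ℂ) - (inner ℂ f' (Cos2 f) - ((P.s ^ 2 * P.wh : ℝ) : ℂ) * inner ℂ f' f
      + ((P.s ^ 2 * P.Th : ℝ) : ℂ) * inner ℂ f' (Sw P gb f))‖ ≤ 2 * |P.del| * (‖f'‖ * ‖f‖) := by
  have hc : BddM fun x => ((2 * Real.cos x : ℝ) : ℂ) := by
    refine ⟨by fun_prop, 2, fun x => ?_⟩
    rw [norm_real, Real.norm_eq_abs, abs_mul, abs_two]
    have := Real.abs_cos_le_one x
    linarith
  have h1 : (inner ℂ f' (HD P gb f) : ℂ) - (inner ℂ f' (Cos2 f)
      - ((P.s ^ 2 * P.wh : ℝ) : ℂ) * inner ℂ f' f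
      + ((P.s ^ 2 * P.Th : ℝ) : ℂ) * inner ℂ f' (Sw P gb f)) =
      inner ℂ f' (yMul P (rho P) (mulOp (j0 P) f) - Cos2 f) := by
    rw [pj4_HD P gb hg f hf, inner_add_right, inner_add_right, inner_sub_right, inner_smul_right,
      inner_smul_right]
    ring
  rw [h1]
  have h2 : ‖yMul P (rho P) (mulOp (j0 P) f) - Cos2 f‖ ≤ 2 * |P.del| * ‖f‖ := by
    refine Lp.norm_le_mul_norm_of_ae_le_mul ?_
    have e0 : (f : ℝ → ℂ) =ᵐ[volume] fun x => (Qs P).indicator (fun _ => (1 : ℂ)) x * f x := by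
      have := mulOp_coe (bddM_ind (meas_Qs P)) f
      have e : mulOp ((Qs P).indicator fun _ => (1 : ℂ)) f = f := hf
      rw [e] at this
      exact this
    filter_upwards [e0, yMul_coe P (pj4_bdd_rho P) (mulOp (j0 P) f), mulOp_coe (pj4_bdd_j0 P) f,
      mulOp_coe hc f, Lp.coeFn_sub (yMul P (rho P) (mulOp (j0 P) f)) (Cos2 f)] with x e0 e1 e2 e3 e4
    have e3' : (Cos2 f : ℝ → ℂ) x = ((2 * Real.cos x : ℝ) : ℂ) * f x := e3
    rw [e4, Pi.sub_apply, e1, e2, e3']
    by_cases hx : x ∈ Qs P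
    · rw [indicator_of_mem hx]
      have h5 : ((rho P (yo P x) : ℝ) : ℂ) * (j0 P x * f x) - ((2 * Real.cos x : ℝ) : ℂ) * f x =
          (((rho P (yo P x) : ℝ) : ℂ) * j0 P x - ((2 * Real.cos x : ℝ) : ℂ)) * f x := by ring
      rw [h5, norm_mul]
      refine mul_le_mul_of_nonneg_right ?_ (norm_nonneg _)
      have hρ := (rho_pos P (yo P x)).ne'
      have h6 : ((rho P (yo P x) : ℝ) : ℂ) * j0 P x =
          ((2 * (-(if Even (idx x) then 1 else -1) * Real.sin (yo P x)) : ℝ) : ℂ) := by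
        have h7 : rho P (yo P x) * cf P (yo P x) = 2 * Real.sin (yo P x) := by
          unfold cf
          field_simp
        unfold j0
        rw [if_pos hx]
        split_ifs
        · rw [mul_neg, ← ofReal_mul, h7]
          push_cast
          ring
        · rw [← ofReal_mul, h7]
          push_cast
          ring
      rw [h6, ← ofReal_sub, norm_real, Real.norm_eq_abs, ← mul_sub, abs_mul, abs_two, abs_sub_comm]
      have h8 := cos_Pt P (idx x) (yo P x)
      have h9 : Pt P (idx x) + yo P x = x := by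
        unfold yo
        ring
      rw [h9] at h8
      linarith
    · have hf0 : (f : ℝ → ℂ) x = 0 := by
        rw [e0, indicator_of_notMem hx, zero_mul]
      rw [hf0]
      simp
  calc ‖(inner ℂ f' (yMul P (rho P) (mulOp (j0 P) f) - Cos2 f) : ℂ)‖
      ≤ ‖f'‖ * ‖yMul P (rho P) (mulOp (j0 P) f) - Cos2 f‖ := norm_inner_le_norm _ _
    _ ≤ ‖f'‖ * (2 * |P.del| * ‖f‖) := mul_le_mul_of_nonneg_left h2 (norm_nonneg _)
    _ = 2 * |P.del| * (‖f'‖ * ‖f‖) := by ring

end Pool.Agent.Helper92.HRU
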