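import Pool.Agent.Helper92.HRU.BDefs
import Pool.Agent.Helper92.HRU.Pf.PN1
import Pool.Agent.Helper92.HRU.Pf.PN2
import Pool.Agent.Helper92.HRU.Pf.PQ1

/-! Piece PW1: WGW on the lines: pointwise formula. -/

set_option autoImplicit false

namespace Pool.Agent.Helper92.HRU

open Complex Set MeasureTheory Filter Topology
open scoped ComplexConjugate Real ENNReal
open Pool.Agent.Helper84.HRT (Weyl node chi mu8 XL Data Aop Bop Good)

theorem pw1_im_o1 : 2 * o1.im = √3 := by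
  change 2 * (√3 / 2) = √3
  ring

theorem pw1_im_o2 : 2 * o2.im = √3 := by
  change 2 * (√3 / 2) = √3
  ring

/-- pointwise formula for `Wb` -/
theorem pw1_Wb_coe (P : Par) (gb : ℂ) (h : L2) :
    ∀ᵐ x : ℝ, (Wb P gb h : ℝ → ℂ) x =
      (chr o1 x * h (x - √3) + chr (-o1) x * h (x + √3))
      + (P.v2 : ℂ) * (chr o2 x * h (x - √3) + chr (-o2) x * h (x + √3))
      + (P.ep : ℂ) * (gb * (chr P.b x * h (x - 2 * P.b.im))
        + conj gb * (chr (-P.b) x * h (x + 2 * P.b.im))) := by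
  have e : Wb P gb h = (W o1 h + W (-o1) h) + (P.v2 : ℂ) • (W o2 h + W (-o2) h)
      + (P.ep : ℂ) • (gb • W P.b h + (conj gb) • W (-P.b) h) := rfl
  rw [e]
  filter_upwards [W_coe o1 h, W_coe (-o1) h, W_coe o2 h, W_coe (-o2) h, W_coe P.b h,
    W_coe (-P.b) h,
    Lp.coeFn_add (W o1 h + W (-o1) h + (P.v2 : ℂ) • (W o2 h + W (-o2) h))
      ((P.ep : ℂ) • (gb • W P.b h + (conj gb) • W (-P.b) h)),
    Lp.coeFn_add (W o1 h + W (-o1) h) ((P.v2 : ℂ) • (W o2 h + W (-o2) h)),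
    Lp.coeFn_add (W o1 h) (W (-o1) h),
    Lp.coeFn_smul (P.v2 : ℂ) (W o2 h + W (-o2) h),
    Lp.coeFn_add (W o2 h) (W (-o2) h),
    Lp.coeFn_smul (P.ep : ℂ) (gb • W P.b h + (conj gb) • W (-P.b) h),
    Lp.coeFn_add (gb • W P.b h) ((conj gb) • W (-P.b) h),
    Lp.coeFn_smul gb (W P.b h), Lp.coeFn_smul (conj gb) (W (-P.b) h)]
    with x h1 h2 h3 h4 h5 h6 a1 a2 a3 a4 a5 a6 a7 a8 a9
  rw [a1, Pi.add_apply, a2, Pi.add_apply, a3, Pi.add_apply, a4, Pi.smul_apply, a5, Pi.add_apply,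
    a6, Pi.smul_apply, a7, Pi.add_apply, a8, Pi.smul_apply, a9, Pi.smul_apply, h1, h2, h3, h4,
    h5, h6]
  simp only [smul_eq_mul]
  have i1 : x - 2 * o1.im = x - √3 := by rw [pw1_im_o1]
  have i2 : x - 2 * o2.im = x - √3 := by rw [pw1_im_o2]
  have i3 : x - 2 * (-o1).im = x + √3 := by
    rw [Complex.neg_im, mul_neg, pw1_im_o1, sub_neg_eq_add]
  have i4 : x - 2 * (-o2).im = x + √3 := by
    rw [Complex.neg_im, mul_neg, pw1_im_o2, sub_neg_eq_add]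
  have i5 : x - 2 * (-P.b).im = x + 2 * P.b.im := by
    rw [Complex.neg_im, mul_neg, sub_neg_eq_add]
  rw [i1, i2, i3, i4, i5]

theorem pw1_ae_comp_add {p : ℝ → Prop} (h : ∀ᵐ x, p x) (c : ℝ) : ∀ᵐ x, p (x + c) := by
  have := ae_comp_sub h (-c)
  simpa only [sub_neg_eq_add] using this

/-- the product of two phases -/
theorem pw1_chr_mul (α β : ℂ) (x y θ : ℝ) (γ : ℂ)
    (h : α.re * (x - α.im) + β.re * (y - β.im) = θ + γ.re * (x - γ.im)) :
    chr α x * chr β y = exp (I * (θ : ℝ)) * chr γ x := by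
  unfold chr
  rw [← Complex.exp_add, ← Complex.exp_add]
  congr 1
  rw [← mul_add, ← mul_add]
  congr 1
  rw [← Complex.ofReal_add, ← Complex.ofReal_add, h]

theorem pw1_chr_mul_exp (α β : ℂ) (x y θ : ℝ)
    (h : α.re * (x - α.im) + β.re * (y - β.im) = θ) :
    chr α x * chr β y = exp (I * (θ : ℝ)) := by
  unfold chr
  rw [← Complex.exp_add, ← mul_add, ← Complex.ofReal_add, h]

theorem pw1_conj_chr (α : ℂ) (x : ℝ) : conj (chr α (x + 2 * α.im)) = chr (-α) x := by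
  unfold chr
  rw [← Complex.exp_conj, map_mul, Complex.conj_I, Complex.conj_ofReal]
  congr 1
  rw [Complex.neg_re, Complex.neg_im]
  push_cast
  ring

theorem pw1_conj_exp (θ : ℝ) : conj (exp (I * (θ : ℂ))) = exp (-(I * (θ : ℂ))) := by
  rw [← Complex.exp_conj, map_mul, Complex.conj_I, Complex.conj_ofReal, neg_mul]

theorem pw1_conj_exp' (θ : ℝ) : conj (exp (-(I * (θ : ℂ)))) = exp (I * (θ : ℂ)) := by
  rw [← Complex.exp_conj, map_neg, map_mul, Complex.conj_I, Complex.conj_ofReal, neg_mul, neg_neg]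

theorem pw1_exp_add (θ : ℝ) :
    exp (I * ((θ : ℝ) : ℂ)) + exp (I * ((-θ : ℝ) : ℂ)) = ((2 * Real.cos θ : ℝ) : ℂ) := by
  push_cast
  rw [mul_comm I (θ : ℂ), mul_comm I (-(θ : ℂ)), Complex.exp_mul_I, Complex.exp_mul_I,
    Complex.cos_neg, Complex.sin_neg]
  ring

theorem pw1_gf_real {P : Par} {x : ℝ} (hx : x ∉ Qs P) :
    gf P x = (((2 * Real.cos x)⁻¹ : ℝ) : ℂ) := by
  unfold gf
  rw [Set.indicator_of_mem]
  exact hx

theorem pw1_sqrt3 : 1.732 < √3 ∧ √3 < 1.7321 := by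
  constructor
  · rw [Real.lt_sqrt (by norm_num)]; norm_num
  · rw [Real.sqrt_lt' (by norm_num)]; norm_num

/-- distance from `π ℤ` of a number in `[3/20, π - 3/20]` modulo `π` -/
theorem pw1_dist {c : ℝ} {m : ℤ} (h1 : 3 / 20 ≤ c - π * m) (h2 : c - π * m ≤ 3.14 - 3 / 20)
    (n : ℤ) : 3 / 20 ≤ |c - π * n| := by
  have hpi := Real.pi_gt_d2
  rcases lt_or_ge m n with h | h
  · have h3 : (m : ℝ) + 1 ≤ n := by exact_mod_cast h
    have h4 : c - π * n ≤ -(3 / 20) := by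
      have : π * ((m : ℝ) + 1) ≤ π * n := mul_le_mul_of_nonneg_left h3 Real.pi_pos.le
      linarith
    rw [abs_of_neg (by linarith)]
    linarith
  · have h3 : (n : ℝ) ≤ m := by exact_mod_cast h
    have h4 : 3 / 20 ≤ c - π * n := by
      have : π * (n : ℝ) ≤ π * m := mul_le_mul_of_nonneg_left h3 Real.pi_pos.le
      linarith
    exact h4.trans (le_abs_self _)

theorem pw1_shifts (P : Par) (x : ℝ) (hx : x ∈ Qs P) :
    (x - √3 ∉ Qs P ∧ x + √3 ∉ Qs P ∧ x - 2 * P.b.im ∉ Qs P ∧ x + 2 * P.b.im ∉ Qs P) ∧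
    (x - √3 - √3 ∉ Qs P ∧ x + √3 + √3 ∉ Qs P ∧ x - 2 * P.b.im - 2 * P.b.im ∉ Qs P ∧
      x + 2 * P.b.im + 2 * P.b.im ∉ Qs P) ∧
    (x - √3 + 2 * P.b.im ∉ Qs P ∧ x + √3 - 2 * P.b.im ∉ Qs P ∧ x - 2 * P.b.im + √3 ∉ Qs P ∧
      x + 2 * P.b.im - √3 ∉ Qs P) := by
  obtain ⟨s1, s2⟩ := pw1_sqrt3
  obtain ⟨b1, b2⟩ := P.im_b
  have hpi := Real.pi_gt_d2
  have hpi2 := Real.pi_lt_d2
  have key : ∀ c : ℝ, ∀ m : ℤ, 3 / 20 ≤ c - π * m → c - π * m ≤ 3.14 - 3 / 20 → ∀ z : ℝ,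
      z = x - c → z ∉ Qs P := by
    intro c m h1 h2 z hz
    rw [hz]
    exact shift_off P c (pw1_dist h1 h2) x hx
  refine ⟨⟨?_, ?_, ?_, ?_⟩, ⟨?_, ?_, ?_, ?_⟩, ⟨?_, ?_, ?_, ?_⟩⟩
  · exact key (√3) 0 (by push_cast; linarith) (by push_cast; linarith) _ (by ring)
  · exact key (-√3) (-1) (by push_cast; linarith) (by push_cast; linarith) _ (by ring)
  · exact key (2 * P.b.im) 0 (by push_cast; linarith) (by push_cast; linarith) _ (by ring)
  · exact key (-(2 * P.b.im)) (-1) (by push_cast; linarith) (by push_cast; linarith) _ (by ring)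
  · exact key (√3 + √3) 1 (by push_cast; linarith) (by push_cast; linarith) _ (by ring)
  · exact key (-(√3 + √3)) (-2) (by push_cast; linarith) (by push_cast; linarith) _ (by ring)
  · exact key (2 * P.b.im + 2 * P.b.im) 0 (by push_cast; linarith) (by push_cast; linarith) _
      (by ring)
  · exact key (-(2 * P.b.im + 2 * P.b.im)) (-1) (by push_cast; linarith)
      (by push_cast; linarith) _ (by ring)
  · exact key (√3 - 2 * P.b.im) 0 (by push_cast; linarith) (by push_cast; linarith) _ (by ring)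
  · exact key (-(√3 - 2 * P.b.im)) (-1) (by push_cast; linarith) (by push_cast; linarith) _
      (by ring)
  · exact key (-(√3 - 2 * P.b.im)) (-1) (by push_cast; linarith) (by push_cast; linarith) _
      (by ring)
  · exact key (√3 - 2 * P.b.im) 0 (by push_cast; linarith) (by push_cast; linarith) _ (by ring)

/-- the algebraic identity behind `WGW_eq` -/
theorem pw1_alg (P : Par) (gb : ℂ) (hg : ‖gb‖ = 1) (x : ℝ) (F0 Fp Fm : ℂ) :
    (chr o1 x * ((((2 * Real.cos (x - √3))⁻¹ : ℝ) : ℂ) *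
        (chr (-o1) (x - √3) * F0 + (P.v2 : ℂ) * (chr (-o2) (x - √3) * F0)
          + (P.ep : ℂ) * (gb * (chr P.b (x - √3) * Fp))))
      + chr (-o1) x * ((((2 * Real.cos (x + √3))⁻¹ : ℝ) : ℂ) *
        (chr o1 (x + √3) * F0 + (P.v2 : ℂ) * (chr o2 (x + √3) * F0)
          + (P.ep : ℂ) * (conj gb * (chr (-P.b) (x + √3) * Fm)))))
    + (P.v2 : ℂ) * (chr o2 x * ((((2 * Real.cos (x - √3))⁻¹ : ℝ) : ℂ) *
        (chr (-o1) (x - √3) * F0 + (P.v2 : ℂ) * (chr (-o2) (x - √3) * F0)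
          + (P.ep : ℂ) * (gb * (chr P.b (x - √3) * Fp))))
      + chr (-o2) x * ((((2 * Real.cos (x + √3))⁻¹ : ℝ) : ℂ) *
        (chr o1 (x + √3) * F0 + (P.v2 : ℂ) * (chr o2 (x + √3) * F0)
          + (P.ep : ℂ) * (conj gb * (chr (-P.b) (x + √3) * Fm)))))
    + (P.ep : ℂ) * (gb * (chr P.b x * ((((2 * Real.cos (x - 2 * P.b.im))⁻¹ : ℝ) : ℂ) *
        (chr o1 (x - 2 * P.b.im) * Fp + (P.v2 : ℂ) * (chr o2 (x - 2 * P.b.im) * Fp)
          + (P.ep : ℂ) * (conj gb * (chr (-P.b) (x - 2 * P.b.im) * F0)))))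
      + conj gb * (chr (-P.b) x * ((((2 * Real.cos (x + 2 * P.b.im))⁻¹ : ℝ) : ℂ) *
        (chr (-o1) (x + 2 * P.b.im) * Fm + (P.v2 : ℂ) * (chr (-o2) (x + 2 * P.b.im) * Fm)
          + (P.ep : ℂ) * (gb * (chr P.b (x + 2 * P.b.im) * F0))))))
    = (ph0 P x : ℂ) * F0 + php P gb x * Fp + conj (php P gb (x + P.sh)) * Fm := by
  have r1 : o1.re = 1 / 2 := rfl
  have m1 : o1.im = √3 / 2 := rfl
  have r2 : o2.re = -(1 / 2) := rfl
  have m2 : o2.im = √3 / 2 := rfl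
  have hgg : gb * conj gb = 1 := by
    rw [Complex.mul_conj, Complex.normSq_eq_norm_sq, hg]
    norm_num
  have hss : √3 * √3 = 3 := Real.mul_self_sqrt (by norm_num)
  have hsh : P.sh = √3 + 2 * P.b.im := P.sh_eq
  set A1 : ℂ := (((2 * Real.cos (x - √3))⁻¹ : ℝ) : ℂ) with hA1
  set A2 : ℂ := (((2 * Real.cos (x + √3))⁻¹ : ℝ) : ℂ) with hA2
  set A3 : ℂ := (((2 * Real.cos (x - 2 * P.b.im))⁻¹ : ℝ) : ℂ) with hA3
  set A4 : ℂ := (((2 * Real.cos (x + 2 * P.b.im))⁻¹ : ℝ) : ℂ) with hA4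
  have e0 : ∀ θ : ℝ, θ = 0 → exp (I * (θ : ℂ)) = 1 := by
    intro θ h
    rw [h]; simp
  have T1 : chr o1 x * chr (-o1) (x - √3) = 1 := by
    rw [pw1_chr_mul_exp o1 (-o1) x (x - √3) 0
      (by rw [Complex.neg_re, Complex.neg_im, r1, m1]; ring)]
    exact e0 0 rfl
  have T2 : chr o1 x * chr (-o2) (x - √3) = exp (I * ((x - √3 / 2 : ℝ) : ℂ)) :=
    pw1_chr_mul_exp _ _ _ _ _ (by rw [Complex.neg_re, Complex.neg_im, r1, m1, r2, m2]; ring)
  have T3 : chr o2 x * chr (-o1) (x - √3) = exp (I * ((-(x - √3 / 2) : ℝ) : ℂ)) :=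
    pw1_chr_mul_exp _ _ _ _ _ (by rw [Complex.neg_re, Complex.neg_im, r1, m1, r2, m2]; ring)
  have T4 : chr o2 x * chr (-o2) (x - √3) = 1 := by
    rw [pw1_chr_mul_exp o2 (-o2) x (x - √3) 0
      (by rw [Complex.neg_re, Complex.neg_im, r2, m2]; ring)]
    exact e0 0 rfl
  have T5 : chr (-o1) x * chr o1 (x + √3) = 1 := by
    rw [pw1_chr_mul_exp (-o1) o1 x (x + √3) 0
      (by rw [Complex.neg_re, Complex.neg_im, r1, m1]; ring)]
    exact e0 0 rfl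
  have T6 : chr (-o1) x * chr o2 (x + √3) = exp (I * ((-(x + √3 / 2) : ℝ) : ℂ)) :=
    pw1_chr_mul_exp _ _ _ _ _ (by rw [Complex.neg_re, Complex.neg_im, r1, m1, r2, m2]; ring)
  have T7 : chr (-o2) x * chr o1 (x + √3) = exp (I * ((x + √3 / 2 : ℝ) : ℂ)) :=
    pw1_chr_mul_exp _ _ _ _ _ (by rw [Complex.neg_re, Complex.neg_im, r1, m1, r2, m2]; ring)
  have T8 : chr (-o2) x * chr o2 (x + √3) = 1 := by
    rw [pw1_chr_mul_exp (-o2) o2 x (x + √3) 0
      (by rw [Complex.neg_re, Complex.neg_im, r2, m2]; ring)]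
    exact e0 0 rfl
  have T9 : chr P.b x * chr (-P.b) (x - 2 * P.b.im) = 1 := by
    rw [pw1_chr_mul_exp P.b (-P.b) x (x - 2 * P.b.im) 0
      (by rw [Complex.neg_re, Complex.neg_im]; ring)]
    exact e0 0 rfl
  have T10 : chr (-P.b) x * chr P.b (x + 2 * P.b.im) = 1 := by
    rw [pw1_chr_mul_exp (-P.b) P.b x (x + 2 * P.b.im) 0
      (by rw [Complex.neg_re, Complex.neg_im]; ring)]
    exact e0 0 rfl
  set al : ℝ := (√3 * P.b.re - P.b.im) / 2 with hal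
  set be : ℝ := (√3 * P.b.re + P.b.im) / 2 with hbe
  have nexp : ∀ θ : ℝ, exp (I * ((-θ : ℝ) : ℂ)) = exp (-(I * (θ : ℂ))) := by
    intro θ
    congr 1
    push_cast
    ring
  have T11 : chr o1 x * chr P.b (x - √3) = exp (-(I * (al : ℂ))) * chr (o1 + P.b) x := by
    rw [← nexp]
    exact pw1_chr_mul _ _ _ _ _ _ (by rw [Complex.add_re, Complex.add_im, r1, m1, hal]; ring)
  have T12 : chr P.b x * chr o1 (x - 2 * P.b.im) = exp (I * (al : ℂ)) * chr (o1 + P.b) x :=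
    pw1_chr_mul _ _ _ _ _ _ (by rw [Complex.add_re, Complex.add_im, r1, m1, hal]; ring)
  have T13 : chr o2 x * chr P.b (x - √3) = exp (-(I * (be : ℂ))) * chr (o2 + P.b) x := by
    rw [← nexp]
    exact pw1_chr_mul _ _ _ _ _ _ (by rw [Complex.add_re, Complex.add_im, r2, m2, hbe]; ring)
  have T14 : chr P.b x * chr o2 (x - 2 * P.b.im) = exp (I * (be : ℂ)) * chr (o2 + P.b) x :=
    pw1_chr_mul _ _ _ _ _ _ (by rw [Complex.add_re, Complex.add_im, r2, m2, hbe]; ring)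
  have T15 : chr (-o1) x * chr (-P.b) (x + √3) =
      exp (-(I * (al : ℂ))) * chr (-(o1 + P.b)) x := by
    rw [← nexp]
    exact pw1_chr_mul _ _ _ _ _ _ (by
      rw [Complex.neg_re, Complex.neg_im, Complex.neg_re, Complex.neg_im, Complex.neg_re,
        Complex.neg_im, Complex.add_re, Complex.add_im, r1, m1, hal]; ring)
  have T16 : chr (-P.b) x * chr (-o1) (x + 2 * P.b.im) =
      exp (I * (al : ℂ)) * chr (-(o1 + P.b)) x :=
    pw1_chr_mul _ _ _ _ _ _ (by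
      rw [Complex.neg_re, Complex.neg_im, Complex.neg_re, Complex.neg_im, Complex.neg_re,
        Complex.neg_im, Complex.add_re, Complex.add_im, r1, m1, hal]; ring)
  have T17 : chr (-o2) x * chr (-P.b) (x + √3) =
      exp (-(I * (be : ℂ))) * chr (-(o2 + P.b)) x := by
    rw [← nexp]
    exact pw1_chr_mul _ _ _ _ _ _ (by
      rw [Complex.neg_re, Complex.neg_im, Complex.neg_re, Complex.neg_im, Complex.neg_re,
        Complex.neg_im, Complex.add_re, Complex.add_im, r2, m2, hbe]; ring)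
  have T18 : chr (-P.b) x * chr (-o2) (x + 2 * P.b.im) =
      exp (I * (be : ℂ)) * chr (-(o2 + P.b)) x :=
    pw1_chr_mul _ _ _ _ _ _ (by
      rw [Complex.neg_re, Complex.neg_im, Complex.neg_re, Complex.neg_im, Complex.neg_re,
        Complex.neg_im, Complex.add_re, Complex.add_im, r2, m2, hbe]; ring)
  have C1 := pw1_exp_add (x - √3 / 2)
  have C2 := pw1_exp_add (x + √3 / 2)
  have hph0 : (ph0 P x : ℂ) = (P.v2 : ℂ) * (((2 * Real.cos (x - √3 / 2) : ℝ) : ℂ) * A1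
        + ((2 * Real.cos (x + √3 / 2) : ℝ) : ℂ) * A2) + (1 + (P.v2 : ℂ) ^ 2) * (A1 + A2)
        + (P.ep : ℂ) ^ 2 * (A3 + A4) := by
    rw [hA1, hA2, hA3, hA4]
    have : ph0 P x = P.v2 * ((2 * Real.cos (x - √3 / 2)) * (2 * Real.cos (x - √3))⁻¹
        + (2 * Real.cos (x + √3 / 2)) * (2 * Real.cos (x + √3))⁻¹)
        + (1 + P.v2 ^ 2) * ((2 * Real.cos (x - √3))⁻¹ + (2 * Real.cos (x + √3))⁻¹)
        + P.ep ^ 2 * ((2 * Real.cos (x - 2 * P.b.im))⁻¹ + (2 * Real.cos (x + 2 * P.b.im))⁻¹) := by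
      unfold ph0
      rw [mul_inv, mul_inv]
      ring
    rw [this]
    push_cast
    ring
  have hphp : php P gb x = gb * P.ep * (chr (o1 + P.b) x * (exp (-(I * (al : ℂ))) * A1
      + exp (I * (al : ℂ)) * A3) + P.v2 * chr (o2 + P.b) x * (exp (-(I * (be : ℂ))) * A1
      + exp (I * (be : ℂ)) * A3)) := rfl
  have c1 : x + P.sh - √3 = x + 2 * P.b.im := by rw [hsh]; ring
  have c2 : x + P.sh - 2 * P.b.im = x + √3 := by rw [hsh]; ring
  have d1 : x + P.sh = x + 2 * (o1 + P.b).im := by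
    rw [hsh, Complex.add_im, m1]; ring
  have d2 : x + P.sh = x + 2 * (o2 + P.b).im := by
    rw [hsh, Complex.add_im, m2]; ring
  have k1 : conj (chr (o1 + P.b) (x + P.sh)) = chr (-(o1 + P.b)) x := by
    rw [d1]; exact pw1_conj_chr _ _
  have k2 : conj (chr (o2 + P.b) (x + P.sh)) = chr (-(o2 + P.b)) x := by
    rw [d2]; exact pw1_conj_chr _ _
  have hphm : conj (php P gb (x + P.sh)) = conj gb * P.ep * (chr (-(o1 + P.b)) x *
      (exp (I * (al : ℂ)) * A4 + exp (-(I * (al : ℂ))) * A2) + P.v2 * chr (-(o2 + P.b)) x *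
      (exp (I * (be : ℂ)) * A4 + exp (-(I * (be : ℂ))) * A2)) := by
    unfold php
    rw [c1, c2, ← hal, ← hbe, ← hA4, ← hA2]
    simp only [map_mul, map_add, Complex.conj_ofReal, pw1_conj_exp, pw1_conj_exp', k1, k2]
    have hA4c : conj A4 = A4 := by rw [hA4, Complex.conj_ofReal]
    have hA2c : conj A2 = A2 := by rw [hA2, Complex.conj_ofReal]
    rw [hA4c, hA2c]
  rw [hph0, hphp, hphm]
  linear_combination (A1 * F0) * T1 + (P.v2 * A1 * F0) * T2 + (P.v2 * A1 * F0) * T3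
    + (P.v2 ^ 2 * A1 * F0) * T4 + (A2 * F0) * T5 + (P.v2 * A2 * F0) * T6
    + (P.v2 * A2 * F0) * T7 + (P.v2 ^ 2 * A2 * F0) * T8
    + (P.ep ^ 2 * gb * conj gb * A3 * F0) * T9 + (P.ep ^ 2 * gb * conj gb * A4 * F0) * T10
    + (P.ep * gb * A1 * Fp) * T11 + (P.ep * gb * A3 * Fp) * T12
    + (P.v2 * P.ep * gb * A1 * Fp) * T13 + (P.v2 * P.ep * gb * A3 * Fp) * T14
    + (P.ep * conj gb * A2 * Fm) * T15 + (P.ep * conj gb * A4 * Fm) * T16
    + (P.v2 * P.ep * conj gb * A2 * Fm) * T17 + (P.v2 * P.ep * conj gb * A4 * Fm) * T18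
    + (P.v2 * A1 * F0) * C1 + (P.v2 * A2 * F0) * C2 + (P.ep ^ 2 * (A3 + A4) * F0) * hgg

/-- (B2a) the only surviving terms: shifts `0`, `±sh` -/
theorem WGW_eq (P : Par) (gb : ℂ) (hg : ‖gb‖ = 1) (f : L2) (hf : Q P f = f) :
    ∀ᵐ x : ℝ, x ∈ Qs P → (Wb P gb (G P (Wb P gb f)) : ℝ → ℂ) x =
      (ph0 P x : ℂ) * f x + php P gb x * f (x - P.sh) + conj (php P gb (x + P.sh)) * f (x + P.sh) := by
  have hsh : P.sh = √3 + 2 * P.b.im := P.sh_eq
  have hz : ∀ᵐ x : ℝ, x ∉ Qs P → (f : ℝ → ℂ) x = 0 := by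
    have h1 : (Q P f : ℝ → ℂ) =ᵐ[volume] fun x => (Qs P).indicator (fun _ => (1 : ℂ)) x * f x :=
      mulOp_coe (bddM_ind (meas_Qs P)) f
    rw [hf] at h1
    filter_upwards [h1] with x hx hxQ
    rw [hx, Set.indicator_of_notMem hxQ, zero_mul]
  have hG : (G P (Wb P gb f) : ℝ → ℂ) =ᵐ[volume] fun x => gf P x * (Wb P gb f) x :=
    mulOp_coe (bddM_gf P) (Wb P gb f)
  have hW := pw1_Wb_coe P gb f
  filter_upwards [pw1_Wb_coe P gb (G P (Wb P gb f)),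
    ae_comp_sub hG (√3), pw1_ae_comp_add hG (√3), ae_comp_sub hG (2 * P.b.im),
    pw1_ae_comp_add hG (2 * P.b.im),
    ae_comp_sub hW (√3), pw1_ae_comp_add hW (√3), ae_comp_sub hW (2 * P.b.im),
    pw1_ae_comp_add hW (2 * P.b.im),
    ae_comp_sub (ae_comp_sub hz (√3)) (√3),
    pw1_ae_comp_add (pw1_ae_comp_add hz (√3)) (√3),
    ae_comp_sub (ae_comp_sub hz (2 * P.b.im)) (2 * P.b.im),
    pw1_ae_comp_add (pw1_ae_comp_add hz (2 * P.b.im)) (2 * P.b.im),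
    ae_comp_sub (pw1_ae_comp_add hz (2 * P.b.im)) (√3),
    pw1_ae_comp_add (ae_comp_sub hz (2 * P.b.im)) (√3),
    ae_comp_sub (pw1_ae_comp_add hz (√3)) (2 * P.b.im),
    pw1_ae_comp_add (ae_comp_sub hz (√3)) (2 * P.b.im)]
    with x h0 g1 g2 g3 g4 w1 w2 w3 w4 z1 z2 z3 z4 z5 z6 z7 z8 hx
  obtain ⟨⟨n1, n2, n3, n4⟩, ⟨n5, n6, n7, n8⟩, ⟨n9, n10, n11, n12⟩⟩ := pw1_shifts P x hx
  have z1' := z1 n5
  have z2' := z2 n6
  have z3' := z3 n7
  have z4' := z4 n8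
  have z5' := z5 n9
  have z6' := z6 n10
  have z7' := z7 n11
  have z8' := z8 n12
  have q1 : x - √3 + √3 = x := by ring
  have q2 : x + √3 - √3 = x := by ring
  have q3 : x - 2 * P.b.im + 2 * P.b.im = x := by ring
  have q4 : x + 2 * P.b.im - 2 * P.b.im = x := by ring
  have q5 : x - √3 - 2 * P.b.im = x - P.sh := by rw [hsh]; ring
  have q6 : x - 2 * P.b.im - √3 = x - P.sh := by rw [hsh]; ring
  have q7 : x + √3 + 2 * P.b.im = x + P.sh := by rw [hsh]; ring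
  have q8 : x + 2 * P.b.im + √3 = x + P.sh := by rw [hsh]; ring
  rw [h0, g1, g2, g3, g4, w1, w2, w3, w4, z1', z2', z3', z4', z5', z6', z7', z8', q1, q2, q3, q4,
    q5, q6, q7, q8, pw1_gf_real n1, pw1_gf_real n2, pw1_gf_real n3, pw1_gf_real n4]
  rw [← pw1_alg P gb hg x (f x) (f (x - P.sh)) (f (x + P.sh))]
  ring

end Pool.Agent.Helper92.HRU
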