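import Pool.Agent.Helper92.HRU.BDefs
import Pool.Agent.Helper92.HRU.Pf.PN1
import Pool.Agent.Helper92.HRU.Pf.PN2

/-! Piece PW2: WGW on the lines: values of the multipliers. -/

set_option autoImplicit false

namespace Pool.Agent.Helper92.HRU

open Complex Set MeasureTheory Filter Topology
open scoped ComplexConjugate Real ENNReal
open Pool.Agent.Helper84.HRT (Weyl node chi mu8 XL Data Aop Bop Good)

/-- the offset `z = y` or `y + δ` -/
noncomputable def pw2_z (P : Par) (n : ℤ) (y : ℝ) : ℝ := y + if Even n then 0 else P.del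

theorem pw2_Pt (P : Par) (n : ℤ) (y : ℝ) : Pt P n + y = π / 2 + π * n + pw2_z P n y := by
  unfold Pt pw2_z
  ring

theorem pw2_z_le (P : Par) (n : ℤ) (y : ℝ) : |pw2_z P n y| ≤ |y| + |P.del| := by
  unfold pw2_z
  refine (abs_add_le _ _).trans (add_le_add le_rfl ?_)
  split_ifs
  · rw [abs_zero]
    exact abs_nonneg _
  · exact le_rfl

theorem pw2_cos (n : ℤ) (t : ℝ) : Real.cos (π / 2 + π * n + t) = -((-1 : ℝ) ^ n * Real.sin t) := by
  have h : π / 2 + π * n + t = (t + π / 2) + n * π := by ring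
  rw [h, Real.cos_add_int_mul_pi, Real.cos_add_pi_div_two]
  ring

theorem pw2_sg (n : ℤ) : ((-1 : ℝ) ^ n) * ((-1 : ℝ) ^ n) = 1 := by
  rw [← mul_zpow]
  norm_num

theorem pw2_sg_abs (n : ℤ) : |((-1 : ℝ) ^ n)| = 1 := by
  rw [abs_zpow]
  norm_num

theorem pw2_sqrt3 : 1.732 ≤ √3 ∧ √3 ≤ 1.7321 := by
  constructor
  · apply Real.le_sqrt_of_sq_le
    norm_num
  · rw [Real.sqrt_le_left (by norm_num)]
    norm_num

/-- lower bound of the sine near `π/2` -/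
theorem pw2_sin_ge {t : ℝ} (h1 : 1.2 ≤ t) (h2 : t ≤ 1.9) : 1 / 2 ≤ Real.sin t := by
  have hp := Real.pi_gt_d6
  have hp2 := Real.pi_lt_d6
  rw [← Real.cos_pi_div_two_sub]
  refine le_trans ?_ (Real.one_sub_sq_div_two_le_cos)
  nlinarith

theorem pw2_inv_diff {σ a b : ℝ} (hσ : σ * σ = 1) (hσ' : |σ| = 1) (ha : 1 / 2 ≤ a)
    (hb : 1 / 2 ≤ b) : |(2 * (σ * a))⁻¹ - (2 * (σ * b))⁻¹| ≤ 2 * |a - b| := by
  have hσ0 : σ ≠ 0 := by
    rintro rfl
    norm_num at hσ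
  have ha0 : (0 : ℝ) < a := by linarith
  have hb0 : (0 : ℝ) < b := by linarith
  have e : (2 * (σ * a))⁻¹ - (2 * (σ * b))⁻¹ = σ * ((b - a) * (2 * a * b)⁻¹) := by
    have : σ = σ⁻¹ := by
      field_simp
      linarith [hσ, sq σ]
    rw [mul_inv, mul_inv, mul_inv, mul_inv, mul_inv, mul_inv, ← this]
    field_simp
  rw [e, abs_mul, hσ', one_mul, abs_mul, abs_sub_comm, mul_comm (2 : ℝ) |a - b|]
  gcongr
  rw [abs_of_pos (by positivity)]
  apply inv_le_of_inv_le₀ (by norm_num)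
  nlinarith

theorem pw2_quot {a b a' b' D : ℝ} (h1 : |a - a'| ≤ D) (h2 : |b - b'| ≤ D) (hb : 1 / 2 ≤ b)
    (hb' : 1 / 2 ≤ b') (hb1 : b' ≤ 1) (ha' : |a'| ≤ 1) : |a / b - a' / b'| ≤ 8 * D := by
  have hb0 : (0 : ℝ) < b := by linarith
  have hb0' : (0 : ℝ) < b' := by linarith
  have e : a / b - a' / b' = ((a - a') * b' + a' * (b' - b)) / (b * b') := by
    field_simp
    ring
  have hD : 0 ≤ D := (abs_nonneg _).trans h1
  rw [e, abs_div, abs_of_pos (mul_pos hb0 hb0'), div_le_iff₀ (mul_pos hb0 hb0')]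
  have h3 : |(a - a') * b' + a' * (b' - b)| ≤ 2 * D := by
    refine (abs_add_le _ _).trans ?_
    rw [abs_mul, abs_mul, abs_of_pos hb0', abs_sub_comm b' b]
    have := mul_le_mul h1 hb1 hb0'.le hD
    have := mul_le_mul ha' h2 (abs_nonneg _) zero_le_one
    linarith
  have h4 : 1 / 4 ≤ b * b' := by nlinarith
  nlinarith only [h3, hD, h4]

theorem pw2_cos_sub (n : ℤ) (z c : ℝ) :
    Real.cos (π / 2 + π * n + z - c) = (-1 : ℝ) ^ n * Real.sin (c - z) := by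
  have h : π / 2 + π * n + z - c = π / 2 + π * n + (z - c) := by ring
  have h2 : z - c = -(c - z) := by ring
  rw [h, pw2_cos, h2, Real.sin_neg]
  ring

theorem pw2_cos_add (n : ℤ) (z c : ℝ) :
    Real.cos (π / 2 + π * n + z + c) = -((-1 : ℝ) ^ n * Real.sin (c + z)) := by
  have h : π / 2 + π * n + z + c = π / 2 + π * n + (c + z) := by ring
  rw [h, pw2_cos]

theorem pw2_inv_add {c z : ℝ} (n : ℤ) (hc : 1.4 ≤ c) (hc' : c ≤ 1.74) (hz : |z| ≤ 0.11) :
    |(2 * Real.cos (π / 2 + π * n + z - c))⁻¹ + (2 * Real.cos (π / 2 + π * n + z + c))⁻¹|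
      ≤ 4 * |z| := by
  obtain ⟨z1, z2⟩ := abs_le.1 hz
  rw [pw2_cos_sub, pw2_cos_add, mul_neg, inv_neg, ← sub_eq_add_neg]
  refine (pw2_inv_diff (pw2_sg n) (pw2_sg_abs n) (pw2_sin_ge (by linarith) (by linarith))
    (pw2_sin_ge (by linarith) (by linarith))).trans ?_
  have h1 := Real.abs_sin_sub_sin_le (c - z) (c + z)
  have h2 : |c - z - (c + z)| = 2 * |z| := by
    have : c - z - (c + z) = -(2 * z) := by ring
    rw [this, abs_neg, abs_mul, abs_two]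
  rw [h2] at h1
  linarith

theorem pw2_im_b2 (P : Par) : 2 * P.b.im = π - √3 - P.del := by
  unfold Par.del
  ring

theorem pw2_bound (P : Par) (n : ℤ) {y : ℝ} (hy : |y| ≤ 1 / 10) : |pw2_z P n y| ≤ 0.11 := by
  have h1 := pw2_z_le P n y
  have h2 := P.del_le'
  have h3 : (1 : ℝ) / 10 ^ 80 ≤ 0.001 := by norm_num
  linarith

/-- (B2b) pointwise value of the multiplier of shift `0` on the lines -/
theorem ph0_est : ∃ C : ℝ, 0 < C ∧ ∀ (P : Par) (n : ℤ) (y : ℝ), |y| ≤ 1 / 10 →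
    |ph0 P (Pt P n + y) - P.wh| ≤ C * (|y| + |P.del|) := by
  refine ⟨60, by norm_num, fun P n y hy => ?_⟩
  have hz1 := pw2_z_le P n y
  have hz2 := pw2_bound P n hy
  rw [pw2_Pt]
  generalize pw2_z P n y = z at hz1 hz2
  obtain ⟨z1, z2⟩ := abs_le.1 hz2
  obtain ⟨q1, q2⟩ := pw2_sqrt3
  obtain ⟨b1, b2⟩ := P.im_b
  obtain ⟨v1, v2⟩ := P.v2_bd
  obtain ⟨e1, e2⟩ := P.ep_bd
  have hσ0 : ((-1 : ℝ) ^ n) ≠ 0 := by
    intro h
    have := pw2_sg n
    rw [h] at this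
    norm_num at this
  have hs3 : 1 / 2 ≤ Real.sin √3 := pw2_sin_ge (by linarith) (by linarith)
  have hsc : Real.sin √3 = 2 * Real.sin (√3 / 2) * Real.cos (√3 / 2) := by
    rw [← Real.sin_two_mul]
    congr 1
    ring
  have hc0 : Real.cos (√3 / 2) ≠ 0 := by
    intro h
    rw [h, mul_zero] at hsc
    linarith only [hs3, hsc]
  have hs0 : Real.sin (√3 / 2) ≠ 0 := by
    intro h
    rw [h, mul_zero, zero_mul] at hsc
    linarith
  have hwh : P.wh = P.v2 * (Real.sin (√3 / 2) / Real.sin √3 + Real.sin (√3 / 2) / Real.sin √3) := by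
    unfold Par.wh
    rw [hsc]
    field_simp
    ring
  have k1 : |Real.cos (π / 2 + π * n + z - √3 / 2) / Real.cos (π / 2 + π * n + z - √3)
      - Real.sin (√3 / 2) / Real.sin √3| ≤ 8 * |z| := by
    rw [pw2_cos_sub, pw2_cos_sub, mul_div_mul_left _ _ hσ0]
    refine pw2_quot ?_ ?_ (pw2_sin_ge (by linarith only [z2, q1]) (by linarith)) hs3 (Real.sin_le_one _)
      (Real.abs_sin_le_one _)
    · refine (Real.abs_sin_sub_sin_le _ _).trans (le_of_eq ?_)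
      rw [← abs_neg]
      congr 1
      ring
    · refine (Real.abs_sin_sub_sin_le _ _).trans (le_of_eq ?_)
      rw [← abs_neg]
      congr 1
      ring
  have k2 : |Real.cos (π / 2 + π * n + z + √3 / 2) / Real.cos (π / 2 + π * n + z + √3)
      - Real.sin (√3 / 2) / Real.sin √3| ≤ 8 * |z| := by
    rw [pw2_cos_add, pw2_cos_add, neg_div_neg_eq, mul_div_mul_left _ _ hσ0]
    refine pw2_quot ?_ ?_ (pw2_sin_ge (by linarith) (by linarith)) hs3 (Real.sin_le_one _)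
      (Real.abs_sin_le_one _)
    · refine (Real.abs_sin_sub_sin_le _ _).trans (le_of_eq ?_)
      congr 1
      ring
    · refine (Real.abs_sin_sub_sin_le _ _).trans (le_of_eq ?_)
      congr 1
      ring
  have k3 := pw2_inv_add (c := √3) n (by linarith) (by linarith) hz2
  have k4 := pw2_inv_add (c := 2 * P.b.im) n (by linarith) (by linarith) hz2
  unfold ph0
  rw [hwh]
  set A := Real.cos (π / 2 + π * n + z - √3 / 2) / Real.cos (π / 2 + π * n + z - √3)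
  set B := Real.cos (π / 2 + π * n + z + √3 / 2) / Real.cos (π / 2 + π * n + z + √3)
  set S := Real.sin (√3 / 2) / Real.sin √3
  set E := (2 * Real.cos (π / 2 + π * n + z - √3))⁻¹ + (2 * Real.cos (π / 2 + π * n + z + √3))⁻¹
  set F := (2 * Real.cos (π / 2 + π * n + z - 2 * P.b.im))⁻¹
    + (2 * Real.cos (π / 2 + π * n + z + 2 * P.b.im))⁻¹
  have e : P.v2 * (A + B) + (1 + P.v2 ^ 2) * E + P.ep ^ 2 * F - P.v2 * (S + S)
      = P.v2 * (A - S) + P.v2 * (B - S) + (1 + P.v2 ^ 2) * E + P.ep ^ 2 * F := by ring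
  rw [e]
  have v0 : 0 ≤ P.v2 := by linarith
  have w1 : |P.v2 * (A - S)| ≤ 1.8 * (8 * |z|) := by
    rw [abs_mul, abs_of_nonneg v0]
    exact mul_le_mul v2 k1 (abs_nonneg _) (by norm_num)
  have w2 : |P.v2 * (B - S)| ≤ 1.8 * (8 * |z|) := by
    rw [abs_mul, abs_of_nonneg v0]
    exact mul_le_mul v2 k2 (abs_nonneg _) (by norm_num)
  have w3 : |(1 + P.v2 ^ 2) * E| ≤ 4.3 * (4 * |z|) := by
    rw [abs_mul, abs_of_nonneg (by positivity)]
    exact mul_le_mul (by nlinarith only [v2, v1]) k3 (abs_nonneg _) (by norm_num)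
  have w4 : |P.ep ^ 2 * F| ≤ 2.6 * (4 * |z|) := by
    rw [abs_mul, abs_of_nonneg (by positivity)]
    exact mul_le_mul (by nlinarith only [e2, e1]) k4 (abs_nonneg _) (by norm_num)
  have t1 := abs_add_le (P.v2 * (A - S) + P.v2 * (B - S) + (1 + P.v2 ^ 2) * E) (P.ep ^ 2 * F)
  have t2 := abs_add_le (P.v2 * (A - S) + P.v2 * (B - S)) ((1 + P.v2 ^ 2) * E)
  have t3 := abs_add_le (P.v2 * (A - S)) (P.v2 * (B - S))
  have z0 := abs_nonneg z
  linarith

/-! ### The shift `sh` -/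

theorem pw2_norm_exp (θ : ℝ) : ‖exp (I * (θ : ℂ))‖ = 1 := by
  rw [mul_comm]
  exact Complex.norm_exp_ofReal_mul_I θ

theorem pw2_norm_exp' (θ : ℝ) : ‖exp (-(I * (θ : ℂ)))‖ = 1 := by
  have := pw2_norm_exp (-θ)
  rw [Complex.ofReal_neg, mul_neg] at this
  exact this

theorem pw2_exp_sub (θ θ' : ℝ) : ‖exp (I * (θ : ℂ)) - exp (I * (θ' : ℂ))‖ ≤ |θ - θ'| := by
  have e : exp (I * (θ : ℂ)) - exp (I * (θ' : ℂ))
      = exp (I * (θ' : ℂ)) * (exp (I * ((θ - θ' : ℝ) : ℂ)) - 1) := by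
    rw [mul_sub, ← Complex.exp_add, mul_one]
    congr 2
    push_cast
    ring
  rw [e, norm_mul, pw2_norm_exp, one_mul]
  have := Real.norm_exp_I_mul_ofReal_sub_one_le (x := θ - θ')
  rwa [Real.norm_eq_abs] at this

theorem pw2_exp_add (A : ℝ) : exp (-(I * (A : ℂ))) + exp (I * (A : ℂ)) = 2 * (Real.cos A : ℝ) := by
  rw [Complex.ofReal_cos, Complex.two_cos, mul_comm I (A : ℂ), ← neg_mul, add_comm]

/-- one of the two brackets of `php` -/
theorem pw2_bracket (A : ℝ) {u1 u2 u0 D : ℝ} {c c' : ℂ} (hc : ‖c‖ = 1)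
    (h1 : |u1 - u0| ≤ 2 * D) (h2 : |u2 - u0| ≤ 4 * D) (h0 : |u0| ≤ 1) (hcc : ‖c - c'‖ ≤ 4 * D) :
    ‖c * (exp (-(I * (A : ℂ))) * (u1 : ℝ) + exp (I * (A : ℂ)) * (u2 : ℝ))
      - c' * ((2 * (Real.cos A : ℝ)) * (u0 : ℝ))‖ ≤ 14 * D := by
  have e : c * (exp (-(I * (A : ℂ))) * (u1 : ℝ) + exp (I * (A : ℂ)) * (u2 : ℝ))
      - c' * ((2 * (Real.cos A : ℝ)) * (u0 : ℝ))
      = c * (exp (-(I * (A : ℂ))) * ((u1 - u0 : ℝ) : ℂ) + exp (I * (A : ℂ)) * ((u2 - u0 : ℝ) : ℂ))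
        + (c - c') * ((exp (-(I * (A : ℂ))) + exp (I * (A : ℂ))) * (u0 : ℝ)) := by
    rw [pw2_exp_add, ← pw2_exp_add]
    push_cast
    ring
  rw [e]
  have n1 : ‖exp (-(I * (A : ℂ))) * ((u1 - u0 : ℝ) : ℂ)‖ ≤ 2 * D := by
    rw [norm_mul, pw2_norm_exp', one_mul, Complex.norm_real]
    exact h1
  have n2 : ‖exp (I * (A : ℂ)) * ((u2 - u0 : ℝ) : ℂ)‖ ≤ 4 * D := by
    rw [norm_mul, pw2_norm_exp, one_mul, Complex.norm_real]
    exact h2
  have n3 : ‖(exp (-(I * (A : ℂ))) + exp (I * (A : ℂ))) * (u0 : ℂ)‖ ≤ 2 := by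
    rw [norm_mul, Complex.norm_real, Real.norm_eq_abs]
    have := norm_add_le (exp (-(I * (A : ℂ)))) (exp (I * (A : ℂ)))
    rw [pw2_norm_exp, pw2_norm_exp'] at this
    have := mul_le_mul this h0 (abs_nonneg _) (by norm_num)
    linarith
  have D0 : 0 ≤ D := by linarith [abs_nonneg (u1 - u0)]
  have n4 : ‖(c - c') * ((exp (-(I * (A : ℂ))) + exp (I * (A : ℂ))) * (u0 : ℂ))‖
      ≤ (4 * D) * 2 := by
    rw [norm_mul]
    exact mul_le_mul hcc n3 (norm_nonneg _) (by linarith)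
  refine (norm_add_le _ _).trans ?_
  rw [norm_mul c, hc, one_mul]
  have := norm_add_le (exp (-(I * (A : ℂ))) * ((u1 - u0 : ℝ) : ℂ))
    (exp (I * (A : ℂ)) * ((u2 - u0 : ℝ) : ℂ))
  linarith

/-- the value of `php` on all lines -/
theorem pw2_php (P : Par) (gb : ℂ) (m : ℤ) (y : ℝ) (hg : ‖gb‖ = 1) (hy : |y| ≤ 1 / 10) :
    ‖php P gb (Pt P m + y) - gb * (P.ep * ((2 * (P.C1 : ℂ)) * (((-1 : ℝ) ^ m / (2 * Real.sin √3) : ℝ) : ℂ)
      * (exp (I * (((1 / 2 + P.b.re) * (π * m) : ℝ) : ℂ))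
        + exp (I * (((-(1 / 2) + P.b.re) * (π * m) : ℝ) : ℂ)))))‖ ≤ 63 * (|y| + |P.del|) := by
  have hz1 := pw2_z_le P m y
  have hz2 := pw2_bound P m hy
  rw [pw2_Pt]
  generalize pw2_z P m y = z at hz1 hz2
  obtain ⟨z1, z2⟩ := abs_le.1 hz2
  obtain ⟨q1, q2⟩ := pw2_sqrt3
  obtain ⟨b1, b2⟩ := P.im_b
  obtain ⟨r1, r2⟩ := P.re_b
  obtain ⟨v1, v2⟩ := P.v2_bd
  obtain ⟨e1, e2⟩ := P.ep_bd
  obtain ⟨c21, c22⟩ := P.C2_bd
  have hs3 : 1 / 2 ≤ Real.sin √3 := pw2_sin_ge (by linarith only [q1]) (by linarith)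
  have hD0 : 0 ≤ |y| + |P.del| := by positivity
  have hz3 : |z + P.del| ≤ 2 * (|y| + |P.del|) := by
    have := abs_add_le z P.del
    have := abs_nonneg y
    linarith
  have hz4 : |z + P.del / 2| ≤ 2 * (|y| + |P.del|) := by
    have h := abs_add_le z (P.del / 2)
    rw [abs_div, abs_two] at h
    have := abs_nonneg y
    have := abs_nonneg P.del
    linarith
  set D := |y| + |P.del| with hD
  set x := π / 2 + π * m + z with hx
  -- the two inverse cosines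
  set u1 := (2 * Real.cos (x - √3))⁻¹ with hu1
  set u2 := (2 * Real.cos (x - 2 * P.b.im))⁻¹ with hu2
  set u0 := (-1 : ℝ) ^ m / (2 * Real.sin √3) with hu0
  have hu0' : u0 = (2 * ((-1 : ℝ) ^ m * Real.sin √3))⁻¹ := by
    have hσ : ((-1 : ℝ) ^ m) ≠ 0 := by
      intro h
      have := pw2_sg m
      rw [h] at this
      norm_num at this
    have h2 := pw2_sg m
    have h3 : Real.sin √3 ≠ 0 := by linarith
    rw [hu0]
    field_simp
    rw [pow_two]
    exact h2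
  have d1 : |u1 - u0| ≤ 2 * D := by
    rw [hu0', hu1, hx, pw2_cos_sub]
    refine (pw2_inv_diff (pw2_sg m) (pw2_sg_abs m) (pw2_sin_ge (by linarith) (by linarith))
      hs3).trans ?_
    have := Real.abs_sin_sub_sin_le (√3 - z) √3
    have h : √3 - z - √3 = -z := by ring
    rw [h, abs_neg] at this
    linarith
  have d2 : |u2 - u0| ≤ 4 * D := by
    have hb : Real.sin (2 * P.b.im - z) = Real.sin (√3 + (z + P.del)) := by
      rw [← Real.sin_pi_sub]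
      congr 1
      rw [pw2_im_b2]
      ring
    have hdel := P.del_le'
    have h3 : (1 : ℝ) / 10 ^ 80 ≤ 0.001 := by norm_num
    obtain ⟨l1, l2⟩ := abs_le.1 (hdel.trans h3)
    rw [hu0', hu2, hx, pw2_cos_sub, hb]
    refine (pw2_inv_diff (pw2_sg m) (pw2_sg_abs m) (pw2_sin_ge (by linarith only [z1, q1, l1]) (by linarith))
      hs3).trans ?_
    have := Real.abs_sin_sub_sin_le (√3 + (z + P.del)) √3
    have h : √3 + (z + P.del) - √3 = z + P.del := by ring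
    rw [h] at this
    linarith
  have d0 : |u0| ≤ 1 := by
    rw [hu0, abs_div, pw2_sg_abs, abs_of_pos (by linarith), div_le_one (by linarith)]
    linarith
  -- the phases
  have ph1 : chr (o1 + P.b) x = exp (I * (((1 / 2 + P.b.re) * (π * m + (z + P.del / 2)) : ℝ) : ℂ)) := by
    unfold chr
    congr 3
    rw [Complex.add_re, Complex.add_im]
    change (1 / 2 + P.b.re) * (x - (√3 / 2 + P.b.im)) = _
    have : P.b.im = (π - √3 - P.del) / 2 := by
      have := pw2_im_b2 P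
      linarith only [this]
    rw [this, hx]
    ring
  have ph2 : chr (o2 + P.b) x
      = exp (I * (((-(1 / 2) + P.b.re) * (π * m + (z + P.del / 2)) : ℝ) : ℂ)) := by
    unfold chr
    congr 3
    rw [Complex.add_re, Complex.add_im]
    change (-(1 / 2) + P.b.re) * (x - (√3 / 2 + P.b.im)) = _
    have : P.b.im = (π - √3 - P.del) / 2 := by
      have := pw2_im_b2 P
      linarith only [this]
    rw [this, hx]
    ring
  have n1 : ‖chr (o1 + P.b) x‖ = 1 := by rw [ph1, pw2_norm_exp]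
  have n2 : ‖chr (o2 + P.b) x‖ = 1 := by rw [ph2, pw2_norm_exp]
  have f1 : ‖chr (o1 + P.b) x - exp (I * (((1 / 2 + P.b.re) * (π * m) : ℝ) : ℂ))‖ ≤ 4 * D := by
    rw [ph1]
    refine (pw2_exp_sub _ _).trans ?_
    have h : (1 / 2 + P.b.re) * (π * m + (z + P.del / 2)) - (1 / 2 + P.b.re) * (π * m)
        = (1 / 2 + P.b.re) * (z + P.del / 2) := by ring
    rw [h, abs_mul, abs_of_nonneg (by linarith)]
    have := mul_le_mul (show 1 / 2 + P.b.re ≤ 2 by linarith) hz4 (abs_nonneg _) (by norm_num)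
    linarith
  have f2 : ‖chr (o2 + P.b) x - exp (I * (((-(1 / 2) + P.b.re) * (π * m) : ℝ) : ℂ))‖
      ≤ 4 * D := by
    rw [ph2]
    refine (pw2_exp_sub _ _).trans ?_
    have h : (-(1 / 2) + P.b.re) * (π * m + (z + P.del / 2)) - (-(1 / 2) + P.b.re) * (π * m)
        = (-(1 / 2) + P.b.re) * (z + P.del / 2) := by ring
    rw [h, abs_mul, abs_of_nonneg (by linarith)]
    have := mul_le_mul (show -(1 / 2) + P.b.re ≤ 2 by linarith only [r2]) hz4 (abs_nonneg _) (by norm_num)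
    linarith only [this]
  have g1 := pw2_bracket ((√3 * P.b.re - P.b.im) / 2) n1 d1 d2 d0 f1
  have g2 := pw2_bracket ((√3 * P.b.re + P.b.im) / 2) n2 d1 d2 d0 f2
  set B1 := chr (o1 + P.b) x * (exp (-(I * (((√3 * P.b.re - P.b.im) / 2 : ℝ) : ℂ))) * (u1 : ℝ)
    + exp (I * (((√3 * P.b.re - P.b.im) / 2 : ℝ) : ℂ)) * (u2 : ℝ)) with hB1
  set B2 := chr (o2 + P.b) x * (exp (-(I * (((√3 * P.b.re + P.b.im) / 2 : ℝ) : ℂ))) * (u1 : ℝ)
    + exp (I * (((√3 * P.b.re + P.b.im) / 2 : ℝ) : ℂ)) * (u2 : ℝ)) with hB2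
  set E1 := exp (I * (((1 / 2 + P.b.re) * (π * m) : ℝ) : ℂ)) with hE1
  set E2 := exp (I * (((-(1 / 2) + P.b.re) * (π * m) : ℝ) : ℂ)) with hE2
  have hv : (P.v2 : ℂ) * (Real.cos ((√3 * P.b.re + P.b.im) / 2) : ℝ) = (P.C1 : ℂ) := by
    rw [← Complex.ofReal_mul]
    congr 1
    change P.C1 / P.C2 * P.C2 = P.C1
    exact div_mul_cancel₀ _ (by linarith)
  have hphp : php P gb x = gb * (P.ep * (B1 + P.v2 * B2)) := by
    unfold php
    rw [hB1, hB2]
    ring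
  have hC1 : (Real.cos ((√3 * P.b.re - P.b.im) / 2) : ℝ) = P.C1 := rfl
  rw [hC1] at g1
  have e : php P gb x - gb * (P.ep * ((2 * (P.C1 : ℂ)) * (u0 : ℂ) * (E1 + E2)))
      = gb * (P.ep * ((B1 - E1 * ((2 * (P.C1 : ℝ)) * (u0 : ℝ)))
        + P.v2 * (B2 - E2 * ((2 * (Real.cos ((√3 * P.b.re + P.b.im) / 2) : ℝ)) * (u0 : ℝ))))) := by
    rw [hphp]
    have : (P.v2 : ℂ) * (B2 - E2 * ((2 * (Real.cos ((√3 * P.b.re + P.b.im) / 2) : ℝ)) * (u0 : ℝ)))
        = P.v2 * B2 - E2 * ((2 * (P.C1 : ℂ)) * (u0 : ℝ)) := by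
      rw [← hv]
      ring
    rw [this]
    ring
  rw [e, norm_mul, hg, one_mul, norm_mul, Complex.norm_real, Real.norm_eq_abs,
    abs_of_nonneg (by linarith)]
  have t1 := norm_add_le (B1 - E1 * ((2 * (P.C1 : ℝ)) * (u0 : ℝ)))
    (P.v2 * (B2 - E2 * ((2 * (Real.cos ((√3 * P.b.re + P.b.im) / 2) : ℝ)) * (u0 : ℝ))))
  rw [norm_mul (P.v2 : ℂ), Complex.norm_real, Real.norm_eq_abs,
    abs_of_nonneg (show 0 ≤ P.v2 by linarith only [v1])] at t1
  have t2 := mul_le_mul v2 g2 (norm_nonneg _) (by norm_num)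
  have t3 := t1.trans (add_le_add g1 t2)
  have t4 := mul_le_mul e2 t3 (norm_nonneg _) (by norm_num)
  refine t4.trans ?_
  nlinarith only [hD0]

theorem pw2_Th (P : Par) : P.ep * ((2 * P.C1) * (1 / (2 * Real.sin √3))) = P.Th / 2 := by
  have hs3 : 1 / 2 ≤ Real.sin √3 := by
    obtain ⟨q1, q2⟩ := pw2_sqrt3
    exact pw2_sin_ge (by linarith) (by linarith)
  obtain ⟨c1, c2⟩ := P.C1_bd
  have h1 : Real.sin √3 ≠ 0 := by linarith
  have h2 : P.C1 ≠ 0 := by linarith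
  unfold Par.ep
  field_simp

theorem pw2_exp_shift (a : ℝ) (m : ℤ) :
    exp (I * (((1 / 2 + a) * (π * m) : ℝ) : ℂ))
      = ((-1 : ℂ) ^ m) * exp (I * (((-(1 / 2) + a) * (π * m) : ℝ) : ℂ)) := by
  have h : (-1 : ℂ) ^ m = exp (m * (π * I)) := by
    rw [Complex.exp_int_mul, Complex.exp_pi_mul_I]
  rw [h, ← Complex.exp_add]
  congr 1
  push_cast
  ring

/-- (B2c) pointwise value of the multiplier of shift `sh` on the lines -/
theorem php_est : ∃ C : ℝ, 0 < C ∧ ∀ (P : Par) (gb : ℂ) (k : ℤ) (y : ℝ), ‖gb‖ = 1 → |y| ≤ 1 / 10 →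
    ‖php P gb (Pt P (2 * k) + y) - (-(P.Th : ℂ) * ze P gb k)‖ ≤ C * (|y| + |P.del|) ∧
    ‖php P gb (Pt P (2 * k + 1) + y)‖ ≤ C * (|y| + |P.del|) := by
  refine ⟨63, by norm_num, fun P gb k y hg hy => ⟨?_, ?_⟩⟩
  · have h := pw2_php P gb (2 * k) y hg hy
    have s1 : (-1 : ℝ) ^ (2 * k) = 1 := by
      rw [zpow_mul]
      norm_num
    have s2 : (-1 : ℂ) ^ (2 * k) = 1 := by
      rw [zpow_mul]
      norm_num
    rw [pw2_exp_shift, s1, s2, one_mul, ← two_mul] at h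
    convert h using 3
    have hT := pw2_Th P
    unfold ze
    have e1 : exp (I * (((-(1 / 2) + P.b.re) * (π * ((2 * k : ℤ) : ℝ)) : ℝ) : ℂ))
        = exp (I * ((2 * π * (P.b.re - 1 / 2) * k : ℝ) : ℂ)) := by
      congr 3
      push_cast
      ring
    rw [e1]
    have e2 : (P.Th : ℂ) = 2 * (P.ep * ((2 * (P.C1 : ℂ)) * ((1 / (2 * Real.sin √3) : ℝ) : ℂ))) := by
      have : P.Th = 2 * (P.ep * ((2 * P.C1) * (1 / (2 * Real.sin √3)))) := by linarith only [hT]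
      rw [this]
      push_cast
      ring
    rw [e2]
    ring
  · have h := pw2_php P gb (2 * k + 1) y hg hy
    have s2 : (-1 : ℂ) ^ (2 * k + 1) = -1 := by
      rw [zpow_add₀ (by norm_num), zpow_mul]
      norm_num
    rw [pw2_exp_shift, s2, neg_one_mul, neg_add_cancel, mul_zero, mul_zero, mul_zero, sub_zero] at h
    exact h

end Pool.Agent.Helper92.HRU
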