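import Pool.Agent.Helper92.HRU.BDefs
import Pool.Agent.Helper92.HRU.Pf.PN1
import Pool.Agent.Helper92.HRU.Pf.PQ1
import Pool.Agent.Helper92.HRU.Pf.PW1
import Pool.Agent.Helper92.HRU.Pf.PW2
import Pool.Agent.Helper92.HRU.Pf.PJ1
import Pool.Agent.Helper92.HRU.Pf.PJ2

/-! Piece PW3: second order of W on the lines. -/

set_option autoImplicit false

namespace Pool.Agent.Helper92.HRU

open Complex Set MeasureTheory Filter Topology
open scoped ComplexConjugate Real ENNReal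
open Pool.Agent.Helper84.HRT (Weyl node chi mu8 XL Data Aop Bop Good)

theorem pw3_Pt_even (P : Par) (k : ℤ) : Pt P (2 * k) = π / 2 + π * (2 * k) := by
  unfold Pt
  rw [if_pos (even_two_mul k)]
  push_cast
  ring

theorem pw3_Pt_odd (P : Par) (k : ℤ) : Pt P (2 * k + 1) = π / 2 + π * (2 * k + 1) + P.del := by
  unfold Pt
  rw [if_neg (by rw [Int.not_even_iff_odd]; exact odd_two_mul_add_one k)]
  push_cast
  ring

theorem pw3_x (P : Par) (x : ℝ) : x = Pt P (idx x) + yo P x := by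
  unfold yo
  ring

/-- Hölder -/
theorem pw3_cs (u v : L2) : Integrable (fun x => ‖(u : ℝ → ℂ) x‖ * ‖(v : ℝ → ℂ) x‖) ∧
    ∫ x, ‖(u : ℝ → ℂ) x‖ * ‖(v : ℝ → ℂ) x‖ ≤ ‖u‖ * ‖v‖ := by
  have hn : ∀ w : L2, (∫ x, ‖(w : ℝ → ℂ) x‖ ^ (2 : ℝ)) ^ (1 / (2 : ℝ)) = ‖w‖ := by
    intro w
    have h1 : (inner ℂ w w : ℂ) = ((∫ x, ‖(w : ℝ → ℂ) x‖ ^ (2 : ℝ) : ℝ) : ℂ) := by
      rw [inner_eq, ← integral_complex_ofReal]
      refine integral_congr_ae (ae_of_all _ fun x => ?_)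
      simp only
      rw [Complex.conj_mul', Real.rpow_two]
      push_cast
      rfl
    have h2 : (inner ℂ w w : ℂ) = ((‖w‖ ^ 2 : ℝ) : ℂ) := by
      rw [inner_self_eq_norm_sq_to_K]
      push_cast
      rfl
    have h3 : (∫ x, ‖(w : ℝ → ℂ) x‖ ^ (2 : ℝ)) = ‖w‖ ^ 2 := by
      rw [h1] at h2
      exact_mod_cast h2
    rw [h3, ← Real.sqrt_eq_rpow, Real.sqrt_sq (norm_nonneg _)]
  have hu := Lp.memLp u
  have hv := Lp.memLp v
  refine ⟨?_, ?_⟩
  · exact (hu.norm.integrable_mul hv.norm)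
  · have h := integral_mul_norm_le_Lp_mul_Lq (μ := (volume : Measure ℝ))
      (f := (u : ℝ → ℂ)) (g := (v : ℝ → ℂ)) (Real.HolderConjugate.two_two)
      (by simpa using hu) (by simpa using hv)
    rw [hn, hn] at h
    exact h

theorem pw3_bddY (P : Par) : BddY (fun y => √(|y| + |P.del|)) := by
  refine ⟨by fun_prop, √(1 / 20 + |P.del|), fun y hy => ?_⟩
  rw [abs_of_nonneg (Real.sqrt_nonneg _)]
  exact Real.sqrt_le_sqrt (by linarith)

theorem pw3_Q (P : Par) {f : L2} (hf : Q P f = f) : ∀ᵐ x : ℝ, x ∉ Qs P → (f : ℝ → ℂ) x = 0 := by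
  have h := mulOp_coe (bddM_ind (meas_Qs P)) f
  have h2 : mulOp ((Qs P).indicator fun _ => (1 : ℂ)) f = f := hf
  rw [h2] at h
  filter_upwards [h] with x hx hxQ
  rw [hx, indicator_of_notMem hxQ, zero_mul]

theorem pw3_wY (P : Par) (f : L2) : ∀ᵐ x : ℝ, x ∈ Qs P →
    ‖(wY P f : ℝ → ℂ) x‖ = √(|yo P x| + |P.del|) * ‖(f : ℝ → ℂ) x‖ := by
  filter_upwards [yMul_coe P (pw3_bddY P) f] with x hx hxQ
  unfold wY
  rw [hx, indicator_of_mem hxQ, norm_mul]
  congr 1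
  rw [Complex.norm_real, Real.norm_eq_abs, abs_of_nonneg (Real.sqrt_nonneg _)]

/-- the offsets at the two shifted points -/
theorem pw3_shift (P : Par) {x : ℝ} (hx : x ∈ Qs P) :
    |yo P x| + |P.del| ≤ 3 * (|yo P (x - P.sh)| + |P.del|) ∧
    |yo P x| + |P.del| ≤ 3 * (|yo P (x + P.sh)| + |P.del|) := by
  have hy := (mem_Qs P x).1 hx
  have hd := P.del_le'
  have hd0 := abs_nonneg P.del
  have hx0 := pw3_x P x
  set y := yo P x with hydef
  have h20 : |P.del| ≤ 1 / 100 := hd.trans (by norm_num)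
  have hsh : P.sh = π - P.del := rfl
  have key : ∀ z : ℝ, |y| + |P.del| ≤ 3 * (|y| + |P.del|) ∧
      (z = y + 2 * P.del ∨ z = y - 2 * P.del → |y| + |P.del| ≤ 3 * (|z| + |P.del|) ∧ |z| ≤ 1) := by
    intro z
    refine ⟨by linarith [abs_nonneg y], fun hz => ?_⟩
    have h1 : |y - z| ≤ 2 * |P.del| := by
      rcases hz with rfl | rfl
      · rw [show y - (y + 2 * P.del) = -(2 * P.del) by ring, abs_neg, abs_mul]
        norm_num
      · rw [show y - (y - 2 * P.del) = 2 * P.del by ring, abs_mul]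
        norm_num
    have h2 : |y| ≤ |z| + |y - z| := by
      have := abs_add_le z (y - z)
      simpa using this
    have h3 : |z| ≤ |y| + |y - z| := by
      have := abs_add_le y (z - y)
      rw [abs_sub_comm]
      simpa using this
    exact ⟨by linarith [abs_nonneg z], by linarith⟩
  rcases Int.even_or_odd' (idx x) with ⟨k, hk | hk⟩
  · rw [hk] at hx0
    have e1 : x - P.sh = Pt P (2 * (k - 1) + 1) + y := by
      rw [pw3_Pt_odd, hsh]
      rw [pw3_Pt_even] at hx0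
      push_cast
      linarith
    have e2 : x + P.sh = Pt P (2 * k + 1) + (y - 2 * P.del) := by
      rw [pw3_Pt_odd, hsh]
      rw [pw3_Pt_even] at hx0
      linarith
    rw [e1, e2, yo_of_near P _ y (by linarith), yo_of_near P _ _ ((key _).2 (Or.inr rfl)).2]
    exact ⟨(key 0).1, ((key _).2 (Or.inr rfl)).1⟩
  · rw [hk] at hx0
    have e1 : x - P.sh = Pt P (2 * k) + (y + 2 * P.del) := by
      rw [pw3_Pt_even, hsh]
      rw [pw3_Pt_odd] at hx0
      linarith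
    have e2 : x + P.sh = Pt P (2 * (k + 1)) + y := by
      rw [pw3_Pt_even, hsh]
      rw [pw3_Pt_odd] at hx0
      push_cast
      linarith
    rw [e1, e2, yo_of_near P _ _ ((key _).2 (Or.inl rfl)).2, yo_of_near P _ y (by linarith)]
    exact ⟨((key _).2 (Or.inl rfl)).1, (key 0).1⟩

/-- the multipliers on the lines -/
theorem pw3_mult : ∃ C : ℝ, 0 < C ∧ ∀ (P : Par) (gb : ℂ), ‖gb‖ = 1 → ∀ x : ℝ, x ∈ Qs P →
    ‖((ph0 P x - P.wh : ℝ) : ℂ)‖ ≤ C * (|yo P x| + |P.del|) ∧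
    ‖php P gb x + P.Th * s1 P gb x‖ ≤ C * (|yo P x| + |P.del|) ∧
    ‖conj (php P gb (x + P.sh)) + P.Th * s2 P gb x‖ ≤ C * (|yo P x| + |P.del|) := by
  obtain ⟨C0, hC0, h0⟩ := ph0_est
  obtain ⟨C1, hC1, h1⟩ := php_est
  refine ⟨C0 + 3 * C1, by positivity, fun P gb hg x hx => ?_⟩
  have hy := (mem_Qs P x).1 hx
  have hd := P.del_le'
  have hd0 := abs_nonneg P.del
  have hx0 := pw3_x P x
  set y := yo P x with hydef
  have hy0 := abs_nonneg y
  have h20 : |P.del| ≤ 1 / 100 := hd.trans (by norm_num)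
  have hsh : P.sh = π - P.del := rfl
  have hy10 : |y| ≤ 1 / 10 := by linarith
  have hnn : 0 ≤ |y| + |P.del| := by linarith
  have b1 : C0 * (|y| + |P.del|) ≤ (C0 + 3 * C1) * (|y| + |P.del|) := by nlinarith
  have b2 : C1 * (|y| + |P.del|) ≤ (C0 + 3 * C1) * (|y| + |P.del|) := by nlinarith
  have c1 : ‖((ph0 P x - P.wh : ℝ) : ℂ)‖ ≤ (C0 + 3 * C1) * (|y| + |P.del|) := by
    rw [Complex.norm_real, Real.norm_eq_abs]
    have := h0 P (idx x) y hy10
    rw [← hx0] at this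
    exact this.trans b1
  refine ⟨c1, ?_⟩
  rcases Int.even_or_odd' (idx x) with ⟨k, hk | hk⟩
  · rw [hk] at hx0
    have es1 : s1 P gb x = ze P gb k := by
      unfold s1
      rw [if_pos ⟨hx, by rw [hk]; exact even_two_mul k⟩, hk]
      congr 1
      omega
    have es2 : s2 P gb x = 0 := by
      unfold s2
      rw [if_neg]
      rintro ⟨_, h⟩
      rw [hk] at h
      exact absurd (even_two_mul k) (Int.not_even_iff_odd.2 h)
    have e2 : x + P.sh = Pt P (2 * k + 1) + (y - 2 * P.del) := by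
      rw [pw3_Pt_odd, hsh]
      rw [pw3_Pt_even] at hx0
      linarith
    have hz : |y - 2 * P.del| ≤ |y| + 2 * |P.del| := by
      refine (abs_sub _ _).trans ?_
      rw [abs_mul]
      norm_num
    constructor
    · have := (h1 P gb k y hg hy10).1
      rw [← hx0] at this
      rw [es1]
      refine le_trans (le_of_eq ?_) (this.trans b2)
      congr 1
      ring
    · rw [es2, mul_zero, add_zero, RCLike.norm_conj, e2]
      have := (h1 P gb k (y - 2 * P.del) hg (by linarith)).2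
      refine this.trans ?_
      nlinarith
  · rw [hk] at hx0
    have es1 : s1 P gb x = 0 := by
      unfold s1
      rw [if_neg]
      rintro ⟨_, h⟩
      rw [hk] at h
      exact absurd h (Int.not_even_iff_odd.2 (odd_two_mul_add_one k))
    have es2 : s2 P gb x = conj (ze P gb (k + 1)) := by
      unfold s2
      rw [if_pos ⟨hx, by rw [hk]; exact odd_two_mul_add_one k⟩, hk]
      congr 2
      omega
    have e2 : x + P.sh = Pt P (2 * (k + 1)) + y := by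
      rw [pw3_Pt_even, hsh]
      rw [pw3_Pt_odd] at hx0
      push_cast
      linarith
    constructor
    · have := (h1 P gb k y hg hy10).2
      rw [← hx0] at this
      rw [es1, mul_zero, add_zero]
      exact this.trans b2
    · rw [es2, e2]
      have := (h1 P gb (k + 1) y hg hy10).1
      have e3 : conj (php P gb (Pt P (2 * (k + 1)) + y)) + P.Th * conj (ze P gb (k + 1)) =
          conj (php P gb (Pt P (2 * (k + 1)) + y) - (-(P.Th : ℂ) * ze P gb (k + 1))) := by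
        rw [map_sub, map_mul, map_neg, Complex.conj_ofReal]
        ring
      rw [e3, RCLike.norm_conj]
      exact this.trans b2

/-- (B2) -/
theorem second_order : ∃ C : ℝ, 0 < C ∧ ∀ (P : Par) (gb : ℂ), ‖gb‖ = 1 → ∀ f f' : L2,
    Q P f = f → Q P f' = f' →
    ‖(inner ℂ f' (Wb P gb (G P (Wb P gb f))) : ℂ) - ((P.wh : ℂ) * inner ℂ f' f
      - (P.Th : ℂ) * inner ℂ f' (Sw P gb f))‖ ≤ C * (‖wY P f'‖ * ‖wY P f‖) := by
  obtain ⟨K, hK, hm⟩ := pw3_mult
  refine ⟨9 * K, by positivity, fun P gb hg f f' hf hf' => ?_⟩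
  set V : L2 := Wb P gb (G P (Wb P gb f)) with hV
  set g : L2 := V - ((P.wh : ℂ) • f - (P.Th : ℂ) • Sw P gb f) with hgdef
  have e1 : (inner ℂ f' V : ℂ) - ((P.wh : ℂ) * inner ℂ f' f
      - (P.Th : ℂ) * inner ℂ f' (Sw P gb f)) = inner ℂ f' g := by
    rw [hgdef, inner_sub_right, inner_sub_right, inner_smul_right, inner_smul_right]
  rw [e1, inner_eq]
  set u1 : L2 := wY P f with hu1
  set u2 : L2 := trOp P.sh (wY P f) with hu2
  set u3 : L2 := trOp (-P.sh) (wY P f) with hu3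
  set v : L2 := wY P f' with hv
  have hn2 : ‖u2‖ = ‖wY P f‖ := (trOp P.sh).norm_map _
  have hn3 : ‖u3‖ = ‖wY P f‖ := (trOp (-P.sh)).norm_map _
  -- pointwise bound
  have hpt : ∀ᵐ x : ℝ, ‖conj ((f' : ℝ → ℂ) x) * (g : ℝ → ℂ) x‖ ≤
      3 * K * (‖(v : ℝ → ℂ) x‖ * ‖(u1 : ℝ → ℂ) x‖ + ‖(v : ℝ → ℂ) x‖ * ‖(u2 : ℝ → ℂ) x‖ +
        ‖(v : ℝ → ℂ) x‖ * ‖(u3 : ℝ → ℂ) x‖) := by
    have g1 := Lp.coeFn_sub V ((P.wh : ℂ) • f - (P.Th : ℂ) • Sw P gb f)
    have g2 := Lp.coeFn_sub ((P.wh : ℂ) • f) ((P.Th : ℂ) • Sw P gb f)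
    have g3 := Lp.coeFn_smul (P.wh : ℂ) f
    have g4 := Lp.coeFn_smul (P.Th : ℂ) (Sw P gb f)
    have a2 := ae_comp_sub (pw3_Q P hf) P.sh
    have a3 := ae_comp_sub (pw3_Q P hf) (-P.sh)
    have a4 := ae_comp_sub (pw3_wY P f) P.sh
    have a5 := ae_comp_sub (pw3_wY P f) (-P.sh)
    filter_upwards [g1, g2, g3, g4, WGW_eq P gb hg f hf, Sw_coe P gb hg f, pw3_Q P hf',
      a2, a3, a4, a5, pw3_wY P f, pw3_wY P f', trOp_coe P.sh (wY P f), trOp_coe (-P.sh) (wY P f)]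
      with x g1 g2 g3 g4 hW hS hQ' a2 a3 a4 a5 b1 b2 t1 t2
    by_cases hx : x ∈ Qs P
    · obtain ⟨m1, m2, m3⟩ := hm P gb hg x hx
      obtain ⟨d1, d2⟩ := pw3_shift P hx
      rw [sub_neg_eq_add] at a3 a5 t2
      have hgx : (g : ℝ → ℂ) x = ((ph0 P x - P.wh : ℝ) : ℂ) * f x +
          (php P gb x + P.Th * s1 P gb x) * f (x - P.sh) +
          (conj (php P gb (x + P.sh)) + P.Th * s2 P gb x) * f (x + P.sh) := by
        rw [hgdef, g1, Pi.sub_apply, g2, Pi.sub_apply, g3, g4, Pi.smul_apply, Pi.smul_apply, hS,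
          hV, hW hx]
        simp only [smul_eq_mul]
        push_cast
        ring
      set a : ℝ := |yo P x| + |P.del| with ha
      have ha0 : 0 ≤ a := by positivity
      have hsa : √a * √a = a := Real.mul_self_sqrt ha0
      have e2 : √a * ‖(f : ℝ → ℂ) (x - P.sh)‖ ≤ 3 * ‖(u2 : ℝ → ℂ) x‖ := by
        rw [hu2, t1]
        by_cases hxs : x - P.sh ∈ Qs P
        · rw [a4 hxs, ← mul_assoc]
          refine mul_le_mul_of_nonneg_right ?_ (norm_nonneg _)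
          have : √a ≤ √(3 ^ 2 * (|yo P (x - P.sh)| + |P.del|)) := by
            apply Real.sqrt_le_sqrt
            have : 0 ≤ |yo P (x - P.sh)| + |P.del| := by positivity
            linarith
          rwa [Real.sqrt_mul (by norm_num), Real.sqrt_sq (by norm_num)] at this
        · rw [a2 hxs, norm_zero, mul_zero]
          positivity
      have e3 : √a * ‖(f : ℝ → ℂ) (x + P.sh)‖ ≤ 3 * ‖(u3 : ℝ → ℂ) x‖ := by
        rw [hu3, t2]
        by_cases hxs : x + P.sh ∈ Qs P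
        · rw [a5 hxs, ← mul_assoc]
          refine mul_le_mul_of_nonneg_right ?_ (norm_nonneg _)
          have : √a ≤ √(3 ^ 2 * (|yo P (x + P.sh)| + |P.del|)) := by
            apply Real.sqrt_le_sqrt
            have : 0 ≤ |yo P (x + P.sh)| + |P.del| := by positivity
            linarith
          rwa [Real.sqrt_mul (by norm_num), Real.sqrt_sq (by norm_num)] at this
        · rw [a3 hxs, norm_zero, mul_zero]
          positivity
      have e4 : √a * ‖(f : ℝ → ℂ) x‖ = ‖(u1 : ℝ → ℂ) x‖ := (b1 hx).symm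
      have e5 : √a * ‖(f' : ℝ → ℂ) x‖ = ‖(v : ℝ → ℂ) x‖ := (b2 hx).symm
      have e6 : ‖(g : ℝ → ℂ) x‖ ≤ K * a * (‖(f : ℝ → ℂ) x‖ + ‖(f : ℝ → ℂ) (x - P.sh)‖ +
          ‖(f : ℝ → ℂ) (x + P.sh)‖) := by
        rw [hgx]
        refine (norm_add_le _ _).trans ?_
        have r1 := norm_add_le (((ph0 P x - P.wh : ℝ) : ℂ) * (f : ℝ → ℂ) x)
          ((php P gb x + P.Th * s1 P gb x) * (f : ℝ → ℂ) (x - P.sh))
        rw [norm_mul, norm_mul] at r1
        rw [norm_mul]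
        have q1 := mul_le_mul_of_nonneg_right m1 (norm_nonneg ((f : ℝ → ℂ) x))
        have q2 := mul_le_mul_of_nonneg_right m2 (norm_nonneg ((f : ℝ → ℂ) (x - P.sh)))
        have q3 := mul_le_mul_of_nonneg_right m3 (norm_nonneg ((f : ℝ → ℂ) (x + P.sh)))
        linarith
      have hv0 : 0 ≤ ‖(v : ℝ → ℂ) x‖ := norm_nonneg _
      rw [norm_mul, RCLike.norm_conj]
      calc ‖(f' : ℝ → ℂ) x‖ * ‖(g : ℝ → ℂ) x‖
          ≤ ‖(f' : ℝ → ℂ) x‖ * (K * a * (‖(f : ℝ → ℂ) x‖ + ‖(f : ℝ → ℂ) (x - P.sh)‖ +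
          ‖(f : ℝ → ℂ) (x + P.sh)‖)) := mul_le_mul_of_nonneg_left e6 (norm_nonneg _)
        _ = K * ((√a * ‖(f' : ℝ → ℂ) x‖) * (√a * ‖(f : ℝ → ℂ) x‖ +
            √a * ‖(f : ℝ → ℂ) (x - P.sh)‖ + √a * ‖(f : ℝ → ℂ) (x + P.sh)‖)) := by
            linear_combination (-(K * ‖(f' : ℝ → ℂ) x‖ * (‖(f : ℝ → ℂ) x‖ +
              ‖(f : ℝ → ℂ) (x - P.sh)‖ + ‖(f : ℝ → ℂ) (x + P.sh)‖))) * hsa
        _ ≤ K * (‖(v : ℝ → ℂ) x‖ * (3 * ‖(u1 : ℝ → ℂ) x‖ + 3 * ‖(u2 : ℝ → ℂ) x‖ +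
            3 * ‖(u3 : ℝ → ℂ) x‖)) := by
            rw [e5, e4]
            refine mul_le_mul_of_nonneg_left (mul_le_mul_of_nonneg_left ?_ hv0) hK.le
            linarith [norm_nonneg ((u1 : ℝ → ℂ) x)]
        _ = _ := by ring
    · rw [hQ' hx, map_zero, zero_mul, norm_zero]
      positivity
  obtain ⟨i1, c1⟩ := pw3_cs v u1
  obtain ⟨i2, c2⟩ := pw3_cs v u2
  obtain ⟨i3, c3⟩ := pw3_cs v u3
  have hint := ((i1.add i2).add i3).const_mul (3 * K)
  refine (norm_integral_le_integral_norm _).trans ?_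
  refine (integral_mono_of_nonneg (ae_of_all _ fun x => norm_nonneg _) hint hpt).trans ?_
  rw [integral_const_mul]
  have e7 : ∫ x, ((fun x => ‖(v : ℝ → ℂ) x‖ * ‖(u1 : ℝ → ℂ) x‖) +
      (fun x => ‖(v : ℝ → ℂ) x‖ * ‖(u2 : ℝ → ℂ) x‖) +
      (fun x => ‖(v : ℝ → ℂ) x‖ * ‖(u3 : ℝ → ℂ) x‖)) x =
      (∫ x, ‖(v : ℝ → ℂ) x‖ * ‖(u1 : ℝ → ℂ) x‖) + (∫ x, ‖(v : ℝ → ℂ) x‖ * ‖(u2 : ℝ → ℂ) x‖) +
      ∫ x, ‖(v : ℝ → ℂ) x‖ * ‖(u3 : ℝ → ℂ) x‖ := by
    rw [integral_add' (i1.add i2) i3, integral_add' i1 i2]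
  rw [e7]
  rw [hn2] at c2
  rw [hn3] at c3
  nlinarith

end Pool.Agent.Helper92.HRU
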