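import Pool.Agent.Helper92.HRU.BDefs
import Pool.Agent.Helper92.HRU.Pf.PN1
import Pool.Agent.Helper92.HRU.Pf.PA1
import Pool.Agent.Helper92.HRU.Pf.PA3
import Pool.Agent.Helper92.HRU.Pf.PQ2
import Pool.Agent.Helper92.HRU.Pf.PJ3
import Pool.Agent.Helper92.HRU.Pf.PJ4
import Pool.Agent.Helper92.HRU.Pf.PW3
import Pool.Agent.Helper92.HRU.Pf.PB3
import Pool.Agent.Helper92.HRU.Pf.PE4

/-! Piece PF1: the key inequalities. -/

set_option autoImplicit false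

namespace Pool.Agent.Helper92.HRU

open Complex Set MeasureTheory Filter Topology
open scoped ComplexConjugate Real ENNReal
open Pool.Agent.Helper84.HRT (Weyl node chi mu8 XL Data Aop Bop Good)

theorem TT_bound (P : Par) (r : ℝ) (hr : 0 ≤ r) (ξ : ℝ → ℂ) (h : AdmX P r ξ) (f' f : L2) :
    ‖TT P ξ f' f‖ ≤ 11 * r ^ 2 * (aN f' * aN f) := by
  unfold TT
  have h1 := (X0_bounds P r hr ξ h f' f').2.1
  have h2 := (X0_bounds P r hr ξ h f f).2.1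
  have h3 := norm_G_le P (X0 ξ f)
  have h4 := norm_inner_le_norm (𝕜 := ℂ) (X0 ξ f') (G P (X0 ξ f))
  have h5 : ‖G P (X0 ξ f)‖ ≤ 11 * (r * aN f) := h3.trans (by linarith)
  calc ‖(inner ℂ (X0 ξ f') (G P (X0 ξ f)) : ℂ)‖ ≤ ‖X0 ξ f'‖ * ‖G P (X0 ξ f)‖ := h4
    _ ≤ (r * aN f') * (11 * (r * aN f)) :=
        mul_le_mul h1 h5 (norm_nonneg _) (mul_nonneg hr (aN_nonneg f'))
    _ = 11 * r ^ 2 * (aN f' * aN f) := by ring

theorem TT_symm (P : Par) (r : ℝ) (hr : 0 ≤ r) (ξ : ℝ → ℂ) (h : AdmX P r ξ) (f' f : L2) :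
    TT P ξ f' f = conj (TT P ξ f f') := by
  unfold TT
  rw [inner_conj_symm, G_symm]

private theorem pf1_sqrt {x A L E : ℝ} (hA : 0 ≤ A) (hL : 0 ≤ L) (h : x ^ 2 ≤ A * L ^ 2 * E) :
    x ≤ √A * L * √E := by
  have h1 : x ≤ √(A * L ^ 2 * E) := (le_abs_self x).trans (Real.abs_le_sqrt h)
  rwa [Real.sqrt_mul (by positivity), Real.sqrt_mul hA, Real.sqrt_sq hL] at h1

private theorem pf1_x (P : Par) : 0 < P.L⁻¹ ∧ P.L⁻¹ ≤ 1 := by
  have h := P.hL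
  have h0 : 0 < P.L := by linarith
  exact ⟨inv_pos.2 h0, inv_le_one_of_one_le₀ (by linarith)⟩

private theorem pf1_pow (P : Par) {K r : ℝ} (hK : 0 < K) (hr : 0 ≤ r) (h : r ≤ K / P.L) :
    P.s * r + r * P.e2 + r ^ 3 ≤ (2 * K + K ^ 3) * P.L⁻¹ ^ 3 := by
  obtain ⟨hx0, hx1⟩ := pf1_x P
  have hs : P.s = P.L⁻¹ ^ 10 := by unfold Par.s; rw [inv_pow]
  have he : P.e2 = P.L⁻¹ ^ 3 := by unfold Par.e2; rw [inv_pow]
  rw [hs, he]
  rw [div_eq_mul_inv] at h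
  generalize P.L⁻¹ = x at h hx0 hx1
  have h1 : r ^ 3 ≤ (K * x) ^ 3 := pow_le_pow_left₀ hr h 3
  have h2 : x ^ 10 * r ≤ x ^ 10 * (K * x) := mul_le_mul_of_nonneg_left h (by positivity)
  have h3 : r * x ^ 3 ≤ (K * x) * x ^ 3 := mul_le_mul_of_nonneg_right h (by positivity)
  have h4 : x ^ 11 ≤ x ^ 3 := pow_le_pow_of_le_one hx0.le hx1 (by norm_num)
  have h5 : x ^ 4 ≤ x ^ 3 := pow_le_pow_of_le_one hx0.le hx1 (by norm_num)
  have h6 : K * x ^ 11 ≤ K * x ^ 3 := mul_le_mul_of_nonneg_left h4 hK.le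
  have h7 : K * x ^ 4 ≤ K * x ^ 3 := mul_le_mul_of_nonneg_left h5 hK.le
  nlinarith [h1, h2, h3, h6, h7]

private theorem pf1_last (P : Par) {K r a m x y c : ℝ} (hr : 0 ≤ r) (h : r * P.L ≤ K)
    (ha : 0 ≤ a) (hm : 0 ≤ m) (hx : 0 ≤ x) (hy : 0 ≤ y) (hc : 0 ≤ c) :
    11 * r ^ 2 * (m * √P.L * (a * P.L) * (x * y)) ≤
      (c + 11 * K ^ 2 * (a * m)) * (√P.L)⁻¹ * (x * y) := by
  have hL := P.hL
  have hL0 : 0 < P.L := by linarith
  have h1 : √P.L = P.L * (√P.L)⁻¹ := by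
    rw [← Real.sqrt_div_self, mul_div_assoc', mul_div_cancel_left₀ _ hL0.ne']
  have hi : 0 ≤ (√P.L)⁻¹ := inv_nonneg.2 (Real.sqrt_nonneg _)
  have h2 : (r * P.L) ^ 2 ≤ K ^ 2 := pow_le_pow_left₀ (by positivity) h 2
  have h3 : 0 ≤ a * m * ((√P.L)⁻¹ * (x * y)) := by positivity
  have h4 : 0 ≤ c * ((√P.L)⁻¹ * (x * y)) := by positivity
  calc 11 * r ^ 2 * (m * √P.L * (a * P.L) * (x * y))
      = 11 * r ^ 2 * (m * (P.L * (√P.L)⁻¹) * (a * P.L) * (x * y)) := by rw [← h1]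
    _ = 11 * ((r * P.L) ^ 2 * (a * m * ((√P.L)⁻¹ * (x * y)))) := by ring
    _ ≤ 11 * (K ^ 2 * (a * m * ((√P.L)⁻¹ * (x * y)))) := by
        have := mul_le_mul_of_nonneg_right h2 h3
        linarith
    _ ≤ (c + 11 * K ^ 2 * (a * m)) * (√P.L)⁻¹ * (x * y) := by
        have : (c + 11 * K ^ 2 * (a * m)) * (√P.L)⁻¹ * (x * y) =
          c * ((√P.L)⁻¹ * (x * y)) + 11 * (K ^ 2 * (a * m * ((√P.L)⁻¹ * (x * y)))) := by ring
        linarith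

/-- the norm on the lines against the energy -/
private theorem pf1_norm (P : Par) (gb : ℂ) (hg : ‖gb‖ = 1) (f : L2) :
    ‖Q P f‖ ≤ P.L ^ 12 * √(En P gb f) := by
  have hL := P.hL
  have h0 : 0 < P.L := by linarith
  have h1 := En_ge P gb hg f
  rw [P.g_eq, inv_mul_le_iff₀ (by positivity)] at h1
  have h2 := pf1_sqrt (x := ‖Q P f‖) (A := 1) (L := P.L ^ 12) (E := En P gb f) (by norm_num)
    (by positivity) (by rw [one_mul, ← pow_mul]; exact h1)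
  rwa [Real.sqrt_one, one_mul] at h2

/-- (B4.4) the key inequalities: `ρ = A u`, `f = Q u` -/
theorem keyIneq (K : ℝ) (hK : 0 < K) : ∃ C : ℝ, 0 < C ∧ ∀ (P : Par) (gb : ℂ) (r : ℝ) (ξ : ℝ → ℂ),
    ‖gb‖ = 1 → 0 ≤ r → r ≤ 1 / 100 → r ≤ K / P.L → AdmX P r ξ → ∀ u : L2,
    ‖Qc P u‖ ≤ C * (‖Qc P (AA P gb ξ u)‖ + √(En P gb u) + ‖Q P u‖) ∧
    (∀ f' : L2, Q P f' = f' →
      ‖(inner ℂ f' (AA P gb ξ u) : ℂ) - (inner ℂ f' (HD P gb (Q P u)) - TT P ξ f' (Q P u))‖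
      ≤ C * (P.L⁻¹ * (√(En P gb f') * √(En P gb u)) + ‖Qc P (AA P gb ξ u)‖ * ‖f'‖)) ∧
    ‖(inner ℂ u (X ξ u) : ℂ) + 2 * TT P ξ (Q P u) (Q P u)‖
      ≤ C * (P.L⁻¹ * En P gb u
        + ‖Qc P (AA P gb ξ u)‖ * (‖Q P u‖ + ‖Qc P (AA P gb ξ u)‖)) ∧
    (∀ f' : L2, ‖TT P ξ (Qm P gb f') (Q P u)‖ ≤
      C * (√P.L)⁻¹ * (√(En P gb (Qm P gb f')) * √(En P gb u))) ∧
    (∀ f' : L2, ‖TT P ξ (Qp P gb f') (Qm P gb u)‖ ≤
      C * (√P.L)⁻¹ * (√(En P gb (Qp P gb f')) * √(En P gb (Qm P gb u)))) := by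
  obtain ⟨C0, hC0, HB⟩ := lemB3
  obtain ⟨C1, hC1, HS⟩ := second_order
  obtain ⟨C2, hC2, HW⟩ := wY_E
  obtain ⟨Ca, hCa, HA⟩ := aN_QE
  obtain ⟨Cm, hCm, HM⟩ := aN_Qm
  set a := √Ca with ha
  set m := √Cm with hm
  have ha0 : 0 ≤ a := Real.sqrt_nonneg _
  have hm0 : 0 ≤ m := Real.sqrt_nonneg _
  set D2 := C0 * ((2 * K + K ^ 3) * a ^ 2 + 1) + C1 * C2 + 2 with hD2
  have hD2p : 0 < D2 := by positivity
  refine ⟨C0 * (1 + a * K) + D2 + C0 + 11 * K ^ 2 * (a * m), by positivity, ?_⟩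
  intro P gb r ξ hg hr0 hr1 hrK hX u
  obtain ⟨hx0, hx1⟩ := pf1_x P
  have hL := P.hL
  have hL0 : 0 < P.L := by linarith
  have hC0' : C0 * (1 + a * K) ≤ C0 * (1 + a * K) + D2 + C0 + 11 * K ^ 2 * (a * m) := by
    have : 0 ≤ 11 * K ^ 2 * (a * m) := by positivity
    linarith
  obtain ⟨b1, b2, b3⟩ := HB P gb r ξ hg hr0 hr1 hX u
  have hrL : r * P.L ≤ K := by
    rwa [le_div_iff₀ hL0] at hrK
  have hs0 := P.s_pos
  have hs1 : P.s ≤ 1 := P.s_le.trans (by norm_num)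
  -- bounds for `a`
  have hAf : ∀ f : L2, aN (Q P f) ≤ a * P.L * √(En P gb f) := fun f =>
    pf1_sqrt hCa.le hL0.le (HA P gb hg f)
  have hMf : ∀ f : L2, aN (Qm P gb f) ≤ m * √P.L * √(En P gb (Qm P gb f)) := by
    intro f
    refine pf1_sqrt hCm.le (Real.sqrt_nonneg _) ?_
    rw [Real.sq_sqrt hL0.le]
    exact HM P gb hg f
  have hpow := pf1_pow P hK hr0 hrK
  have hraP : ∀ f : L2, r * aN (Q P f) ≤ a * K * √(En P gb f) := by
    intro f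
    calc r * aN (Q P f) ≤ r * (a * P.L * √(En P gb f)) := mul_le_mul_of_nonneg_left (hAf f) hr0
      _ = a * (r * P.L) * √(En P gb f) := by ring
      _ ≤ a * K * √(En P gb f) :=
        mul_le_mul_of_nonneg_right (mul_le_mul_of_nonneg_left hrL ha0) (Real.sqrt_nonneg _)
  -- the combination of the cubic terms
  have hcub : ∀ f' f : L2, (P.s * r + r * P.e2 + r ^ 3) * (aN (Q P f') * aN (Q P f)) ≤
      (2 * K + K ^ 3) * a ^ 2 * (P.L⁻¹ * (√(En P gb f') * √(En P gb f))) := by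
    intro f' f
    have h1 : aN (Q P f') * aN (Q P f) ≤
        (a * P.L * √(En P gb f')) * (a * P.L * √(En P gb f)) :=
      mul_le_mul (hAf f') (hAf f) (aN_nonneg _) (by positivity)
    have h2 : 0 ≤ aN (Q P f') * aN (Q P f) := mul_nonneg (aN_nonneg _) (aN_nonneg _)
    calc (P.s * r + r * P.e2 + r ^ 3) * (aN (Q P f') * aN (Q P f))
        ≤ ((2 * K + K ^ 3) * P.L⁻¹ ^ 3) *
          ((a * P.L * √(En P gb f')) * (a * P.L * √(En P gb f))) :=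
          mul_le_mul hpow h1 h2 (by positivity)
      _ = (2 * K + K ^ 3) * a ^ 2 * (P.L⁻¹ * (√(En P gb f') * √(En P gb f))) := by
          field_simp
  -- the product of the norms
  have hnn : ∀ f' f : L2, ‖Q P f'‖ * ‖Q P f‖ ≤
      P.L ^ 24 * (√(En P gb f') * √(En P gb f)) := by
    intro f' f
    calc ‖Q P f'‖ * ‖Q P f‖ ≤ (P.L ^ 12 * √(En P gb f')) * (P.L ^ 12 * √(En P gb f)) :=
          mul_le_mul (pf1_norm P gb hg f') (pf1_norm P gb hg f) (norm_nonneg _) (by positivity)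
      _ = P.L ^ 24 * (√(En P gb f') * √(En P gb f)) := by ring
  have hpw : ∀ k : ℕ, 1 ≤ k → P.L⁻¹ ^ k ≤ P.L⁻¹ := by
    intro k hk
    calc P.L⁻¹ ^ k ≤ P.L⁻¹ ^ 1 := pow_le_pow_of_le_one hx0.le hx1 hk
      _ = P.L⁻¹ := pow_one _
  have hs3 : P.s ^ 3 * P.L ^ 24 = P.L⁻¹ ^ 6 := by
    unfold Par.s
    field_simp
  refine ⟨?_, ?_, ?_, ?_, ?_⟩
  · -- item 1
    have hρ : 0 ≤ ‖Qc P (AA P gb ξ u)‖ := norm_nonneg _
    have hE : 0 ≤ √(En P gb u) := Real.sqrt_nonneg _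
    have hn : 0 ≤ ‖Q P u‖ := norm_nonneg _
    have h1 := hraP u
    have h2 : P.s * ‖Q P u‖ ≤ ‖Q P u‖ := by
      calc P.s * ‖Q P u‖ ≤ 1 * ‖Q P u‖ := mul_le_mul_of_nonneg_right hs1 hn
        _ = ‖Q P u‖ := one_mul _
    have haK : 0 ≤ a * K := by positivity
    calc ‖Qc P u‖ ≤ C0 * (‖Qc P (AA P gb ξ u)‖ + r * aN (Q P u) + P.s * ‖Q P u‖) := b1
      _ ≤ C0 * ((1 + a * K) * (‖Qc P (AA P gb ξ u)‖ + √(En P gb u) + ‖Q P u‖)) := by
          refine mul_le_mul_of_nonneg_left ?_ hC0.le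
          nlinarith [mul_nonneg haK hρ, mul_nonneg haK hn]
      _ = C0 * (1 + a * K) * (‖Qc P (AA P gb ξ u)‖ + √(En P gb u) + ‖Q P u‖) := by ring
      _ ≤ _ := mul_le_mul_of_nonneg_right hC0' (by positivity)
  · -- item 2
    intro f' hf'
    have hQQ : Q P (Q P u) = Q P u := Q_Q P u
    have hEQ : En P gb (Q P u) = En P gb u := En_Q P gb hg u
    have c1 := b2 f' hf'
    have c2 := HS P gb hg (Q P u) f' hQQ hf'
    have c3 := HD_eq P gb hg (Q P u) f' hQQ hf'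
    set EE := √(En P gb f') * √(En P gb u) with hEE
    have hEE0 : 0 ≤ EE := by positivity
    set ρ := ‖Qc P (AA P gb ξ u)‖ with hρdef
    have hρ0 : 0 ≤ ρ := norm_nonneg _
    -- first error
    have e1 : (P.s * r + r * P.e2 + r ^ 3) * (aN f' * aN (Q P u)) ≤
        (2 * K + K ^ 3) * a ^ 2 * (P.L⁻¹ * EE) := by
      have := hcub f' u
      rwa [hf'] at this
    have e2 : P.s ^ 3 * (‖f'‖ * ‖Q P u‖) ≤ P.L⁻¹ * EE := by
      have h1 := hnn f' u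
      rw [hf'] at h1
      calc P.s ^ 3 * (‖f'‖ * ‖Q P u‖) ≤ P.s ^ 3 * (P.L ^ 24 * EE) :=
            mul_le_mul_of_nonneg_left h1 (by positivity)
        _ = P.L⁻¹ ^ 6 * EE := by rw [← mul_assoc, hs3]
        _ ≤ P.L⁻¹ * EE := mul_le_mul_of_nonneg_right (hpw 6 (by norm_num)) hEE0
    have c1' : ‖(inner ℂ f' (AA P gb ξ u) : ℂ) - (inner ℂ f' (Cos2 (Q P u))
        - (P.s ^ 2 : ℝ) * inner ℂ f' (Wb P gb (G P (Wb P gb (Q P u)))) - TT P ξ f' (Q P u))‖ ≤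
        C0 * ((2 * K + K ^ 3) * a ^ 2 + 1) * (P.L⁻¹ * EE) + C0 * (ρ * ‖f'‖) := by
      refine c1.trans ?_
      calc C0 * ((P.s * r + r * P.e2 + r ^ 3) * (aN f' * aN (Q P u)) +
            P.s ^ 3 * (‖f'‖ * ‖Q P u‖) + ρ * ‖f'‖)
          ≤ C0 * ((2 * K + K ^ 3) * a ^ 2 * (P.L⁻¹ * EE) + P.L⁻¹ * EE + ρ * ‖f'‖) := by
            refine mul_le_mul_of_nonneg_left ?_ hC0.le
            linarith
        _ = _ := by ring
    -- second error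
    have hw : ∀ f : L2, Q P f = f → P.s * ‖wY P f‖ ≤ √C2 * (P.L ^ 8)⁻¹ * √(En P gb f) := by
      intro f hf
      refine pf1_sqrt hC2.le (by positivity) ?_
      have h1 := HW P gb hg f hf
      calc (P.s * ‖wY P f‖) ^ 2 = P.s ^ 2 * ‖wY P f‖ ^ 2 := by ring
        _ ≤ C2 * (P.L ^ 16)⁻¹ * En P gb f := h1
        _ = C2 * ((P.L ^ 8)⁻¹) ^ 2 * En P gb f := by rw [← inv_pow, ← inv_pow, ← pow_mul]
    have e3 : P.s ^ 2 * (C1 * (‖wY P f'‖ * ‖wY P (Q P u)‖)) ≤ C1 * C2 * (P.L⁻¹ * EE) := by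
      have h1 := hw f' hf'
      have h2 := hw (Q P u) hQQ
      rw [hEQ] at h2
      have h3 : (P.s * ‖wY P f'‖) * (P.s * ‖wY P (Q P u)‖) ≤
          (√C2 * (P.L ^ 8)⁻¹ * √(En P gb f')) * (√C2 * (P.L ^ 8)⁻¹ * √(En P gb u)) :=
        mul_le_mul h1 h2 (by positivity) (by positivity)
      have h4 : (√C2 * (P.L ^ 8)⁻¹ * √(En P gb f')) * (√C2 * (P.L ^ 8)⁻¹ * √(En P gb u)) =
          C2 * (P.L⁻¹ ^ 16 * EE) := by
        rw [hEE]
        calc _ = (√C2 * √C2) * (((P.L ^ 8)⁻¹ * (P.L ^ 8)⁻¹) *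
              (√(En P gb f') * √(En P gb u))) := by ring
          _ = _ := by
            rw [Real.mul_self_sqrt hC2.le, ← inv_pow, ← pow_add]
      calc P.s ^ 2 * (C1 * (‖wY P f'‖ * ‖wY P (Q P u)‖))
          = C1 * ((P.s * ‖wY P f'‖) * (P.s * ‖wY P (Q P u)‖)) := by ring
        _ ≤ C1 * (C2 * (P.L⁻¹ ^ 16 * EE)) := by
            refine mul_le_mul_of_nonneg_left ?_ hC1.le
            rw [← h4]
            exact h3
        _ ≤ C1 * (C2 * (P.L⁻¹ * EE)) := by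
            refine mul_le_mul_of_nonneg_left (mul_le_mul_of_nonneg_left ?_ hC2.le) hC1.le
            exact mul_le_mul_of_nonneg_right (hpw 16 (by norm_num)) hEE0
        _ = C1 * C2 * (P.L⁻¹ * EE) := by ring
    have c2' : ‖((P.s ^ 2 : ℝ) : ℂ) * ((inner ℂ f' (Wb P gb (G P (Wb P gb (Q P u)))) : ℂ) -
        ((P.wh : ℂ) * inner ℂ f' (Q P u) - (P.Th : ℂ) * inner ℂ f' (Sw P gb (Q P u))))‖ ≤
        C1 * C2 * (P.L⁻¹ * EE) := by
      rw [norm_mul, Complex.norm_real, Real.norm_of_nonneg (by positivity)]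
      exact (mul_le_mul_of_nonneg_left c2 (by positivity)).trans e3
    -- third error
    have e4 : 2 * |P.del| * (‖f'‖ * ‖Q P u‖) ≤ 2 * (P.L⁻¹ * EE) := by
      have h1 := hnn f' u
      rw [hf'] at h1
      have h2 := P.del_le
      have h3 : |P.del| * (‖f'‖ * ‖Q P u‖) ≤ (P.L ^ 40)⁻¹ * (P.L ^ 24 * EE) :=
        mul_le_mul h2 h1 (by positivity) (by positivity)
      have h4 : (P.L ^ 40)⁻¹ * (P.L ^ 24 * EE) = P.L⁻¹ ^ 16 * EE := by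
        field_simp
      rw [h4] at h3
      have h5 : P.L⁻¹ ^ 16 * EE ≤ P.L⁻¹ * EE :=
        mul_le_mul_of_nonneg_right (hpw 16 (by norm_num)) hEE0
      linarith
    have c3' := c3.trans e4
    -- assembly
    have hid : (inner ℂ f' (AA P gb ξ u) : ℂ) -
        (inner ℂ f' (HD P gb (Q P u)) - TT P ξ f' (Q P u)) =
        ((inner ℂ f' (AA P gb ξ u) : ℂ) - (inner ℂ f' (Cos2 (Q P u))
          - (P.s ^ 2 : ℝ) * inner ℂ f' (Wb P gb (G P (Wb P gb (Q P u)))) - TT P ξ f' (Q P u)))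
        - ((P.s ^ 2 : ℝ) : ℂ) * ((inner ℂ f' (Wb P gb (G P (Wb P gb (Q P u)))) : ℂ) -
          ((P.wh : ℂ) * inner ℂ f' (Q P u) - (P.Th : ℂ) * inner ℂ f' (Sw P gb (Q P u))))
        - ((inner ℂ f' (HD P gb (Q P u)) : ℂ) - (inner ℂ f' (Cos2 (Q P u))
          - ((P.s ^ 2 * P.wh : ℝ) : ℂ) * inner ℂ f' (Q P u)
          + ((P.s ^ 2 * P.Th : ℝ) : ℂ) * inner ℂ f' (Sw P gb (Q P u)))) := by
      push_cast
      ring
    rw [hid]
    refine (norm_sub_le _ _).trans ((add_le_add ((norm_sub_le _ _).trans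
      (add_le_add c1' c2')) c3').trans ?_)
    have hLE : 0 ≤ P.L⁻¹ * EE := by positivity
    have hρf : 0 ≤ ρ * ‖f'‖ := by positivity
    have h1 : C0 * ((2 * K + K ^ 3) * a ^ 2 + 1) * (P.L⁻¹ * EE) + C0 * (ρ * ‖f'‖) +
        C1 * C2 * (P.L⁻¹ * EE) + 2 * (P.L⁻¹ * EE) =
        D2 * (P.L⁻¹ * EE) + C0 * (ρ * ‖f'‖) := by rw [hD2]; ring
    rw [h1]
    have h2 : D2 ≤ C0 * (1 + a * K) + D2 + C0 + 11 * K ^ 2 * (a * m) := by
      have : 0 ≤ C0 * (1 + a * K) + C0 + 11 * K ^ 2 * (a * m) := by positivity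
      linarith
    have h3 : C0 ≤ C0 * (1 + a * K) + D2 + C0 + 11 * K ^ 2 * (a * m) := by
      have : 0 ≤ C0 * (1 + a * K) + D2 + 11 * K ^ 2 * (a * m) := by positivity
      linarith
    calc D2 * (P.L⁻¹ * EE) + C0 * (ρ * ‖f'‖)
        ≤ (C0 * (1 + a * K) + D2 + C0 + 11 * K ^ 2 * (a * m)) * (P.L⁻¹ * EE) +
          (C0 * (1 + a * K) + D2 + C0 + 11 * K ^ 2 * (a * m)) * (ρ * ‖f'‖) :=
          add_le_add (mul_le_mul_of_nonneg_right h2 hLE) (mul_le_mul_of_nonneg_right h3 hρf)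
      _ = _ := by ring
  · -- item 3
    have hEn : √(En P gb u) * √(En P gb u) = En P gb u := Real.mul_self_sqrt (En_nonneg P gb u)
    have h1 := hcub u u
    rw [hEn] at h1
    have hLE : 0 ≤ P.L⁻¹ * En P gb u := mul_nonneg hx0.le (En_nonneg P gb u)
    set ρ := ‖Qc P (AA P gb ξ u)‖ with hρdef
    have hρ0 : 0 ≤ ρ := norm_nonneg _
    have hρf : 0 ≤ ρ * (‖Q P u‖ + ρ) := by positivity
    refine b3.trans ?_
    have h2 : C0 * ((2 * K + K ^ 3) * a ^ 2) ≤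
        C0 * (1 + a * K) + D2 + C0 + 11 * K ^ 2 * (a * m) := by
      have h5 : 0 ≤ C0 * (1 + a * K) + C0 + 11 * K ^ 2 * (a * m) := by positivity
      have h6 : 0 ≤ C0 + C1 * C2 + 2 := by positivity
      have h7 : D2 = C0 * ((2 * K + K ^ 3) * a ^ 2) + (C0 + C1 * C2 + 2) := by rw [hD2]; ring
      linarith
    have h3 : C0 ≤ C0 * (1 + a * K) + D2 + C0 + 11 * K ^ 2 * (a * m) := by
      have : 0 ≤ C0 * (1 + a * K) + D2 + 11 * K ^ 2 * (a * m) := by positivity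
      linarith
    calc C0 * ((P.s * r + r * P.e2 + r ^ 3) * aN (Q P u) ^ 2 + ρ * (‖Q P u‖ + ρ))
        = C0 * ((P.s * r + r * P.e2 + r ^ 3) * (aN (Q P u) * aN (Q P u)) +
          ρ * (‖Q P u‖ + ρ)) := by rw [sq (aN (Q P u))]
      _ ≤ C0 * ((2 * K + K ^ 3) * a ^ 2 * (P.L⁻¹ * En P gb u) + ρ * (‖Q P u‖ + ρ)) := by
          refine mul_le_mul_of_nonneg_left ?_ hC0.le
          linarith
      _ = C0 * ((2 * K + K ^ 3) * a ^ 2) * (P.L⁻¹ * En P gb u) + C0 * (ρ * (‖Q P u‖ + ρ)) := by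
          ring
      _ ≤ (C0 * (1 + a * K) + D2 + C0 + 11 * K ^ 2 * (a * m)) * (P.L⁻¹ * En P gb u) +
          (C0 * (1 + a * K) + D2 + C0 + 11 * K ^ 2 * (a * m)) * (ρ * (‖Q P u‖ + ρ)) :=
          add_le_add (mul_le_mul_of_nonneg_right h2 hLE) (mul_le_mul_of_nonneg_right h3 hρf)
      _ = _ := by ring
  · -- item 4
    intro f'
    have hx : 0 ≤ √(En P gb (Qm P gb f')) := Real.sqrt_nonneg _
    have hy : 0 ≤ √(En P gb u) := Real.sqrt_nonneg _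
    have h1 := TT_bound P r hr0 ξ hX (Qm P gb f') (Q P u)
    have h2 : aN (Qm P gb f') * aN (Q P u) ≤
        (m * √P.L * √(En P gb (Qm P gb f'))) * (a * P.L * √(En P gb u)) :=
      mul_le_mul (hMf f') (hAf u) (aN_nonneg _) (by positivity)
    have h3 := pf1_last P hr0 hrL ha0 hm0 hx hy (by positivity : 0 ≤ C0 * (1 + a * K) + D2 + C0)
    refine h1.trans ((mul_le_mul_of_nonneg_left h2 (by positivity)).trans ?_)
    refine le_trans (le_of_eq ?_) h3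
    ring
  · -- item 5
    intro f'
    have hx : 0 ≤ √(En P gb (Qp P gb f')) := Real.sqrt_nonneg _
    have hy : 0 ≤ √(En P gb (Qm P gb u)) := Real.sqrt_nonneg _
    have h1 := TT_bound P r hr0 ξ hX (Qp P gb f') (Qm P gb u)
    have h0 := hAf (Qp P gb f')
    rw [Q_Qp P gb hg f'] at h0
    have h2 : aN (Qp P gb f') * aN (Qm P gb u) ≤
        (a * P.L * √(En P gb (Qp P gb f'))) * (m * √P.L * √(En P gb (Qm P gb u))) :=
      mul_le_mul h0 (hMf u) (aN_nonneg _) (by positivity)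
    have h3 := pf1_last P hr0 hrL ha0 hm0 hx hy (by positivity : 0 ≤ C0 * (1 + a * K) + D2 + C0)
    refine h1.trans ((mul_le_mul_of_nonneg_left h2 (by positivity)).trans ?_)
    refine le_trans (le_of_eq ?_) h3
    ring

end Pool.Agent.Helper92.HRU
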