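import Pool.Agent.Helper92.HRU.BDefs
import Pool.Agent.Helper92.HRU.Pf.PN1
import Pool.Agent.Helper92.HRU.Pf.PK1
import Pool.Agent.Helper92.HRU.Pf.PQ2
import Pool.Agent.Helper92.HRU.Pf.PJ3
import Pool.Agent.Helper92.HRU.Pf.PE4
import Pool.Agent.Helper92.HRU.Pf.PF1

/-! Piece PF2: (T+) and (E0), normalised. -/

set_option autoImplicit false

namespace Pool.Agent.Helper92.HRU

open Complex Set MeasureTheory Filter Topology
open scoped ComplexConjugate Real ENNReal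
open Pool.Agent.Helper84.HRT (Weyl node chi mu8 XL Data Aop Bop Good)

private theorem pf2_TT_add_right (P : Par) (ξ : ℝ → ℂ) (f' a b : L2) :
    TT P ξ f' (a + b) = TT P ξ f' a + TT P ξ f' b := by
  unfold TT
  rw [map_add, map_add, inner_add_right]

private theorem pf2_TT_add_left (P : Par) (ξ : ℝ → ℂ) (a b f : L2) :
    TT P ξ (a + b) f = TT P ξ a f + TT P ξ b f := by
  unfold TT
  rw [map_add, inner_add_left]

private theorem pf2_norm_Qm_le (P : Par) (gb : ℂ) (hg : ‖gb‖ = 1) (f : L2) :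
    ‖Qm P gb f‖ ≤ ‖Q P f‖ := by
  have h := norm_sq_pm P gb hg f
  have h2 : ‖Qm P gb f‖ ^ 2 ≤ ‖Q P f‖ ^ 2 := by rw [h]; nlinarith [sq_nonneg ‖Qp P gb f‖]
  exact le_of_sq_le_sq h2 (norm_nonneg _)

private theorem pf2_norm_Qp_le (P : Par) (gb : ℂ) (hg : ‖gb‖ = 1) (f : L2) :
    ‖Qp P gb f‖ ≤ ‖Q P f‖ := by
  have h := norm_sq_pm P gb hg f
  have h2 : ‖Qp P gb f‖ ^ 2 ≤ ‖Q P f‖ ^ 2 := by rw [h]; nlinarith [sq_nonneg ‖Qm P gb f‖]
  exact le_of_sq_le_sq h2 (norm_nonneg _)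

/-- `l = (√L)⁻¹`: `0 < l ≤ 1/10` and `l ^ 2 = L⁻¹` -/
private theorem pf2_l (P : Par) : 0 < (√P.L)⁻¹ ∧ (√P.L)⁻¹ ≤ 1 / 10 ∧ (√P.L)⁻¹ ^ 2 = P.L⁻¹ := by
  have hL := P.hL
  have h0 : (0 : ℝ) ≤ P.L := by linarith
  have h10 : (10 : ℝ) ≤ √P.L := by
    rw [show (10 : ℝ) = √100 by
      rw [show (100 : ℝ) = 10 ^ 2 by norm_num, Real.sqrt_sq (by norm_num)]]
    exact Real.sqrt_le_sqrt hL
  refine ⟨by positivity, ?_, ?_⟩
  · rw [one_div]
    exact inv_anti₀ (by norm_num) h10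
  · rw [inv_pow, Real.sq_sqrt h0]

private theorem pf2_aux1 {C l Em E R q : ℝ} (hC : 0 < C) (hl : 0 < l) (hl1 : l ≤ 1) (hEm : 0 ≤ Em)
    (hE : 0 ≤ E) (hR : 0 ≤ R) (hq : 0 ≤ q)
    (h : Em ≤ C * (l ^ 2 * (√Em * √E) + R * q) + q * R + C * l * (√Em * √E)) :
    Em ≤ 4 * C ^ 2 * (l ^ 2 * E) + 2 * (C + 1) * (R * q) := by
  have a0 := Real.sqrt_nonneg Em
  have b0 := Real.sqrt_nonneg E
  have a1 := Real.sq_sqrt hEm
  have b1 := Real.sq_sqrt hE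
  set a := √Em
  set b := √E
  have hab : 0 ≤ a * b := mul_nonneg a0 b0
  have hll : l ^ 2 ≤ l := by nlinarith
  have h1 : l ^ 2 * (a * b) ≤ l * (a * b) := mul_le_mul_of_nonneg_right hll hab
  have h2 : C * (l ^ 2 * (a * b)) ≤ C * (l * (a * b)) := mul_le_mul_of_nonneg_left h1 hC.le
  have h3 := sq_nonneg (a - 2 * C * l * b)
  have h4 : 4 * C * l * (a * b) ≤ a ^ 2 + 4 * C ^ 2 * (l ^ 2 * b ^ 2) := by nlinarith
  rw [a1, b1] at h4
  nlinarith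

/-- consequences for `u` with given residual: the negative band is small, energy balance -/
theorem balance (K : ℝ) (hK : 0 < K) : ∃ C : ℝ, 0 < C ∧ ∀ (P : Par) (gb : ℂ) (r : ℝ) (ξ : ℝ → ℂ),
    ‖gb‖ = 1 → 0 ≤ r → r ≤ 1 / 100 → r ≤ K / P.L → AdmX P r ξ → ∀ u : L2,
    En P gb (Qm P gb u) ≤ C * (P.L⁻¹ * En P gb u + ‖AA P gb ξ u‖ * ‖Q P u‖) ∧
    |En P gb (Qp P gb u) - (TT P ξ (Qp P gb u) (Qp P gb u)).re|
      ≤ C * ((√P.L)⁻¹ * En P gb u + ‖AA P gb ξ u‖ * ‖Q P u‖) := by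
  obtain ⟨C, hC, hkey⟩ := keyIneq K hK
  refine ⟨4 * C ^ 2 + 2 * C + 2, by positivity, ?_⟩
  intro P gb r ξ hg hr0 hr1 hrK hAdm u
  obtain ⟨-, k2, -, k4, k5⟩ := hkey P gb r ξ hg hr0 hr1 hrK hAdm u
  obtain ⟨hl0, hl1, hl2⟩ := pf2_l P
  have hE := En_nonneg P gb u
  have hEp := En_nonneg P gb (Qp P gb u)
  have hEm := En_nonneg P gb (Qm P gb u)
  have hsplit := En_split P gb hg u
  have hR := norm_nonneg (AA P gb ξ u)
  have hq := norm_nonneg (Q P u)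
  have hQc := norm_Qc_le P (AA P gb ξ u)
  have hQm := pf2_norm_Qm_le P gb hg u
  have hQp := pf2_norm_Qp_le P gb hg u
  rw [← hl2] at k2 ⊢
  set l := (√P.L)⁻¹ with hl
  set E := En P gb u with hEdef
  set Ep := En P gb (Qp P gb u) with hEpdef
  set Em := En P gb (Qm P gb u) with hEmdef
  set R := ‖AA P gb ξ u‖ with hRdef
  set q := ‖Q P u‖ with hqdef
  have hRq : 0 ≤ R * q := mul_nonneg hR hq
  constructor
  · have e1 := k2 (Qm P gb u) (Q_Qm P gb hg u)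
    have e2 := HD_Qm P gb hg (Q P u)
    rw [Qm_Q P gb hg u] at e2
    rw [e2, ← hEmdef] at e1
    have e3 := k4 u
    rw [← hEmdef] at e3
    have e4 : ‖(inner ℂ (Qm P gb u) (AA P gb ξ u) : ℂ)‖ ≤ q * R :=
      (norm_inner_le_norm _ _).trans (mul_le_mul_of_nonneg_right hQm hR)
    have e5 : ‖Qc P (AA P gb ξ u)‖ * ‖Qm P gb u‖ ≤ R * q :=
      mul_le_mul hQc hQm (norm_nonneg _) hR
    set a : ℂ := inner ℂ (Qm P gb u) (AA P gb ξ u)
    set T : ℂ := TT P ξ (Qm P gb u) (Q P u)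
    have e6 : Em ≤ ‖a - (-(Em : ℂ) - T)‖ + ‖a‖ + ‖T‖ := by
      have : (Em : ℂ) = (a - (-(Em : ℂ) - T)) - a - T := by ring
      calc Em = ‖(Em : ℂ)‖ := by
            rw [Complex.norm_real, Real.norm_of_nonneg hEm]
        _ = ‖(a - (-(Em : ℂ) - T)) - a - T‖ := by rw [← this]
        _ ≤ ‖(a - (-(Em : ℂ) - T)) - a‖ + ‖T‖ := norm_sub_le _ _
        _ ≤ _ := by gcongr; exact norm_sub_le _ _
    have e7 : Em ≤ C * (l ^ 2 * (√Em * √E) + R * q) + q * R + C * l * (√Em * √E) := by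
      have : C * (l ^ 2 * (√Em * √E) + ‖Qc P (AA P gb ξ u)‖ * ‖Qm P gb u‖) ≤
          C * (l ^ 2 * (√Em * √E) + R * q) := by gcongr
      linarith
    have e8 := pf2_aux1 hC hl0 (by linarith) hEm hE hR hq e7
    have hlE : 0 ≤ l ^ 2 * E := by positivity
    nlinarith
  · have e1 := k2 (Qp P gb u) (Q_Qp P gb hg u)
    have e2 := HD_Qp P gb hg (Q P u)
    rw [Qp_Q P gb hg u] at e2
    rw [e2, ← hEpdef] at e1
    have e3 := k5 u
    rw [← hEpdef] at e3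
    have e4 : ‖(inner ℂ (Qp P gb u) (AA P gb ξ u) : ℂ)‖ ≤ q * R :=
      (norm_inner_le_norm _ _).trans (mul_le_mul_of_nonneg_right hQp hR)
    have e5 : ‖Qc P (AA P gb ξ u)‖ * ‖Qp P gb u‖ ≤ R * q :=
      mul_le_mul hQc hQp (norm_nonneg _) hR
    have e6 : TT P ξ (Qp P gb u) (Q P u) = TT P ξ (Qp P gb u) (Qp P gb u) +
        TT P ξ (Qp P gb u) (Qm P gb u) := by
      rw [← pf2_TT_add_right, Qp_add_Qm]
    rw [e6] at e1
    set b : ℂ := inner ℂ (Qp P gb u) (AA P gb ξ u)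
    set T : ℂ := TT P ξ (Qp P gb u) (Qp P gb u)
    set T' : ℂ := TT P ξ (Qp P gb u) (Qm P gb u)
    have e7 : |Ep - T.re| ≤ ‖b - ((Ep : ℂ) - (T + T'))‖ + ‖b‖ + ‖T'‖ := by
      have h1 : ((Ep : ℂ) - T) = -(b - ((Ep : ℂ) - (T + T'))) + b + T' := by ring
      have h2 : Ep - T.re = ((Ep : ℂ) - T).re := by simp
      rw [h2]
      refine (Complex.abs_re_le_norm _).trans ?_
      rw [h1]
      refine (norm_add_le _ _).trans ?_
      gcongr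
      refine (norm_add_le _ _).trans ?_
      rw [norm_neg]
    have s1 : √Ep * √E ≤ E := by
      calc √Ep * √E ≤ √E * √E := by
            gcongr
            linarith
        _ = E := Real.mul_self_sqrt hE
    have s2 : √Ep * √Em ≤ E := by
      calc √Ep * √Em ≤ √E * √E := by
            gcongr <;> linarith
        _ = E := Real.mul_self_sqrt hE
    have t1 : C * (l ^ 2 * (√Ep * √E) + ‖Qc P (AA P gb ξ u)‖ * ‖Qp P gb u‖) ≤
        C * (l * E + R * q) := by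
      have : l ^ 2 * (√Ep * √E) ≤ l * E := by
        have h1 : l ^ 2 ≤ l := by nlinarith
        exact mul_le_mul h1 s1 (by positivity) hl0.le
      gcongr
    have t2 : C * l * (√Ep * √Em) ≤ C * l * E := by gcongr
    have hlE : 0 ≤ l * E := by positivity
    have hC2 : 0 ≤ C ^ 2 * (l * E) := by positivity
    have hC3 : 0 ≤ C ^ 2 * (R * q) := by positivity
    have hC4 : 0 ≤ C * (R * q) := by positivity
    nlinarith

/-- numeric part of (T+) -/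
private theorem pf2_aux2 {C C' l g E Em Ep Tp T R q h n XX : ℝ} (hC : 0 < C) (hC' : 0 < C')
    (hl0 : 0 < l) (hl1 : l ≤ 1 / 10) (hlC : (6 * C' + 7 * C) * l ≤ 1 / 4) (hg : 0 < g)
    (hg1 : g ≤ 1) (hE : 0 ≤ E) (hR : 0 ≤ R) (hq : 0 ≤ q) (hh : 0 ≤ h) (hsplit : E = Ep + Em)
    (h1 : Em ≤ C' * (l ^ 2 * E + R * q)) (h2 : |Ep - Tp| ≤ C' * (l * E + R * q))
    (h3 : |T - Tp| ≤ 2 * C * l * E) (h4 : XX + 2 * T ≤ C * (l ^ 2 * E + R * (q + R)))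
    (h5 : h ≤ C * (R + √E + q)) (h6 : g * q ^ 2 ≤ E) (h7 : n ^ 2 = q ^ 2 + h ^ 2) :
    XX ≤ -((8 * (1 + 3 * C ^ 2))⁻¹ * g) * n ^ 2 +
      ((4 * C' + C) ^ 2 + C + 1) / g * R ^ 2 := by
  have hll : l ^ 2 ≤ l := by nlinarith
  have hlE : 0 ≤ l * E := mul_nonneg hl0.le hE
  have hllE : l ^ 2 * E ≤ l * E := mul_le_mul_of_nonneg_right hll hE
  have hRq : 0 ≤ R * q := mul_nonneg hR hq
  have hE2 := Real.sq_sqrt hE
  have hE0 := Real.sqrt_nonneg E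
  set e := √E
  have a2 := abs_le.1 h2
  have a3 := abs_le.1 h3
  -- T ≥ E - ...
  have b1 : E - (2 * C' + 2 * C) * (l * E) - 2 * C' * (R * q) ≤ T := by
    have : C' * (l ^ 2 * E + R * q) ≤ C' * (l * E + R * q) := by
      apply mul_le_mul_of_nonneg_left _ hC'.le
      linarith
    nlinarith
  have b2 : C * (l ^ 2 * E + R * (q + R)) ≤ C * (l * E) + C * (R * q) + C * R ^ 2 := by
    have : C * (l ^ 2 * E) ≤ C * (l * E) := mul_le_mul_of_nonneg_left hllE hC.le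
    nlinarith
  have b3 : XX ≤ -2 * E + (4 * C' + 5 * C) * (l * E) + (4 * C' + C) * (R * q) + C * R ^ 2 := by
    nlinarith
  have b4 : (4 * C' + 5 * C) * (l * E) ≤ 1 / 4 * E := by
    have : (4 * C' + 5 * C) * l ≤ 1 / 4 := by nlinarith
    nlinarith
  have b5 : (4 * C' + C) * (R * q) ≤ E / 4 + (4 * C' + C) ^ 2 / g * R ^ 2 := by
    have c1 : (4 * C' + C) * (R * q) ≤ g * q ^ 2 / 4 + (4 * C' + C) ^ 2 / g * R ^ 2 := by
      have c2 : 0 ≤ (g * q / 2 - (4 * C' + C) * R) ^ 2 / g := by positivity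
      have c3 : (g * q / 2 - (4 * C' + C) * R) ^ 2 / g =
          g * q ^ 2 / 4 - (4 * C' + C) * (R * q) + (4 * C' + C) ^ 2 / g * R ^ 2 := by
        field_simp
        ring
      linarith
    linarith
  have b6 : h ^ 2 ≤ 3 * C ^ 2 * (R ^ 2 + E + q ^ 2) := by
    have c1 : h ^ 2 ≤ (C * (R + e + q)) ^ 2 := pow_le_pow_left₀ hh h5 2
    have c2 : (R + e + q) ^ 2 ≤ 3 * (R ^ 2 + e ^ 2 + q ^ 2) := by
      nlinarith [sq_nonneg (R - e), sq_nonneg (R - q), sq_nonneg (e - q)]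
    have c3 : (C * (R + e + q)) ^ 2 = C ^ 2 * (R + e + q) ^ 2 := by ring
    have c4 : C ^ 2 * (R + e + q) ^ 2 ≤ C ^ 2 * (3 * (R ^ 2 + e ^ 2 + q ^ 2)) :=
      mul_le_mul_of_nonneg_left c2 (sq_nonneg C)
    rw [hE2] at c4
    linarith
  have b7 : g * n ^ 2 ≤ (1 + 3 * C ^ 2) * (2 * E + R ^ 2) := by
    rw [h7]
    have c1 : g * h ^ 2 ≤ g * (3 * C ^ 2 * (R ^ 2 + E + q ^ 2)) :=
      mul_le_mul_of_nonneg_left b6 hg.le
    have c2 : g * (3 * C ^ 2 * (R ^ 2 + E + q ^ 2)) = 3 * C ^ 2 * (g * R ^ 2 + g * E + g * q ^ 2) := by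
      ring
    have c3 : g * R ^ 2 ≤ R ^ 2 := by nlinarith [sq_nonneg R]
    have c4 : g * E ≤ E := by nlinarith
    have c5 : 3 * C ^ 2 * (g * R ^ 2 + g * E + g * q ^ 2) ≤ 3 * C ^ 2 * (R ^ 2 + E + E) := by
      gcongr
    nlinarith [sq_nonneg R]
  have b8 : (8 * (1 + 3 * C ^ 2))⁻¹ * (g * n ^ 2) ≤ E / 4 + R ^ 2 / 8 := by
    have hpos : 0 < 1 + 3 * C ^ 2 := by positivity
    calc (8 * (1 + 3 * C ^ 2))⁻¹ * (g * n ^ 2) ≤
        (8 * (1 + 3 * C ^ 2))⁻¹ * ((1 + 3 * C ^ 2) * (2 * E + R ^ 2)) :=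
          mul_le_mul_of_nonneg_left b7 (by positivity)
      _ = E / 4 + R ^ 2 / 8 := by
          field_simp
          ring
  have b9 : (C + 1) * R ^ 2 ≤ (C + 1) / g * R ^ 2 := by
    have : C + 1 ≤ (C + 1) / g := by
      rw [le_div_iff₀ hg]
      nlinarith
    exact mul_le_mul_of_nonneg_right this (sq_nonneg R)
  have b10 : ((4 * C' + C) ^ 2 + C + 1) / g * R ^ 2 =
      (4 * C' + C) ^ 2 / g * R ^ 2 + (C + 1) / g * R ^ 2 := by
    field_simp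
    ring
  rw [b10]
  nlinarith [sq_nonneg R]

/-- (T+), normalised -/
theorem Tplus0 (K : ℝ) (hK : 0 < K) : ∃ c C L0 : ℝ, 0 < c ∧ 0 < C ∧ ∀ (P : Par) (gb : ℂ) (r : ℝ)
    (ξ : ℝ → ℂ), L0 ≤ P.L → ‖gb‖ = 1 → 0 ≤ r → r ≤ 1 → r ≤ K / P.L → AdmX P r ξ → ∀ u : L2,
    (inner ℂ u (X ξ u) : ℂ).re ≤ -(c * P.g) * ‖u‖ ^ 2 + C / P.g * ‖AA P gb ξ u‖ ^ 2 := by
  obtain ⟨C, hC, hkey⟩ := keyIneq K hK
  obtain ⟨C', hC', hbal⟩ := balance K hK
  refine ⟨(8 * (1 + 3 * C ^ 2))⁻¹, (4 * C' + C) ^ 2 + C + 1,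
    (4 * (6 * C' + 7 * C)) ^ 2 + 100 * K, by positivity, by positivity, ?_⟩
  intro P gb r ξ hL1 hg hr0 _ hrK hAdm u
  have hL0 : (4 * (6 * C' + 7 * C)) ^ 2 ≤ P.L := by linarith
  have hr1 : r ≤ 1 / 100 := by
    have hLpos : 0 < P.L := by linarith [P.hL]
    have h100 : 100 * K ≤ P.L := by nlinarith [sq_nonneg (4 * (6 * C' + 7 * C))]
    refine hrK.trans ?_
    rw [div_le_iff₀ hLpos]
    linarith
  obtain ⟨k1, -, k3, k4, k5⟩ := hkey P gb r ξ hg hr0 hr1 hrK hAdm u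
  obtain ⟨m1, m2⟩ := hbal P gb r ξ hg hr0 hr1 hrK hAdm u
  obtain ⟨hl0, hl1, hl2⟩ := pf2_l P
  have hE := En_nonneg P gb u
  have hEp := En_nonneg P gb (Qp P gb u)
  have hEm := En_nonneg P gb (Qm P gb u)
  have hsplit := En_split P gb hg u
  have hR := norm_nonneg (AA P gb ξ u)
  have hq := norm_nonneg (Q P u)
  have hh := norm_nonneg (Qc P u)
  have hQc := norm_Qc_le P (AA P gb ξ u)
  have hgpos := P.g_pos
  have hlC : (6 * C' + 7 * C) * (√P.L)⁻¹ ≤ 1 / 4 := by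
    have hpos : 0 < 4 * (6 * C' + 7 * C) := by positivity
    have h1 : 4 * (6 * C' + 7 * C) ≤ √P.L := Real.le_sqrt_of_sq_le hL0
    have h2 : (√P.L)⁻¹ ≤ (4 * (6 * C' + 7 * C))⁻¹ := inv_anti₀ hpos h1
    calc (6 * C' + 7 * C) * (√P.L)⁻¹ ≤ (6 * C' + 7 * C) * (4 * (6 * C' + 7 * C))⁻¹ := by gcongr
      _ = 1 / 4 := by field_simp
  have hg1 : P.g ≤ 1 := by
    rw [P.g_eq]
    have := P.hL
    exact inv_le_one_of_one_le₀ (one_le_pow₀ (by linarith))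
  have s1 : √(En P gb (Qp P gb u)) * √(En P gb (Qm P gb u)) ≤ En P gb u := by
    calc √(En P gb (Qp P gb u)) * √(En P gb (Qm P gb u)) ≤ √(En P gb u) * √(En P gb u) := by
          gcongr <;> linarith
      _ = En P gb u := Real.mul_self_sqrt hE
  have s2 : √(En P gb (Qm P gb u)) * √(En P gb u) ≤ En P gb u := by
    calc √(En P gb (Qm P gb u)) * √(En P gb u) ≤ √(En P gb u) * √(En P gb u) := by
          gcongr
          linarith
      _ = En P gb u := Real.mul_self_sqrt hE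
  have hT : TT P ξ (Q P u) (Q P u) = TT P ξ (Qp P gb u) (Qp P gb u) +
      TT P ξ (Qp P gb u) (Qm P gb u) + TT P ξ (Qm P gb u) (Q P u) := by
    rw [← pf2_TT_add_right, Qp_add_Qm, ← pf2_TT_add_left, Qp_add_Qm]
  have n5 := k5 u
  have n4 := k4 u
  refine pf2_aux2 (E := En P gb u) (Em := En P gb (Qm P gb u)) (Ep := En P gb (Qp P gb u))
    (Tp := (TT P ξ (Qp P gb u) (Qp P gb u)).re) (T := (TT P ξ (Q P u) (Q P u)).re)
    (q := ‖Q P u‖) (h := ‖Qc P u‖) (l := (√P.L)⁻¹) hC hC' hl0 hl1 hlC hgpos hg1 hE hR hq hh hsplit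
    (by rw [hl2]; exact m1) m2 ?_ ?_ ?_ (En_ge P gb hg u) (norm_sq_Q P u)
  · have e1 : (TT P ξ (Q P u) (Q P u)).re - (TT P ξ (Qp P gb u) (Qp P gb u)).re =
        (TT P ξ (Qp P gb u) (Qm P gb u) + TT P ξ (Qm P gb u) (Q P u)).re := by
      rw [hT, Complex.add_re, Complex.add_re, Complex.add_re]
      ring
    rw [e1]
    refine (Complex.abs_re_le_norm _).trans ((norm_add_le _ _).trans ?_)
    have t1 : C * (√P.L)⁻¹ * (√(En P gb (Qp P gb u)) * √(En P gb (Qm P gb u))) ≤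
        C * (√P.L)⁻¹ * En P gb u := mul_le_mul_of_nonneg_left s1 (by positivity)
    have t2 : C * (√P.L)⁻¹ * (√(En P gb (Qm P gb u)) * √(En P gb u)) ≤
        C * (√P.L)⁻¹ * En P gb u := mul_le_mul_of_nonneg_left s2 (by positivity)
    linarith
  · have e1 : (inner ℂ u (X ξ u) : ℂ).re + 2 * (TT P ξ (Q P u) (Q P u)).re =
        ((inner ℂ u (X ξ u) : ℂ) + 2 * TT P ξ (Q P u) (Q P u)).re := by
      simp
    rw [e1, hl2]
    refine (Complex.re_le_norm _).trans (k3.trans ?_)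
    have t1 : ‖Qc P (AA P gb ξ u)‖ * (‖Q P u‖ + ‖Qc P (AA P gb ξ u)‖) ≤
        ‖AA P gb ξ u‖ * (‖Q P u‖ + ‖AA P gb ξ u‖) := by gcongr
    gcongr
  · refine k1.trans ?_
    gcongr

/-- (E0), normalised -/
theorem E00 : ∃ c L0 : ℝ, 0 < c ∧ ∀ (P : Par) (gb : ℂ), L0 ≤ P.L → ‖gb‖ = 1 → ∀ u : L2,
    c * P.g * ‖u‖ ≤ ‖B0 P gb u‖ := by
  obtain ⟨c, C, L0, hc, hC, h⟩ := Tplus0 1 one_pos
  refine ⟨√(c / C), L0, Real.sqrt_pos.2 (by positivity), ?_⟩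
  intro P gb hL hg u
  have hgpos := P.g_pos
  have hLpos : 0 < P.L := by linarith [P.hL]
  have h1 := h P gb 0 (fun _ => 0) hL hg le_rfl zero_le_one (by positivity)
    (AdmX.zero P le_rfl) u
  have hA : AA P gb (fun _ => 0) = B0 P gb := by
    unfold AA
    rw [X_zero, add_zero]
  rw [hA, X_zero] at h1
  simp only [zero_apply, inner_zero_right, Complex.zero_re] at h1
  have h2 : (√(c / C) * P.g * ‖u‖) ^ 2 ≤ ‖B0 P gb u‖ ^ 2 := by
    rw [mul_pow, mul_pow, Real.sq_sqrt (by positivity)]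
    have h3 : c * P.g * ‖u‖ ^ 2 ≤ C / P.g * ‖B0 P gb u‖ ^ 2 := by linarith
    have h4 : c * P.g * ‖u‖ ^ 2 * (P.g / C) ≤ C / P.g * ‖B0 P gb u‖ ^ 2 * (P.g / C) :=
      mul_le_mul_of_nonneg_right h3 (by positivity)
    have h5 : C / P.g * ‖B0 P gb u‖ ^ 2 * (P.g / C) = ‖B0 P gb u‖ ^ 2 := by
      field_simp
    rw [h5] at h4
    refine le_trans (le_of_eq ?_) h4
    field_simp
  exact le_of_sq_le_sq h2 (norm_nonneg _)

end Pool.Agent.Helper92.HRU
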