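import Pool.Agent.Helper92.HRU.BDefs
import Pool.Agent.Helper34.HRV.Defs
import Pool.Agent.Helper92.HRU.Pf.PN1
import Pool.Agent.Helper92.HRU.Pf.PN2
import Pool.Agent.Helper92.HRU.Pf.PQ1
import Pool.Agent.Helper92.HRU.Pf.PQ2
import Pool.Agent.Helper92.HRU.Pf.PJ1
import Pool.Agent.Helper92.HRU.Pf.PJ2
import Pool.Agent.Helper92.HRU.Pf.PJ3
import Pool.Agent.Helper92.HRU.Pf.PE1
import Pool.Agent.Helper92.HRU.Pf.PE4

/-! Piece PG1: fibres. -/

set_option autoImplicit false

namespace Pool.Agent.Helper92.HRU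

open Complex Set MeasureTheory Filter Topology
open scoped ComplexConjugate Real ENNReal
open Pool.Agent.Helper84.HRT (Weyl node chi mu8 XL Data Aop Bop Good)
open Pool.Agent.Helper34

theorem meas_Iy : MeasurableSet Iy := measurableSet_Ioo

theorem mem_Iy {y : ℝ} : y ∈ Iy ↔ |y| < 1 / 20 := by
  unfold Iy; rw [abs_lt]; rfl

/-- integral over the lines -/
theorem lint_lines (P : Par) (F : ℝ → ℝ≥0∞) :
    ∫⁻ x in Qs P, F x = ∑' n : ℤ, ∫⁻ y in Iy, F (Pt P n + y) := by
  unfold Qs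
  rw [lintegral_iUnion (fun n => measurableSet_Ioo)]
  · refine tsum_congr fun n => ?_
    have h := lintegral_add_left_eq_self (μ := (volume : Measure ℝ))
      (fun x => (Ioo (Pt P n - 1 / 20) (Pt P n + 1 / 20)).indicator F x) (Pt P n)
    rw [← lintegral_indicator measurableSet_Ioo, ← h, ← lintegral_indicator meas_Iy]
    refine lintegral_congr fun y => ?_
    by_cases hy : y ∈ Iy
    · rw [indicator_of_mem hy, indicator_of_mem]
      unfold Iy at hy
      constructor <;> linarith [hy.1, hy.2]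
    · rw [indicator_of_notMem hy, indicator_of_notMem]
      rintro ⟨h1, h2⟩
      exact hy ⟨by linarith, by linarith⟩
  · intro m n hmn
    rw [Function.onFun, Set.disjoint_left]
    intro x hx hx'
    apply hmn
    have h1 := idx_of_near P m (x - Pt P m) (by rw [abs_le]; constructor <;> linarith [hx.1, hx.2])
    have h2 := idx_of_near P n (x - Pt P n) (by rw [abs_le]; constructor <;> linarith [hx'.1, hx'.2])
    rw [add_sub_cancel] at h1 h2
    rw [← h1, ← h2]

theorem lint_norm (f : L2) : ∫⁻ x, ‖(f : ℝ → ℂ) x‖ₑ ^ 2 = ENNReal.ofReal (‖f‖ ^ 2) := by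
  have h1 : ‖f‖ₑ = eLpNorm (f : ℝ → ℂ) 2 volume := Lp.enorm_def f
  have h2 := eLpNorm_eq_lintegral_rpow_enorm_toReal (p := 2) (μ := (volume : Measure ℝ))
    (f := (f : ℝ → ℂ)) (by norm_num) (by norm_num)
  rw [← h1] at h2
  simp only [ENNReal.toReal_ofNat, ENNReal.rpow_two] at h2
  rw [ENNReal.ofReal_pow (norm_nonneg f), ofReal_norm, h2, ← ENNReal.rpow_two,
    ← ENNReal.rpow_mul]
  norm_num

theorem ae_shift {p : ℝ → Prop} (h : ∀ᵐ x : ℝ, p x) (c : ℝ) : ∀ᵐ y : ℝ, p (c + y) :=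
  (measurePreserving_add_left (volume : Measure ℝ) c).quasiMeasurePreserving.ae h

theorem Q_coe (P : Par) (f : L2) : (Q P f : ℝ → ℂ) =ᵐ[volume]
    fun x => (Qs P).indicator (fun _ => (1 : ℂ)) x * f x := mulOp_coe (bddM_ind (meas_Qs P)) f

theorem off_zero (P : Par) (f : L2) (hf : Q P f = f) : ∀ᵐ x : ℝ, x ∉ Qs P → (f : ℝ → ℂ) x = 0 := by
  have h := Q_coe P f
  rw [hf] at h
  filter_upwards [h] with x hx hn
  rw [indicator_of_notMem hn, zero_mul] at hx
  exact hx

/-- norm of `φ(y) f` -/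
theorem lines_norm (P : Par) {φ : ℝ → ℝ} (h : BddY φ) (f : L2) :
    ∑' n : ℤ, ∫⁻ y in Iy, ENNReal.ofReal (φ y ^ 2) * ‖(f : ℝ → ℂ) (Pt P n + y)‖ₑ ^ 2
      = ENNReal.ofReal (‖yMul P φ f‖ ^ 2) := by
  rw [← lint_norm]
  have h1 : ∫⁻ x, ‖(yMul P φ f : ℝ → ℂ) x‖ₑ ^ 2
      = ∫⁻ x in Qs P, ENNReal.ofReal (φ (yo P x) ^ 2) * ‖(f : ℝ → ℂ) x‖ₑ ^ 2 := by
    rw [← lintegral_indicator (meas_Qs P)]
    refine lintegral_congr_ae ?_
    filter_upwards [yMul_coe P h f] with x hx
    rw [hx]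
    by_cases hq : x ∈ Qs P
    · rw [indicator_of_mem hq, indicator_of_mem hq, enorm_mul, mul_pow]
      congr 1
      rw [← ofReal_norm, Complex.norm_real, Real.norm_eq_abs, ← ENNReal.ofReal_pow (abs_nonneg _),
        sq_abs]
    · rw [indicator_of_notMem hq, indicator_of_notMem hq]
      simp
  rw [h1, lint_lines]
  refine tsum_congr fun n => ?_
  refine setLIntegral_congr_fun meas_Iy fun y hy => ?_
  have hy' := mem_Iy.1 hy
  show _ = ENNReal.ofReal (φ (yo P (Pt P n + y)) ^ 2) * _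
  rw [yo_of_near P n y (by linarith)]

theorem bddY_one : BddY (fun _ => 1) := ⟨measurable_const, 1, fun _ _ => by simp⟩

theorem meas_rho (P : Par) : Measurable (rho P) := by
  unfold rho
  fun_prop

theorem meas_cf (P : Par) : Measurable (cf P) := by
  unfold cf
  have := meas_rho P
  fun_prop

theorem meas_sf (P : Par) : Measurable (sf P) := by
  unfold sf
  have := meas_rho P
  fun_prop

theorem abs_cf_le (P : Par) (y : ℝ) : |cf P y| ≤ 1 := by
  have h := cf_sq_add_sf_sq P y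
  rw [← sq_le_one_iff_abs_le_one]
  nlinarith [sq_nonneg (sf P y)]

theorem abs_sf_le (P : Par) (y : ℝ) : |sf P y| ≤ 1 := by
  have h := cf_sq_add_sf_sq P y
  rw [← sq_le_one_iff_abs_le_one]
  nlinarith [sq_nonneg (cf P y)]

theorem bddY_sf (P : Par) : BddY (sf P) := ⟨meas_sf P, 1, fun y _ => abs_sf_le P y⟩

theorem pg1_bdd_j0 (P : Par) : BddM (j0 P) := by
  constructor
  · unfold j0
    have h1 : Measurable fun x => ((cf P (yo P x) : ℝ) : ℂ) :=
      Complex.measurable_ofReal.comp ((meas_cf P).comp (yo_meas P))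
    refine Measurable.ite (meas_Qs P) (Measurable.ite ?_ h1.neg h1) measurable_const
    exact idx_meas (MeasurableSet.of_discrete (s := {n : ℤ | Even n}))
  · refine ⟨1, fun x => ?_⟩
    unfold j0
    split_ifs
    · rw [norm_neg, Complex.norm_real]; exact abs_cf_le P _
    · rw [Complex.norm_real]; exact abs_cf_le P _
    · simp

theorem sf_pos (P : Par) (y : ℝ) (hs : 0 < P.s ^ 2 * P.Th) : 0 < sf P y := by
  unfold sf
  exact div_pos hs (rho_pos P y)

theorem Jo_eq_self (P : Par) (gb : ℂ) (hg : ‖gb‖ = 1) (f : L2) (hf : Qp P gb f = f) :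
    Q P f = f ∧ Jo P gb f = f := by
  have h1 : Q P f = f := by
    have := Q_Qp P gb hg f
    rwa [hf] at this
  refine ⟨h1, ?_⟩
  have h2 : (1 / 2 : ℂ) • (Q P f + Jo P gb f) = f := hf
  rw [h1] at h2
  have h3 : f + Jo P gb f = (2 : ℂ) • ((1 / 2 : ℂ) • (f + Jo P gb f)) := by
    rw [smul_smul, mul_one_div_cancel two_ne_zero, one_smul]
  rw [h2, two_smul] at h3
  exact add_left_cancel h3

/-- the fibres of a vector of the positive band, pointwise -/
theorem fib_rel (P : Par) (gb : ℂ) (hg : ‖gb‖ = 1) (f : L2) (hf : Qp P gb f = f) (k : ℤ) :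
    ∀ᵐ y : ℝ, y ∈ Iy →
      ((1 + cf P y : ℝ) : ℂ) * f (Pt P (2 * k) + y)
        = (sf P y : ℂ) * ze P gb k * f (Pt P (2 * k - 1) + y) ∧
      ((1 - cf P y : ℝ) : ℂ) * f (Pt P (2 * k - 1) + y)
        = (sf P y : ℂ) * conj (ze P gb k) * f (Pt P (2 * k) + y) := by
  obtain ⟨hQ, hJ⟩ := Jo_eq_self P gb hg f hf
  have e1 : (Jo P gb f : ℝ → ℂ) =ᵐ[volume] fun x => j0 P x * f x +
      (Qs P).indicator (fun x => ((sf P (yo P x) : ℝ) : ℂ)) x *
        (s1 P gb x * f (x - P.sh) + s2 P gb x * f (x + P.sh)) := by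
    have h0 : Jo P gb f = mulOp (j0 P) f + yMul P (sf P) (Sw P gb f) := rfl
    rw [h0]
    filter_upwards [Lp.coeFn_add (mulOp (j0 P) f) (yMul P (sf P) (Sw P gb f)),
      mulOp_coe (pg1_bdd_j0 P) f, yMul_coe P (bddY_sf P) (Sw P gb f), Sw_coe P gb hg f]
      with x h1 h2 h3 h4
    rw [h1, Pi.add_apply, h2, h3, h4]
  rw [hJ] at e1
  have e2 := ae_shift e1 (Pt P (2 * k))
  have e3 := ae_shift e1 (Pt P (2 * k - 1))
  filter_upwards [e2, e3] with y h2 h3 hy
  have hy' := mem_Iy.1 hy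
  have ev : Even (2 * k) := even_two_mul k
  have nev : ¬ Even (2 * k - 1) := by
    rintro ⟨m, hm⟩; omega
  have od : Odd (2 * k - 1) := Int.not_even_iff_odd.1 nev
  have nod : ¬ Odd (2 * k) := by
    rw [Int.not_odd_iff_even]; exact ev
  have q : ∀ n : ℤ, Pt P n + y ∈ Qs P := fun n => by
    rw [mem_Qs, yo_of_near P n y (by linarith)]; exact hy'
  have sh1 : Pt P (2 * k) + y - P.sh = Pt P (2 * k - 1) + y := by
    unfold Pt Par.sh
    rw [if_pos ev, if_neg nev]
    push_cast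
    ring
  have sh2 : Pt P (2 * k - 1) + y + P.sh = Pt P (2 * k) + y := by
    rw [← sh1]; ring
  have i1 := idx_of_near P (2 * k) y (by linarith)
  have i2 := idx_of_near P (2 * k - 1) y (by linarith)
  have y1 := yo_of_near P (2 * k) y (by linarith)
  have y2 := yo_of_near P (2 * k - 1) y (by linarith)
  constructor
  · rw [indicator_of_mem (q _)] at h2
    unfold j0 s1 s2 at h2
    rw [if_pos (q _), i1, if_pos ev, if_pos ⟨q _, ev⟩, if_neg (fun h => nod h.2), y1, sh1] at h2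
    have e : 2 * k / 2 = k := by omega
    rw [e] at h2
    push_cast
    linear_combination h2
  · rw [indicator_of_mem (q _)] at h3
    unfold j0 s1 s2 at h3
    rw [if_pos (q _), i2, if_neg nev, if_neg (fun h => nev h.2), if_pos ⟨q _, od⟩, y2, sh2] at h3
    have e : (2 * k - 1 + 1) / 2 = k := by omega
    rw [e] at h3
    push_cast
    linear_combination h3


theorem ln_in (P : Par) (f : L2) (n : ℤ) {y : ℝ} (hy : y ∈ Iy) :
    ln P f n y = (f : ℝ → ℂ) (Pt P n + y) := by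
  unfold ln; exact indicator_of_mem hy _

theorem ln_off (P : Par) (f : L2) (n : ℤ) {y : ℝ} (hy : y ∉ Iy) : ln P f n y = 0 := by
  unfold ln; exact indicator_of_notMem hy _

theorem al_off (P : Par) (gb : ℂ) (f : L2) (k : ℤ) {y : ℝ} (hy : y ∉ Iy) : al P gb f k y = 0 := by
  unfold al; rw [ln_off P f _ hy, ln_off P f _ hy]; simp

theorem sqrt_mul_cf (P : Par) (y : ℝ) (hs : 0 < sf P y) :
    √((1 + cf P y) / 2) * √((1 - cf P y) / 2) = sf P y / 2 := by
  have h := abs_le.1 (abs_cf_le P y)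
  have h2 := cf_sq_add_sf_sq P y
  rw [← Real.sqrt_mul (by linarith : 0 ≤ (1 + cf P y) / 2)]
  have : (1 + cf P y) / 2 * ((1 - cf P y) / 2) = (sf P y / 2) ^ 2 := by
    nlinarith
  rw [this, Real.sqrt_sq (by linarith)]

theorem sThpos (P : Par) : 0 < P.s ^ 2 * P.Th := by
  have h1 := P.s_pos
  have h2 := P.Th_bd.1
  positivity

/-- for a vector of the positive band the lines are given by `al` -/
theorem fl_al (P : Par) (gb : ℂ) (hg : ‖gb‖ = 1) (f : L2) (hf : Qp P gb f = f) :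
    ∀ᵐ y : ℝ, ∀ n : ℤ, HRV.fl (cf P) (ze P gb) (al P gb f) n y = ln P f n y := by
  have h := ae_all_iff.2 fun k : ℤ => fib_rel P gb hg f hf k
  filter_upwards [h] with y hy n
  by_cases hI : y ∈ Iy
  swap
  · rw [ln_off P f n hI]
    unfold HRV.fl
    rw [al_off P gb f _ hI, al_off P gb f _ hI]
    simp
  have hsf := sf_pos P y (sThpos P)
  have hsq := sqrt_mul_cf P y hsf
  have hab := abs_le.1 (abs_cf_le P y)
  have p1 : √((1 + cf P y) / 2) * √((1 + cf P y) / 2) = (1 + cf P y) / 2 :=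
    Real.mul_self_sqrt (by linarith)
  have p2 : √((1 - cf P y) / 2) * √((1 - cf P y) / 2) = (1 - cf P y) / 2 :=
    Real.mul_self_sqrt (by linarith)
  have p1' : ((√((1 + cf P y) / 2) : ℝ) : ℂ) * ((√((1 + cf P y) / 2) : ℝ) : ℂ)
      = (1 + (cf P y : ℂ)) / 2 := by
    rw [← Complex.ofReal_mul, p1]; push_cast; ring
  have p2' : ((√((1 - cf P y) / 2) : ℝ) : ℂ) * ((√((1 - cf P y) / 2) : ℝ) : ℂ)
      = (1 - (cf P y : ℂ)) / 2 := by
    rw [← Complex.ofReal_mul, p2]; push_cast; ring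
  have hsq' : ((√((1 + cf P y) / 2) : ℝ) : ℂ) * ((√((1 - cf P y) / 2) : ℝ) : ℂ)
      = (sf P y : ℂ) / 2 := by
    rw [← Complex.ofReal_mul, hsq]; push_cast; ring
  rcases Int.even_or_odd n with he | ho
  · obtain ⟨k, hk⟩ := he
    have hk' : n = 2 * k := by omega
    subst hk'
    obtain ⟨r1, r2⟩ := hy k hI
    have hz : ze P gb k * conj (ze P gb k) = 1 := by
      rw [Complex.mul_conj, Complex.normSq_eq_norm_sq, norm_ze P gb hg k]; simp
    unfold HRV.fl
    have e : 2 * k / 2 = k := by omega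
    rw [if_pos (even_two_mul k), e]
    unfold al
    rw [ln_in P f _ hI, ln_in P f _ hI]
    push_cast at r1 r2
    linear_combination (ze P gb k * f (Pt P (2 * k - 1) + y)) * hsq' +
      (f (Pt P (2 * k) + y) * (((√((1 - cf P y) / 2) : ℝ) : ℂ) * ((√((1 - cf P y) / 2) : ℝ) : ℂ))) * hz
        + f (Pt P (2 * k) + y) * p2' - r1 / 2
  · have hne : ¬ Even n := Int.not_even_iff_odd.2 ho
    obtain ⟨k, hk⟩ := ho
    have hk' : n = 2 * (k + 1) - 1 := by omega
    subst hk'
    obtain ⟨r1, r2⟩ := hy (k + 1) hI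
    unfold HRV.fl
    have e : (2 * (k + 1) - 1 + 1) / 2 = k + 1 := by omega
    rw [if_neg hne, e]
    unfold al
    rw [ln_in P f _ hI, ln_in P f _ hI]
    push_cast at r1 r2
    linear_combination (conj (ze P gb (k + 1)) * f (Pt P (2 * (k + 1)) + y)) * hsq' +
      f (Pt P (2 * (k + 1) - 1) + y) * p1' - r2 / 2


theorem tsum_parity (g : ℤ → ℝ≥0∞) :
    ∑' n : ℤ, g n = ∑' k : ℤ, (g (2 * k - 1) + g (2 * k)) := by
  have h1 : ∀ n : ℤ, g n = (if Even n then 0 else g n) + (if Even n then g n else 0) := by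
    intro n; split_ifs <;> simp
  rw [tsum_congr h1, ENNReal.tsum_add, ENNReal.tsum_add]
  congr 1
  · have hinj : Function.Injective (fun k : ℤ => 2 * k - 1) := fun a b h => by simpa using h
    rw [← hinj.tsum_eq]
    · refine tsum_congr fun k => ?_
      have : ¬ Even (2 * k - 1) := by rintro ⟨m, hm⟩; omega
      rw [if_neg this]
    · intro n hn
      have hne : ¬ Even n := by
        intro he
        apply hn
        simp [he]
      obtain ⟨m, hm⟩ := Int.not_even_iff_odd.1 hne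
      exact ⟨m + 1, by simp only; omega⟩
  · have hinj : Function.Injective (fun k : ℤ => 2 * k) := fun a b h => by simpa using h
    rw [← hinj.tsum_eq]
    · refine tsum_congr fun k => ?_
      rw [if_pos (even_two_mul k)]
    · intro n hn
      have he : Even n := by
        by_contra he
        apply hn
        simp [he]
      obtain ⟨m, hm⟩ := he
      exact ⟨m, by simp only; omega⟩

theorem enorm_real_sq (x : ℝ) : ‖(x : ℂ)‖ₑ ^ 2 = ENNReal.ofReal (x ^ 2) := by
  rw [← ofReal_norm, Complex.norm_real, Real.norm_eq_abs, ← ENNReal.ofReal_pow (abs_nonneg _),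
    sq_abs]

theorem al_sum (P : Par) (gb : ℂ) (hg : ‖gb‖ = 1) (f : L2) (hf : Qp P gb f = f) :
    ∀ᵐ y : ℝ, ∑' k : ℤ, ‖al P gb f k y‖ₑ ^ 2 = ∑' n : ℤ, ‖ln P f n y‖ₑ ^ 2 := by
  filter_upwards [fl_al P gb hg f hf] with y hy
  rw [tsum_parity fun n => ‖ln P f n y‖ₑ ^ 2]
  refine tsum_congr fun k => ?_
  have h1 := hy (2 * k - 1)
  have h2 := hy (2 * k)
  have hab := abs_le.1 (abs_cf_le P y)
  have nev : ¬ Even (2 * k - 1) := by rintro ⟨m, hm⟩; omega
  unfold HRV.fl at h1 h2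
  rw [if_neg nev, show (2 * k - 1 + 1) / 2 = k by omega] at h1
  rw [if_pos (even_two_mul k), show 2 * k / 2 = k by omega] at h2
  have hz : ‖ze P gb k‖ₑ = 1 := by
    rw [← ofReal_norm, norm_ze P gb hg k]; simp
  rw [← h1, ← h2, enorm_mul, enorm_mul, enorm_mul, mul_pow, mul_pow, mul_pow, hz, enorm_real_sq,
    enorm_real_sq, Real.sq_sqrt (by linarith), Real.sq_sqrt (by linarith), one_pow, one_mul,
    ← add_mul, ← ENNReal.ofReal_add (by linarith) (by linarith)]
  rw [show (1 + cf P y) / 2 + (1 - cf P y) / 2 = 1 by ring, ENNReal.ofReal_one, one_mul]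

theorem meas_L2 (f : L2) : Measurable (f : ℝ → ℂ) := (Lp.stronglyMeasurable f).measurable

theorem meas_ln (P : Par) (f : L2) (n : ℤ) : Measurable (ln P f n) := by
  unfold ln
  have h : Measurable fun y : ℝ => (f : ℝ → ℂ) (Pt P n + y) :=
    (meas_L2 f).comp (measurable_const_add _)
  exact h.indicator measurableSet_Ioo

theorem meas_al (P : Par) (gb : ℂ) (f : L2) (k : ℤ) : Measurable (al P gb f k) := by
  unfold al
  have h1 := meas_ln P f (2 * k - 1)
  have h2 := meas_ln P f (2 * k)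
  have h3 := meas_cf P
  refine Measurable.add ?_ ?_
  · refine Measurable.mul ?_ h1
    exact Complex.measurable_ofReal.comp ((h3.const_add 1).div_const 2).sqrt
  · refine Measurable.mul ?_ h2
    exact (Complex.measurable_ofReal.comp ((h3.const_sub 1).div_const 2).sqrt).const_mul _

/-- the square sum of the amplitudes -/
noncomputable def SS (P : Par) (gb : ℂ) (f : L2) (y : ℝ) : ℝ≥0∞ := ∑' k : ℤ, ‖al P gb f k y‖ₑ ^ 2

theorem meas_SS (P : Par) (gb : ℂ) (f : L2) : Measurable (SS P gb f) := by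
  unfold SS
  exact Measurable.tsum fun k => (meas_al P gb f k).enorm.pow_const 2

theorem al_norm (P : Par) (gb : ℂ) (hg : ‖gb‖ = 1) (f : L2) (hf : Qp P gb f = f) {φ : ℝ → ℝ}
    (h : BddY φ) : ∫⁻ y in Iy, ENNReal.ofReal (φ y ^ 2) * SS P gb f y
      = ENNReal.ofReal (‖yMul P φ f‖ ^ 2) := by
  rw [← lines_norm P h f, ← lintegral_tsum]
  · refine lintegral_congr_ae ?_
    filter_upwards [ae_restrict_of_ae (al_sum P gb hg f hf), ae_restrict_mem meas_Iy] with y hy hI
    unfold SS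
    rw [hy, ENNReal.tsum_mul_left]
    congr 1
    refine tsum_congr fun n => ?_
    rw [ln_in P f n hI]
  · intro n
    have h1 : Measurable fun y : ℝ => (f : ℝ → ℂ) (Pt P n + y) :=
      (meas_L2 f).comp (measurable_const_add _)
    exact ((h.1.pow_const 2).ennreal_ofReal.mul (h1.enorm.pow_const 2)).aemeasurable

theorem SS_fin (P : Par) (gb : ℂ) (hg : ‖gb‖ = 1) (f : L2) (hf : Qp P gb f = f) :
    ∀ᵐ y : ℝ, SS P gb f y ≠ ⊤ := by
  have h1 := al_norm P gb hg f hf bddY_one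
  have h2 : ∫⁻ y in Iy, SS P gb f y ≠ ⊤ := by
    simp only [one_pow, ENNReal.ofReal_one, one_mul] at h1
    rw [h1]; exact ENNReal.ofReal_ne_top
  have h3 := ae_lt_top (meas_SS P gb f) h2
  rw [ae_restrict_iff' meas_Iy] at h3
  filter_upwards [h3] with y hy
  by_cases hI : y ∈ Iy
  · exact (hy hI).ne
  · unfold SS
    simp [al_off P gb f _ hI]

open scoped Classical in
/-- the amplitudes, truncated to be square summable everywhere -/
noncomputable def alF (P : Par) (gb : ℂ) (f : L2) (k : ℤ) (y : ℝ) : ℂ :=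
  if SS P gb f y = ⊤ then 0 else al P gb f k y

theorem alF_eq (P : Par) (gb : ℂ) (hg : ‖gb‖ = 1) (f : L2) (hf : Qp P gb f = f) :
    ∀ᵐ y : ℝ, ∀ k : ℤ, alF P gb f k y = al P gb f k y := by
  filter_upwards [SS_fin P gb hg f hf] with y hy k
  unfold alF
  rw [if_neg hy]

theorem alF_ofReal (P : Par) (gb : ℂ) (f : L2) (y : ℝ) :
    Summable (fun k => ‖alF P gb f k y‖ ^ 2) ∧
    (SS P gb f y ≠ ⊤ → ENNReal.ofReal (∑' k, ‖alF P gb f k y‖ ^ 2) = SS P gb f y) := by
  by_cases h : SS P gb f y = ⊤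
  · have h0 : ∀ k, alF P gb f k y = 0 := fun k => by unfold alF; rw [if_pos h]
    refine ⟨?_, fun h' => absurd h h'⟩
    simp [h0, summable_zero]
  · have h0 : ∀ k, alF P gb f k y = al P gb f k y := fun k => by unfold alF; rw [if_neg h]
    have h1 : Summable fun k => ‖al P gb f k y‖ ^ 2 := by
      have := ENNReal.summable_toReal h
      refine this.congr fun k => ?_
      simp
    simp only [h0]
    refine ⟨h1, fun _ => ?_⟩
    rw [ENNReal.ofReal_tsum_of_nonneg (fun k => by positivity) h1]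
    unfold SS
    refine tsum_congr fun k => ?_
    rw [ENNReal.ofReal_pow (norm_nonneg _), ofReal_norm]

theorem meas_alF (P : Par) (gb : ℂ) (f : L2) (k : ℤ) : Measurable (alF P gb f k) := by
  unfold alF
  exact Measurable.ite ((meas_SS P gb f) (measurableSet_singleton ⊤)) measurable_const
    (meas_al P gb f k)

theorem An_sq (a : ℤ → ℝ → ℂ) (y : ℝ) : HRV.An a y ^ 2 = ∑' k, ‖a k y‖ ^ 2 :=
  Real.sq_sqrt (tsum_nonneg fun k => by positivity)

theorem meas_An (P : Par) (gb : ℂ) (f : L2) : Measurable (HRV.An (alF P gb f)) := by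
  have h : HRV.An (alF P gb f) = fun y => √((∑' k, ‖alF P gb f k y‖ₑ ^ 2).toReal) := by
    funext y
    unfold HRV.An
    congr 1
    rw [ENNReal.tsum_toReal_eq (fun k => by finiteness)]
    refine tsum_congr fun k => ?_
    simp
  rw [h]
  exact ((Measurable.tsum fun k =>
    (meas_alF P gb f k).enorm.pow_const 2).ennreal_toReal).sqrt

/-- weighted norms in terms of the amplitudes -/
theorem alF_int (P : Par) (gb : ℂ) (hg : ‖gb‖ = 1) (f : L2) (hf : Qp P gb f = f) {φ : ℝ → ℝ}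
    (h : BddY φ) : Integrable (fun y => φ y ^ 2 * HRV.An (alF P gb f) y ^ 2) ∧
      ∫ y, φ y ^ 2 * HRV.An (alF P gb f) y ^ 2 = ‖yMul P φ f‖ ^ 2 := by
  have h1 := al_norm P gb hg f hf h
  have hm : Measurable fun y => φ y ^ 2 * HRV.An (alF P gb f) y ^ 2 :=
    (h.1.pow_const 2).mul ((meas_An P gb f).pow_const 2)
  have h2 : ∫⁻ y, ENNReal.ofReal (φ y ^ 2 * HRV.An (alF P gb f) y ^ 2)
      = ENNReal.ofReal (‖yMul P φ f‖ ^ 2) := by
    rw [← h1, ← lintegral_indicator meas_Iy]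
    refine lintegral_congr_ae ?_
    filter_upwards [SS_fin P gb hg f hf] with y hy
    have h3 := (alF_ofReal P gb f y).2 hy
    by_cases hI : y ∈ Iy
    · rw [indicator_of_mem hI, ENNReal.ofReal_mul (by positivity), An_sq, h3]
    · rw [indicator_of_notMem hI]
      have h0 : ∀ k, alF P gb f k y = 0 := fun k => by
        unfold alF; rw [if_neg hy, al_off P gb f k hI]
      rw [An_sq]
      simp [h0]
  have hint : Integrable (fun y => φ y ^ 2 * HRV.An (alF P gb f) y ^ 2) := by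
    refine ⟨hm.aestronglyMeasurable, ?_⟩
    rw [hasFiniteIntegral_iff_ofReal (Eventually.of_forall fun y => by positivity), h2]
    exact ENNReal.ofReal_lt_top
  refine ⟨hint, ?_⟩
  rw [integral_eq_lintegral_of_nonneg_ae (Eventually.of_forall fun y => by positivity)
    hm.aestronglyMeasurable, h2, ENNReal.toReal_ofReal (by positivity)]

/-- the amplitudes of a vector of the positive band are fibre data -/
theorem alF_fib (P : Par) (gb : ℂ) (hg : ‖gb‖ = 1) (f : L2) (hf : Qp P gb f = f) :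
    HRV.Fib (cf P) (ze P gb) (alF P gb f) where
  cf_meas := meas_cf P
  cf_le := abs_cf_le P
  ζ_one := norm_ze P gb hg
  a_meas := meas_alF P gb f
  a_supp := by
    intro k y h
    by_contra hn
    apply h
    have hI : y ∉ Iy := fun hI => hn (mem_Iy.1 hI)
    unfold alF
    rw [al_off P gb f k hI]
    simp
  a_sum := fun y => (alF_ofReal P gb f y).1
  a_int := by
    have h := (alF_int P gb hg f hf bddY_one).1
    refine h.congr (Eventually.of_forall fun y => ?_)
    show (1 : ℝ) ^ 2 * HRV.An (alF P gb f) y ^ 2 = _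
    rw [An_sq]; ring

theorem alF_norm (P : Par) (gb : ℂ) (hg : ‖gb‖ = 1) (f : L2) (hf : Qp P gb f = f) :
    ∫ y, HRV.An (alF P gb f) y ^ 2 = ‖f‖ ^ 2 := by
  have h := (alF_int P gb hg f hf bddY_one).2
  rw [yMul_one, (Jo_eq_self P gb hg f hf).1] at h
  rw [← h]
  refine integral_congr_ae (Eventually.of_forall fun y => ?_)
  show _ = (1 : ℝ) ^ 2 * HRV.An (alF P gb f) y ^ 2
  ring

theorem bddY_sqrt_ee (P : Par) : BddY fun y => √(ee P y) := by
  refine ⟨(ee_cont P).measurable.sqrt, √3, fun y _ => ?_⟩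
  rw [abs_of_nonneg (Real.sqrt_nonneg _)]
  exact Real.sqrt_le_sqrt ((ee_le_eb P y).trans (eb_le P y))

theorem alF_En (P : Par) (gb : ℂ) (hg : ‖gb‖ = 1) (f : L2) (hf : Qp P gb f = f) :
    Integrable (fun y => ee P y * HRV.An (alF P gb f) y ^ 2) ∧
    ∫ y, ee P y * HRV.An (alF P gb f) y ^ 2 = En P gb f := by
  obtain ⟨h1, h2⟩ := alF_int P gb hg f hf (bddY_sqrt_ee P)
  have he : ∀ y, √(ee P y) ^ 2 = ee P y := fun y =>
    Real.sq_sqrt (P.g_pos.le.trans (ee_ge P y))
  simp only [he] at h1 h2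
  refine ⟨h1, ?_⟩
  have h3 := En_Qp P gb hg f
  rw [hf] at h3
  rw [h2, h3]

theorem alF_lin (P : Par) (gb : ℂ) (hg : ‖gb‖ = 1) (x x' : ℂ) (f h : L2) (hf : Qp P gb f = f)
    (hh : Qp P gb h = h) :
    ∀ᵐ y : ℝ, ∀ k : ℤ, alF P gb (x • f + x' • h) k y = x * alF P gb f k y + x' * alF P gb h k y := by
  have hs : Qp P gb (x • f + x' • h) = x • f + x' • h := by
    rw [map_add, map_smul, map_smul, hf, hh]
  have h1 : ((x • f + x' • h : L2) : ℝ → ℂ) =ᵐ[volume] fun z => x * f z + x' * h z := by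
    filter_upwards [Lp.coeFn_add (x • f) (x' • h), Lp.coeFn_smul x f, Lp.coeFn_smul x' h]
      with z h1 h2 h3
    rw [h1, Pi.add_apply, h2, h3]
    simp
  have h2 := ae_all_iff.2 fun n : ℤ => ae_shift h1 (Pt P n)
  filter_upwards [alF_eq P gb hg f hf, alF_eq P gb hg h hh, alF_eq P gb hg _ hs, h2]
    with y e1 e2 e3 e4 k
  rw [e1, e2, e3]
  by_cases hI : y ∈ Iy
  · unfold al
    rw [ln_in P _ _ hI, ln_in P _ _ hI, ln_in P _ _ hI, ln_in P _ _ hI, ln_in P _ _ hI,
      ln_in P _ _ hI, e4, e4]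
    ring
  · rw [al_off P gb _ _ hI, al_off P gb _ _ hI, al_off P gb _ _ hI]
    ring

/-- the lines of a vector of the positive band -/
theorem alF_fl (P : Par) (gb : ℂ) (hg : ‖gb‖ = 1) (f : L2) (hf : Qp P gb f = f) (n : ℤ) :
    HRV.fl (cf P) (ze P gb) (alF P gb f) n =ᵐ[volume] ln P f n := by
  filter_upwards [fl_al P gb hg f hf, alF_eq P gb hg f hf] with y h1 h2
  rw [← h1 n]
  unfold HRV.fl
  rw [h2, h2]

end Pool.Agent.Helper92.HRU
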