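import Pool.Agent.Helper92.HRU.BDefs
import Pool.Agent.Helper34.HRV.Defs
import Pool.Agent.Helper34.HRV.Wt.W2

/-! Piece PG2: the bridge `T(f,f) = Σ_n sg_n T_n(f_n)` (helper34, `HRV/Wt/W2.lean`). -/

set_option autoImplicit false

namespace Pool.Agent.Helper92.HRU

open Complex Set MeasureTheory Filter Topology
open scoped ComplexConjugate Real ENNReal
open Pool.Agent.Helper34

theorem TT_bridge (P : Par) (r : ℝ) (ξ : ℝ → ℂ) (k : ℝ → ℂ)
    (hk : HRV.Ker (r / (4 * π)) k) (hX : ∀ f : L2, (X0 ξ f : ℝ → ℂ) =ᵐ[volume] kerf k f)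
    (f : L2) (hf : Q P f = f) :
    HasSum (fun n : ℤ => HRV.sg n * HRV.Tl k (HRV.Pt P.del n) (HRV.dl P.del n) (ln P f n))
      (TT P ξ f f).re := HRV.TT_lines P ξ _ k hk f hf (hX f)

end Pool.Agent.Helper92.HRU
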