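import Pool.Agent.Helper92.HRU.BDefs

/-! Piece PN4: positivity of Wc. -/

set_option autoImplicit false

namespace Pool.Agent.Helper92.HRU

open Complex Set MeasureTheory Filter Topology
open scoped ComplexConjugate Real ENNReal
open Pool.Agent.Helper84.HRT (Weyl node chi mu8 XL Data Aop Bop Good)

private theorem pn4_cc {v : ℝ} (h1 : 1 / 2 ≤ v) (h2 : v ≤ 3 / 2) : 0 < cc v ∧ cc v < 1 := by
  unfold cc
  constructor
  · apply Real.sqrt_pos.2
    nlinarith
  · rw [show (1 : ℝ) = √1 by simp]
    apply Real.sqrt_lt_sqrt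
    · rw [Real.sqrt_one]
      nlinarith
    · rw [Real.sqrt_one]
      nlinarith

private theorem pn4_sin {v : ℝ} (h1 : 1 / 2 ≤ v) (h2 : v ≤ 3 / 2) : 0 < Real.sin v :=
  Real.sin_pos_of_pos_of_lt_pi (by linarith) (by linarith [Real.pi_gt_three])

private theorem pn4_cont : Continuous cc := by
  unfold cc
  fun_prop

/-- the constant `W` is positive -/
theorem Wc_pos : 0 < Wc := by
  unfold Wc
  refine mul_pos (by positivity) ?_
  rw [← integral_Ioc_eq_integral_Ioo, ← intervalIntegral.integral_of_le (by norm_num)]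
  refine intervalIntegral.intervalIntegral_pos_of_pos_on ?_ ?_ (by norm_num)
  · apply ContinuousOn.intervalIntegrable
    rw [Set.uIcc_of_le (by norm_num)]
    refine ContinuousOn.mul (ContinuousOn.div ?_ ?_ ?_) ?_
    · exact (Real.continuous_sin.comp (continuous_id.mul pn4_cont)).continuousOn
    · exact Real.continuous_sin.continuousOn
    · intro v hv
      exact (pn4_sin hv.1 hv.2).ne'
    · exact (Real.continuous_sin.comp (continuous_const.mul pn4_cont)).continuousOn
  · intro v hv
    obtain ⟨h1, h2⟩ := pn4_cc hv.1.le hv.2.le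
    have hpi := Real.pi_gt_three
    have hv0 : 0 < v := by linarith [hv.1]
    refine mul_pos (div_pos ?_ (pn4_sin hv.1.le hv.2.le)) ?_
    · refine Real.sin_pos_of_pos_of_lt_pi (mul_pos hv0 h1) ?_
      have := hv.2
      nlinarith
    · refine Real.sin_pos_of_pos_of_lt_pi (mul_pos Real.pi_pos h1) ?_
      nlinarith

end Pool.Agent.Helper92.HRU
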