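import Pool.Agent.Helper92.HRU.BDefs
import Pool.Agent.Helper34.HRV.Defs
import Pool.Agent.Helper34.HRV.St.S1
import Pool.Agent.Helper34.HRV.St.S4
import Pool.Agent.Helper92.HRU.Pf.PN1
import Pool.Agent.Helper92.HRU.Pf.PN2
import Pool.Agent.Helper92.HRU.Pf.PN4
import Pool.Agent.Helper92.HRU.Pf.PK1
import Pool.Agent.Helper92.HRU.Pf.PK2
import Pool.Agent.Helper92.HRU.Pf.PE1
import Pool.Agent.Helper92.HRU.Pf.PE2
import Pool.Agent.Helper92.HRU.Pf.PE4
import Pool.Agent.Helper92.HRU.Pf.PG1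
import Pool.Agent.Helper92.HRU.Pf.PG2

/-! Piece PG3: upper bound of `T` on the positive band. -/

set_option autoImplicit false

namespace Pool.Agent.Helper92.HRU

open Complex Set MeasureTheory Filter Topology
open scoped ComplexConjugate Real ENNReal
open Pool.Agent.Helper84.HRT (Weyl node chi mu8 XL Data Aop Bop Good)
open Pool.Agent.Helper34

theorem ee_pos (P : Par) (y : ℝ) : 0 < ee P y := P.g_pos.trans_le (ee_ge P y)

theorem L_pos (P : Par) : 0 < P.L := by linarith [P.hL]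

/-- `|c(y)| ≤ |y| / s²` -/
theorem cf_le_y (P : Par) (y : ℝ) : |cf P y| ≤ |y| / P.s ^ 2 := by
  have h1 : P.s ^ 2 * P.Th ≤ rho P y := by
    unfold rho
    apply Real.le_sqrt_of_sq_le
    nlinarith [sq_nonneg (Real.sin y)]
  have hT := P.Th_bd.1
  have hs := P.s_pos
  have h2 : 0 < P.s ^ 2 := by positivity
  have h3 : 2 * P.s ^ 2 ≤ rho P y := by nlinarith only [h1, h2, hT]
  unfold cf
  rw [abs_div, abs_mul, abs_two, abs_of_pos (rho_pos P y), div_le_div_iff₀ (rho_pos P y) h2]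
  have h4 : |Real.sin y| ≤ |y| := Real.abs_sin_le_abs
  nlinarith only [h4, h3, abs_nonneg y, abs_nonneg (Real.sin y)]

/-- `∫ (|c| + |y|)² / e ≤ C L` -/
theorem cfy_lint : ∃ C : ℝ, 0 < C ∧ ∀ P : Par,
    ∫⁻ y in Iy, ENNReal.ofReal ((|cf P y| + |y|) ^ 2 * (ee P y)⁻¹)
      ≤ ENNReal.ofReal (C * P.L) := by
  obtain ⟨c1, C1, hc1, hC1, hL⟩ := Lam_bounds
  obtain ⟨C2, hC2, hT⟩ := Lam_tail
  obtain ⟨C3, hC3, hY⟩ := y2_int
  refine ⟨2 * C1 + 2 * C2 + 2 * C3, by positivity, fun P => ?_⟩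
  have lp := L_pos P
  have l1 : 1 ≤ P.L := by linarith [P.hL]
  set S : Set ℝ := Iy \ Icc (-(P.s ^ 2 / P.L)) (P.s ^ 2 / P.L) with hS
  have hSm : MeasurableSet S := meas_Iy.diff measurableSet_Icc
  have hem := (ee_cont P).measurable
  have hpt : ∀ y ∈ Iy, ENNReal.ofReal ((|cf P y| + |y|) ^ 2 * (ee P y)⁻¹)
      ≤ ENNReal.ofReal (2 * (P.L ^ 2)⁻¹) * ENNReal.ofReal (ee P y)⁻¹
        + S.indicator (fun y => ENNReal.ofReal 2 * ENNReal.ofReal (ee P y)⁻¹) y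
        + ENNReal.ofReal 2 * ENNReal.ofReal (y ^ 2 * (ee P y)⁻¹) := by
    intro y hy
    have he : 0 < (ee P y)⁻¹ := inv_pos.2 (ee_pos P y)
    have h0 : (|cf P y| + |y|) ^ 2 * (ee P y)⁻¹
        ≤ 2 * cf P y ^ 2 * (ee P y)⁻¹ + 2 * (y ^ 2 * (ee P y)⁻¹) := by
      have : (|cf P y| + |y|) ^ 2 ≤ 2 * cf P y ^ 2 + 2 * y ^ 2 := by
        have h1 := sq_abs (cf P y)
        have h2 := sq_abs y
        nlinarith only [h1, h2, sq_nonneg (|cf P y| - |y|)]
      nlinarith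
    rw [← ENNReal.ofReal_mul (by positivity), ← ENNReal.ofReal_mul (by positivity)]
    by_cases hyS : y ∈ S
    · rw [indicator_of_mem hyS, ← ENNReal.ofReal_mul (by positivity),
        ← ENNReal.ofReal_add (by positivity) (by positivity),
        ← ENNReal.ofReal_add (by positivity) (by positivity)]
      apply ENNReal.ofReal_le_ofReal
      have h1 : cf P y ^ 2 ≤ 1 := by
        rw [sq_le_one_iff_abs_le_one]; exact abs_cf_le P y
      have h2 : 2 * cf P y ^ 2 * (ee P y)⁻¹ ≤ 2 * (ee P y)⁻¹ := by nlinarith only [he, h1]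
      have h3 : 0 ≤ 2 * (P.L ^ 2)⁻¹ * (ee P y)⁻¹ := by positivity
      linarith
    · rw [indicator_of_notMem hyS, add_zero, ← ENNReal.ofReal_add (by positivity) (by positivity)]
      apply ENNReal.ofReal_le_ofReal
      have h1 : y ∈ Icc (-(P.s ^ 2 / P.L)) (P.s ^ 2 / P.L) := by
        by_contra hn
        exact hyS ⟨hy, hn⟩
      have h2 : |y| ≤ P.s ^ 2 / P.L := abs_le.2 h1
      have h3 := cf_le_y P y
      have hs := P.s_pos
      have h4 : |cf P y| ≤ P.L⁻¹ := by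
        refine h3.trans ?_
        rw [div_le_iff₀ (by positivity)]
        calc |y| ≤ P.s ^ 2 / P.L := h2
          _ = P.L⁻¹ * P.s ^ 2 := by rw [div_eq_inv_mul]
      have h5 : cf P y ^ 2 ≤ (P.L ^ 2)⁻¹ := by
        rw [← sq_abs, ← inv_pow]
        exact pow_le_pow_left₀ (abs_nonneg _) h4 2
      have h6 : 2 * cf P y ^ 2 * (ee P y)⁻¹ ≤ 2 * (P.L ^ 2)⁻¹ * (ee P y)⁻¹ := by
        nlinarith only [he, h5]
      linarith
  calc ∫⁻ y in Iy, ENNReal.ofReal ((|cf P y| + |y|) ^ 2 * (ee P y)⁻¹)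
      ≤ ∫⁻ y in Iy, (ENNReal.ofReal (2 * (P.L ^ 2)⁻¹) * ENNReal.ofReal (ee P y)⁻¹
        + S.indicator (fun y => ENNReal.ofReal 2 * ENNReal.ofReal (ee P y)⁻¹) y
        + ENNReal.ofReal 2 * ENNReal.ofReal (y ^ 2 * (ee P y)⁻¹)) :=
        setLIntegral_mono' meas_Iy hpt
    _ = ENNReal.ofReal (2 * (P.L ^ 2)⁻¹) * (∫⁻ y in Iy, ENNReal.ofReal (ee P y)⁻¹)
        + ENNReal.ofReal 2 * (∫⁻ y in S, ENNReal.ofReal (ee P y)⁻¹)
        + ENNReal.ofReal 2 * (∫⁻ y in Iy, ENNReal.ofReal (y ^ 2 * (ee P y)⁻¹)) := by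
        have m1 : Measurable fun y => ENNReal.ofReal (ee P y)⁻¹ := hem.inv.ennreal_ofReal
        have m2 : Measurable fun y => ENNReal.ofReal (2 * (P.L ^ 2)⁻¹) * ENNReal.ofReal (ee P y)⁻¹ :=
          m1.const_mul _
        have m3 : Measurable (S.indicator fun y => ENNReal.ofReal 2 * ENNReal.ofReal (ee P y)⁻¹) :=
          (m1.const_mul _).indicator hSm
        have m4 : Measurable fun y => ENNReal.ofReal (2 * (P.L ^ 2)⁻¹) * ENNReal.ofReal (ee P y)⁻¹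
            + S.indicator (fun y => ENNReal.ofReal 2 * ENNReal.ofReal (ee P y)⁻¹) y := m2.add m3
        have m5 : Measurable fun y : ℝ => ENNReal.ofReal (y ^ 2 * (ee P y)⁻¹) := by
          have : Measurable fun y : ℝ => y ^ 2 * (ee P y)⁻¹ :=
            (measurable_id.pow_const 2).mul hem.inv
          exact this.ennreal_ofReal
        rw [lintegral_add_left m4, lintegral_add_left m2, lintegral_const_mul _ m1,
          lintegral_const_mul _ m5]
        congr 2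
        rw [lintegral_indicator hSm, Measure.restrict_restrict hSm, lintegral_const_mul _ m1]
        congr 2
        rw [inter_eq_self_of_subset_left]
        exact sdiff_subset
    _ ≤ ENNReal.ofReal (2 * (P.L ^ 2)⁻¹) * ENNReal.ofReal (C1 * P.L ^ 2)
        + ENNReal.ofReal 2 * ENNReal.ofReal (C2 * P.L)
        + ENNReal.ofReal 2 * ENNReal.ofReal C3 := by
        gcongr
        · rw [Lam_lint]
          exact ENNReal.ofReal_le_ofReal (hL P).2
        · exact hT P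
        · exact hY P
    _ ≤ ENNReal.ofReal ((2 * C1 + 2 * C2 + 2 * C3) * P.L) := by
        rw [← ENNReal.ofReal_mul (by positivity), ← ENNReal.ofReal_mul (by positivity),
          ← ENNReal.ofReal_mul (by positivity), ← ENNReal.ofReal_add (by positivity) (by positivity),
          ← ENNReal.ofReal_add (by positivity) (by positivity)]
        apply ENNReal.ofReal_le_ofReal
        have h1 : 2 * (P.L ^ 2)⁻¹ * (C1 * P.L ^ 2) = 2 * C1 := by
          field_simp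
        rw [h1]
        nlinarith


/-- weighted Cauchy-Schwarz -/
theorem cs_w (P : Par) (w A : ℝ → ℝ) (hw : Measurable w) (hw0 : ∀ y, 0 ≤ w y) (hA : Measurable A)
    (hA0 : ∀ y, 0 ≤ A y) (hs : ∀ y, A y ≠ 0 → y ∈ Iy) (hI : Integrable fun y => ee P y * A y ^ 2)
    (M : ℝ) (hM : 0 ≤ M)
    (hwM : ∫⁻ y in Iy, ENNReal.ofReal (w y ^ 2 * (ee P y)⁻¹) ≤ ENNReal.ofReal M) :
    Integrable (fun y => w y * A y) ∧ (∫ y, w y * A y) ^ 2 ≤ M * ∫ y, ee P y * A y ^ 2 := by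
  have hem := (ee_cont P).measurable
  set E : ℝ := ∫ y, ee P y * A y ^ 2 with hE
  have hE0 : 0 ≤ E := integral_nonneg fun y => mul_nonneg (ee_pos P y).le (sq_nonneg _)
  have hwA : Measurable fun y => w y * A y := hw.mul hA
  -- Hölder
  have h1 := ENNReal.lintegral_mul_le_Lp_mul_Lq (volume.restrict Iy) Real.HolderConjugate.two_two
    (f := fun y => ENNReal.ofReal (w y * (√(ee P y))⁻¹)) (g := fun y => ENNReal.ofReal (√(ee P y) * A y))
    (hw.mul hem.sqrt.inv).ennreal_ofReal.aemeasurable (hem.sqrt.mul hA).ennreal_ofReal.aemeasurable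
  have h2 : ∫⁻ y, ENNReal.ofReal (w y * A y) = ∫⁻ y in Iy,
      ((fun y => ENNReal.ofReal (w y * (√(ee P y))⁻¹)) * fun y => ENNReal.ofReal (√(ee P y) * A y)) y := by
    rw [← lintegral_indicator meas_Iy]
    refine lintegral_congr fun y => ?_
    by_cases hy : y ∈ Iy
    · rw [indicator_of_mem hy, Pi.mul_apply, ← ENNReal.ofReal_mul]
      · congr 1
        have : √(ee P y) ≠ 0 := (Real.sqrt_pos.2 (ee_pos P y)).ne'
        field_simp
      · exact mul_nonneg (hw0 y) (inv_nonneg.2 (Real.sqrt_nonneg _))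
    · rw [indicator_of_notMem hy]
      have : A y = 0 := by
        by_contra h
        exact hy (hs y h)
      rw [this]; simp
  have h3 : ∫⁻ y in Iy, (fun y => ENNReal.ofReal (w y * (√(ee P y))⁻¹)) y ^ (2 : ℝ)
      ≤ ENNReal.ofReal M := by
    refine le_trans (le_of_eq ?_) hwM
    refine lintegral_congr fun y => ?_
    rw [ENNReal.rpow_two, ← ENNReal.ofReal_pow (mul_nonneg (hw0 y) (inv_nonneg.2 (Real.sqrt_nonneg _))),
      mul_pow, inv_pow, Real.sq_sqrt (ee_pos P y).le]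
  have h4 : ∫⁻ y in Iy, (fun y => ENNReal.ofReal (√(ee P y) * A y)) y ^ (2 : ℝ)
      ≤ ENNReal.ofReal E := by
    rw [hE, ofReal_integral_eq_lintegral_ofReal hI
      (Eventually.of_forall fun y => mul_nonneg (ee_pos P y).le (sq_nonneg _))]
    refine le_trans (le_of_eq ?_) (setLIntegral_le_lintegral Iy _)
    refine lintegral_congr fun y => ?_
    rw [ENNReal.rpow_two, ← ENNReal.ofReal_pow (mul_nonneg (Real.sqrt_nonneg _) (hA0 y)),
      mul_pow, Real.sq_sqrt (ee_pos P y).le]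
  have h5 : ∫⁻ y, ENNReal.ofReal (w y * A y) ≤ ENNReal.ofReal (√M * √E) := by
    rw [h2]
    refine h1.trans ?_
    rw [ENNReal.ofReal_mul (Real.sqrt_nonneg _)]
    have e : ∀ x : ℝ, 0 ≤ x → ENNReal.ofReal (√x) = ENNReal.ofReal x ^ (1 / 2 : ℝ) := by
      intro x hx
      rw [ENNReal.ofReal_rpow_of_nonneg hx (by norm_num), Real.sqrt_eq_rpow]
    rw [e M hM, e E hE0]
    gcongr
  have hint : Integrable fun y => w y * A y := by
    refine ⟨hwA.aestronglyMeasurable, ?_⟩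
    rw [hasFiniteIntegral_iff_ofReal (Eventually.of_forall fun y => mul_nonneg (hw0 y) (hA0 y))]
    exact h5.trans_lt ENNReal.ofReal_lt_top
  refine ⟨hint, ?_⟩
  have h6 : ∫ y, w y * A y ≤ √M * √E := by
    rw [← ofReal_integral_eq_lintegral_ofReal hint
      (Eventually.of_forall fun y => mul_nonneg (hw0 y) (hA0 y))] at h5
    exact (ENNReal.ofReal_le_ofReal_iff (by positivity)).1 h5
  have h7 : 0 ≤ ∫ y, w y * A y := integral_nonneg fun y => mul_nonneg (hw0 y) (hA0 y)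
  calc (∫ y, w y * A y) ^ 2 ≤ (√M * √E) ^ 2 := pow_le_pow_left₀ h7 h6 2
    _ = M * E := by rw [mul_pow, Real.sq_sqrt hM, Real.sq_sqrt hE0]

theorem W0_eq : HRV.W0 = 8 * π ^ 2 * Wc := by
  unfold HRV.W0 HRV.Wy HRV.Dm HRV.wy HRV.wt HRV.th Wc
  have hπ : (8 * π ^ 2 : ℝ) ≠ 0 := by positivity
  rw [← mul_assoc, mul_inv_cancel₀ hπ, one_mul]
  simp only [max_self, min_self, add_zero, sub_zero]
  refine integral_congr_ae (Eventually.of_forall fun v => ?_)
  show Real.sin (v * HRV.cc v) / Real.sin v * Real.sin (π * (HRV.cc v + HRV.cc v) / 2)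
    = Real.sin (v * cc v) / Real.sin v * Real.sin (π * cc v)
  have h : HRV.cc v = cc v := rfl
  rw [h]
  congr 2
  ring

theorem kaph_le (P : Par) (u : ℝ) : kaph P u ≤ 1 := by
  unfold kaph
  split_ifs
  · exact le_rfl
  · linarith [P.e2_le]

theorem exists_Ker (P : Par) (r : ℝ) (hr : 0 ≤ r) (ξ : ℝ → ℂ) (h : AdmX P r ξ) :
    ∃ k : ℝ → ℂ, HRV.Ker (r / (4 * π)) k ∧
      ∀ f : L2, (X0 ξ f : ℝ → ℂ) =ᵐ[volume] kerf k f := by
  obtain ⟨k, hm, hb, -, -, h0, -⟩ := exists_kernel P r hr ξ h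
  have hS : MeasurableSet {u : ℝ | 1 / 2 < |u| ∧ |u| < 3 / 2} :=
    (measurableSet_lt measurable_const measurable_id.abs).inter
      (measurableSet_lt measurable_id.abs measurable_const)
  have hc : 0 ≤ r / (4 * π) := by positivity
  refine ⟨_, ⟨hm.indicator hS, fun u => ?_, fun u hu => ?_⟩, h0⟩
  · by_cases hu : u ∈ {u : ℝ | 1 / 2 < |u| ∧ |u| < 3 / 2}
    · rw [indicator_of_mem hu]
      refine (hb u).trans ?_
      exact mul_le_of_le_one_right hc (kaph_le P u)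
    · rw [indicator_of_notMem hu, norm_zero]; exact hc
  · by_contra hn
    exact hu (indicator_of_notMem (s := {u : ℝ | 1 / 2 < |u| ∧ |u| < 3 / 2}) hn k)

/-- the upper bound of `T` on the positive band -/
theorem T_up : ∃ h : ℝ, 0 < h ∧ h < 1 ∧ ∀ K : ℝ, 0 < K → ∃ C : ℝ, 0 < C ∧
    ∀ (P : Par) (gb : ℂ) (r : ℝ) (ξ : ℝ → ℂ), ‖gb‖ = 1 → 0 ≤ r → r ≤ K / P.L → AdmX P r ξ →
    ∀ f : L2, Qp P gb f = f →
    HRV.a1 (alF P gb f) ^ 2 ≤ Lam P * En P gb f ∧
    (TT P ξ f f).re ≤ r ^ 2 * Wc * (HRV.a1 (alF P gb f) ^ 2 - (1 - h) / 2 *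
      (HRV.a1 (alF P gb f) ^ 2 - ∑' j, HRV.Qi (alF P gb f) j ^ 2))
      + C * (√P.L)⁻¹ * En P gb f := by
  obtain ⟨h, C0, hh0, hh1, hC0, hB⟩ := HRV.B7up
  obtain ⟨c1, C1, hc1, hC1, hL⟩ := Lam_bounds
  obtain ⟨C2, hC2, hcf⟩ := cfy_lint
  refine ⟨h, hh0, hh1, fun K hK => ⟨C0 * K ^ 2 * √(C1 * C2) + C0 * K ^ 2 * C1, by positivity, ?_⟩⟩
  intro P gb r ξ hg hr hrK hξ f hf
  have lp := L_pos P
  have l1 : 1 ≤ P.L := by linarith [P.hL]
  have hfib := alF_fib P gb hg f hf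
  obtain ⟨hEi, hE⟩ := alF_En P gb hg f hf
  set a := alF P gb f with ha
  set En0 : ℝ := En P gb f with hEn0
  have hE0 : 0 ≤ En0 := En_nonneg P gb f
  obtain ⟨f1, f2, f3, -⟩ := HRV.fib_facts hfib
  have hA0 : ∀ y, 0 ≤ HRV.An a y := fun y => Real.sqrt_nonneg _
  have hs : ∀ y, HRV.An a y ≠ 0 → y ∈ Iy := fun y hy => mem_Iy.2 (f3 y hy)
  have hLam0 : 0 ≤ Lam P := le_trans (by positivity) (hL P).1
  -- `a1² ≤ Λ E`
  have hw1 : ∫⁻ y in Iy, ENNReal.ofReal ((fun _ => (1 : ℝ)) y ^ 2 * (ee P y)⁻¹)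
      ≤ ENNReal.ofReal (Lam P) := by
    rw [← Lam_lint]
    simp
  have c1' := (cs_w P (fun _ => 1) (HRV.An a) measurable_const (fun _ => zero_le_one) f1 hA0 hs hEi
    (Lam P) hLam0 hw1).2
  rw [hE] at c1'
  have e1 : ∫ y, (1 : ℝ) * HRV.An a y = HRV.a1 a := by
    unfold HRV.a1; simp
  rw [e1] at c1'
  refine ⟨c1', ?_⟩
  -- `∫ (|c|+|y|) |a|`
  have hcm : Measurable fun y => |cf P y| + |y| := (meas_cf P).abs.add measurable_id.abs
  obtain ⟨-, c2⟩ := cs_w P (fun y => |cf P y| + |y|) (HRV.An a) hcm (fun y => by positivity) f1 hA0 hs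
    hEi (C2 * P.L) (by positivity) (hcf P)
  rw [hE] at c2
  set B : ℝ := ∫ y, (|cf P y| + |y|) * HRV.An a y with hBdef
  have hB0 : 0 ≤ B := integral_nonneg fun y => mul_nonneg (by positivity) (hA0 y)
  have ha0 : 0 ≤ HRV.a1 a := integral_nonneg hA0
  obtain ⟨k, hk, hX⟩ := exists_Ker P r hr ξ hξ
  have hdel : |P.del| ≤ 1 / 100 := P.del_le'.trans (by norm_num)
  obtain ⟨-, hup⟩ := hB (r / (4 * π)) P.del k (cf P) (ze P gb) a hk hdel hfib
  have hT := TT_bridge P r ξ k hk hX f (Jo_eq_self P gb hg f hf).1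
  have hTl : ∀ n : ℤ, HRV.Tl k (HRV.Pt P.del n) (HRV.dl P.del n) (ln P f n) =
      HRV.Tl k (HRV.Pt P.del n) (HRV.dl P.del n) (HRV.fl (cf P) (ze P gb) a n) := by
    intro n
    have hX' : ∀ ρ, HRV.Xl k (HRV.Pt P.del n) (ln P f n) ρ =
        HRV.Xl k (HRV.Pt P.del n) (HRV.fl (cf P) (ze P gb) a n) ρ := by
      intro ρ
      unfold HRV.Xl
      refine integral_congr_ae ?_
      filter_upwards [alF_fl P gb hg f hf n] with y hy
      rw [hy]
    unfold HRV.Tl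
    simp only [hX']
  simp only [hTl] at hT
  rw [← hT.tsum_eq]
  refine hup.trans ?_
  -- constants
  have hM : 2 * (r / (4 * π)) ^ 2 * HRV.W0 = r ^ 2 * Wc := by
    rw [W0_eq]
    have := Real.pi_ne_zero
    field_simp
    ring
  rw [hM]
  have hM2 : (r / (4 * π)) ^ 2 ≤ K ^ 2 / P.L ^ 2 := by
    have h1 : r / (4 * π) ≤ r := by
      apply div_le_self hr
      linarith [Real.pi_gt_three]
    have h2 : r ≤ K / P.L := hrK
    calc (r / (4 * π)) ^ 2 ≤ (K / P.L) ^ 2 :=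
          pow_le_pow_left₀ (by positivity) (h1.trans h2) 2
      _ = K ^ 2 / P.L ^ 2 := by rw [div_pow]
  have hE1 : HRV.a1 a * B ≤ √(C1 * C2) * (P.L * √P.L) * En0 := by
    have h1 : HRV.a1 a ≤ √(Lam P * En0) := Real.le_sqrt_of_sq_le c1'
    have h2 : B ≤ √(C2 * P.L * En0) := Real.le_sqrt_of_sq_le c2
    have h3 : Lam P * En0 ≤ C1 * P.L ^ 2 * En0 := mul_le_mul_of_nonneg_right (hL P).2 hE0
    calc HRV.a1 a * B ≤ √(C1 * P.L ^ 2 * En0) * √(C2 * P.L * En0) :=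
          mul_le_mul (h1.trans (Real.sqrt_le_sqrt h3)) h2 hB0 (Real.sqrt_nonneg _)
      _ = √(C1 * C2) * (P.L * √P.L) * En0 := by
          rw [← Real.sqrt_mul (by positivity)]
          have : C1 * P.L ^ 2 * En0 * (C2 * P.L * En0) = C1 * C2 * P.L * (P.L * En0) ^ 2 := by ring
          rw [this, Real.sqrt_mul (by positivity), Real.sqrt_sq (by positivity),
            Real.sqrt_mul (by positivity)]
          ring
  have hE2 : |P.del| * HRV.a1 a ^ 2 ≤ C1 * P.L * En0 := by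
    have h1 : |P.del| ≤ P.L⁻¹ := by
      refine P.del_le.trans ?_
      apply inv_anti₀ lp
      exact le_self_pow₀ l1 (by norm_num)
    have h2 : HRV.a1 a ^ 2 ≤ C1 * P.L ^ 2 * En0 :=
      c1'.trans (mul_le_mul_of_nonneg_right (hL P).2 hE0)
    calc |P.del| * HRV.a1 a ^ 2 ≤ P.L⁻¹ * (C1 * P.L ^ 2 * En0) :=
          mul_le_mul h1 h2 (sq_nonneg _) (by positivity)
      _ = C1 * P.L * En0 := by field_simp
  have hsL : P.L * √P.L / P.L ^ 2 = (√P.L)⁻¹ := by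
    have h1 : √P.L ≠ 0 := (Real.sqrt_pos.2 lp).ne'
    have h2 : √P.L * √P.L = P.L := Real.mul_self_sqrt lp.le
    field_simp
    nlinarith only [h2]
  have hsL2 : P.L / P.L ^ 2 ≤ (√P.L)⁻¹ := by
    have h1 : P.L / P.L ^ 2 = P.L⁻¹ := by field_simp
    rw [h1]
    apply inv_anti₀ (Real.sqrt_pos.2 lp)
    rw [Real.sqrt_le_left (by positivity)]
    nlinarith only [lp, l1]
  have b1 : C0 * (r / (4 * π)) ^ 2 * HRV.a1 a * B ≤ C0 * K ^ 2 * √(C1 * C2) * (√P.L)⁻¹ * En0 := by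
    calc C0 * (r / (4 * π)) ^ 2 * HRV.a1 a * B = C0 * (r / (4 * π)) ^ 2 * (HRV.a1 a * B) := by ring
      _ ≤ C0 * (K ^ 2 / P.L ^ 2) * (√(C1 * C2) * (P.L * √P.L) * En0) := by gcongr
      _ = C0 * K ^ 2 * √(C1 * C2) * (P.L * √P.L / P.L ^ 2) * En0 := by ring
      _ = _ := by rw [hsL]
  have b2 : C0 * (r / (4 * π)) ^ 2 * |P.del| * HRV.a1 a ^ 2 ≤ C0 * K ^ 2 * C1 * (√P.L)⁻¹ * En0 := by
    calc C0 * (r / (4 * π)) ^ 2 * |P.del| * HRV.a1 a ^ 2
        = C0 * (r / (4 * π)) ^ 2 * (|P.del| * HRV.a1 a ^ 2) := by ring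
      _ ≤ C0 * (K ^ 2 / P.L ^ 2) * (C1 * P.L * En0) := by gcongr
      _ = C0 * K ^ 2 * C1 * (P.L / P.L ^ 2) * En0 := by ring
      _ ≤ _ := by gcongr
  have b3 : (C0 * K ^ 2 * √(C1 * C2) + C0 * K ^ 2 * C1) * (√P.L)⁻¹ * En0 =
      C0 * K ^ 2 * √(C1 * C2) * (√P.L)⁻¹ * En0 + C0 * K ^ 2 * C1 * (√P.L)⁻¹ * En0 := by ring
  rw [b3]
  linarith

end Pool.Agent.Helper92.HRU
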