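import Pool.Agent.Helper92.HRU.BDefs
import Pool.Agent.Helper34.HRV.Defs
import Pool.Agent.Helper34.HRV.St.D1
import Pool.Agent.Helper34.HRV.St.D2
import Pool.Agent.Helper92.HRU.Pf.PN1
import Pool.Agent.Helper92.HRU.Pf.PN4
import Pool.Agent.Helper92.HRU.Pf.PK1
import Pool.Agent.Helper92.HRU.Pf.PJ3
import Pool.Agent.Helper92.HRU.Pf.PE1
import Pool.Agent.Helper92.HRU.Pf.PE2
import Pool.Agent.Helper92.HRU.Pf.PE4
import Pool.Agent.Helper92.HRU.Pf.PF1
import Pool.Agent.Helper92.HRU.Pf.PF2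
import Pool.Agent.Helper92.HRU.Pf.PG1
import Pool.Agent.Helper92.HRU.Pf.PG3

/-! Piece PG4: (E3). -/

set_option autoImplicit false

namespace Pool.Agent.Helper92.HRU

open Complex Set MeasureTheory Filter Topology
open scoped ComplexConjugate Real ENNReal
open Pool.Agent.Helper84.HRT (Weyl node chi mu8 XL Data Aop Bop Good)
open Pool.Agent.Helper34

/-- the profile -/
theorem prof_int (P : Par) : Integrable ((Ioo (-(1 / 20) : ℝ) (1 / 20)).indicator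
    fun y => ((ee P y)⁻¹) ^ 2) := by
  rw [integrable_indicator_iff measurableSet_Ioo]
  refine IntegrableOn.mono_set ?_ Ioo_subset_Icc_self
  refine Continuous.integrableOn_Icc ?_
  exact ((ee_cont P).inv₀ fun y => (ee_pos P y).ne').pow 2

theorem prof_e2 : ∃ c : ℝ, 0 < c ∧ ∀ P : Par, 0 < ∫ y in Ioo (-(1 / 20) : ℝ) (1 / 20), ((ee P y)⁻¹) ^ 2 ∧
    c * Lam P / P.g ≤ ∫ y in Ioo (-(1 / 20) : ℝ) (1 / 20), ((ee P y)⁻¹) ^ 2 := by
  obtain ⟨c, hc, h⟩ := e2_int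
  obtain ⟨c1, C1, hc1, hC1, hL⟩ := Lam_bounds
  refine ⟨c, hc, fun P => ?_⟩
  have hi : IntegrableOn (fun y => ((ee P y)⁻¹) ^ 2) (Ioo (-(1 / 20) : ℝ) (1 / 20)) := by
    have := prof_int P
    rwa [integrable_indicator_iff measurableSet_Ioo] at this
  have h0 : 0 ≤ ∫ y in Ioo (-(1 / 20) : ℝ) (1 / 20), ((ee P y)⁻¹) ^ 2 :=
    integral_nonneg fun y => sq_nonneg _
  have h1 := ofReal_integral_eq_lintegral_ofReal hi (Eventually.of_forall fun y => sq_nonneg _)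
  have h2 := h P
  have h3 : ENNReal.ofReal (c * Lam P / P.g) ≤
      ENNReal.ofReal (∫ y in Ioo (-(1 / 20) : ℝ) (1 / 20), ((ee P y)⁻¹) ^ 2) := by
    rw [h1]
    refine h2.trans (le_of_eq ?_)
    refine lintegral_congr fun y => ?_
    rw [inv_pow]
  have h4 := (ENNReal.ofReal_le_ofReal_iff h0).1 h3
  have hp : 0 < c * Lam P / P.g := by
    have := L_pos P
    have hLp : 0 < Lam P := lt_of_lt_of_le (by positivity) (hL P).1
    have := P.g_pos
    positivity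
  exact ⟨hp.trans_le h4, h4⟩

theorem small_L (C ε : ℝ) (hε : 0 < ε) (L : ℝ) (hL : (C / ε) ^ 2 ≤ L) (hL0 : 0 < L) :
    C * (√L)⁻¹ ≤ ε := by
  have h1 : C / ε ≤ √L := Real.le_sqrt_of_sq_le hL
  have h2 : 0 < √L := Real.sqrt_pos.2 hL0
  rw [← div_eq_mul_inv, div_le_iff₀ h2]
  rw [div_le_iff₀ hε] at h1
  linarith

/-- (E3), normalised -/
theorem E30 : ∃ τ L0 : ℝ, 0 < τ ∧ τ ≤ 1 ∧ ∀ (P : Par) (gb : ℂ) (r : ℝ) (ξ : ℝ → ℂ), L0 ≤ P.L →
    ‖gb‖ = 1 → 0 ≤ r → r ^ 2 * Wc * Lam P ≤ (1 + 2 * τ) ^ 2 → AdmX P r ξ → ∀ f h : L2, f ≠ 0 →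
    AA P gb ξ f = 0 → AA P gb ξ h = 0 → ∃ a : ℂ, h = a • f := by
  obtain ⟨h0, hh0, hh1, hTup⟩ := T_up
  obtain ⟨c1, C1, hc1, hC1, hLam⟩ := Lam_bounds
  obtain ⟨c0, hc0, he2⟩ := prof_e2
  have hW := Wc_pos
  obtain ⟨ε0, hε0, hstar⟩ := HRV.star_conc ((1 - h0) / 2) c0 (1 / 100) (by linarith) (by linarith)
    hc0 (by norm_num)
  obtain ⟨ε, hεdef⟩ : ∃ ε, ε = min ε0 1 := ⟨_, rfl⟩
  have hε : 0 < ε := by rw [hεdef]; exact lt_min hε0 one_pos
  have hεe : ε ≤ ε0 := by rw [hεdef]; exact min_le_left _ _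
  have hε1 : ε ≤ 1 := by rw [hεdef]; exact min_le_right _ _
  have hsq : 0 < √(Wc * c1) := Real.sqrt_pos.2 (mul_pos hW hc1)
  obtain ⟨K, hKdef⟩ : ∃ K, K = 3 / √(Wc * c1) := ⟨_, rfl⟩
  have hK : 0 < K := by rw [hKdef]; positivity
  obtain ⟨Cb, hCb, hbal⟩ := balance K hK
  obtain ⟨CT, hCT, hT⟩ := hTup K hK
  obtain ⟨Ck, hCk, hkey⟩ := keyIneq K hK
  refine ⟨ε / 8, max (100 * K) (max (2 * Cb) (((2 * Cb + CT) / ε) ^ 2)), by linarith, by linarith, ?_⟩
  intro P gb r ξ hL hg hr hrW hξ f h hf hAf hAh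
  have hL1 : 100 * K ≤ P.L := le_trans (le_max_left _ _) hL
  have hL2 : 2 * Cb ≤ P.L := le_trans (le_trans (le_max_left _ _) (le_max_right _ _)) hL
  have hL3 : ((2 * Cb + CT) / ε) ^ 2 ≤ P.L :=
    le_trans (le_trans (le_max_right _ _) (le_max_right _ _)) hL
  have lp := L_pos P
  have hLp : 0 < Lam P := lt_of_lt_of_le (by positivity) (hLam P).1
  -- `r ≤ K / L`
  have hrK : r ≤ K / P.L := by
    have h1 : (r * (√(Wc * c1) * P.L)) ^ 2 ≤ 3 ^ 2 := by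
      have e1 : (r * (√(Wc * c1) * P.L)) ^ 2 = r ^ 2 * (Wc * (c1 * P.L ^ 2)) := by
        rw [mul_pow, mul_pow, Real.sq_sqrt (mul_pos hW hc1).le]; ring
      rw [e1]
      have e2 : r ^ 2 * (Wc * (c1 * P.L ^ 2)) ≤ r ^ 2 * (Wc * Lam P) := by
        have := (hLam P).1
        gcongr
      have e3 : (1 + 2 * (ε / 8)) ^ 2 ≤ 3 ^ 2 := by nlinarith only [hε1, hh0, hh1, hε]
      have e4 : r ^ 2 * (Wc * Lam P) = r ^ 2 * Wc * Lam P := by ring
      linarith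
    have h2 : r * (√(Wc * c1) * P.L) ≤ 3 :=
      (pow_le_pow_iff_left₀ (by positivity) (by norm_num) two_ne_zero).1 h1
    rw [hKdef, div_div, le_div_iff₀ (by positivity)]
    exact h2
  have hr100 : r ≤ 1 / 100 := by
    refine hrK.trans ?_
    rw [div_le_iff₀ lp]; linarith
  have hCbL : Cb * P.L⁻¹ ≤ 1 / 2 := by
    rw [← div_eq_mul_inv, div_le_iff₀ lp]; linarith
  have hsm := small_L (2 * Cb + CT) ε hε P.L hL3 lp
  have hsL : 0 < (√P.L)⁻¹ := inv_pos.2 (Real.sqrt_pos.2 lp)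
  -- energy of kernel vectors
  have kE : ∀ u : L2, AA P gb ξ u = 0 → En P gb u ≤ 2 * En P gb (Qp P gb u) ∧
      |En P gb (Qp P gb u) - (TT P ξ (Qp P gb u) (Qp P gb u)).re| ≤
        Cb * (√P.L)⁻¹ * En P gb u := by
    intro u hu
    obtain ⟨b1, b2⟩ := hbal P gb r ξ hg hr hr100 hrK hξ u
    rw [hu, norm_zero, zero_mul, add_zero] at b1 b2
    have hs := En_split P gb hg u
    have hn := En_nonneg P gb u
    constructor
    · nlinarith only [b1, hs, hh0, hh1, hCbL, hn]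
    · linarith
  -- injectivity of `Qp` on the kernel
  have kinj : ∀ u : L2, AA P gb ξ u = 0 → Qp P gb u = 0 → u = 0 := by
    intro u hu hq
    have h1 := (kE u hu).1
    have h2 : En P gb (0 : L2) = 0 := by
      have := En_le P gb hg 0
      have h3 := En_nonneg P gb 0
      rw [map_zero, norm_zero] at this
      nlinarith only [h3, this]
    rw [hq, h2] at h1
    have h3 : En P gb u = 0 := le_antisymm (by linarith) (En_nonneg P gb u)
    have h4 := En_ge P gb hg u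
    rw [h3] at h4
    have h5 : ‖Q P u‖ = 0 := by
      have hgp := P.g_pos
      by_contra hne
      have : 0 < ‖Q P u‖ := lt_of_le_of_ne (norm_nonneg _) (Ne.symm hne)
      have : 0 < P.g * ‖Q P u‖ ^ 2 := by positivity
      linarith
    have h6 := (hkey P gb r ξ hg hr hr100 hrK hξ u).1
    rw [hu, map_zero, norm_zero, h3, Real.sqrt_zero, h5] at h6
    have h7 : ‖Qc P u‖ = 0 := le_antisymm (by linarith) (norm_nonneg _)
    rw [← Q_add_Qc P u, norm_eq_zero.1 h5, norm_eq_zero.1 h7, add_zero]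
  -- (★)
  have kstar : ∀ u : L2, AA P gb ξ u = 0 → ‖Qp P gb u‖ = 1 → ∃ j : ℤ,
      (∫ y, (HRV.An (alF P gb (Qp P gb u)) y ^ 2 - ‖alF P gb (Qp P gb u) j y‖ ^ 2)) ≤ 1 / 100 ∧
      (∫ y, |‖alF P gb (Qp P gb u) j y‖ ^ 2 - (Ioo (-(1 / 20) : ℝ) (1 / 20)).indicator
        (fun y => ((ee P y)⁻¹) ^ 2 / ∫ y in Ioo (-(1 / 20) : ℝ) (1 / 20), ((ee P y)⁻¹) ^ 2) y|)
        ≤ 1 / 100 := by
    intro u hu hn
    have hp : Qp P gb (Qp P gb u) = Qp P gb u := Qp_Qp P gb hg u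
    set p := Qp P gb u with hpdef
    obtain ⟨k1, k2⟩ := kE u hu
    obtain ⟨t1, t2⟩ := hT P gb r ξ hg hr hrK hξ p hp
    obtain ⟨e1, e2⟩ := alF_En P gb hg p hp
    have hEp := En_nonneg P gb p
    have hQ0 : 0 ≤ ∑' j, HRV.Qi (alF P gb p) j ^ 2 := tsum_nonneg fun j => sq_nonneg _
    set A1 := HRV.a1 (alF P gb p) ^ 2 with hA1
    have hA10 : 0 ≤ A1 := sq_nonneg _
    set SQ := ∑' j, HRV.Qi (alF P gb p) j ^ 2 with hSQ
    have hBr : 0 ≤ A1 - (1 - h0) / 2 * (A1 - SQ) := by nlinarith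
    refine hstar ε P.g (Lam P) (ee P) (cf P) (ze P gb) (alF P gb p) hε.le hεe P.g_pos
      (ee_cont P).measurable (ee_ge P) rfl (he2 P).2 (alF_fib P gb hg p hp) ⟨e1, ?_⟩ ?_
    · rw [e2]
      have r1 : r ^ 2 * Wc ≤ (1 + ε) * (Lam P)⁻¹ := by
        rw [← div_eq_mul_inv, le_div_iff₀ hLp]
        refine hrW.trans ?_
        nlinarith only [hh0, hε, hh1, hε1]
      have r2 : r ^ 2 * Wc * (A1 - (1 - h0) / 2 * (A1 - SQ)) ≤
          (1 + ε) * (Lam P)⁻¹ * (A1 - (1 - h0) / 2 * (A1 - SQ)) :=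
        mul_le_mul_of_nonneg_right r1 hBr
      have r3 := (abs_le.1 k2).2
      have r4 : Cb * (√P.L)⁻¹ * En P gb u ≤ 2 * Cb * (√P.L)⁻¹ * En P gb p := by
        have := mul_le_mul_of_nonneg_left k1 (by positivity : 0 ≤ Cb * (√P.L)⁻¹)
        linarith
      have r5 : (2 * Cb + CT) * (√P.L)⁻¹ * En P gb p ≤ ε * En P gb p :=
        mul_le_mul_of_nonneg_right hsm hEp
      have r6 : (2 * Cb + CT) * (√P.L)⁻¹ * En P gb p =
        2 * Cb * (√P.L)⁻¹ * En P gb p + CT * (√P.L)⁻¹ * En P gb p := by ring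
      linarith
    · rw [alF_norm P gb hg p hp, hn]; norm_num
  -- linear algebra
  by_contra hno
  push Not at hno
  have hp0 : Qp P gb f ≠ 0 := fun h => hf (kinj f hAf h)
  have np0 : 0 < ‖Qp P gb f‖ := norm_pos_iff.2 hp0
  obtain ⟨u1, hu1⟩ : ∃ u1 : L2, u1 = ((‖Qp P gb f‖⁻¹ : ℝ) : ℂ) • f := ⟨_, rfl⟩
  have hAu1 : AA P gb ξ u1 = 0 := by rw [hu1, map_smul, hAf, smul_zero]
  obtain ⟨p, hpdef⟩ : ∃ p : L2, p = Qp P gb u1 := ⟨_, rfl⟩
  have hpn : ‖p‖ = 1 := by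
    rw [hpdef, hu1, map_smul, norm_smul, Complex.norm_real, Real.norm_eq_abs,
      abs_of_pos (inv_pos.2 np0), inv_mul_cancel₀ np0.ne']
  obtain ⟨v, hv⟩ : ∃ v : L2, v = h - (inner ℂ p (Qp P gb h) : ℂ) • u1 := ⟨_, rfl⟩
  have hAv : AA P gb ξ v = 0 := by rw [hv, map_sub, map_smul, hAh, hAu1, smul_zero, sub_zero]
  have hq0 : Qp P gb v ≠ 0 := by
    intro hq
    have h1 := kinj v hAv hq
    rw [hv, sub_eq_zero, hu1, smul_smul] at h1
    exact hno _ h1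
  have nq0 : 0 < ‖Qp P gb v‖ := norm_pos_iff.2 hq0
  obtain ⟨u2, hu2⟩ : ∃ u2 : L2, u2 = ((‖Qp P gb v‖⁻¹ : ℝ) : ℂ) • v := ⟨_, rfl⟩
  have hAu2 : AA P gb ξ u2 = 0 := by rw [hu2, map_smul, hAv, smul_zero]
  obtain ⟨q, hqdef⟩ : ∃ q : L2, q = Qp P gb u2 := ⟨_, rfl⟩
  have hqn : ‖q‖ = 1 := by
    rw [hqdef, hu2, map_smul, norm_smul, Complex.norm_real, Real.norm_eq_abs,
      abs_of_pos (inv_pos.2 nq0), inv_mul_cancel₀ nq0.ne']
  have hpq : (inner ℂ p q : ℂ) = 0 := by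
    rw [hqdef, hu2, map_smul, inner_smul_right, hv, map_sub, map_smul, ← hpdef, inner_sub_right,
      inner_smul_right, inner_self_eq_norm_sq_to_K, hpn]
    simp
  have hpp : Qp P gb p = p := by rw [hpdef]; exact Qp_Qp P gb hg u1
  have hqq : Qp P gb q = q := by rw [hqdef]; exact Qp_Qp P gb hg u2
  have hcomb : ∀ c d : ℂ, Qp P gb (c • u1 + d • u2) = c • p + d • q := by
    intro c d; rw [map_add, map_smul, map_smul, ← hpdef, ← hqdef]
  have hcn : ∀ c d : ℂ, ‖c‖ ^ 2 + ‖d‖ ^ 2 = 1 → ‖c • p + d • q‖ = 1 := by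
    intro c d hcd
    have h1 : (inner ℂ (c • p) (d • q) : ℂ) = 0 := by
      rw [inner_smul_left, inner_smul_right, hpq]; simp
    have h2 := norm_add_sq_eq_norm_sq_add_norm_sq_of_inner_eq_zero (c • p) (d • q) h1
    rw [norm_smul, norm_smul, hpn, hqn] at h2
    have h3 : ‖c • p + d • q‖ ^ 2 = 1 := by nlinarith only [hcd, h2]
    have h4 := norm_nonneg (c • p + d • q)
    nlinarith only [hcd, h2, h4, hh0, hh1]
  have hAn : ∀ c d : ℂ, ∀ᵐ y : ℝ,
      (∀ k, alF P gb (c • p + d • q) k y = c * alF P gb p k y + d * alF P gb q k y) ∧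
      HRV.An (fun i y => c * alF P gb p i y + d * alF P gb q i y) y
        = HRV.An (alF P gb (c • p + d • q)) y := by
    intro c d
    filter_upwards [alF_lin P gb hg c d p q hpp hqq] with y hy
    refine ⟨hy, ?_⟩
    unfold HRV.An
    simp only [hy]
  set I2 : ℝ := ∫ y in Ioo (-(1 / 20) : ℝ) (1 / 20), ((ee P y)⁻¹) ^ 2 with hI2
  have hI2p : 0 < I2 := (he2 P).1
  have hv1 : (fun y => (Ioo (-(1 / 20) : ℝ) (1 / 20)).indicator (fun y => ((ee P y)⁻¹) ^ 2 / I2) y)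
      = fun y => (Ioo (-(1 / 20) : ℝ) (1 / 20)).indicator (fun y => ((ee P y)⁻¹) ^ 2) y / I2 := by
    funext y
    by_cases hy : y ∈ Ioo (-(1 / 20) : ℝ) (1 / 20)
    · rw [indicator_of_mem hy, indicator_of_mem hy]
    · rw [indicator_of_notMem hy, indicator_of_notMem hy, zero_div]
  refine HRV.no_two (alF_fib P gb hg p hpp) (alF_fib P gb hg q hqq)
    (fun y => (Ioo (-(1 / 20) : ℝ) (1 / 20)).indicator (fun y => ((ee P y)⁻¹) ^ 2 / I2) y) ?_ ?_ ?_ ?_ ?_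
  · intro y
    exact indicator_nonneg (fun y _ => by positivity) y
  · rw [hv1]; exact (prof_int P).div_const I2
  · rw [hv1, integral_div, integral_indicator measurableSet_Ioo]
    exact div_self hI2p.ne'
  · intro c d hcd
    have hA : AA P gb ξ (c • u1 + d • u2) = 0 := by
      rw [map_add, map_smul, map_smul, hAu1, hAu2, smul_zero, smul_zero, add_zero]
    obtain ⟨j, j1, j2⟩ := kstar (c • u1 + d • u2) hA (by rw [hcomb]; exact hcn c d hcd)
    rw [hcomb] at j1 j2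
    refine ⟨j, ?_, ?_⟩
    · refine le_trans (le_of_eq ?_) j1
      refine integral_congr_ae ?_
      filter_upwards [hAn c d] with y hy
      rw [hy.2, hy.1]
    · refine le_trans (le_of_eq ?_) j2
      refine integral_congr_ae ?_
      filter_upwards [hAn c d] with y hy
      rw [hy.1]
  · intro c d hcd
    have h1 := alF_norm P gb hg (c • p + d • q) (by rw [map_add, map_smul, map_smul, hpp, hqq])
    rw [hcn c d hcd] at h1
    rw [one_pow] at h1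
    rw [← h1]
    refine integral_congr_ae ?_
    filter_upwards [hAn c d] with y hy
    rw [hy.2]

end Pool.Agent.Helper92.HRU
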