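import Pool.Agent.Helper92.HRU.BDefs
import Pool.Agent.Helper34.HRV.Wt.W10

/-! Piece PG5: `T` on the trial function (`HRV/Wt/W10.lean`). -/

set_option autoImplicit false

namespace Pool.Agent.Helper92.HRU

open Complex Set MeasureTheory Filter Topology
open scoped ComplexConjugate Real ENNReal

/-- B9 (3): `T` on the trial function for `ξ = r κ` -/
theorem trial_T (K : ℝ) (hK : 0 < K) : ∃ C : ℝ, 0 < C ∧ ∀ (P : Par) (r : ℝ) (f : L2), 0 ≤ r →
    r ≤ 1 → r ≤ K / P.L → IsTrial P f →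
    r ^ 2 * Wc * Lam P ^ 2 * (1 - C * (√P.L)⁻¹)
      ≤ (TT P (fun t => ((r * kap P t : ℝ) : ℂ)) f f).re :=
  Pool.Agent.Helper34.HRV.trial_T K hK

end Pool.Agent.Helper92.HRU
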