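import Pool.Agent.Helper92.HRU.BDefs

/-! Piece PH1: abstract (E1). -/

set_option autoImplicit false

namespace Pool.Agent.Helper92.HRU

open Complex Set MeasureTheory Filter Topology
open scoped ComplexConjugate Real ENNReal
open Pool.Agent.Helper84.HRT (Weyl node chi mu8 XL Data Aop Bop Good)

/-- a bounded self-adjoint operator that is bounded below is surjective -/
theorem surj_of_bddBelow {H : Type} [NormedAddCommGroup H] [InnerProductSpace ℂ H] [CompleteSpace H]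
    (T : H →L[ℂ] H) (hs : ∀ f h, inner ℂ (T f) h = inner ℂ f (T h)) (m : ℝ) (hm : 0 < m)
    (hb : ∀ f, m * ‖f‖ ≤ ‖T f‖) : ∀ h, ∃ f, T f = h := by
  have hanti : AntilipschitzWith (Real.toNNReal (m⁻¹)) T := by
    refine AddMonoidHomClass.antilipschitz_of_bound T ?_
    intro f
    rw [Real.coe_toNNReal _ (by positivity), inv_mul_eq_div, le_div_iff₀ hm, mul_comm]
    exact hb f
  have hclosed : IsClosed (Set.range T) := hanti.isClosed_range T.uniformContinuous
  have hrange : ((T : H →ₗ[ℂ] H).range : Set H) = Set.range T := by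
    ext x
    rfl
  have hclosed' : IsClosed ((T : H →ₗ[ℂ] H).range : Set H) := by
    rw [hrange]
    exact hclosed
  set V : Submodule ℂ H := (T : H →ₗ[ℂ] H).range with hV
  have hcomp : CompleteSpace V := hclosed'.completeSpace_coe
  have hbot : Vᗮ = ⊥ := by
    rw [Submodule.eq_bot_iff]
    intro v hv
    rw [Submodule.mem_orthogonal] at hv
    have h1 : ∀ f, inner ℂ f (T v) = 0 := by
      intro f
      rw [← hs]
      exact hv (T f) ⟨f, rfl⟩
    have h2 : T v = 0 := by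
      have := h1 (T v)
      exact inner_self_eq_zero.mp this
    have h3 := hb v
    rw [h2, norm_zero] at h3
    have h4 : ‖v‖ ≤ 0 := by
      by_contra hcon
      push Not at hcon
      have : 0 < m * ‖v‖ := by positivity
      linarith
    exact norm_le_zero_iff.mp h4
  have htop : V = ⊤ := (Submodule.orthogonal_eq_bot_iff).mp hbot
  intro h
  have : h ∈ V := by rw [htop]; trivial
  obtain ⟨f, hf⟩ := this
  exact ⟨f, hf⟩

/-- generalised Cauchy-Schwarz: a non-negative form -/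
theorem sq_le_of_nonneg {H : Type} [NormedAddCommGroup H] [InnerProductSpace ℂ H] [CompleteSpace H]
    (T : H →L[ℂ] H) (hs : ∀ f h, inner ℂ (T f) h = inner ℂ f (T h))
    (hp : ∀ f, 0 ≤ (inner ℂ f (T f) : ℂ).re) (f : H) :
    ‖T f‖ ^ 2 ≤ ‖T‖ * (inner ℂ f (T f) : ℂ).re := by
  rcases eq_or_lt_of_le (norm_nonneg T) with h0 | h0
  · have : T = 0 := norm_eq_zero.mp h0.symm
    simp [this]
  · set s : ℝ := ‖T‖⁻¹ with hsd
    have hs0 : 0 < s := by positivity
    have h1 := hp (f - (s : ℂ) • T f)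
    have e1 : (inner ℂ (f - (s : ℂ) • T f) (T (f - (s : ℂ) • T f)) : ℂ).re =
        (inner ℂ f (T f) : ℂ).re - 2 * s * ‖T f‖ ^ 2 + s ^ 2 * (inner ℂ (T f) (T (T f)) : ℂ).re := by
      rw [map_sub, map_smul, inner_sub_left, inner_sub_right, inner_sub_right, inner_smul_left,
        inner_smul_right, inner_smul_right, inner_smul_left]
      have a1 : inner ℂ f (T (T f)) = ((‖T f‖ ^ 2 : ℝ) : ℂ) := by
        rw [← hs]
        rw [inner_self_eq_norm_sq_to_K]
        push_cast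
        rfl
      have a2 : inner ℂ (T f) (T f) = ((‖T f‖ ^ 2 : ℝ) : ℂ) := by
        rw [inner_self_eq_norm_sq_to_K]
        push_cast
        rfl
      rw [a1, a2]
      simp only [Complex.sub_re, Complex.mul_re, Complex.conj_ofReal, Complex.ofReal_re,
        Complex.ofReal_im]
      ring
    rw [e1] at h1
    have h2 : (inner ℂ (T f) (T (T f)) : ℂ).re ≤ ‖T‖ * ‖T f‖ ^ 2 := by
      calc (inner ℂ (T f) (T (T f)) : ℂ).re ≤ ‖(inner ℂ (T f) (T (T f)) : ℂ)‖ :=
            Complex.re_le_norm _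
        _ ≤ ‖T f‖ * ‖T (T f)‖ := norm_inner_le_norm _ _
        _ ≤ ‖T f‖ * (‖T‖ * ‖T f‖) := by gcongr; exact T.le_opNorm _
        _ = ‖T‖ * ‖T f‖ ^ 2 := by ring
    have h3 : s ^ 2 * (inner ℂ (T f) (T (T f)) : ℂ).re ≤ s * ‖T f‖ ^ 2 := by
      calc s ^ 2 * (inner ℂ (T f) (T (T f)) : ℂ).re ≤ s ^ 2 * (‖T‖ * ‖T f‖ ^ 2) := by gcongr
        _ = s * ‖T f‖ ^ 2 := by
          rw [hsd]; field_simp
    have h4 : s * ‖T f‖ ^ 2 ≤ (inner ℂ f (T f) : ℂ).re := by nlinarith
    calc ‖T f‖ ^ 2 = ‖T‖ * (s * ‖T f‖ ^ 2) := by rw [hsd]; field_simp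
      _ ≤ ‖T‖ * (inner ℂ f (T f) : ℂ).re := by gcongr

section E1

private theorem ph1_norm_le {H : Type} [NormedAddCommGroup H] [InnerProductSpace ℂ H] (p : H →L[ℂ] H) (hp : ∀ f h, inner ℂ (p f) h = inner ℂ f (p h))
    (hpp : ∀ f, p (p f) = p f) (f : H) : ‖p f‖ ≤ ‖f‖ := by
  have h1 : ‖p f‖ ^ 2 ≤ ‖p f‖ * ‖f‖ := by
    have e : ‖p f‖ ^ 2 = (inner ℂ (p f) f : ℂ).re := by
      have : (inner ℂ (p f) (p f) : ℂ) = inner ℂ (p f) f := by
        rw [← hp, hpp]
      rw [← this, inner_self_eq_norm_sq_to_K]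
      norm_cast
    rw [e]
    exact (Complex.re_le_norm _).trans (norm_inner_le_norm _ _)
  rcases eq_or_lt_of_le (norm_nonneg (p f)) with h0 | h0
  · rw [← h0]; exact norm_nonneg _
  · by_contra hcon
    push Not at hcon
    nlinarith

private theorem ph1_exists {H : Type} [NormedAddCommGroup H] [InnerProductSpace ℂ H]
    [CompleteSpace H] (A p q : H →L[ℂ] H) (hA : ∀ f h, inner ℂ (A f) h = inner ℂ f (A h))
    (hp : ∀ f h, inner ℂ (p f) h = inner ℂ f (p h)) (hpp : ∀ f, p (p f) = p f)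
    (hq : ∀ f, p f + q f = f) (K : ℝ) (hK : 0 < K)
    (h1 : ∀ z : H, q z = z → ‖z‖ ≤ K * ‖q (A z)‖) (v : H) (hv : p v = v) :
    ∃ w, p w = v ∧ q (A w) = 0 := by
  have hqe : ∀ f, q f = f - p f := fun f => eq_sub_of_add_eq' (hq f)
  have hqs : ∀ f h, inner ℂ (q f) h = inner ℂ f (q h) := by
    intro f h
    rw [hqe, hqe, inner_sub_left, inner_sub_right, hp]
  have hqq : ∀ f, q (q f) = q f := by
    intro f
    rw [hqe (q f), hqe f, map_sub, hpp, sub_self, sub_zero]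
  have hpq : ∀ f, p (q f) = 0 := by
    intro f
    rw [hqe f, map_sub, hpp, sub_self]
  have hqp : ∀ f, q (p f) = 0 := by
    intro f
    rw [hqe, hpp, sub_self]
  have hnp := ph1_norm_le p hp hpp
  have hnq := ph1_norm_le q hqs hqq
  let B : H →L[ℂ] H := q.comp (A.comp q) + p
  have hB : ∀ f, B f = q (A (q f)) + p f := fun f => rfl
  have hBs : ∀ f h, inner ℂ (B f) h = inner ℂ f (B h) := by
    intro f h
    rw [hB, hB, inner_add_left, inner_add_right, hqs, hA, hqs, hp]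
  have hBb : ∀ f, (1 + K)⁻¹ * ‖f‖ ≤ ‖B f‖ := by
    intro f
    have a1 : ‖p f‖ ≤ ‖B f‖ := by
      have : p (B f) = p f := by rw [hB, map_add, hpq, zero_add, hpp]
      rw [← this]
      exact hnp _
    have a2 : ‖q f‖ ≤ K * ‖B f‖ := by
      have e : q (B f) = q (A (q f)) := by rw [hB, map_add, hqq, hqp, add_zero]
      calc ‖q f‖ ≤ K * ‖q (A (q f))‖ := h1 (q f) (hqq f)
        _ = K * ‖q (B f)‖ := by rw [e]
        _ ≤ K * ‖B f‖ := by gcongr; exact hnq _
    have a3 : ‖f‖ ≤ (1 + K) * ‖B f‖ := by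
      calc ‖f‖ = ‖p f + q f‖ := by rw [hq]
        _ ≤ ‖p f‖ + ‖q f‖ := norm_add_le _ _
        _ ≤ (1 + K) * ‖B f‖ := by linarith
    rw [inv_mul_le_iff₀ (by positivity)]
    exact a3
  obtain ⟨g, hg⟩ := surj_of_bddBelow B hBs _ (by positivity) hBb (-(q (A v)))
  have hpg : p g = 0 := by
    have : p (B g) = p g := by rw [hB, map_add, hpq, zero_add, hpp]
    rw [← this, hg, map_neg, hpq, neg_zero]
  have hqg : q g = g := by rw [hqe, hpg, sub_zero]
  refine ⟨v + g, by rw [map_add, hv, hpg, add_zero], ?_⟩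
  have e : q (A g) = -(q (A v)) := by
    rw [← hg, hB, hqg, hpg, add_zero]
  rw [map_add, map_add, e, add_neg_cancel]

/-- (E1) abstract: `A(t) = A₀ + t X₁`, the projection `p` on the positive band, `q = 1 - p`;
if the compressions to `Ran q` are invertible, the Schur complement is positive at `t = 0` and
negative somewhere at `t = 1`, then some `A(t)` is not bounded below -/
theorem E1abs {H : Type} [NormedAddCommGroup H] [InnerProductSpace ℂ H] [CompleteSpace H]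
    (A0 X1 p q : H →L[ℂ] H) (hA : ∀ f h, inner ℂ (A0 f) h = inner ℂ f (A0 h))
    (hX : ∀ f h, inner ℂ (X1 f) h = inner ℂ f (X1 h))
    (hp : ∀ f h, inner ℂ (p f) h = inner ℂ f (p h)) (hpp : ∀ f, p (p f) = p f)
    (hq : ∀ f, p f + q f = f) (m K : ℝ) (hm : 0 < m) (hK : 0 < K)
    (h1 : ∀ t : ℝ, 0 ≤ t → t ≤ 1 → ∀ z : H, q z = z →
      ‖z‖ ≤ K * ‖q ((A0 + (t : ℂ) • X1) z)‖)
    (h2 : ∀ y z : H, p y = y → q z = z → q (A0 (y + z)) = 0 →
      m * ‖y‖ ^ 2 ≤ (inner ℂ y (A0 (y + z)) : ℂ).re)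
    (y0 : H) (hy0 : p y0 = y0)
    (h3 : ∀ z : H, q z = z → q ((A0 + X1) (y0 + z)) = 0 →
      (inner ℂ y0 ((A0 + X1) (y0 + z)) : ℂ).re < 0) :
    ∃ t : ℝ, 0 ≤ t ∧ t ≤ 1 ∧ ∀ ε : ℝ, 0 < ε → ∃ f : H, ‖f‖ = 1 ∧
      ‖(A0 + (t : ℂ) • X1) f‖ < ε := by
  by_contra hcon
  push Not at hcon
  have hqe : ∀ f, q f = f - p f := fun f => eq_sub_of_add_eq' (hq f)
  have hqs : ∀ f h, inner ℂ (q f) h = inner ℂ f (q h) := by
    intro f h
    rw [hqe, hqe, inner_sub_left, inner_sub_right, hp]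
  have hqq : ∀ f, q (q f) = q f := by
    intro f
    rw [hqe (q f), hqe f, map_sub, hpp, sub_self, sub_zero]
  have hpq : ∀ f, p (q f) = 0 := by
    intro f
    rw [hqe f, map_sub, hpp, sub_self]
  have hqp : ∀ f, q (p f) = 0 := by
    intro f
    rw [hqe, hpp, sub_self]
  have hnp := ph1_norm_le p hp hpp
  have hnq := ph1_norm_le q hqs hqq
  let A : ℝ → (H →L[ℂ] H) := fun t => A0 + (t : ℂ) • X1
  have hAt : ∀ t f, A t f = A0 f + (t : ℂ) • X1 f := fun t f => rfl
  have hAs : ∀ (t : ℝ) (f h : H), inner ℂ (A t f) h = inner ℂ f (A t h) := by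
    intro t f h
    rw [hAt, hAt, inner_add_left, inner_add_right, hA, inner_smul_left, inner_smul_right, hX,
      Complex.conj_ofReal]
  have hbb : ∀ t : ℝ, 0 ≤ t → t ≤ 1 → ∃ e : ℝ, 0 < e ∧ ∀ f, e * ‖f‖ ≤ ‖A t f‖ := by
    intro t ht0 ht1
    obtain ⟨e, he, hf⟩ := hcon t ht0 ht1
    refine ⟨e, he, fun f => ?_⟩
    by_cases h0 : f = 0
    · simp [h0]
    · have hn : 0 < ‖f‖ := norm_pos_iff.mpr h0
      have := hf (((‖f‖⁻¹ : ℝ) : ℂ) • f) (by
        rw [norm_smul, Complex.norm_real, norm_inv, norm_norm, inv_mul_cancel₀ hn.ne'])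
      rw [map_smul, norm_smul, Complex.norm_real, norm_inv, norm_norm] at this
      rw [inv_mul_eq_div, le_div_iff₀ hn] at this
      exact this
  -- the form on `N_t`
  have hQp : ∀ (t : ℝ) (u : H), q (A t u) = 0 →
      (inner ℂ u (A t u) : ℂ) = inner ℂ (p u) (A t u) := by
    intro t u hu
    have : (inner ℂ u (A t u) : ℂ) = inner ℂ (p u + q u) (A t u) := by rw [hq]
    rw [this, inner_add_left, hqs, hu, inner_zero_right, add_zero]
  set C : ℝ := ‖X1‖ * ((‖A0‖ + ‖X1‖) * K + 1) with hC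
  have hC0 : 0 ≤ C := by positivity
  have hnA : ∀ t : ℝ, 0 ≤ t → t ≤ 1 → ∀ f, ‖A t f‖ ≤ (‖A0‖ + ‖X1‖) * ‖f‖ := by
    intro t ht0 ht1 f
    rw [hAt]
    calc ‖A0 f + (t : ℂ) • X1 f‖ ≤ ‖A0 f‖ + ‖(t : ℂ) • X1 f‖ := norm_add_le _ _
      _ ≤ ‖A0‖ * ‖f‖ + ‖X1‖ * ‖f‖ := by
        gcongr
        · exact A0.le_opNorm f
        · rw [norm_smul, Complex.norm_real, Real.norm_eq_abs, abs_of_nonneg ht0]
          calc t * ‖X1 f‖ ≤ 1 * ‖X1 f‖ := by gcongr
            _ ≤ ‖X1‖ * ‖f‖ := by rw [one_mul]; exact X1.le_opNorm f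
      _ = (‖A0‖ + ‖X1‖) * ‖f‖ := by ring
  have hL1 : ∀ t s : ℝ, 0 ≤ t → t ≤ 1 → ∀ u u' : H, q (A t u) = 0 → q (A s u') = 0 →
      p u = p u' → ‖u - u'‖ ≤ K * (|t - s| * ‖X1‖ * ‖u'‖) := by
    intro t s ht0 ht1 u u' hu hu' hpu
    have hz : q (u - u') = u - u' := by
      rw [hqe, map_sub, hpu, sub_self, sub_zero]
    have e : q (A t (u - u')) = -(((t - s : ℝ) : ℂ) • q (X1 u')) := by
      have e1 : A t u' = A s u' + ((t - s : ℝ) : ℂ) • X1 u' := by
        rw [hAt, hAt]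
        push_cast
        rw [sub_smul]
        abel
      rw [map_sub, map_sub, hu, e1, map_add, hu', map_smul, zero_add, zero_sub]
    calc ‖u - u'‖ ≤ K * ‖q (A t (u - u'))‖ := h1 t ht0 ht1 _ hz
      _ = K * (|t - s| * ‖q (X1 u')‖) := by
        rw [e, norm_neg, norm_smul, Complex.norm_real, Real.norm_eq_abs]
      _ ≤ K * (|t - s| * ‖X1‖ * ‖u'‖) := by
        rw [mul_assoc |t - s|]
        gcongr
        exact (hnq _).trans (X1.le_opNorm _)
  have hL : ∀ t s : ℝ, 0 ≤ t → t ≤ 1 → ∀ u u' : H, q (A t u) = 0 → q (A s u') = 0 →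
      p u = p u' → |(inner ℂ u (A t u) : ℂ).re - (inner ℂ u' (A s u') : ℂ).re| ≤
        C * |t - s| * ‖u'‖ ^ 2 := by
    intro t s ht0 ht1 u u' hu hu' hpu
    have hd := hL1 t s ht0 ht1 u u' hu hu' hpu
    rw [hQp t u hu, hQp s u' hu', hpu, ← Complex.sub_re, ← inner_sub_right]
    have e1 : A t u - A s u' = A t (u - u') + ((t - s : ℝ) : ℂ) • X1 u' := by
      rw [hAt, hAt, hAt, map_sub, map_sub]
      push_cast
      rw [sub_smul, smul_sub]
      abel
    rw [e1]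
    calc |(inner ℂ (p u') (A t (u - u') + ((t - s : ℝ) : ℂ) • X1 u') : ℂ).re|
        ≤ ‖(inner ℂ (p u') (A t (u - u') + ((t - s : ℝ) : ℂ) • X1 u') : ℂ)‖ :=
          Complex.abs_re_le_norm _
      _ ≤ ‖p u'‖ * ‖A t (u - u') + ((t - s : ℝ) : ℂ) • X1 u'‖ := norm_inner_le_norm _ _
      _ ≤ ‖u'‖ * ((‖A0‖ + ‖X1‖) * (K * (|t - s| * ‖X1‖ * ‖u'‖)) + |t - s| * (‖X1‖ * ‖u'‖)) := by
        gcongr
        · exact hnp _
        · refine (norm_add_le _ _).trans ?_
          gcongr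
          · refine (hnA t ht0 ht1 _).trans ?_
            gcongr
          · rw [norm_smul, Complex.norm_real, Real.norm_eq_abs]
            gcongr
            exact X1.le_opNorm _
      _ = C * |t - s| * ‖u'‖ ^ 2 := by rw [hC]; ring
  have hex : ∀ t : ℝ, 0 ≤ t → t ≤ 1 → ∀ v, p v = v → ∃ w, p w = v ∧ q (A t w) = 0 :=
    fun t ht0 ht1 v hv => ph1_exists (A t) p q (hAs t) hp hpp hq K hK (h1 t ht0 ht1) v hv
  -- the set of good parameters
  let S : Set ℝ := {t | ∀ u, q (A t u) = 0 → 0 ≤ (inner ℂ u (A t u) : ℂ).re}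
  have hS0 : (0 : ℝ) ∈ S := by
    intro u hu
    have e : A 0 u = A0 u := by rw [hAt]; simp
    rw [hQp 0 u hu, e]
    rw [e] at hu
    have := h2 (p u) (q u) (hpp u) (hqq u) (by rw [hq]; exact hu)
    rw [hq] at this
    have h4 : 0 ≤ m * ‖p u‖ ^ 2 := by positivity
    linarith
  have hclosed : IsClosed (S ∩ Icc 0 1) := by
    rw [← closure_subset_iff_isClosed]
    intro t ht
    have htI : t ∈ Icc (0:ℝ) 1 := by
      have : closure (S ∩ Icc 0 1) ⊆ Icc (0:ℝ) 1 :=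
        closure_minimal Set.inter_subset_right isClosed_Icc
      exact this ht
    refine ⟨?_, htI⟩
    intro u hu
    rw [Metric.mem_closure_iff] at ht
    by_contra hneg
    push Not at hneg
    set a := -(inner ℂ u (A t u) : ℂ).re with ha
    have ha0 : 0 < a := by linarith
    set b := C * ‖u‖ ^ 2 + 1 with hb
    have hb0 : 0 < b := by positivity
    obtain ⟨s, ⟨hsS, hsI⟩, hst⟩ := ht (a / b) (by positivity)
    obtain ⟨w, hw1, hw2⟩ := hex s hsI.1 hsI.2 (p u) (hpp u)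
    have k1 := hL s t hsI.1 hsI.2 w u hw2 hu hw1
    have k2 := hsS w hw2
    rw [Real.dist_eq, abs_sub_comm] at hst
    have k3 := (abs_le.mp k1).2
    have k4 : C * |s - t| * ‖u‖ ^ 2 < a := by
      have : |s - t| * b < a := by
        rw [lt_div_iff₀ hb0] at hst
        exact hst
      calc C * |s - t| * ‖u‖ ^ 2 ≤ |s - t| * b := by
            rw [hb]; nlinarith [abs_nonneg (s - t)]
        _ < a := this
    linarith
  have hopen : ∀ x ∈ S ∩ Ico (0:ℝ) 1, ∀ y ∈ Ioi x, (S ∩ Ioc x y).Nonempty := by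
    rintro x ⟨hxS, hx0, hx1⟩ y hy
    obtain ⟨e, he, hbx⟩ := hbb x hx0 hx1.le
    -- coercivity at x
    set N := ‖A0‖ + ‖X1‖ with hN
    have hN0 : 0 ≤ N := by positivity
    set c1 := 1 + K * N with hc1
    have hc10 : 0 < c1 := by positivity
    set σ := (N * c1 ^ 2 + 1)⁻¹ with hσ
    have hσ0 : 0 < σ := by positivity
    have hcoer : ∀ u, q (A x u) = 0 → σ * e ^ 2 * ‖u‖ ^ 2 ≤ (inner ℂ u (A x u) : ℂ).re := by
      intro u hu
      set v := A x u with hv
      have hpv : p v = v := by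
        have := hq v
        rw [hu, add_zero] at this
        exact this
      obtain ⟨w, hw1, hw2⟩ := hex x hx0 hx1.le v hpv
      have hwn : ‖w‖ ≤ c1 * ‖v‖ := by
        have hz : q (w - v) = w - v := by
          rw [hqe, map_sub, hw1, hpv, sub_self, sub_zero]
        have := h1 x hx0 hx1.le (w - v) hz
        have e2 : q (A x (w - v)) = -q (A x v) := by
          rw [map_sub, map_sub, hw2, zero_sub]
        have e3 : ‖w - v‖ ≤ K * (N * ‖v‖) := by
          calc ‖w - v‖ ≤ K * ‖q (A x (w - v))‖ := this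
            _ = K * ‖q (A x v)‖ := by rw [e2, norm_neg]
            _ ≤ K * (N * ‖v‖) := by
              gcongr
              exact (hnq _).trans (hnA x hx0 hx1.le _)
        calc ‖w‖ = ‖v + (w - v)‖ := by congr 1; abel
          _ ≤ ‖v‖ + ‖w - v‖ := norm_add_le _ _
          _ ≤ c1 * ‖v‖ := by rw [hc1]; linarith
      have k0 : q (A x (u - (σ : ℂ) • w)) = 0 := by
        rw [map_sub, map_smul, map_sub, map_smul, hu, hw2, smul_zero, sub_zero]
      have k1 := hxS _ k0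
      have e4 : (inner ℂ (u - (σ : ℂ) • w) (A x (u - (σ : ℂ) • w)) : ℂ).re =
          (inner ℂ u (A x u) : ℂ).re - 2 * σ * ‖v‖ ^ 2 +
            σ ^ 2 * (inner ℂ w (A x w) : ℂ).re := by
        rw [map_sub, map_smul, inner_sub_left, inner_sub_right, inner_sub_right, inner_smul_left,
          inner_smul_right, inner_smul_right, inner_smul_left]
        have a1 : (inner ℂ w (A x u) : ℂ) = ((‖v‖ ^ 2 : ℝ) : ℂ) := by
          rw [← hv]
          have : (inner ℂ w v : ℂ) = inner ℂ (p w) v := by rw [hp, hpv]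
          rw [this, hw1, inner_self_eq_norm_sq_to_K]
          push_cast
          rfl
        have a2 : (inner ℂ u (A x w) : ℂ) = ((‖v‖ ^ 2 : ℝ) : ℂ) := by
          rw [← hAs, ← hv, ← inner_conj_symm]
          have : (inner ℂ w v : ℂ) = inner ℂ (p w) v := by rw [hp, hpv]
          rw [this, hw1, inner_self_eq_norm_sq_to_K]
          simp
        rw [a1, a2]
        simp only [Complex.sub_re, Complex.mul_re, Complex.conj_ofReal, Complex.ofReal_re,
          Complex.ofReal_im]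
        ring
      rw [e4] at k1
      have k2 : (inner ℂ w (A x w) : ℂ).re ≤ N * (c1 * ‖v‖) ^ 2 := by
        calc (inner ℂ w (A x w) : ℂ).re ≤ ‖(inner ℂ w (A x w) : ℂ)‖ := Complex.re_le_norm _
          _ ≤ ‖w‖ * ‖A x w‖ := norm_inner_le_norm _ _
          _ ≤ ‖w‖ * (N * ‖w‖) := by gcongr; exact hnA x hx0 hx1.le _
          _ = N * ‖w‖ ^ 2 := by ring
          _ ≤ N * (c1 * ‖v‖) ^ 2 := by gcongr
      have k3 : σ ^ 2 * (inner ℂ w (A x w) : ℂ).re ≤ σ * ‖v‖ ^ 2 := by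
        have hσ1 : σ * (N * c1 ^ 2 + 1) = 1 := by
          rw [hσ]; exact inv_mul_cancel₀ (by positivity)
        have hσ2 : σ * (N * c1 ^ 2) ≤ 1 := by linarith
        calc σ ^ 2 * (inner ℂ w (A x w) : ℂ).re ≤ σ ^ 2 * (N * (c1 * ‖v‖) ^ 2) := by gcongr
          _ = (σ * ‖v‖ ^ 2) * (σ * (N * c1 ^ 2)) := by ring
          _ ≤ (σ * ‖v‖ ^ 2) * 1 := by gcongr
          _ = σ * ‖v‖ ^ 2 := by ring
      have k4 : σ * ‖v‖ ^ 2 ≤ (inner ℂ u (A x u) : ℂ).re := by linarith
      have k5 : e * ‖u‖ ≤ ‖v‖ := hbx u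
      calc σ * e ^ 2 * ‖u‖ ^ 2 = σ * (e * ‖u‖) ^ 2 := by ring
        _ ≤ σ * ‖v‖ ^ 2 := by gcongr
        _ ≤ _ := k4
    set m1 := σ * e ^ 2 with hm1
    have hm10 : 0 < m1 := by positivity
    set η := m1 / (C + 1) with hη
    have hη0 : 0 < η := by positivity
    have hCη : C * η ≤ m1 := by
      rw [hη, mul_div_assoc', div_le_iff₀ (by positivity)]
      nlinarith
    set t := min y (min 1 (x + η)) with htd
    have hty : t ≤ y := min_le_left _ _
    have ht1 : t ≤ 1 := (min_le_right _ _).trans (min_le_left _ _)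
    have htη : t ≤ x + η := (min_le_right _ _).trans (min_le_right _ _)
    have hxt : x < t := lt_min hy (lt_min hx1 (by linarith))
    refine ⟨t, ?_, hxt, hty⟩
    intro u hu
    obtain ⟨w, hw1, hw2⟩ := hex x hx0 hx1.le (p u) (hpp u)
    have k1 := hL t x (by linarith) ht1 u w hu hw2 hw1.symm
    have k2 := hcoer w hw2
    have k3 := (abs_le.mp k1).1
    have k4 : C * |t - x| * ‖w‖ ^ 2 ≤ m1 * ‖w‖ ^ 2 := by
      have : C * |t - x| ≤ m1 := by
        rw [abs_of_pos (by linarith)]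
        calc C * (t - x) ≤ C * η := by gcongr; linarith
          _ ≤ m1 := hCη
      gcongr
    linarith
  have hall := hclosed.Icc_subset_of_forall_exists_gt hS0 hopen
  have hS1 : (1 : ℝ) ∈ S := hall ⟨zero_le_one, le_rfl⟩
  obtain ⟨w, hw1, hw2⟩ := hex 1 zero_le_one le_rfl y0 hy0
  have k1 := hS1 w hw2
  have e1 : A 1 = A0 + X1 := by
    simp only [A]
    simp
  rw [hQp 1 w hw2, hw1, e1] at k1
  rw [e1] at hw2
  have hw3 : w = y0 + q w := by
    have := hq w
    rw [hw1] at this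
    exact this.symm
  have k2 := h3 (q w) (hqq w) (by rw [← hw3]; exact hw2)
  rw [← hw3] at k2
  linarith

end E1

end Pool.Agent.Helper92.HRU
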