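import Pool.Agent.Helper92.HRU.BDefs
import Pool.Agent.Helper92.HRU.Pf.PN1
import Pool.Agent.Helper92.HRU.Pf.PN2
import Pool.Agent.Helper92.HRU.Pf.PQ1
import Pool.Agent.Helper92.HRU.Pf.PQ2
import Pool.Agent.Helper92.HRU.Pf.PJ1
import Pool.Agent.Helper92.HRU.Pf.PJ2
import Pool.Agent.Helper92.HRU.Pf.PJ3
import Pool.Agent.Helper92.HRU.Pf.PE1
import Pool.Agent.Helper92.HRU.Pf.PE2

/-! Piece PH3: the trial function. -/

set_option autoImplicit false

namespace Pool.Agent.Helper92.HRU

open Complex Set MeasureTheory Filter Topology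
open scoped ComplexConjugate Real ENNReal
open Pool.Agent.Helper84.HRT (Weyl node chi mu8 XL Data Aop Bop Good)

/-- the two profiles -/
private noncomputable def ph3a (P : Par) (y : ℝ) : ℝ := √((1 + cf P y) / 2) / ee P y
private noncomputable def ph3b (P : Par) (y : ℝ) : ℝ := √((1 - cf P y) / 2) / ee P y

private theorem ph3_cf_le (P : Par) (y : ℝ) : -1 ≤ cf P y ∧ cf P y ≤ 1 := by
  have h := cf_sq_add_sf_sq P y
  have h2 : cf P y ^ 2 ≤ 1 := by nlinarith [sq_nonneg (sf P y)]
  exact abs_le.mp ((sq_le_one_iff_abs_le_one _).mp h2)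

private theorem ph3_ee_pos (P : Par) (y : ℝ) : 0 < ee P y := P.g_pos.trans_le (ee_ge P y)

private theorem ph3_cf_cont (P : Par) : Continuous (cf P) := by
  have hr : Continuous (rho P) := by
    have : rho P = fun y => √(4 * Real.sin y ^ 2 + P.s ^ 4 * P.Th ^ 2) := rfl
    rw [this]; fun_prop
  have : cf P = fun y => 2 * Real.sin y / rho P y := rfl
  rw [this]
  exact (by fun_prop : Continuous fun y => 2 * Real.sin y).div hr (fun y => (rho_pos P y).ne')

private theorem ph3a_cont (P : Par) : Continuous (ph3a P) := by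
  have h1 := ph3_cf_cont P
  exact (by fun_prop : Continuous fun y => √((1 + cf P y) / 2)).div (ee_cont P)
    (fun y => (ph3_ee_pos P y).ne')

private theorem ph3b_cont (P : Par) : Continuous (ph3b P) := by
  have h1 := ph3_cf_cont P
  exact (by fun_prop : Continuous fun y => √((1 - cf P y) / 2)).div (ee_cont P)
    (fun y => (ph3_ee_pos P y).ne')

/-- half-angle identities -/
private theorem ph3_half (P : Par) (y : ℝ) :
    cf P y * ph3a P y + sf P y * ph3b P y = ph3a P y ∧
      sf P y * ph3a P y - cf P y * ph3b P y = ph3b P y ∧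
      ph3a P y ^ 2 + ph3b P y ^ 2 = (ee P y ^ 2)⁻¹ := by
  obtain ⟨h1, h2⟩ := ph3_cf_le P y
  have he := ph3_ee_pos P y
  set u := √((1 + cf P y) / 2) with hu
  set v := √((1 - cf P y) / 2) with hv
  have hu2 : u ^ 2 = (1 + cf P y) / 2 := Real.sq_sqrt (by linarith)
  have hv2 : v ^ 2 = (1 - cf P y) / 2 := Real.sq_sqrt (by linarith)
  have hu0 : 0 ≤ u := Real.sqrt_nonneg _
  have hv0 : 0 ≤ v := Real.sqrt_nonneg _
  have hc : cf P y = u ^ 2 - v ^ 2 := by rw [hu2, hv2]; ring
  have hs0 : 0 ≤ sf P y := by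
    have hT : 0 ≤ P.Th := by
      have := (P.Th_bd).1
      linarith
    exact div_nonneg (mul_nonneg (sq_nonneg _) hT) (rho_pos P y).le
  have hs : sf P y = 2 * u * v := by
    have h3 := cf_sq_add_sf_sq P y
    have h4 : sf P y ^ 2 = (2 * u * v) ^ 2 := by
      have : (2 * u * v) ^ 2 = 4 * u ^ 2 * v ^ 2 := by ring
      rw [this, hu2, hv2]
      linarith [h3]
    exact (sq_eq_sq₀ hs0 (by positivity)).mp h4
  have huv : u ^ 2 + v ^ 2 = 1 := by rw [hu2, hv2]; ring
  have ha : ph3a P y = u / ee P y := rfl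
  have hb : ph3b P y = v / ee P y := rfl
  rw [ha, hb, hs, hc]
  refine ⟨?_, ?_, ?_⟩
  · have : (u ^ 2 - v ^ 2) * (u / ee P y) + 2 * u * v * (v / ee P y) =
        (u ^ 2 + v ^ 2) * (u / ee P y) := by ring
    rw [this, huv, one_mul]
  · have : 2 * u * v * (u / ee P y) - (u ^ 2 - v ^ 2) * (v / ee P y) =
        (u ^ 2 + v ^ 2) * (v / ee P y) := by ring
    rw [this, huv, one_mul]
  · rw [div_pow, div_pow, ← add_div, huv, one_div]

private noncomputable def ph3A (P : Par) : ℝ → ℂ := Iy.indicator fun y => ((ph3a P y : ℝ) : ℂ)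
private noncomputable def ph3B (P : Par) : ℝ → ℂ := Iy.indicator fun y => -((ph3b P y : ℝ) : ℂ)

private noncomputable def ph3t (P : Par) (x : ℝ) : ℂ :=
  ph3A P (x - Pt P (-1)) + ph3B P (x - Pt P 0)

private theorem ph3_memLp {g : ℝ → ℂ} (hg : Continuous g) :
    MemLp (Iy.indicator g) 2 (volume : Measure ℝ) := by
  have hI : MeasurableSet Iy := measurableSet_Ioo
  rw [memLp_indicator_iff_restrict hI]
  have hcomp : IsCompact (Icc (-(1 / 20) : ℝ) (1 / 20)) := isCompact_Icc
  obtain ⟨C, hC⟩ := hcomp.exists_bound_of_continuousOn hg.continuousOn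
  have : IsFiniteMeasure ((volume : Measure ℝ).restrict Iy) := by
    constructor
    rw [Measure.restrict_apply_univ, Iy, Real.volume_Ioo]
    exact ENNReal.ofReal_lt_top
  refine MemLp.of_bound hg.aestronglyMeasurable C ?_
  rw [ae_restrict_iff' hI]
  exact ae_of_all _ fun x hx => hC x ⟨hx.1.le, hx.2.le⟩

private theorem ph3_mem (P : Par) : MemLp (ph3t P) 2 (volume : Measure ℝ) := by
  have h1 : MemLp (ph3A P) 2 (volume : Measure ℝ) :=
    ph3_memLp (Complex.continuous_ofReal.comp (ph3a_cont P))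
  have h2 : MemLp (ph3B P) 2 (volume : Measure ℝ) :=
    ph3_memLp (Complex.continuous_ofReal.comp (ph3b_cont P)).neg
  exact (h1.comp_measurePreserving (measurePreserving_sub_right volume (Pt P (-1)))).add
    (h2.comp_measurePreserving (measurePreserving_sub_right volume (Pt P 0)))

/-- values of the trial function near the line `n` -/
private theorem ph3_near (P : Par) (m n : ℤ) (y : ℝ) (hy : |y| < 1 / 20) :
    Pt P n + y - Pt P m ∈ Iy ↔ n = m := by
  constructor
  · intro h
    have h1 : |Pt P n + y - Pt P m| ≤ 1 := by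
      rw [abs_le]
      constructor <;> [linarith [h.1]; linarith [h.2]]
    have h2 := idx_of_near P m (Pt P n + y - Pt P m) h1
    have h3 := idx_of_near P n y (by linarith)
    rw [add_sub_cancel] at h2
    exact h3.symm.trans h2
  · rintro rfl
    rw [add_sub_cancel_left]
    rw [abs_lt] at hy
    exact ⟨hy.1, hy.2⟩

private theorem ph3t_near (P : Par) (n : ℤ) (y : ℝ) (hy : |y| < 1 / 20) :
    ph3t P (Pt P n + y) = if n = -1 then ((ph3a P y : ℝ) : ℂ) else
      if n = 0 then -((ph3b P y : ℝ) : ℂ) else 0 := by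
  classical
  unfold ph3t ph3A ph3B
  simp only [Set.indicator_apply, ph3_near P _ _ y hy]
  by_cases h1 : n = -1
  · subst h1
    simp
  · by_cases h0 : n = 0
    · subst h0
      simp
    · simp [h1, h0]

private theorem ph3t_off (P : Par) (x : ℝ) (hx : x ∉ Qs P) : ph3t P x = 0 := by
  have h : ∀ m : ℤ, x - Pt P m ∉ Iy := by
    intro m hm
    apply hx
    rw [Qs, mem_iUnion]
    exact ⟨m, by linarith [hm.1], by linarith [hm.2]⟩
  unfold ph3t ph3A ph3B
  rw [Set.indicator_of_notMem (h _), Set.indicator_of_notMem (h _), add_zero]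

private theorem ph3_sh_even (P : Par) (n : ℤ) (hn : Even n) (y : ℝ) :
    Pt P n + y - P.sh = Pt P (n - 1) + y := by
  have h1 : ¬ Even (n - 1) := by
    rw [Int.even_sub_one]; simpa using hn
  unfold Pt Par.sh
  rw [if_pos hn, if_neg h1]
  push_cast
  ring

private theorem ph3_sh_odd (P : Par) (n : ℤ) (hn : ¬ Even n) (y : ℝ) :
    Pt P n + y + P.sh = Pt P (n + 1) + y := by
  have h1 : Even (n + 1) := by
    rw [Int.even_add_one]; exact hn
  unfold Pt Par.sh
  rw [if_neg hn, if_pos h1]
  push_cast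
  ring

private theorem ph3_ze (P : Par) : ze P 1 0 = -1 := by
  unfold ze
  simp

/-- pointwise: the trial function is fixed by `J` -/
private theorem ph3_J (P : Par) (x : ℝ) :
    j0 P x * ph3t P x + (Qs P).indicator (fun x => ((sf P (yo P x) : ℝ) : ℂ)) x *
      (s1 P 1 x * ph3t P (x - P.sh) + s2 P 1 x * ph3t P (x + P.sh)) = ph3t P x := by
  by_cases hx : x ∈ Qs P
  · have hy := (mem_Qs P x).mp hx
    set n := idx x with hn
    set y := yo P x with hyd
    have hxy : x = Pt P n + y := by rw [hyd, yo]; ring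
    obtain ⟨e1, e2, -⟩ := ph3_half P y
    rw [Set.indicator_of_mem hx]
    change _ * _ + ((sf P y : ℝ) : ℂ) * _ = _
    have hj : j0 P x = if Even n then -((cf P y : ℝ) : ℂ) else ((cf P y : ℝ) : ℂ) := by
      unfold j0; rw [if_pos hx]
    have hs1 : s1 P 1 x = if Even n then ze P 1 (n / 2) else 0 := by
      unfold s1
      by_cases he : Even n
      · rw [if_pos ⟨hx, he⟩, if_pos he]
      · rw [if_neg (fun h => he h.2), if_neg he]
    have hs2 : s2 P 1 x = if Even n then 0 else conj (ze P 1 ((n + 1) / 2)) := by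
      unfold s2
      by_cases he : Even n
      · rw [if_neg (fun h => (Int.not_odd_iff_even.mpr he) h.2), if_pos he]
      · rw [if_pos ⟨hx, Int.not_even_iff_odd.mp he⟩, if_neg he]
    rw [hj, hs1, hs2]
    by_cases he : Even n
    · simp only [if_pos he]
      rw [hxy, ph3_sh_even P n he, ph3t_near P n y hy, ph3t_near P (n - 1) y hy]
      have hne : n ≠ -1 := by
        rintro h
        rw [h] at he
        exact absurd he (by decide)
      simp only [if_neg hne]
      by_cases h0 : n = 0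
      · rw [h0]
        simp only [zero_sub, if_true, EuclideanDomain.zero_div, ph3_ze]
        have e2' : ((sf P y : ℝ) : ℂ) * ((ph3a P y : ℝ) : ℂ) -
            ((cf P y : ℝ) : ℂ) * ((ph3b P y : ℝ) : ℂ) = ((ph3b P y : ℝ) : ℂ) := by
          exact_mod_cast congrArg (fun r : ℝ => (r : ℂ)) e2
        linear_combination (-1 : ℂ) * e2'
      · have h1 : n - 1 ≠ -1 := by omega
        have h2 : n - 1 ≠ 0 := by
          intro h
          have : n = 1 := by omega
          rw [this] at he
          exact absurd he (by decide)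
        simp [h0, h2]
    · simp only [if_neg he]
      rw [hxy, ph3_sh_odd P n he, ph3t_near P n y hy, ph3t_near P (n + 1) y hy]
      have hne : n ≠ 0 := by
        rintro h
        rw [h] at he
        exact he (by decide)
      by_cases h0 : n = -1
      · rw [h0]
        have h3 : ((-1 : ℤ) + 1) = 0 := by norm_num
        rw [h3]
        simp only [EuclideanDomain.zero_div, ph3_ze, if_true]
        have e1' : ((cf P y : ℝ) : ℂ) * ((ph3a P y : ℝ) : ℂ) +
            ((sf P y : ℝ) : ℂ) * ((ph3b P y : ℝ) : ℂ) = ((ph3a P y : ℝ) : ℂ) := by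
          exact_mod_cast congrArg (fun r : ℝ => (r : ℂ)) e1
        simp only [map_neg, map_one]
        norm_num
        linear_combination e1'
      · have h1 : n + 1 ≠ -1 := by
          intro h
          have : n = -2 := by omega
          rw [this] at he
          exact he (by decide)
        have h2 : n + 1 ≠ 0 := by omega
        simp [h0, h1, h2, hne]
  · rw [Set.indicator_of_notMem hx, ph3t_off P x hx]
    simp

private theorem ph3_norm_sq (f : L2) : ‖f‖ ^ 2 = ∫ x, ‖(f : ℝ → ℂ) x‖ ^ 2 := by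
  have h1 : (inner ℂ f f : ℂ) = ((‖f‖ ^ 2 : ℝ) : ℂ) := by
    rw [inner_self_eq_norm_sq_to_K]; simp
  rw [inner_eq] at h1
  have h2 : (∫ x, conj ((f : ℝ → ℂ) x) * (f : ℝ → ℂ) x) =
      ((∫ x, ‖(f : ℝ → ℂ) x‖ ^ 2 : ℝ) : ℂ) := by
    rw [← integral_complex_ofReal]
    refine integral_congr_ae (ae_of_all _ fun x => ?_)
    change conj ((f : ℝ → ℂ) x) * (f : ℝ → ℂ) x = ((‖(f : ℝ → ℂ) x‖ ^ 2 : ℝ) : ℂ)
    rw [mul_comm, Complex.mul_conj, Complex.normSq_eq_norm_sq]
  rw [h2] at h1
  exact_mod_cast h1.symm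

private theorem ph3_bddY (P : Par) : BddY fun y => √(ee P y) := by
  refine ⟨(Real.continuous_sqrt.comp (ee_cont P)).measurable, √3, fun y _ => ?_⟩
  rw [abs_of_nonneg (Real.sqrt_nonneg _)]
  exact Real.sqrt_le_sqrt ((ee_le_eb P y).trans (eb_le P y))

private theorem ph3_bddY_sf (P : Par) : BddY (sf P) := by
  refine ⟨?_, 1, fun y _ => ?_⟩
  · have h : sf P = fun y => P.s ^ 2 * P.Th / rho P y := rfl
    have hr : Continuous (rho P) := by
      have : rho P = fun y => √(4 * Real.sin y ^ 2 + P.s ^ 4 * P.Th ^ 2) := rfl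
      rw [this]; fun_prop
    rw [h]
    exact (continuous_const.div hr (fun y => (rho_pos P y).ne')).measurable
  · have h := cf_sq_add_sf_sq P y
    exact (sq_le_one_iff_abs_le_one _).mp (by nlinarith [sq_nonneg (cf P y)])

private noncomputable def ph3e1 (P : Par) : ℝ → ℝ := Iy.indicator fun y => ee P y * ph3a P y ^ 2
private noncomputable def ph3e2 (P : Par) : ℝ → ℝ := Iy.indicator fun y => ee P y * ph3b P y ^ 2

private theorem ph3_int {g : ℝ → ℝ} (hg : Continuous g) : Integrable (Iy.indicator g) := by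
  have hI : MeasurableSet Iy := measurableSet_Ioo
  rw [integrable_indicator_iff hI]
  exact (hg.integrableOn_Icc (a := -(1 / 20)) (b := 1 / 20)).mono_set Ioo_subset_Icc_self

/-- pointwise energy density -/
private theorem ph3_dens (P : Par) (x : ℝ) :
    ‖(Qs P).indicator (fun x => ((√(ee P (yo P x)) : ℝ) : ℂ)) x * ph3t P x‖ ^ 2 =
      ph3e1 P (x - Pt P (-1)) + ph3e2 P (x - Pt P 0) := by
  classical
  by_cases hx : x ∈ Qs P
  · have hy := (mem_Qs P x).mp hx
    set n := idx x with hn
    set y := yo P x with hyd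
    have hxy : x = Pt P n + y := by rw [hyd, yo]; ring
    rw [Set.indicator_of_mem hx]
    change ‖((√(ee P y) : ℝ) : ℂ) * _‖ ^ 2 = _
    have he := ph3_ee_pos P y
    rw [norm_mul, mul_pow, Complex.norm_real, Real.norm_eq_abs, sq_abs, Real.sq_sqrt he.le]
    rw [hxy, ph3t_near P n y hy]
    unfold ph3e1 ph3e2
    simp only [Set.indicator_apply, ph3_near P _ _ y hy]
    by_cases h1 : n = -1
    · rw [h1]
      simp
    · by_cases h0 : n = 0
      · rw [h0]
        simp
      · simp [h1, h0]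
  · have h : ∀ m : ℤ, x - Pt P m ∉ Iy := by
      intro m hm
      apply hx
      rw [Qs, mem_iUnion]
      exact ⟨m, by linarith [hm.1], by linarith [hm.2]⟩
    rw [Set.indicator_of_notMem hx]
    unfold ph3e1 ph3e2
    rw [Set.indicator_of_notMem (h _), Set.indicator_of_notMem (h _)]
    simp

private theorem ph3_energy (P : Par) :
    (∫ x, (ph3e1 P (x - Pt P (-1)) + ph3e2 P (x - Pt P 0))) = Lam P := by
  have hc1 : Continuous fun y => ee P y * ph3a P y ^ 2 := (ee_cont P).mul ((ph3a_cont P).pow 2)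
  have hc2 : Continuous fun y => ee P y * ph3b P y ^ 2 := (ee_cont P).mul ((ph3b_cont P).pow 2)
  have h1 : Integrable (ph3e1 P) := ph3_int hc1
  have h2 : Integrable (ph3e2 P) := ph3_int hc2
  rw [integral_add (h1.comp_sub_right _) (h2.comp_sub_right _),
    integral_sub_right_eq_self, integral_sub_right_eq_self, ← integral_add h1 h2]
  have h3 : (fun y => ph3e1 P y + ph3e2 P y) = Iy.indicator fun y => (ee P y)⁻¹ := by
    funext y
    unfold ph3e1 ph3e2
    by_cases hy : y ∈ Iy
    · rw [Set.indicator_of_mem hy, Set.indicator_of_mem hy, Set.indicator_of_mem hy, ← mul_add,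
        (ph3_half P y).2.2]
      have he := (ph3_ee_pos P y).ne'
      field_simp
    · rw [Set.indicator_of_notMem hy, Set.indicator_of_notMem hy, Set.indicator_of_notMem hy,
        add_zero]
  have hI : MeasurableSet Iy := measurableSet_Ioo
  rw [h3, integral_indicator hI]
  rfl

/-- B9 (3): the trial function -/
theorem exists_trial (P : Par) : ∃ f : L2, Qp P 1 f = f ∧ En P 1 f = Lam P ∧ f ≠ 0 ∧ IsTrial P f := by
  classical
  have hg : ‖(1 : ℂ)‖ = 1 := norm_one
  set f : L2 := (ph3_mem P).toLp _ with hfd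
  have hf : (f : ℝ → ℂ) =ᵐ[volume] ph3t P := (ph3_mem P).coeFn_toLp
  have hQ : Q P f = f := by
    refine Lp.ext ?_
    filter_upwards [mulOp_coe (bddM_ind (meas_Qs P)) f, hf] with x h1 h2
    change (mulOp ((Qs P).indicator fun _ => 1) f : ℝ → ℂ) x = _
    rw [h1, h2]
    by_cases hx : x ∈ Qs P
    · rw [Set.indicator_of_mem hx, one_mul]
    · rw [Set.indicator_of_notMem hx, ph3t_off P x hx, zero_mul]
  have hj0 : BddM (j0 P) := by
    have hcm : Measurable fun x => ((cf P (yo P x) : ℝ) : ℂ) :=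
      Complex.measurable_ofReal.comp ((ph3_cf_cont P).measurable.comp (yo_meas P))
    constructor
    · refine Measurable.ite (meas_Qs P) (Measurable.ite ?_ hcm.neg hcm) measurable_const
      exact idx_meas (MeasurableSet.of_discrete (s := {n : ℤ | Even n}))
    · refine ⟨1, fun x => ?_⟩
      have h1 : ‖((cf P (yo P x) : ℝ) : ℂ)‖ ≤ 1 := by
        rw [Complex.norm_real, Real.norm_eq_abs]
        exact abs_le.mpr (ph3_cf_le P (yo P x))
      unfold j0
      split_ifs
      · rw [norm_neg]; exact h1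
      · exact h1
      · simp
  have hJ : Jo P 1 f = f := by
    have hd : Jo P 1 f = mulOp (j0 P) f + yMul P (sf P) (Sw P 1 f) := rfl
    rw [hd]
    refine Lp.ext ?_
    have hf1 : ∀ᵐ x : ℝ, (f : ℝ → ℂ) (x - P.sh) = ph3t P (x - P.sh) := ae_comp_sub hf P.sh
    have hf2 : ∀ᵐ x : ℝ, (f : ℝ → ℂ) (x + P.sh) = ph3t P (x + P.sh) := by
      simpa [sub_neg_eq_add] using ae_comp_sub hf (-P.sh)
    filter_upwards [Lp.coeFn_add (mulOp (j0 P) f) (yMul P (sf P) (Sw P 1 f)), mulOp_coe hj0 f,
      yMul_coe P (ph3_bddY_sf P) (Sw P 1 f), Sw_coe P 1 hg f, hf, hf1, hf2]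
      with x h1 h2 h3 h4 h5 h6 h7
    rw [h1, Pi.add_apply, h2, h3, h4, h5, h6, h7]
    exact ph3_J P x
  have hQp : Qp P 1 f = f := by
    have hd : Qp P 1 f = (1 / 2 : ℂ) • (Q P f + Jo P 1 f) := rfl
    rw [hd, hQ, hJ, ← two_smul ℂ f, smul_smul]
    norm_num
  have hQm : Qm P 1 f = 0 := by
    have hd : Qm P 1 f = (1 / 2 : ℂ) • (Q P f - Jo P 1 f) := rfl
    rw [hd, hQ, hJ, sub_self, smul_zero]
  have hE : En P 1 f = Lam P := by
    unfold En
    rw [hQp, hQm, map_zero, norm_zero, ph3_norm_sq, ← ph3_energy]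
    rw [zero_pow two_ne_zero, add_zero]
    refine integral_congr_ae ?_
    filter_upwards [yMul_coe P (ph3_bddY P) f, hf] with x h1 h2
    rw [h1, h2]
    exact ph3_dens P x
  refine ⟨f, hQp, hE, ?_, hQ, ?_⟩
  · intro h0
    obtain ⟨c, C, hc, -, hL⟩ := Lam_bounds
    have h1 := (hL P).1
    have h2 : 0 < P.L := by linarith [P.hL]
    have h3 : 0 < c * P.L ^ 2 := by positivity
    rw [← hE, h0] at h1
    unfold En at h1
    simp at h1
    linarith
  · have hall : ∀ᵐ y : ℝ, ∀ n : ℤ, (f : ℝ → ℂ) (Pt P n + y) = ph3t P (Pt P n + y) := by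
      rw [ae_all_iff]
      intro n
      have h1 := ae_comp_sub hf (-(Pt P n))
      filter_upwards [h1] with y hy
      simpa [sub_neg_eq_add, add_comm] using hy
    filter_upwards [hall] with y hy hyI
    have hy' : |y| < 1 / 20 := abs_lt.mpr ⟨hyI.1, hyI.2⟩
    have hln : ∀ n : ℤ, ln P f n y = if n = -1 then ((ph3a P y : ℝ) : ℂ) else
        if n = 0 then -((ph3b P y : ℝ) : ℂ) else 0 := by
      intro n
      unfold ln
      rw [Set.indicator_of_mem (show y ∈ Ioo (-(1 / 20) : ℝ) (1 / 20) from hyI)]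
      rw [hy n, ph3t_near P n y hy']
    refine ⟨?_, ?_, ?_⟩
    · rw [hln, if_pos rfl]
      rfl
    · rw [hln, if_neg (by norm_num), if_pos rfl, ph3_ze, neg_one_mul]
      rfl
    · intro n h1 h2
      rw [hln, if_neg h1, if_neg h2]

end Pool.Agent.Helper92.HRU
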