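import Pool.Agent.Helper92.HRU.BDefs
import Pool.Agent.Helper92.HRU.Pf.PN1
import Pool.Agent.Helper92.HRU.Pf.PN4
import Pool.Agent.Helper92.HRU.Pf.PK1
import Pool.Agent.Helper92.HRU.Pf.PK2
import Pool.Agent.Helper92.HRU.Pf.PQ2
import Pool.Agent.Helper92.HRU.Pf.PJ3
import Pool.Agent.Helper92.HRU.Pf.PE2
import Pool.Agent.Helper92.HRU.Pf.PE4
import Pool.Agent.Helper92.HRU.Pf.PG5
import Pool.Agent.Helper92.HRU.Pf.PH1
import Pool.Agent.Helper92.HRU.Pf.PH2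
import Pool.Agent.Helper92.HRU.Pf.PH3

/-! Piece PH4: (E1), normalised. -/

set_option autoImplicit false

namespace Pool.Agent.Helper92.HRU

open Complex Set MeasureTheory Filter Topology
open scoped ComplexConjugate Real ENNReal
open Pool.Agent.Helper84.HRT (Weyl node chi mu8 XL Data Aop Bop Good)

private theorem ph4_X0_zero : X0 (fun _ => 0) = 0 := by
  have h : (Win.indicator fun _ : ℝ => (0 : ℂ)) = fun _ => 0 := Set.indicator_zero _ _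
  rw [X0, h]
  exact X_zero

private theorem ph4_four {τ : ℝ} (hτ : 0 < τ) (hτ1 : τ ≤ 1) : (1 + τ) ^ 2 ≤ 4 := by
  nlinarith

private theorem ph4_neg {τ C2 C3 s Λ : ℝ} (hτ : 0 < τ) (hτ1 : τ ≤ 1) (hC3 : 0 < C3)
    (hs : 0 < s) (hΛ : 0 < Λ) (h : (4 * C3 + C2) * s < 2 * τ) :
    (1 - (1 + τ) ^ 2 * (1 - C3 * s) + C2 * s) * Λ < 0 := by
  refine mul_neg_of_neg_of_pos ?_ hΛ
  have h14 : 0 ≤ C3 * s := by positivity
  have h15 : (1 + τ) ^ 2 * (C3 * s) ≤ 4 * (C3 * s) :=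
    mul_le_mul_of_nonneg_right (ph4_four hτ hτ1) h14
  nlinarith [sq_nonneg τ]

/-- (E1), normalised: for every `τ > 0` and large `L`, with `r² W Λ = (1+τ)²` -/
theorem E10 (τ : ℝ) (hτ : 0 < τ) (hτ1 : τ ≤ 1) : ∃ L0 : ℝ, ∀ (P : Par) (r : ℝ), L0 ≤ P.L → 0 ≤ r →
    r ^ 2 * Wc * Lam P = (1 + τ) ^ 2 →
    ∃ ξ, AdmX P r ξ ∧ ∀ ε : ℝ, 0 < ε → ∃ f : L2, ‖f‖ = 1 ∧ ‖AA P 1 ξ f‖ < ε := by
  obtain ⟨c, Cu, hc, hCu, hLam⟩ := Lam_bounds
  have hW := Wc_pos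
  set K : ℝ := √(4 / (Wc * c)) with hKdef
  have hK : 0 < K := Real.sqrt_pos.mpr (by positivity)
  obtain ⟨C1, L1, hC1, H1⟩ := comp_below K hK
  obtain ⟨C2, L2', hC2, H2⟩ := schur_est K hK
  obtain ⟨C3, hC3, H3⟩ := trial_T K hK
  set A : ℝ := 2 * C2 + (4 * C3 + C2) / τ with hA
  have hA0 : 0 < A := by positivity
  refine ⟨max (max L1 L2') (max K (A ^ 2)), fun P r hL hr hrW => ?_⟩
  have hL1 : L1 ≤ P.L := (le_max_left _ _).trans ((le_max_left _ _).trans hL)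
  have hL2 : L2' ≤ P.L := (le_max_right _ _).trans ((le_max_left _ _).trans hL)
  have hL3 : K ≤ P.L := (le_max_left _ _).trans ((le_max_right _ _).trans hL)
  have hL4 : A ^ 2 ≤ P.L := (le_max_right _ _).trans ((le_max_right _ _).trans hL)
  have hLp : 0 < P.L := by linarith [P.hL]
  have hsq : A ≤ √P.L := Real.le_sqrt_of_sq_le hL4
  have hsp : 0 < √P.L := hA0.trans_le hsq
  have hg := P.g_pos
  have hΛ : 0 < Lam P := lt_of_lt_of_le (by positivity) (hLam P).1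
  -- the radius
  have hrK : r ≤ K / P.L := by
    have e1 : r ^ 2 ≤ (K / P.L) ^ 2 := by
      rw [div_pow, hKdef, Real.sq_sqrt (by positivity), div_div, le_div_iff₀ (by positivity)]
      have e2 : r ^ 2 * (Wc * c * P.L ^ 2) ≤ r ^ 2 * Wc * Lam P := by
        rw [mul_assoc (r ^ 2), mul_assoc Wc]
        exact mul_le_mul_of_nonneg_left (mul_le_mul_of_nonneg_left (hLam P).1 hW.le)
          (by positivity)
      rw [hrW] at e2
      exact e2.trans (ph4_four hτ hτ1)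
    exact (pow_le_pow_iff_left₀ hr (by positivity) two_ne_zero).mp e1
  have hr1 : r ≤ 1 := hrK.trans ((div_le_one hLp).mpr hL3)
  set ξ : ℝ → ℂ := fun t => ((r * kap P t : ℝ) : ℂ) with hξ
  have hadm : AdmX P r ξ := trial_adm P r hr
  obtain ⟨f0, hf0, hEf0, hne, htr⟩ := exists_trial P
  have hn1 : ‖(1 : ℂ)‖ = 1 := norm_one
  have hAA : ∀ t : ℝ, AA P 1 (fun x => (t : ℂ) * ξ x) = B0 P 1 + (t : ℂ) • X ξ := by
    intro t
    rw [AA, X_smul hadm]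
  have hAA0 : AA P 1 (fun _ => 0) = B0 P 1 := by
    rw [AA, X_zero, add_zero]
  have hinv : (√P.L)⁻¹ ≤ A⁻¹ := inv_anti₀ hA0 hsq
  have hqz : ∀ z : L2, (ContinuousLinearMap.id ℂ L2 - Qp P 1) z = z → Qp P 1 z = 0 := by
    intro z hz
    have : z - Qp P 1 z = z := hz
    exact sub_eq_self.mp this
  have hq1 : ∀ z : L2, (ContinuousLinearMap.id ℂ L2 - Qp P 1) z = z - Qp P 1 z := fun z => rfl
  have h1 : ∀ t : ℝ, 0 ≤ t → t ≤ 1 → ∀ z : L2, (ContinuousLinearMap.id ℂ L2 - Qp P 1) z = z →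
      ‖z‖ ≤ C1 / P.g * ‖(ContinuousLinearMap.id ℂ L2 - Qp P 1)
        ((B0 P 1 + (t : ℂ) • X ξ) z)‖ := by
    intro t ht0 ht1 z hz
    have h := H1 P 1 r (fun x => (t : ℂ) * ξ x) hL1 hn1 hr hr1 hrK
      (hadm.smul ht0 ht1) z (hqz z hz)
    rw [hAA] at h
    rw [hq1]
    exact h
  have h2 : ∀ y z : L2, Qp P 1 y = y → (ContinuousLinearMap.id ℂ L2 - Qp P 1) z = z →
      (ContinuousLinearMap.id ℂ L2 - Qp P 1) (B0 P 1 (y + z)) = 0 →
      P.g / 2 * ‖y‖ ^ 2 ≤ (inner ℂ y (B0 P 1 (y + z)) : ℂ).re := by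
    intro y z hy hz hq
    rw [hq1] at hq
    rw [← hAA0] at hq
    have h := H2 P 1 r (fun _ => 0) hL2 hn1 hr hr1 hrK (AdmX.zero P hr) y z hy (hqz z hz) hq
    have hTT : TT P (fun _ => 0) y y = 0 := by
      rw [TT, ph4_X0_zero]
      exact inner_zero_left _
    rw [hAA0, hTT, Complex.zero_re, sub_zero] at h
    have hE : P.g * ‖y‖ ^ 2 ≤ En P 1 y := by
      have h2 := En_ge P 1 hn1 y
      have h3 : Q P y = y := by
        rw [← hy]
        exact Q_Qp P 1 hn1 y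
      rwa [h3] at h2
    have hE0 : 0 ≤ En P 1 y := En_nonneg P 1 y
    have hhalf : C2 * (√P.L)⁻¹ ≤ 1 / 2 := by
      have h5 : C2 * (√P.L)⁻¹ ≤ C2 * A⁻¹ := mul_le_mul_of_nonneg_left hinv hC2.le
      have h6 : C2 * A⁻¹ ≤ 1 / 2 := by
        rw [← div_eq_mul_inv, div_le_div_iff₀ hA0 two_pos]
        have : 0 ≤ (4 * C3 + C2) / τ := by positivity
        rw [hA]
        linarith
      exact h5.trans h6
    have h7 : C2 * (√P.L)⁻¹ * En P 1 y ≤ 1 / 2 * En P 1 y :=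
      mul_le_mul_of_nonneg_right hhalf hE0
    have h8 := (abs_le.mp h).1
    linarith
  have h3 : ∀ z : L2, (ContinuousLinearMap.id ℂ L2 - Qp P 1) z = z →
      (ContinuousLinearMap.id ℂ L2 - Qp P 1) ((B0 P 1 + X ξ) (f0 + z)) = 0 →
      (inner ℂ f0 ((B0 P 1 + X ξ) (f0 + z)) : ℂ).re < 0 := by
    intro z hz hq
    rw [hq1] at hq
    have h := H2 P 1 r ξ hL2 hn1 hr hr1 hrK hadm f0 z hf0 (hqz z hz) hq
    have h3 := H3 P r f0 hr hr1 hrK htr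
    rw [hEf0, AA] at h
    have h8 := (abs_le.mp h).2
    have h9 : r ^ 2 * Wc * Lam P ^ 2 * (1 - C3 * (√P.L)⁻¹) =
        (1 + τ) ^ 2 * (1 - C3 * (√P.L)⁻¹) * Lam P := by
      rw [← hrW]
      ring
    rw [h9] at h3
    have h10 : (4 * C3 + C2) * (√P.L)⁻¹ < 2 * τ := by
      rw [← div_eq_mul_inv, div_lt_iff₀ hsp]
      have h11 : (4 * C3 + C2) ≤ A * τ := by
        rw [hA, add_mul, div_mul_cancel₀ _ hτ.ne']
        have : 0 ≤ 2 * C2 * τ := by positivity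
        linarith
      have h12 : A * τ ≤ √P.L * τ := mul_le_mul_of_nonneg_right hsq hτ.le
      have h13 : 0 < √P.L * τ := by positivity
      linarith only [h11, h12, h13]
    have h16 : (1 - (1 + τ) ^ 2 * (1 - C3 * (√P.L)⁻¹) + C2 * (√P.L)⁻¹) * Lam P < 0 :=
      ph4_neg hτ hτ1 hC3 (inv_pos.mpr hsp) hΛ h10
    linarith only [h8, h3, h16]
  have key := E1abs (B0 P 1) (X ξ) (Qp P 1) (ContinuousLinearMap.id ℂ L2 - Qp P 1)
    (fun f h => B0_symm P 1 f h) (fun f h => X_symm hadm f h)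
    (fun f h => Qp_symm P 1 hn1 f h) (fun f => Qp_Qp P 1 hn1 f)
    (fun f => by rw [hq1]; abel) (P.g / 2) (C1 / P.g) (by positivity) (by positivity)
    h1 h2 f0 hf0 h3
  obtain ⟨t, ht0, ht1, hfin⟩ := key
  refine ⟨fun x => (t : ℂ) * ξ x, hadm.smul ht0 ht1, fun ε hε => ?_⟩
  rw [hAA]
  exact hfin ε hε

end Pool.Agent.Helper92.HRU
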