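import Pool.Agent.Helper92.HRU.BDefs

/-! Piece PN3: roots of unity are dense. -/

set_option autoImplicit false

namespace Pool.Agent.Helper92.HRU

open Complex Set MeasureTheory Filter Topology
open scoped ComplexConjugate Real ENNReal
open Pool.Agent.Helper84.HRT (Weyl node chi mu8 XL Data Aop Bop Good)

private theorem pn3_re (t : ℝ) : (node t).re = Real.cos (2 * π * t) := by
  unfold Pool.Agent.Helper84.HRT.node
  rw [Complex.exp_ofReal_mul_I_re]

private theorem pn3_im (t : ℝ) : (node t).im = Real.sin (2 * π * t) := by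
  unfold Pool.Agent.Helper84.HRT.node
  rw [Complex.exp_ofReal_mul_I_im]

/-- roots of unity are dense: there are parameters for every `L ≥ 100` -/
theorem exists_par (L : ℝ) (hL : 100 ≤ L) : ∃ P : Par, P.L = L := by
  have hε : 0 < (L ^ 40)⁻¹ := by positivity
  have h3a : (1.7 : ℝ) < √3 := by
    rw [show (1.7 : ℝ) = √(1.7 ^ 2) from (Real.sqrt_sq (by norm_num)).symm]
    exact Real.sqrt_lt_sqrt (by norm_num) (by norm_num)
  have h3b : √3 < (1.8 : ℝ) := by
    rw [show (1.8 : ℝ) = √(1.8 ^ 2) from (Real.sqrt_sq (by norm_num)).symm]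
    exact Real.sqrt_lt_sqrt (by norm_num) (by norm_num)
  have hpi1 := Real.pi_gt_three
  have hpi2 := Real.pi_lt_d2
  have hpi := Real.pi_pos
  set x : ℝ := (π - √3) / 2 with hx
  have hx0 : 0 < x := by rw [hx]; linarith
  have hx1 : x < 1 := by rw [hx]; linarith
  set t0 : ℝ := Real.arcsin x / (2 * π) with ht0
  have h2t : 2 * π * t0 = Real.arcsin x := by
    rw [ht0]
    field_simp
  have hopen : IsOpen {t : ℝ | |π - √3 - 2 * Real.sin (2 * π * t)| < (L ^ 40)⁻¹ ∧
      0 < Real.cos (2 * π * t) ∧ 0 < t} := by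
    have c1 : Continuous fun t : ℝ => |π - √3 - 2 * Real.sin (2 * π * t)| := by fun_prop
    have c2 : Continuous fun t : ℝ => Real.cos (2 * π * t) := by fun_prop
    exact (isOpen_lt c1 continuous_const).inter
      ((isOpen_lt continuous_const c2).inter (isOpen_lt continuous_const continuous_id))
  have hmem : t0 ∈ {t : ℝ | |π - √3 - 2 * Real.sin (2 * π * t)| < (L ^ 40)⁻¹ ∧
      0 < Real.cos (2 * π * t) ∧ 0 < t} := by
    refine ⟨?_, ?_, ?_⟩
    · rw [h2t, Real.sin_arcsin (by linarith) hx1.le, hx]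
      have : π - √3 - 2 * ((π - √3) / 2) = 0 := by ring
      rw [this, abs_zero]
      exact hε
    · rw [h2t, Real.cos_arcsin]
      apply Real.sqrt_pos.2
      nlinarith
    · rw [ht0]
      exact div_pos (Real.arcsin_pos.2 hx0) (by positivity)
  obtain ⟨q, hq⟩ := (Rat.denseRange_cast (𝕜 := ℝ)).exists_mem_open hopen ⟨t0, hmem⟩
  obtain ⟨hq1, hq2, hq3⟩ := hq
  refine ⟨{ L := L, tb := (q : ℝ), hL := hL, re_pos := ?_, hdel := ?_, rat := ?_ }, rfl⟩
  · rw [pn3_re]
    exact hq2
  · rw [pn3_im]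
    exact hq1.le
  · have hq0 : 0 < q := by exact_mod_cast hq3
    refine ⟨q.num.toNat, q.den, q.den_pos, ?_⟩
    have h1 : ((q.num.toNat : ℤ) : ℝ) = (q.num : ℝ) := by
      rw [Int.toNat_of_nonneg (Rat.num_nonneg.2 hq0.le)]
    have h2 : ((q.num.toNat : ℕ) : ℝ) = (q.num : ℝ) := by
      rw [← h1]
      norm_cast
    rw [h2]
    exact_mod_cast (Rat.num_div_den q).symm

end Pool.Agent.Helper92.HRU
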