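import Pool.Agent.Helper92.HRU.BDefs

/-! Piece PZ1: fields of the data. -/

set_option autoImplicit false

namespace Pool.Agent.Helper92.HRU

open Complex Set MeasureTheory Filter Topology
open scoped ComplexConjugate Real ENNReal
open Pool.Agent.Helper84.HRT (Weyl node chi mu8 XL Data Aop Bop Good)

/-! fields of the data (`m = 8`, `τ = tauP P`, `β = betP P`, `Γ = GamP`, `κ = kap P`) -/
theorem tau_rat (P : Par) : ∃ d0 : ℕ, 0 < d0 ∧ Even d0 ∧ ∀ i, ∃ k : ℕ, tauP P i = k / d0 := by
  obtain ⟨k, d, hd, htb⟩ := P.rat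
  have hd' : (d : ℝ) ≠ 0 := by positivity
  refine ⟨12 * d, by positivity, ⟨6 * d, by ring⟩, ?_⟩
  intro i
  fin_cases i
  · exact ⟨0, by simp [tauP]⟩
  · refine ⟨6 * d, ?_⟩
    simp only [tauP]
    push_cast
    field_simp
    norm_num
  · refine ⟨2 * d, ?_⟩
    simp only [tauP]
    push_cast
    field_simp
    norm_num
  · refine ⟨8 * d, ?_⟩
    simp only [tauP]
    push_cast
    field_simp
    norm_num
  · refine ⟨4 * d, ?_⟩
    simp only [tauP]
    push_cast
    field_simp
    norm_num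
  · refine ⟨10 * d, ?_⟩
    simp only [tauP]
    push_cast
    field_simp
    norm_num
  · refine ⟨12 * k, ?_⟩
    simp [tauP, htb]
    field_simp
  · refine ⟨12 * k + 6 * d, ?_⟩
    simp [tauP, htb]
    field_simp
    ring

theorem GamP_compact : IsCompact GamP := by
  refine Metric.isCompact_of_isClosed_isBounded ?_ ?_
  · have h1 : IsClosed {γ : Fin 8 → ℂ | ∀ i, ‖γ i‖ = 1} := by
      rw [Set.setOf_forall]
      exact isClosed_iInter fun i => isClosed_eq (by fun_prop) continuous_const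
    have h2 : IsClosed {γ : Fin 8 → ℂ | γ 1 = conj (γ 0)} :=
      isClosed_eq (by fun_prop) (Complex.continuous_conj.comp (continuous_apply 0))
    have h3 : IsClosed {γ : Fin 8 → ℂ | γ 3 = conj (γ 2)} :=
      isClosed_eq (by fun_prop) (Complex.continuous_conj.comp (continuous_apply 2))
    have h4 : IsClosed {γ : Fin 8 → ℂ | γ 5 = conj (γ 4)} :=
      isClosed_eq (by fun_prop) (Complex.continuous_conj.comp (continuous_apply 4))
    have h5 : IsClosed {γ : Fin 8 → ℂ | γ 7 = conj (γ 6)} :=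
      isClosed_eq (by fun_prop) (Complex.continuous_conj.comp (continuous_apply 6))
    have h6 : IsClosed {γ : Fin 8 → ℂ | γ 0 = γ 2 * conj (γ 4)} :=
      isClosed_eq (by fun_prop)
        ((continuous_apply 2).mul (Complex.continuous_conj.comp (continuous_apply 4)))
    exact h1.inter (h2.inter (h3.inter (h4.inter (h5.inter h6))))
  · refine (Metric.isBounded_closedBall (x := (0 : Fin 8 → ℂ)) (r := 1)).subset ?_
    intro γ hγ
    rw [mem_closedBall_zero_iff, pi_norm_le_iff_of_nonneg zero_le_one]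
    exact fun i => (hγ.1 i).le

private theorem pz1_norm_chi (w α : ℂ) : ‖chi w α‖ = 1 := by
  rw [chi, ← Complex.ofReal_neg, Complex.norm_exp_ofReal_mul_I]

private theorem pz1_chi_neg (w α : ℂ) : chi w (-α) = conj (chi w α) := by
  rw [chi, chi, ← Complex.exp_conj]
  congr 1
  simp only [map_mul, map_neg, Complex.conj_ofReal, Complex.conj_I, neg_mul, Complex.neg_im]
  push_cast
  ring

private theorem pz1_chi_sub (w α β : ℂ) : chi w (α - β) = chi w α * conj (chi w β) := by
  rw [← pz1_chi_neg, chi, chi, chi, ← Complex.exp_add]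
  congr 1
  have : ((α - β) * conj w).im = (α * conj w).im + (-β * conj w).im := by
    rw [← Complex.add_im]
    congr 1
    ring
  rw [this]
  push_cast
  ring

private theorem pz1_node_half (t : ℝ) : node (t + 1 / 2) = -node t := by
  rw [node, node]
  have : (((2 * Real.pi * (t + 1 / 2) : ℝ) : ℂ) * I) = ((2 * Real.pi * t : ℝ) : ℂ) * I + π * I := by
    push_cast
    ring
  rw [this, Complex.exp_add, Complex.exp_pi_mul_I]
  ring

private theorem pz1_node (t : ℝ) :
    node t = ⟨Real.cos (2 * Real.pi * t), Real.sin (2 * Real.pi * t)⟩ := by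
  rw [node]
  apply Complex.ext
  · rw [Complex.exp_ofReal_mul_I_re]
  · rw [Complex.exp_ofReal_mul_I_im]

private theorem pz1_node_zero : node 0 = 1 := by
  rw [node]
  simp

private theorem pz1_node_sub : node (1 / 6) - node (1 / 3) = 1 := by
  rw [pz1_node, pz1_node]
  have e1 : 2 * Real.pi * (1 / 6) = π / 3 := by ring
  have e2 : 2 * Real.pi * (1 / 3) = π - π / 3 := by ring
  rw [e1, e2, Real.cos_pi_sub, Real.sin_pi_sub, Real.cos_pi_div_three]
  apply Complex.ext
  · simp
    norm_num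
  · simp

theorem GamP_chi (P : Par) : ∀ γ ∈ GamP, ∀ w, (fun i => γ i * chi w (node (tauP P i))) ∈ GamP := by
  intro γ hγ w
  obtain ⟨h1, h2, h3, h4, h5, h6⟩ := hγ
  have t0 : tauP P 0 = 0 := rfl
  have t1 : tauP P 1 = 0 + 1 / 2 := by
    show (1 / 2 : ℝ) = _
    norm_num
  have t2 : tauP P 2 = 1 / 6 := rfl
  have t3 : tauP P 3 = 1 / 6 + 1 / 2 := by
    show (2 / 3 : ℝ) = _
    norm_num
  have t4 : tauP P 4 = 1 / 3 := rfl
  have t5 : tauP P 5 = 1 / 3 + 1 / 2 := by
    show (5 / 6 : ℝ) = _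
    norm_num
  have t6 : tauP P 6 = P.tb := rfl
  have t7 : tauP P 7 = P.tb + 1 / 2 := rfl
  refine ⟨fun i => ?_, ?_, ?_, ?_, ?_, ?_⟩
  · rw [norm_mul, h1 i, pz1_norm_chi, one_mul]
  · show γ 1 * chi w (node (tauP P 1)) = conj (γ 0 * chi w (node (tauP P 0)))
    rw [t1, t0, pz1_node_half, pz1_chi_neg, h2, map_mul]
  · show γ 3 * chi w (node (tauP P 3)) = conj (γ 2 * chi w (node (tauP P 2)))
    rw [t3, t2, pz1_node_half, pz1_chi_neg, h3, map_mul]
  · show γ 5 * chi w (node (tauP P 5)) = conj (γ 4 * chi w (node (tauP P 4)))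
    rw [t5, t4, pz1_node_half, pz1_chi_neg, h4, map_mul]
  · show γ 7 * chi w (node (tauP P 7)) = conj (γ 6 * chi w (node (tauP P 6)))
    rw [t7, t6, pz1_node_half, pz1_chi_neg, h5, map_mul]
  · show γ 0 * chi w (node (tauP P 0)) = γ 2 * chi w (node (tauP P 2)) *
      conj (γ 4 * chi w (node (tauP P 4)))
    rw [t0, t2, t4, pz1_node_zero, ← pz1_node_sub, pz1_chi_sub, h6, map_mul]
    ring

private theorem pz1_cos (t : ℝ) :
    Real.cos (2 * π * (t + 1 / 2)) = -Real.cos (2 * π * t) := by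
  rw [show 2 * π * (t + 1 / 2) = 2 * π * t + π by ring, Real.cos_add_pi]

private theorem pz1_sin (t : ℝ) :
    |2 * Real.sin (2 * π * (t + 1 / 2))| = |2 * Real.sin (2 * π * t)| := by
  rw [show 2 * π * (t + 1 / 2) = 2 * π * t + π by ring, Real.sin_add_pi, mul_neg, abs_neg]

theorem kap_per (P : Par) (t : ℝ) : kap P (t + 1 / 2) = kap P t := by
  rw [kap, kap, kaph, kaph, pz1_cos, pz1_sin, abs_neg]

private theorem pz1_sub (c : ℝ) (k : ℕ) :
    ({t : ℝ | Real.cos (4 * π * t) = c} ∩ Icc ((k : ℝ) / 4) (((k : ℝ) + 1) / 4)).Subsingleton := by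
  intro t ht u hu
  have key : ∀ x : ℝ, Real.cos (4 * π * x) = (-1) ^ k * Real.cos (4 * π * x - k * π) := by
    intro x
    have h := Real.cos_add_nat_mul_pi (4 * π * x - k * π) k
    rw [sub_add_cancel] at h
    exact h
  have hpi := Real.pi_pos
  have h1 : Real.cos (4 * π * t - k * π) = Real.cos (4 * π * u - k * π) := by
    have e1 := ht.1
    have e2 := hu.1
    simp only [mem_setOf_eq] at e1 e2
    rw [key] at e1 e2
    rw [← e2] at e1
    have h3 : ((-1 : ℝ) ^ k) ≠ 0 := pow_ne_zero _ (by norm_num)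
    exact mul_left_cancel₀ h3 e1
  have m : ∀ x : ℝ, x ∈ Icc ((k : ℝ) / 4) (((k : ℝ) + 1) / 4) → 4 * π * x - k * π ∈ Icc 0 π := by
    intro x hx
    obtain ⟨a, b⟩ := hx
    constructor
    · nlinarith
    · nlinarith
  have h2 := Real.injOn_cos (m t ht.2) (m u hu.2) h1
  have h4 : 4 * π * t = 4 * π * u := by linarith
  exact mul_left_cancel₀ (by positivity) h4

private theorem pz1_fin (c : ℝ) : ({t : ℝ | Real.cos (4 * π * t) = c} ∩ Icc 0 1).Finite := by
  refine (((pz1_sub c 0).finite.union ((pz1_sub c 1).finite)).union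
    ((pz1_sub c 2).finite.union ((pz1_sub c 3).finite))).subset ?_
  rintro t ⟨h, h0, h1⟩
  simp only [mem_union, mem_inter_iff, mem_Icc]
  push_cast
  rcases le_total t (1 / 4) with a | a
  · exact Or.inl (Or.inl ⟨h, by linarith, by linarith⟩)
  rcases le_total t (2 / 4) with b | b
  · exact Or.inl (Or.inr ⟨h, by linarith, by linarith⟩)
  rcases le_total t (3 / 4) with d | d
  · exact Or.inr (Or.inl ⟨h, by linarith, by linarith⟩)
  · exact Or.inr (Or.inr ⟨h, by linarith, by linarith⟩)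

theorem bad_fin : (badP ∩ Set.Icc 0 1).Finite := by
  refine (((pz1_fin (-1)).union (pz1_fin (7 / 8))).union (pz1_fin (-(1 / 8)))).subset ?_
  rintro t ⟨h, h1⟩
  have e : Real.cos (4 * π * t) = 1 - 2 * Real.sin (2 * π * t) ^ 2 := by
    rw [show 4 * π * t = 2 * (2 * π * t) by ring, Real.cos_two_mul, Real.cos_sq']
    ring
  rcases h with h | h | h
  · refine Or.inl (Or.inl ⟨?_, h1⟩)
    simp only [mem_setOf_eq]
    have := Real.sin_sq_add_cos_sq (2 * π * t)
    rw [h] at this
    rw [e]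
    nlinarith
  · refine Or.inl (Or.inr ⟨?_, h1⟩)
    simp only [mem_setOf_eq]
    rw [e]
    have := sq_abs (2 * Real.sin (2 * π * t))
    rw [h] at this
    nlinarith
  · refine Or.inr ⟨?_, h1⟩
    simp only [mem_setOf_eq]
    rw [e]
    have := sq_abs (2 * Real.sin (2 * π * t))
    rw [h] at this
    nlinarith

theorem bad_per (t : ℝ) : t + 1 / 2 ∈ badP ↔ t ∈ badP := by
  simp only [badP, mem_setOf_eq]
  rw [pz1_cos, pz1_sin, neg_eq_zero]

theorem kap_cont (P : Par) (t : ℝ) (ht : t ∉ badP) : ContinuousAt (kap P) t := by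
  simp only [badP, mem_setOf_eq, not_or] at ht
  obtain ⟨_, h1, h2⟩ := ht
  have hc : Continuous fun t : ℝ => |2 * Real.sin (2 * π * t)| := by fun_prop
  have e1 : ∀ᶠ x in 𝓝 t, kaph P (2 * Real.sin (2 * π * x)) = kaph P (2 * Real.sin (2 * π * t)) := by
    have a1 : ∀ᶠ x in 𝓝 t, (1 / 2 < |2 * Real.sin (2 * π * x)| ↔
        1 / 2 < |2 * Real.sin (2 * π * t)|) := by
      rcases lt_or_gt_of_ne h1 with a | a
      · filter_upwards [hc.tendsto t |>.eventually_lt_const a] with x hx
        exact ⟨fun h => absurd h (not_lt.mpr hx.le), fun h => absurd h (not_lt.mpr a.le)⟩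
      · filter_upwards [hc.tendsto t |>.eventually_const_lt a] with x hx
        exact ⟨fun _ => a, fun _ => hx⟩
    have a2 : ∀ᶠ x in 𝓝 t, (|2 * Real.sin (2 * π * x)| < 3 / 2 ↔
        |2 * Real.sin (2 * π * t)| < 3 / 2) := by
      rcases lt_or_gt_of_ne h2 with a | a
      · filter_upwards [hc.tendsto t |>.eventually_lt_const a] with x hx
        exact ⟨fun _ => a, fun _ => hx⟩
      · filter_upwards [hc.tendsto t |>.eventually_const_lt a] with x hx
        exact ⟨fun h => absurd h (not_lt.mpr hx.le), fun h => absurd h (not_lt.mpr a.le)⟩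
    filter_upwards [a1, a2] with x b1 b2
    rw [kaph, kaph]
    simp only [b1, b2]
  have e2 : ContinuousAt (fun x => |Real.cos (2 * π * x)| *
      kaph P (2 * Real.sin (2 * π * t))) t := by fun_prop
  refine e2.congr ?_
  filter_upwards [e1] with x hx
  rw [kap, hx]

theorem kap_pos (P : Par) (t : ℝ) (ht : t ∉ badP) : 0 < kap P t := by
  simp only [badP, mem_setOf_eq, not_or] at ht
  rw [kap]
  refine mul_pos (abs_pos.mpr ht.1) ?_
  rw [kaph]
  split_ifs
  · exact one_pos
  · have := P.hL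
    rw [Par.e2]
    positivity

end Pool.Agent.Helper92.HRU
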