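import Pool.Agent.Helper92.HRU.BDefs
import Pool.Agent.Helper92.HRU.Pf.PN1
import Pool.Agent.Helper92.HRU.Pf.PN2
import Pool.Agent.Helper92.HRU.Pf.PN3
import Pool.Agent.Helper92.HRU.Pf.PN4
import Pool.Agent.Helper92.HRU.Pf.PK1
import Pool.Agent.Helper92.HRU.Pf.PQ2
import Pool.Agent.Helper92.HRU.Pf.PE2
import Pool.Agent.Helper92.HRU.Pf.PF2
import Pool.Agent.Helper92.HRU.Pf.PG4
import Pool.Agent.Helper92.HRU.Pf.PH4
import Pool.Agent.Helper92.HRU.Pf.PZ1
import Pool.Agent.Helper92.HRU.Pf.PZ2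

/-! Piece PZ3: THEOREM B. -/

set_option autoImplicit false

namespace Pool.Agent.Helper92.HRU

open Complex Set MeasureTheory Filter Topology
open scoped ComplexConjugate Real ENNReal
open Pool.Agent.Helper84.HRT (Weyl node chi mu8 XL Data Aop Bop Good)

theorem node_add_half (t : ℝ) : node (t + 1 / 2) = -node t := by
  unfold node
  have h : ((2 * Real.pi * (t + 1 / 2) : ℝ) : ℂ) * I = ((2 * Real.pi * t : ℝ) : ℂ) * I + π * I := by
    push_cast; ring
  rw [h, Complex.exp_add, Complex.exp_pi_mul_I]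
  ring

theorem node_zero : node 0 = 1 := by
  unfold node; simp

/-- the values of the nodes -/
theorem node_tau (P : Par) (i : Fin 8) : node (tauP P i) =
    (![1, -1, o1, -o1, o2, -o2, P.b, -P.b] : Fin 8 → ℂ) i := by
  fin_cases i
  · exact node_zero
  · show node (1 / 2) = -1
    have := node_add_half 0
    rw [zero_add, node_zero] at this
    exact this
  · exact node_sixth
  · show node (2 / 3) = -o1
    have := node_add_half (1 / 6)
    rw [node_sixth] at this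
    rw [← this]; norm_num
  · exact node_third
  · show node (5 / 6) = -o2
    have := node_add_half (1 / 3)
    rw [node_third] at this
    rw [← this]; norm_num
  · rfl
  · exact node_add_half P.tb

theorem tau_inj (P : Par) (i j : Fin 8) (h : node (tauP P i) = node (tauP P j)) : i = j := by
  rw [node_tau, node_tau] at h
  have h3 : (1.73 : ℝ) < √3 := by
    rw [show (1.73 : ℝ) = √(1.73 ^ 2) by rw [Real.sqrt_sq (by norm_num)]]
    exact Real.sqrt_lt_sqrt (by norm_num) (by norm_num)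
  have h3' : √3 < (1.74 : ℝ) := by
    rw [show (1.74 : ℝ) = √(1.74 ^ 2) by rw [Real.sqrt_sq (by norm_num)]]
    exact Real.sqrt_lt_sqrt (by norm_num) (by norm_num)
  obtain ⟨b1, b2⟩ := P.im_b
  obtain ⟨b3, b4⟩ := P.re_b
  have hk := congrArg (fun z : ℂ => z.re + 3 * z.im) h
  fin_cases i <;> fin_cases j <;> first | rfl | (exfalso; simp [o1, o2] at hk; linarith only [h3, h3', hk, b1, b3, b2, b4])

/-- the data of Part B -/
noncomputable def datP (P : Par) : Data where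
  m := 8
  τ := tauP P
  β := betP P
  Γ := GamP
  d0 := (tau_rat P).choose
  κ := kap P
  d0_pos := (tau_rat P).choose_spec.1
  d0_even := (tau_rat P).choose_spec.2.1
  τ_rat := (tau_rat P).choose_spec.2.2
  τ_inj := tau_inj P
  Γ_compact := GamP_compact
  Γ_one := fun _ hγ i => hγ.1 i
  Γ_chi := GamP_chi P
  κ_meas := kap_meas P
  κ_nonneg := kap_nonneg P
  κ_le := kap_le P
  κ_per := kap_per P
  κbad := badP
  κbad_fin := bad_fin
  κbad_per := bad_per
  κ_cont := kap_cont P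
  κ_pos := kap_pos P

theorem Adm_iff (P : Par) (r : ℝ) (ξ : ℝ → ℂ) : (datP P).Adm r ξ ↔ AdmX P r ξ :=
  ⟨fun h => ⟨h.meas, h.sym, h.bd⟩, fun h => ⟨h.meas, h.sym, h.bd⟩⟩

theorem Bop_apply (P : Par) (γ : Fin (datP P).m → ℂ) (f : L2) : Bop LW (datP P) γ f =
    ∑ i : Fin 8, (betP P i * (show Fin 8 → ℂ from γ) i) • W (node (tauP P i)) f := by
  have h : Bop LW (datP P) γ =
    ∑ i : Fin 8, (betP P i * (show Fin 8 → ℂ from γ) i) • LW.U (node (tauP P i)) := rfl
  rw [h, sum_apply]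
  rfl

theorem Aop_apply (P : Par) (γ : Fin (datP P).m → ℂ) (ξ : ℝ → ℂ) (f : L2) :
    Aop LW (datP P) mu8 γ ξ f = Bop LW (datP P) γ f + X ξ f := rfl

theorem W_inner (w : ℂ) (f h : L2) : (inner ℂ (W w f) (W w h) : ℂ) = inner ℂ f h := by
  have hn : ∀ f : L2, ‖W w f‖ = ‖f‖ := fun f => LW.norm_U w f
  exact (LinearMap.norm_map_iff_inner_map_map (𝕜 := ℂ) (W w)).1 hn f h

theorem W_norm (w : ℂ) (f : L2) : ‖W w f‖ = ‖f‖ := LW.norm_U w f

theorem W_surj (w : ℂ) (f : L2) : ∃ f' : L2, f = W (-w) f' := by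
  refine ⟨W w f, ?_⟩
  have := LW.U_mul (-w) w f
  have h0 := LW.U_zero f
  have hc : Pool.Agent.Helper84.HRT.coc (-w) w = 1 := by
    unfold Pool.Agent.Helper84.HRT.coc
    have : (-w * conj w).im = 0 := by
      rw [neg_mul, Complex.mul_conj]
      simp
    rw [this]; simp
  rw [hc, one_smul, neg_add_cancel, h0] at this
  exact this.symm

theorem one_mem_GamP : (fun _ => (1 : ℂ)) ∈ GamP := by
  refine ⟨fun i => by simp, ?_, ?_, ?_, ?_, ?_⟩ <;> simp

theorem Bop_one (P : Par) (f : L2) : Bop LW (datP P) (fun _ => 1) f = B0 P 1 f := by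
  refine (Bop_apply P _ f).trans ?_
  show ∑ i : Fin 8, (betP P i * 1) • W (node (tauP P i)) f = _
  have h : ∀ i : Fin 8, (betP P i * 1) • W (node (tauP P i)) f =
      (![(1 : ℂ) • W 1 f, (1 : ℂ) • W (-1) f, (P.s : ℂ) • W o1 f, (P.s : ℂ) • W (-o1) f,
        ((P.s : ℂ) * P.v2) • W o2 f, ((P.s : ℂ) * P.v2) • W (-o2) f,
        ((P.s : ℂ) * P.ep) • W P.b f, ((P.s : ℂ) * P.ep) • W (-P.b) f] : Fin 8 → L2) i := by
    intro i
    rw [node_tau, mul_one]
    fin_cases i <;> rfl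
  rw [Finset.sum_congr rfl fun i _ => h i]
  simp only [Fin.sum_univ_eight]
  have hB : B0 P 1 f = Cos2 f + (P.s : ℂ) • ((W o1 f + W (-o1) f) + (P.v2 : ℂ) • (W o2 f + W (-o2) f)
      + (P.ep : ℂ) • ((1 : ℂ) • W P.b f + (conj (1 : ℂ)) • W (-P.b) f)) := rfl
  rw [hB, Cos2_eq]
  simp only [map_one, one_smul, smul_add, smul_smul]
  show W 1 f + W (-1) f + (P.s : ℂ) • W o1 f + (P.s : ℂ) • W (-o1) f
        + ((P.s : ℂ) * P.v2) • W o2 f + ((P.s : ℂ) * P.v2) • W (-o2) f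
        + ((P.s : ℂ) * P.ep) • W P.b f + ((P.s : ℂ) * P.ep) • W (-P.b) f = _
  abel

/-- THEOREM B -/
theorem theoremB : ∃ (D : Data) (rb r1 g c C : ℝ), Good LW D rb r1 g c C := by
  obtain ⟨τ, L3, hτ, hτ1, hE3⟩ := E30
  obtain ⟨cL, CL, hcL, hCL, hLam⟩ := Lam_bounds
  have hW := Wc_pos
  set K : ℝ := (1 + 2 * τ) / √(Wc * cL) with hK
  have hsq : 0 < √(Wc * cL) := Real.sqrt_pos.2 (mul_pos hW hcL)
  have hKp : 0 < K := by rw [hK]; positivity
  obtain ⟨c, C, L1, hc, hC, hT⟩ := Tplus0 K hKp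
  obtain ⟨c0, L0, hc0, hE0⟩ := E00
  obtain ⟨L2, hE1⟩ := E10 τ hτ hτ1
  obtain ⟨L, hLdef⟩ : ∃ L : ℝ, L = max 100 (max K (max L0 (max L1 (max L2 L3)))) := ⟨_, rfl⟩
  have l100 : 100 ≤ L := by rw [hLdef]; exact le_max_left _ _
  have lK : K ≤ L := by
    rw [hLdef]; exact le_trans (le_max_left _ _) (le_max_right _ _)
  have l0 : L0 ≤ L := by
    rw [hLdef]
    exact le_trans (le_trans (le_max_left _ _) (le_max_right _ _)) (le_max_right _ _)
  have l1 : L1 ≤ L := by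
    rw [hLdef]
    exact le_trans (le_trans (le_trans (le_max_left _ _) (le_max_right _ _)) (le_max_right _ _))
      (le_max_right _ _)
  have l2 : L2 ≤ L := by
    rw [hLdef]
    exact le_trans (le_trans (le_trans (le_trans (le_max_left _ _) (le_max_right _ _))
      (le_max_right _ _)) (le_max_right _ _)) (le_max_right _ _)
  have l3 : L3 ≤ L := by
    rw [hLdef]
    exact le_trans (le_trans (le_trans (le_trans (le_max_right _ _) (le_max_right _ _))
      (le_max_right _ _)) (le_max_right _ _)) (le_max_right _ _)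
  obtain ⟨P, hP⟩ := exists_par L l100
  have lpos : 0 < P.L := by rw [hP]; linarith
  have hLp : 0 < Lam P := lt_of_lt_of_le (by positivity) (hLam P).1
  have hq : 0 < √(Wc * Lam P) := Real.sqrt_pos.2 (mul_pos hW hLp)
  have hq2 : √(Wc * Lam P) ^ 2 = Wc * Lam P := Real.sq_sqrt (mul_pos hW hLp).le
  set rb : ℝ := (1 + 2 * τ) / √(Wc * Lam P) with hrb
  set r1 : ℝ := (1 + τ) / √(Wc * Lam P) with hr1
  have r1p : 0 < r1 := by rw [hr1]; positivity
  have r1b : r1 < rb := by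
    rw [hr1, hrb]
    exact div_lt_div_of_pos_right (by linarith) hq
  have rbp : 0 < rb := lt_trans r1p r1b
  have hsqL : √(Wc * cL) * P.L ≤ √(Wc * Lam P) := by
    have : √(Wc * cL) * P.L = √(Wc * cL * P.L ^ 2) := by
      rw [Real.sqrt_mul (mul_pos hW hcL).le, Real.sqrt_sq lpos.le]
    rw [this]
    apply Real.sqrt_le_sqrt
    have := mul_le_mul_of_nonneg_left (hLam P).1 hW.le
    linarith
  have rbK : rb ≤ K / P.L := by
    rw [hrb, hK, div_div]
    exact div_le_div_of_nonneg_left (by linarith) (by positivity) hsqL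
  have rb1 : rb ≤ 1 := by
    refine le_trans rbK ?_
    rw [div_le_one lpos, hP]
    exact lK
  have hrb2 : rb ^ 2 * Wc * Lam P ≤ (1 + 2 * τ) ^ 2 := by
    rw [hrb, div_pow, hq2]
    have : Wc * Lam P ≠ 0 := (mul_pos hW hLp).ne'
    have h1 : (1 + 2 * τ) ^ 2 / (Wc * Lam P) * Wc * Lam P = (1 + 2 * τ) ^ 2 := by
      field_simp
    exact h1.le
  have hr12 : r1 ^ 2 * Wc * Lam P = (1 + τ) ^ 2 := by
    rw [hr1, div_pow, hq2]
    have : Wc * Lam P ≠ 0 := (mul_pos hW hLp).ne'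
    field_simp
  refine ⟨datP P, rb, r1, c0 * P.g, c * P.g, C / P.g, ?_⟩
  refine ⟨r1p, r1b, mul_pos hc0 P.g_pos, mul_pos hc P.g_pos, div_pos hC P.g_pos, ?_, ?_, ?_, ?_, ?_⟩
  · -- symmetry
    intro γ hγ f h
    obtain ⟨w, gb, hgb, hB, -⟩ := normalise P γ hγ
    obtain ⟨f', rfl⟩ := W_surj w f
    obtain ⟨h', rfl⟩ := W_surj w h
    have hB' : ∀ f, Bop LW (datP P) γ (W (-w) f) = W (-w) (B0 P gb f) :=
      fun f => (Bop_apply P γ _).trans (hB f)
    rw [hB', hB', W_inner, W_inner]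
    exact B0_symm P gb f' h'
  · intro γ hγ f
    obtain ⟨w, gb, hgb, hB, -⟩ := normalise P γ hγ
    obtain ⟨f', rfl⟩ := W_surj w f
    have hB' : ∀ f, Bop LW (datP P) γ (W (-w) f) = W (-w) (B0 P gb f) :=
      fun f => (Bop_apply P γ _).trans (hB f)
    rw [hB', W_norm, W_norm]
    exact hE0 P gb (by rw [hP]; exact l0) hgb f'
  · intro γ hγ ξ hξ f
    obtain ⟨w, gb, hgb, hB, hX⟩ := normalise P γ hγ
    obtain ⟨ξ', hξ', hX'⟩ := hX rb ξ ((Adm_iff P rb ξ).1 hξ)
    obtain ⟨f', rfl⟩ := W_surj w f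
    have h1 : XL LW mu8 ξ (W (-w) f') = W (-w) (X ξ' f') := hX' f'
    have h2 : Aop LW (datP P) mu8 γ ξ (W (-w) f') = W (-w) (AA P gb ξ' f') := by
      refine (Aop_apply P γ ξ _).trans ?_
      rw [Bop_apply P γ, hX']
      refine (congrArg (· + W (-w) (X ξ' f')) (hB f')).trans ?_
      exact (map_add _ _ _).symm
    rw [h1, h2, W_inner, W_norm, W_norm]
    have := hT P gb rb ξ' (by rw [hP]; exact l1) hgb rbp.le rb1 rbK hξ' f'
    linarith
  · intro γ hγ ξ hξ f h hf hAf hAh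
    obtain ⟨w, gb, hgb, hB, hX⟩ := normalise P γ hγ
    obtain ⟨ξ', hξ', hX'⟩ := hX rb ξ ((Adm_iff P rb ξ).1 hξ)
    obtain ⟨f', rfl⟩ := W_surj w f
    obtain ⟨h', rfl⟩ := W_surj w h
    have h2 : ∀ f' : Pool.Agent.Helper92.HRU.L2,
        Aop LW (datP P) mu8 γ ξ (W (-w) f') = W (-w) (AA P gb ξ' f') := by
      intro f'
      refine (Aop_apply P γ ξ _).trans ?_
      rw [Bop_apply P γ, hX']
      refine (congrArg (· + W (-w) (X ξ' f')) (hB f')).trans ?_
      exact (map_add _ _ _).symm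
    rw [h2] at hAf hAh
    have z1 : AA P gb ξ' f' = 0 := by
      rw [← norm_eq_zero, ← W_norm (-w), hAf, norm_zero]
    have z2 : AA P gb ξ' h' = 0 := by
      rw [← norm_eq_zero, ← W_norm (-w), hAh, norm_zero]
    have hf' : f' ≠ 0 := by
      rintro rfl
      exact hf (map_zero _)
    obtain ⟨a, ha⟩ := hE3 P gb rb ξ' (by rw [hP]; exact l3) hgb rbp.le hrb2 hξ' f' h' hf' z1 z2
    exact ⟨a, by rw [ha, map_smul]⟩
  · obtain ⟨ξ, hξ, hsing⟩ := hE1 P r1 (by rw [hP]; exact l2) r1p.le hr12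
    refine ⟨fun _ => 1, one_mem_GamP, ξ, (Adm_iff P r1 ξ).2 hξ, fun ε hε => ?_⟩
    obtain ⟨f, hf1, hf2⟩ := hsing ε hε
    refine ⟨f, hf1, ?_⟩
    have h1 : Aop LW (datP P) mu8 (fun _ => 1) ξ f = AA P 1 ξ f :=
      (Aop_apply P _ ξ f).trans (congrArg (· + X ξ f) (Bop_one P f))
    rw [h1]
    exact hf2

end Pool.Agent.Helper92.HRU
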