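import Pool.Agent.Helper92.HRU.BDefs
import Pool.Agent.Helper92.HRU.Pf.PN1
import Pool.Agent.Helper92.HRU.Pf.PQ2
import Pool.Agent.Helper92.HRU.Pf.PJ3
import Pool.Agent.Helper92.HRU.Pf.PE4
import Pool.Agent.Helper92.HRU.Pf.PF1

/-! Piece PH2: compression and Schur complement. -/

set_option autoImplicit false

namespace Pool.Agent.Helper92.HRU

open Complex Set MeasureTheory Filter Topology
open scoped ComplexConjugate Real ENNReal
open Pool.Agent.Helper84.HRT (Weyl node chi mu8 XL Data Aop Bop Good)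

private theorem ph2_Qc_Qp (P : Par) (gb : ℂ) (hg : ‖gb‖ = 1) (f : L2) :
    Qc P (Qp P gb f) = 0 := by
  rw [← Q_Qp P gb hg f, Qc_Q]

private theorem ph2_Lbd (P : Par) : (P.L)⁻¹ ≤ (√P.L)⁻¹ ∧ 0 < (√P.L)⁻¹ ∧
    (√P.L)⁻¹ * (√P.L)⁻¹ = (P.L)⁻¹ := by
  have hL := P.hL
  have h0 : 0 < P.L := by linarith
  have h1 : 0 < √P.L := Real.sqrt_pos.2 h0
  have h2 : √P.L * √P.L = P.L := Real.mul_self_sqrt h0.le
  have h3 : 1 ≤ √P.L := by
    rw [Real.one_le_sqrt]; linarith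
  refine ⟨?_, inv_pos.2 h1, by rw [← mul_inv, h2]⟩
  apply inv_anti₀ h1
  nlinarith

private theorem ph2_r (P : Par) {K r : ℝ} (h : r ≤ K / P.L) (h2 : 100 * K ≤ P.L) :
    r ≤ 1 / 100 := by
  have hL := P.hL
  have hLp : 0 < P.L := by linarith
  refine h.trans ?_
  rw [div_le_iff₀ hLp]
  linarith

private theorem ph2_TT_add (P : Par) (ξ : ℝ → ℂ) (f a b : L2) :
    TT P ξ f (a + b) = TT P ξ f a + TT P ξ f b := by
  unfold TT
  rw [map_add, map_add, inner_add_right]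

/-- B9 (1): the compression of `A` to `Ran (1 - Q₊)` is bounded below -/
theorem comp_below (K : ℝ) (hK : 0 < K) : ∃ C L0 : ℝ, 0 < C ∧ ∀ (P : Par) (gb : ℂ) (r : ℝ)
    (ξ : ℝ → ℂ), L0 ≤ P.L → ‖gb‖ = 1 → 0 ≤ r → r ≤ 1 → r ≤ K / P.L → AdmX P r ξ → ∀ z : L2,
    Qp P gb z = 0 →
    ‖z‖ ≤ C / P.g * ‖AA P gb ξ z - Qp P gb (AA P gb ξ z)‖ := by
  obtain ⟨C, hC, hKI⟩ := keyIneq K hK
  refine ⟨C + (1 + 3 * C) * (2 * (1 + C)), max ((4 * C) ^ 2) (100 * K), by positivity, ?_⟩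
  intro P gb r ξ hL00 hg hr0 _ hrK hadm z hz
  have hL0 : (4 * C) ^ 2 ≤ P.L := (le_max_left _ _).trans hL00
  have hr1 : r ≤ 1 / 100 := ph2_r P hrK ((le_max_right _ _).trans hL00)
  obtain ⟨k1, k2, -, k4, -⟩ := hKI P gb r ξ hg hr0 hr1 hrK hadm z
  set v := AA P gb ξ z with hv
  set q := v - Qp P gb v with hq
  have hL := P.hL
  have hgp := P.g_pos
  obtain ⟨l1, l2, l3⟩ := ph2_Lbd P
  have hQz : Q P z = Qm P gb z := by
    rw [← Qp_add_Qm P gb z, hz, zero_add]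
  have hQcv : Qc P v = Qc P q := by
    rw [hq, map_sub, ph2_Qc_Qp P gb hg, sub_zero]
  have hQcv' : ‖Qc P v‖ ≤ ‖q‖ := by rw [hQcv]; exact norm_Qc_le P q
  have hinner : (inner ℂ (Qm P gb z) v : ℂ) = inner ℂ (Qm P gb z) q := by
    rw [hq, inner_sub_right, ← Qp_symm P gb hg, Qp_Qm P gb hg, inner_zero_left, sub_zero]
  have hE : En P gb (Qm P gb z) = En P gb z := by
    rw [En_split P gb hg z, hz]
    have h0 : En P gb 0 = 0 := by
      refine le_antisymm ?_ (En_nonneg P gb 0)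
      have := En_le P gb hg 0
      simpa using this
    rw [h0, zero_add]
  set E := En P gb z with hEdef
  have hE0 : 0 ≤ E := En_nonneg P gb z
  have hHD : (inner ℂ (Qm P gb z) (HD P gb (Q P z)) : ℂ) = -(E : ℂ) := by
    have h1 := HD_Qm P gb hg (Q P z)
    rw [Qm_Q P gb hg, hE] at h1
    exact h1
  have h2 := k2 (Qm P gb z) (Q_Qm P gb hg z)
  rw [hHD, hE, hinner] at h2
  have h4 := k4 z
  rw [hE] at h4
  have hsq : √E * √E = E := Real.mul_self_sqrt hE0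
  rw [hsq] at h2 h4
  have hin : ‖(inner ℂ (Qm P gb z) q : ℂ)‖ ≤ ‖Qm P gb z‖ * ‖q‖ := norm_inner_le_norm _ _
  -- main inequality
  have hmain : E ≤ (1 + C) * (‖q‖ * ‖Qm P gb z‖) + 2 * C * (√P.L)⁻¹ * E := by
    have e1 : (E : ℂ) = ((inner ℂ (Qm P gb z) q : ℂ) - (-(E : ℂ) - TT P ξ (Qm P gb z) (Q P z)))
        - (inner ℂ (Qm P gb z) q : ℂ) - TT P ξ (Qm P gb z) (Q P z) := by ring
    have e2 : E = ‖(E : ℂ)‖ := by rw [Complex.norm_real, Real.norm_of_nonneg hE0]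
    have e3 : E ≤ ‖(inner ℂ (Qm P gb z) q : ℂ) - (-(E : ℂ) - TT P ξ (Qm P gb z) (Q P z))‖
        + ‖(inner ℂ (Qm P gb z) q : ℂ)‖ + ‖TT P ξ (Qm P gb z) (Q P z)‖ := by
      conv_lhs => rw [e2, e1]
      exact (norm_sub_le _ _).trans (add_le_add_left (norm_sub_le _ _) _)
    have e4 : C * (P.L⁻¹ * E + ‖Qc P v‖ * ‖Qm P gb z‖) ≤
        C * ((√P.L)⁻¹ * E + ‖q‖ * ‖Qm P gb z‖) := by
      refine mul_le_mul_of_nonneg_left ?_ hC.le
      refine add_le_add (mul_le_mul_of_nonneg_right l1 hE0)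
        (mul_le_mul_of_nonneg_right hQcv' (norm_nonneg _))
    nlinarith only [h2, h4, hin, e3, e4]
  have hsmall : 2 * C * (√P.L)⁻¹ ≤ 1 / 2 := by
    have h5 : 4 * C ≤ √P.L := Real.le_sqrt_of_sq_le hL0
    have h6 : 0 < √P.L := Real.sqrt_pos.2 (by linarith)
    rw [← div_eq_mul_inv, div_le_iff₀ h6]
    linarith
  have hE2 : E ≤ 2 * (1 + C) * (‖q‖ * ‖Qm P gb z‖) := by
    have := mul_le_mul_of_nonneg_right hsmall hE0
    linarith
  have hge := En_ge P gb hg z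
  rw [← hEdef, hQz] at hge
  have hQm : ‖Qm P gb z‖ ≤ 2 * (1 + C) / P.g * ‖q‖ := by
    rcases (norm_nonneg (Qm P gb z)).eq_or_lt with h0 | h0
    · rw [← h0]; positivity
    · have h7 : P.g * ‖Qm P gb z‖ ^ 2 ≤ 2 * (1 + C) * (‖q‖ * ‖Qm P gb z‖) := hge.trans hE2
      have h8 : P.g * ‖Qm P gb z‖ ≤ 2 * (1 + C) * ‖q‖ := by
        have : P.g * ‖Qm P gb z‖ * ‖Qm P gb z‖ ≤ 2 * (1 + C) * ‖q‖ * ‖Qm P gb z‖ := by
          nlinarith only [hE2, hge]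
        exact le_of_mul_le_mul_right this h0
      rw [div_mul_eq_mul_div, le_div_iff₀ hgp]
      linarith
  have hle := En_le P gb hg z
  rw [← hEdef, hQz] at hle
  have hsE : √E ≤ 2 * ‖Qm P gb z‖ := by
    rw [Real.sqrt_le_left (by positivity)]
    nlinarith only [hle, sq_nonneg ‖Qm P gb z‖]
  have hQc : ‖Qc P z‖ ≤ C * (‖q‖ + 3 * ‖Qm P gb z‖) := by
    refine k1.trans (mul_le_mul_of_nonneg_left ?_ hC.le)
    rw [← hQz] at hsE ⊢
    linarith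
  have hz2 : ‖z‖ ≤ ‖Qm P gb z‖ + ‖Qc P z‖ := by
    calc ‖z‖ = ‖Q P z + Qc P z‖ := by rw [Q_add_Qc]
      _ ≤ ‖Q P z‖ + ‖Qc P z‖ := norm_add_le _ _
      _ = _ := by rw [hQz]
  have hg1 : P.g ≤ 1 := by
    rw [P.g_eq]
    exact inv_le_one_of_one_le₀ (one_le_pow₀ (by linarith))
  have hq1 : C * ‖q‖ ≤ C / P.g * ‖q‖ := by
    refine mul_le_mul_of_nonneg_right ?_ (norm_nonneg _)
    rw [le_div_iff₀ hgp]
    nlinarith only [hC, hg1]
  calc ‖z‖ ≤ (1 + 3 * C) * ‖Qm P gb z‖ + C * ‖q‖ := by linarith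
    _ ≤ (1 + 3 * C) * (2 * (1 + C) / P.g * ‖q‖) + C / P.g * ‖q‖ :=
        add_le_add (mul_le_mul_of_nonneg_left hQm (by positivity)) hq1
    _ = (C + (1 + 3 * C) * (2 * (1 + C))) / P.g * ‖q‖ := by ring

/-- B9 (2): the Schur complement -/
theorem schur_est (K : ℝ) (hK : 0 < K) : ∃ C L0 : ℝ, 0 < C ∧ ∀ (P : Par) (gb : ℂ) (r : ℝ)
    (ξ : ℝ → ℂ), L0 ≤ P.L → ‖gb‖ = 1 → 0 ≤ r → r ≤ 1 → r ≤ K / P.L → AdmX P r ξ → ∀ y z : L2,
    Qp P gb y = y → Qp P gb z = 0 → AA P gb ξ (y + z) - Qp P gb (AA P gb ξ (y + z)) = 0 →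
    |(inner ℂ y (AA P gb ξ (y + z)) : ℂ).re - (En P gb y - (TT P ξ y y).re)|
      ≤ C * (√P.L)⁻¹ * En P gb y := by
  obtain ⟨C, hC, hKI⟩ := keyIneq K hK
  refine ⟨3 * C, max (8 * C ^ 2) (100 * K), by positivity, ?_⟩
  intro P gb r ξ hL00 hg hr0 _ hrK hadm y z hy hz hq
  have hL0 : 8 * C ^ 2 ≤ P.L := (le_max_left _ _).trans hL00
  have hr1 : r ≤ 1 / 100 := ph2_r P hrK ((le_max_right _ _).trans hL00)
  obtain ⟨-, k2, -, k4, k5⟩ := hKI P gb r ξ hg hr0 hr1 hrK hadm (y + z)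
  set v := AA P gb ξ (y + z) with hv
  have hL := P.hL
  have hLp : 0 < P.L := by linarith
  obtain ⟨l1, l2, l3⟩ := ph2_Lbd P
  have hvQp : Qp P gb v = v := (sub_eq_zero.1 hq).symm
  have hQcv : Qc P v = 0 := by rw [← hvQp]; exact ph2_Qc_Qp P gb hg v
  have hQmv : Qm P gb v = 0 := by rw [← hvQp]; exact Qm_Qp P gb hg v
  have hQmy : Qm P gb y = 0 := by rw [← hy]; exact Qm_Qp P gb hg y
  have hQy : Q P y = y := by rw [← hy]; exact Q_Qp P gb hg y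
  have hQpu : Qp P gb (y + z) = y := by rw [map_add, hy, hz, add_zero]
  have hQmu : Qm P gb (y + z) = Qm P gb z := by rw [map_add, hQmy, zero_add]
  have hQu : Q P (y + z) = y + Qm P gb z := by
    rw [← Qp_add_Qm P gb (y + z), hQpu, hQmu]
  have hEu : En P gb (y + z) = En P gb y + En P gb (Qm P gb z) := by
    rw [En_split P gb hg (y + z), hQpu, hQmu]
  set Ey := En P gb y with hEy
  set Em := En P gb (Qm P gb z) with hEm
  have hEy0 : 0 ≤ Ey := En_nonneg P gb y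
  have hEm0 : 0 ≤ Em := En_nonneg P gb _
  have hin0 : (inner ℂ (Qm P gb z) v : ℂ) = 0 := by
    rw [Qm_symm P gb hg, hQmv, inner_zero_right]
  have hHDm : (inner ℂ (Qm P gb z) (HD P gb (Q P (y + z))) : ℂ) = -(Em : ℂ) := by
    have h1 := HD_Qm P gb hg (Q P (y + z))
    rw [Qm_Q P gb hg, hQmu] at h1
    exact h1
  have hHDp : (inner ℂ y (HD P gb (Q P (y + z))) : ℂ) = (Ey : ℂ) := by
    have h1 := HD_Qp P gb hg (Q P (y + z))
    rw [Qp_Q P gb hg, hQpu] at h1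
    exact h1
  have h2 := k2 (Qm P gb z) (Q_Qm P gb hg z)
  rw [hin0, hHDm, hQcv, norm_zero, zero_mul, add_zero, hEu] at h2
  have h4 := k4 z
  rw [hEu] at h4
  set sm := √Em with hsm
  set su := √(Ey + Em) with hsu
  have hsm0 : 0 ≤ sm := Real.sqrt_nonneg _
  have hsu0 : 0 ≤ su := Real.sqrt_nonneg _
  have hsmm : sm * sm = Em := Real.mul_self_sqrt hEm0
  have hsuu : su * su = Ey + Em := Real.mul_self_sqrt (by linarith)
  have hprod : 0 ≤ sm * su := mul_nonneg hsm0 hsu0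
  have hEmle : Em ≤ 2 * C * (√P.L)⁻¹ * (sm * su) := by
    have e1 : (Em : ℂ) = (0 - (-(Em : ℂ) - TT P ξ (Qm P gb z) (Q P (y + z))))
        - TT P ξ (Qm P gb z) (Q P (y + z)) := by ring
    have e2 : Em = ‖(Em : ℂ)‖ := by rw [Complex.norm_real, Real.norm_of_nonneg hEm0]
    have e3 : Em ≤ ‖(0 : ℂ) - (-(Em : ℂ) - TT P ξ (Qm P gb z) (Q P (y + z)))‖
        + ‖TT P ξ (Qm P gb z) (Q P (y + z))‖ := by
      conv_lhs => rw [e2, e1]
      exact norm_sub_le _ _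
    have e4 : C * (P.L⁻¹ * (sm * su)) ≤ C * ((√P.L)⁻¹ * (sm * su)) :=
      mul_le_mul_of_nonneg_left (mul_le_mul_of_nonneg_right l1 hprod) hC.le
    nlinarith only [h2, h4, e3, e4]
  have hsmle : sm ≤ 2 * C * (√P.L)⁻¹ * su := by
    rcases hsm0.eq_or_lt with h0 | h0
    · rw [← h0]; (clear * - hC hL; positivity)
    · have : sm * sm ≤ (2 * C * (√P.L)⁻¹ * su) * sm := by
        rw [hsmm]; nlinarith only [hEmle]
      exact le_of_mul_le_mul_right this h0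
  have hEm2 : Em ≤ 4 * C ^ 2 * P.L⁻¹ * (Ey + Em) := by
    have h5 : sm * sm ≤ (2 * C * (√P.L)⁻¹ * su) * (2 * C * (√P.L)⁻¹ * su) :=
      mul_le_mul hsmle hsmle hsm0 (by (clear * - hC hL; positivity))
    rw [hsmm] at h5
    have h6 : (2 * C * (√P.L)⁻¹ * su) * (2 * C * (√P.L)⁻¹ * su) =
        4 * C ^ 2 * ((√P.L)⁻¹ * (√P.L)⁻¹) * (su * su) := by ring
    rw [h6, l3, hsuu] at h5
    exact h5
  have hhalf : 4 * C ^ 2 * P.L⁻¹ ≤ 1 / 2 := by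
    rw [← div_eq_mul_inv, div_le_iff₀ hLp]
    linarith
  have hEmy : Em ≤ Ey := by
    have := mul_le_mul_of_nonneg_right hhalf (by linarith : 0 ≤ Ey + Em)
    linarith
  set sy := √Ey with hsy
  have hsy0 : 0 ≤ sy := Real.sqrt_nonneg _
  have hsyy : sy * sy = Ey := Real.mul_self_sqrt hEy0
  have hsmy : sm ≤ sy := Real.sqrt_le_sqrt hEmy
  have hsuy : su ≤ 2 * sy := by
    have h8 : Ey + Em ≤ (2 * sy) ^ 2 := by
      have : (2 * sy) ^ 2 = 4 * Ey := by rw [← hsyy]; ring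
      rw [this]; linarith
    have h9 : 0 ≤ 2 * sy := by linarith
    exact Real.sqrt_le_iff.2 ⟨h9, h8⟩
  have h6 := k2 y hQy
  rw [hHDp, hQcv, norm_zero, zero_mul, add_zero, hEu, hQu, ph2_TT_add] at h6
  have h7 := k5 y
  rw [hy, hQmu] at h7
  have e5 : ‖(inner ℂ y v : ℂ) - ((Ey : ℂ) - TT P ξ y y)‖ ≤ 3 * C * (√P.L)⁻¹ * Ey := by
    have e6 : (inner ℂ y v : ℂ) - ((Ey : ℂ) - TT P ξ y y) =
        ((inner ℂ y v : ℂ) - ((Ey : ℂ) - (TT P ξ y y + TT P ξ y (Qm P gb z))))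
          - TT P ξ y (Qm P gb z) := by ring
    rw [e6]
    refine (norm_sub_le _ _).trans ((add_le_add h6 h7).trans ?_)
    have a1 : P.L⁻¹ * (sy * su) ≤ (√P.L)⁻¹ * (sy * (2 * sy)) :=
      mul_le_mul l1 (mul_le_mul_of_nonneg_left hsuy hsy0) (by (clear * -; positivity)) l2.le
    have a2 : sy * sm ≤ sy * sy := mul_le_mul_of_nonneg_left hsmy hsy0
    have a3 : C * (P.L⁻¹ * (sy * su)) ≤ C * ((√P.L)⁻¹ * (sy * (2 * sy))) :=
      mul_le_mul_of_nonneg_left a1 hC.le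
    have a4 : C * (√P.L)⁻¹ * (sy * sm) ≤ C * (√P.L)⁻¹ * (sy * sy) :=
      mul_le_mul_of_nonneg_left a2 (by positivity)
    have a5 : C * ((√P.L)⁻¹ * (sy * (2 * sy))) = 2 * (C * (√P.L)⁻¹ * (sy * sy)) := by ring
    rw [hsyy] at a4 a5
    linarith
  have e7 : (inner ℂ y v : ℂ).re - (Ey - (TT P ξ y y).re) =
      ((inner ℂ y v : ℂ) - ((Ey : ℂ) - TT P ξ y y)).re := by
    simp
  rw [e7]
  exact (Complex.abs_re_le_norm _).trans e5

end Pool.Agent.Helper92.HRU
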