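import Pool.Agent.Helper92.HRU.BDefs
import Pool.Agent.Helper54.HRT.KX

/-! Piece PZ2: normalisation by a plane translation. -/

set_option autoImplicit false

namespace Pool.Agent.Helper92.HRU

open Complex Set MeasureTheory Filter Topology
open scoped ComplexConjugate Real ENNReal
open Pool.Agent.Helper84.HRT (Weyl node chi mu8 XL Data Aop Bop Good)

private theorem pz2_norm_chi (w α : ℂ) : ‖chi w α‖ = 1 := by
  rw [chi, ← Complex.ofReal_neg, Complex.norm_exp_ofReal_mul_I]

private theorem pz2_chi_neg (w α : ℂ) : chi w (-α) = conj (chi w α) := by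
  rw [chi, chi, ← Complex.exp_conj]
  congr 1
  simp only [map_mul, map_neg, Complex.conj_ofReal, Complex.conj_I, neg_mul, Complex.neg_im]
  push_cast
  ring

private theorem pz2_chi_sub (w α β : ℂ) : chi w (α - β) = chi w α * conj (chi w β) := by
  rw [← pz2_chi_neg, chi, chi, chi, ← Complex.exp_add]
  congr 1
  have : ((α - β) * conj w).im = (α * conj w).im + (-β * conj w).im := by
    rw [← Complex.add_im]
    congr 1
    ring
  rw [this]
  push_cast
  ring

private theorem pz2_mul_conj {z : ℂ} (h : ‖z‖ = 1) : z * conj z = 1 := by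
  rw [Complex.mul_conj, Complex.normSq_eq_norm_sq, h]
  norm_num

private theorem pz2_node_half (t : ℝ) : node (t + 1 / 2) = -node t := by
  rw [node, node]
  have : (((2 * Real.pi * (t + 1 / 2) : ℝ) : ℂ) * I) = ((2 * Real.pi * t : ℝ) : ℂ) * I + π * I := by
    push_cast
    ring
  rw [this, Complex.exp_add, Complex.exp_pi_mul_I]
  ring

private theorem pz2_node (t : ℝ) :
    node t = ⟨Real.cos (2 * Real.pi * t), Real.sin (2 * Real.pi * t)⟩ := by
  rw [node]
  apply Complex.ext
  · rw [Complex.exp_ofReal_mul_I_re]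
  · rw [Complex.exp_ofReal_mul_I_im]

private theorem pz2_node_zero : node 0 = 1 := by
  rw [node]
  simp

private theorem pz2_node_sixth : node (1 / 6) = o1 := by
  rw [pz2_node, o1, show 2 * Real.pi * (1 / 6) = π / 3 by ring, Real.cos_pi_div_three,
    Real.sin_pi_div_three]

private theorem pz2_node_third : node (1 / 3) = o2 := by
  rw [pz2_node, o2, show 2 * Real.pi * (1 / 3) = π - π / 3 by ring, Real.cos_pi_sub,
    Real.sin_pi_sub, Real.cos_pi_div_three, Real.sin_pi_div_three]

/-- conjugation by a Weyl operator -/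
private theorem pz2_conj (w α : ℂ) (f : L2) :
    W α (W (-w) f) = conj (chi w α) • W (-w) (W α f) := by
  rw [W_W, W_W, smul_smul, add_comm (-w) α]
  congr 1
  rw [chi, ← Complex.exp_conj, ← Complex.exp_add]
  congr 1
  simp only [map_mul, map_neg, Complex.conj_ofReal, Complex.conj_I, Complex.mul_im,
    Complex.conj_re, Complex.conj_im, Complex.neg_re, Complex.neg_im]
  push_cast
  ring

private theorem pz2_Cos2 (f : L2) : Cos2 f = W 1 f + W (-1) f := by
  refine Lp.ext ?_
  have hb : BddM fun x : ℝ => ((2 * Real.cos x : ℝ) : ℂ) := by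
    refine ⟨by fun_prop, 2, fun x => ?_⟩
    rw [Complex.norm_real, Real.norm_eq_abs, abs_mul, abs_two]
    have := Real.abs_cos_le_one x
    linarith
  filter_upwards [mulOp_coe hb f, W_coe 1 f, W_coe (-1) f, Lp.coeFn_add (W 1 f) (W (-1) f)]
    with x h1 h2 h3 h4
  rw [Cos2, h1, h4, Pi.add_apply, h2, h3, chr, chr]
  simp only [Complex.one_re, Complex.one_im, Complex.neg_re, Complex.neg_im, mul_zero, neg_zero,
    sub_zero, one_mul]
  rw [← add_mul]
  congr 1
  push_cast
  rw [Complex.two_cos]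
  congr 1
  · congr 1
    ring
  · congr 1
    ring

private theorem pz2_chi_one (w : ℂ) : chi w 1 = cexp (((2 * w.im : ℝ) : ℂ) * I) := by
  rw [chi]
  congr 1
  simp

private theorem pz2_exists (z : ℂ) (h : ‖z‖ = 1) : ∃ θ : ℝ, z = cexp ((θ : ℂ) * I) := by
  refine ⟨arg z, ?_⟩
  have h2 := Complex.norm_mul_exp_arg_mul_I z
  rw [h, Complex.ofReal_one, one_mul] at h2
  exact h2.symm

/-- normalisation by a plane translation -/
theorem normalise (P : Par) (γ : Fin 8 → ℂ) (hγ : γ ∈ GamP) : ∃ (w gb : ℂ), ‖gb‖ = 1 ∧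
    (∀ f : L2, (∑ i, (betP P i * γ i) • W (node (tauP P i)) (W (-w) f))
      = W (-w) (B0 P gb f)) ∧
    (∀ (r : ℝ) (ξ : ℝ → ℂ), AdmX P r ξ → ∃ ξ' : ℝ → ℂ, AdmX P r ξ' ∧
      ∀ f : L2, X ξ (W (-w) f) = W (-w) (X ξ' f)) := by
  obtain ⟨h1, h2, h3, h4, h5, h6⟩ := hγ
  have t0 : tauP P 0 = 0 := rfl
  have t1 : tauP P 1 = 0 + 1 / 2 := by
    show (1 / 2 : ℝ) = _
    norm_num
  have t2 : tauP P 2 = 1 / 6 := rfl
  have t3 : tauP P 3 = 1 / 6 + 1 / 2 := by
    show (2 / 3 : ℝ) = _
    norm_num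
  have t4 : tauP P 4 = 1 / 3 := rfl
  have t5 : tauP P 5 = 1 / 3 + 1 / 2 := by
    show (5 / 6 : ℝ) = _
    norm_num
  have t6 : tauP P 6 = P.tb := rfl
  have t7 : tauP P 7 = P.tb + 1 / 2 := rfl
  obtain ⟨θ0, e0⟩ := pz2_exists (γ 0) (h1 0)
  obtain ⟨θ2, e2⟩ := pz2_exists (γ 2) (h1 2)
  have h3' : (√3 : ℝ) ≠ 0 := by positivity
  set w : ℂ := ⟨(θ0 / 2 - θ2) / √3, θ0 / 2⟩ with hw
  have c0 : chi w 1 = γ 0 := by
    rw [pz2_chi_one, e0, hw]
    congr 3
    show 2 * (θ0 / 2) = θ0
    ring
  have c2 : chi w o1 = γ 2 := by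
    rw [chi, e2, hw]
    have : -(2 * (o1 * conj (⟨(θ0 / 2 - θ2) / √3, θ0 / 2⟩ : ℂ)).im) = θ2 := by
      simp only [Complex.mul_im, o1, Complex.conj_re, Complex.conj_im]
      field_simp
      ring
    rw [← Complex.ofReal_neg, this]
  have o12 : o2 = o1 - 1 := by
    apply Complex.ext
    · simp only [o1, o2, Complex.sub_re, Complex.one_re]
      norm_num
    · simp [o1, o2]
  have c4 : chi w o2 = γ 4 := by
    rw [o12, pz2_chi_sub, c0, c2, h6, map_mul, Complex.conj_conj, ← mul_assoc,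
      pz2_mul_conj (h1 2), one_mul]
  have k1 : ∀ (i : Fin 8) (α : ℂ), chi w α = γ i → γ i * conj (chi w α) = 1 := by
    intro i α h
    rw [h, pz2_mul_conj (h1 i)]
  have k1' : ∀ (i : Fin 8) (α : ℂ), chi w α = γ i → conj (γ i) * chi w α = 1 := by
    intro i α h
    rw [h, mul_comm, pz2_mul_conj (h1 i)]
  refine ⟨w, γ 6 * conj (chi w P.b), ?_, ?_, ?_⟩
  · rw [norm_mul, h1 6, RCLike.norm_conj, pz2_norm_chi, one_mul]
  · intro f
    have key : ∀ i : Fin 8, (betP P i * γ i) • W (node (tauP P i)) (W (-w) f) =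
        W (-w) ((betP P i * (γ i * conj (chi w (node (tauP P i))))) • W (node (tauP P i)) f) := by
      intro i
      rw [pz2_conj, smul_smul, map_smul, mul_assoc]
    rw [Finset.sum_congr rfl fun i _ => key i, ← map_sum]
    congr 1
    have b0 : betP P 0 = 1 := rfl
    have b1 : betP P 1 = 1 := rfl
    have b2 : betP P 2 = P.s := rfl
    have b3 : betP P 3 = P.s := rfl
    have b4 : betP P 4 = P.s * P.v2 := rfl
    have b5 : betP P 5 = P.s * P.v2 := rfl
    have b6 : betP P 6 = P.s * P.ep := rfl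
    have b7 : betP P 7 = P.s * P.ep := rfl
    rw [Fin.sum_univ_eight, b0, b1, b2, b3, b4, b5, b6, b7, t0, t1, t2, t3, t4, t5, t6, t7]
    simp only [pz2_node_half, pz2_node_zero, pz2_node_sixth, pz2_node_third, pz2_chi_neg,
      Complex.conj_conj]
    rw [h2, h3, h4, h5, k1 0 1 c0, k1' 0 1 c0, k1 2 o1 c2, k1' 2 o1 c2, k1 4 o2 c4,
      k1' 4 o2 c4]
    rw [B0, Wb]
    simp only [ContinuousLinearMap.add_apply, ContinuousLinearMap.smul_apply, pz2_Cos2,
      map_mul, Complex.conj_conj, smul_add, smul_smul, Par.b]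
    simp only [mul_one, one_smul, mul_assoc]
    abel
  · intro r ξ hξ
    have hm : Measurable fun t => conj (chi w (node t)) := by
      unfold chi node
      fun_prop
    have hξ' : AdmX P r fun t => ξ t * conj (chi w (node t)) := by
      refine ⟨hξ.meas.mul hm, ?_, ?_⟩
      · filter_upwards [hξ.sym] with t ht
        rw [ht, pz2_node_half, pz2_chi_neg, map_mul]
      · filter_upwards [hξ.bd] with t ht
        rw [norm_mul, RCLike.norm_conj, pz2_norm_chi, mul_one]
        exact ht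
    have hk : ∀ t, |kap P t| ≤ 1 := by
      intro t
      have hL := P.hL
      rw [kap, abs_mul, abs_abs]
      have a1 := Real.abs_cos_le_one (2 * π * t)
      have a2 : |kaph P (2 * Real.sin (2 * π * t))| ≤ 1 := by
        rw [kaph]
        split_ifs
        · simp
        · rw [Par.e2, abs_inv, abs_of_nonneg (by positivity)]
          exact inv_le_one_of_one_le₀ (one_le_pow₀ (by linarith))
      calc _ ≤ (1 : ℝ) * 1 := mul_le_mul a1 a2 (abs_nonneg _) zero_le_one
        _ = 1 := one_mul 1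
    have hBd : ∀ η : ℝ → ℂ, AdmX P r η → Pool.Agent.Helper84.HRT.Bd mu8 |r| η := by
      intro η hη
      refine ⟨hη.meas, ?_⟩
      refine ae_mono (Measure.restrict_le_self) ?_
      filter_upwards [hη.bd] with t ht
      refine ht.trans ((le_abs_self _).trans ?_)
      rw [abs_mul]
      exact mul_le_of_le_one_right (abs_nonneg _) (hk t)
    haveI : IsFiniteMeasure mu8 := by
      unfold mu8
      infer_instance
    refine ⟨fun t => ξ t * conj (chi w (node t)), hξ', fun f => ?_⟩
    rw [X, X, Pool.Agent.Helper54.HRT.XL_apply LW mu8 (hBd _ hξ),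
      Pool.Agent.Helper54.HRT.XL_apply LW mu8 (hBd _ hξ')]
    refine Eq.trans ?_ (ContinuousLinearMap.integral_comp_comm (W (-w))
      (Pool.Agent.Helper54.HRT.XL_integrable LW mu8 (hBd _ hξ') f))
    refine integral_congr_ae (ae_of_all _ fun t => ?_)
    simp only [LW_U]
    rw [pz2_conj, map_smul, smul_smul]

end Pool.Agent.Helper92.HRU
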